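import Pool.Agent.Lib.MP_b1acb3_co.Dgn.Stmts

/-!
MP_b1acb3_co, project DGN, module Bat: embedding a batch.
-/

set_option autoImplicit false

namespace Pool.Agent.Lib.MP_b1acb3_co.Dgn

open Finset Classical

noncomputable section

namespace BatAux

section av

variable {Ω Ω' : Type} [Fintype Ω] [Fintype Ω']

theorem av_nonneg {F : Ω → ℝ} (h : ∀ x, 0 ≤ F x) : 0 ≤ av F :=
  div_nonneg (sum_nonneg fun x _ => h x) (Nat.cast_nonneg _)

theorem av_mono {F G : Ω → ℝ} (h : ∀ x, F x ≤ G x) : av F ≤ av G :=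
  div_le_div_of_nonneg_right (sum_le_sum fun x _ => h x) (Nat.cast_nonneg _)

theorem av_add (F G : Ω → ℝ) : av (fun x => F x + G x) = av F + av G := by
  simp only [av, sum_add_distrib, add_div]

theorem av_sum {ι : Type} (s : Finset ι) (F : ι → Ω → ℝ) :
    av (fun x => ∑ i ∈ s, F i x) = ∑ i ∈ s, av (F i) := by
  simp only [av]
  rw [sum_comm, sum_div]

theorem av_div (c : ℝ) (F : Ω → ℝ) : av (fun x => F x / c) = av F / c := by
  simp only [av]
  rw [← sum_div, div_div, div_div, mul_comm]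

theorem av_const [Nonempty Ω] (c : ℝ) : av (fun _ : Ω => c) = c := by
  unfold av
  rw [sum_const, nsmul_eq_mul, card_univ]
  have : (Fintype.card Ω : ℝ) ≠ 0 := by
    exact_mod_cast Fintype.card_ne_zero
  field_simp

theorem av_equiv (e : Ω ≃ Ω') (F : Ω' → ℝ) : av (fun x => F (e x)) = av F := by
  unfold av
  rw [Equiv.sum_comp e F, Fintype.card_congr e]

theorem av_prod (F : Ω × Ω' → ℝ) : av F = av fun a => av fun b => F (a, b) := by
  unfold av
  rw [Fintype.sum_prod_type, Fintype.card_prod, ← sum_div, div_div]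
  push_cast
  rw [mul_comm (Fintype.card Ω : ℝ)]

theorem av_comm (F : Ω → Ω' → ℝ) :
    av (fun a => av fun b => F a b) = av fun b => av fun a => F a b := by
  unfold av
  rw [← sum_div, ← sum_div, sum_comm, div_div, div_div, mul_comm]

theorem pr_le_av {P : Ω → Prop} {F : Ω → ℝ} (h0 : ∀ x, 0 ≤ F x) (h1 : ∀ x, P x → 1 ≤ F x) :
    pr P ≤ av F :=
  av_mono fun x => by
    split_ifs with h
    · exact h1 x h
    · exact h0 x

theorem pr_def (P : Ω → Prop) : pr P = av fun x => if P x then (1 : ℝ) else 0 := rfl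

theorem pr_nonneg (P : Ω → Prop) : 0 ≤ pr P :=
  av_nonneg fun x => by split_ifs <;> norm_num

theorem pr_congr {P Q : Ω → Prop} (h : ∀ x, P x ↔ Q x) : pr P = pr Q := by
  have : P = Q := funext fun x => propext (h x)
  rw [this]

end av

section coord

variable {J α : Type} [Fintype J] [DecidableEq J] [Fintype α] [Nonempty α]

theorem av_coord (i : J) (g : α → ℝ) : av (fun x : J → α => g (x i)) = av g := by
  have h := av_equiv (Equiv.funSplitAt i α) (fun p => g p.1)
  have h1 : (fun x : J → α => g (x i)) = fun x => (fun p : α × ({j // j ≠ i} → α) => g p.1)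
      ((Equiv.funSplitAt i α) x) := by
    funext x
    simp [Equiv.funSplitAt, Equiv.piSplitAt]
  rw [h1, h, av_prod]
  congr 1
  funext a
  exact av_const (Ω := {j // j ≠ i} → α) (g a)

theorem av_coord2 {i j : J} (hij : i ≠ j) (g : α → α → ℝ) :
    av (fun x : J → α => g (x i) (x j)) = av fun a => av fun b => g a b := by
  have h := av_equiv (Equiv.funSplitAt i α)
    (fun p => g p.1 (p.2 ⟨j, hij.symm⟩))
  have h1 : (fun x : J → α => g (x i) (x j)) = fun x =>
      (fun p : α × ({j // j ≠ i} → α) => g p.1 (p.2 ⟨j, hij.symm⟩))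
      ((Equiv.funSplitAt i α) x) := by
    funext x
    simp [Equiv.funSplitAt, Equiv.piSplitAt]
  rw [h1, h, av_prod]
  congr 1
  funext a
  exact av_coord (J := {j // j ≠ i}) ⟨j, hij.symm⟩ (g a)

end coord

section lists

variable {V : Type} [Fintype V] {M n : ℕ}

theorem av_list [Nonempty (Fin n)] (u : V) (m : Fin M) (g : Fin n → ℝ) :
    av (fun Λ : V → Fin M → Fin n => g (Λ u m)) = av g := by
  have h := av_equiv (Equiv.curry V (Fin M) (Fin n)).symm
    (fun x : V × Fin M → Fin n => g (x (u, m)))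
  rw [av_coord] at h
  exact h

theorem av_list2 [Nonempty (Fin n)] {u u' : V} {m m' : Fin M} (hne : (u, m) ≠ (u', m'))
    (g : Fin n → Fin n → ℝ) :
    av (fun Λ : V → Fin M → Fin n => g (Λ u m) (Λ u' m')) = av fun a => av fun b => g a b := by
  have h := av_equiv (Equiv.curry V (Fin M) (Fin n)).symm
    (fun x : V × Fin M → Fin n => g (x (u, m)) (x (u', m')))
  rw [av_coord2 hne] at h
  exact h

end lists

section sim

variable {n K : ℕ}

theorem sim_nonneg (c : Sym2 (Fin n) → Fin K) (x y : Fin n) : 0 ≤ sim c x y := pr_nonneg _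

theorem sim_comm (c : Sym2 (Fin n) → Fin K) (x y : Fin n) : sim c x y = sim c y x :=
  pr_congr fun _ => eq_comm

theorem av_sim {c : Sym2 (Fin n) → Fin K} (hc : Env c 1) (x : Fin n) :
    av (fun y => sim c x y) ≤ 2 / (K : ℝ) := by
  have hne : Nonempty (Fin n) := ⟨⟨0, hc.npos⟩⟩
  simp only [sim, pr_def]
  rw [av_comm]
  rw [← av_const (Ω := Fin n) (2 / (K : ℝ))]
  refine av_mono fun z => ?_
  have h := hc.up z (c s(x, z))
  have e : pr (fun a : Fin n => c s(x, z) = c s(a, z)) = pr (fun a : Fin n => c s(z, a) = c s(x, z)) := by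
    refine pr_congr fun a => ?_
    rw [Sym2.eq_swap (a := a)]
    exact eq_comm
  change pr (fun a : Fin n => c s(x, z) = c s(a, z)) ≤ 2 / (K : ℝ)
  rw [e]
  refine h.trans (le_of_eq ?_)
  norm_num

end sim

section pot

variable {V : Type} [Fintype V] {n K : ℕ}

theorem ok_congr (c : Sym2 (Fin n) → Fin K) {f f' : V → Fin n} {S : Finset V}
    (C : Finset (Fin K)) (z : Fin n) (h : ∀ v ∈ S, f v = f' v) :
    ok c f S C z ↔ ok c f' S C z := by
  unfold ok
  refine and_congr (forall₂_congr fun w hw => by rw [h w hw])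
    (forall₂_congr fun w hw => forall₂_congr fun w' hw' => by rw [h w hw, h w' hw'])

theorem cols_congr (c : Sym2 (Fin n) → Fin K) {f f' : V → Fin n} {S : Finset V}
    (z : Fin n) (h : ∀ v ∈ S, f v = f' v) : cols c f S z = cols c f' S z := by
  unfold cols
  exact image_congr fun w hw => by simp only [h w hw]

theorem tm_congr (c : Sym2 (Fin n) → Fin K) {f f' : V → Fin n} {S : Finset V}
    (C : Finset (Fin K)) (h : ∀ v ∈ S, f v = f' v) : tm c f S C = tm c f' S C :=
  pr_congr fun z => ok_congr c C z h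

theorem hit_congr (c : Sym2 (Fin n) → Fin K) {f f' : V → Fin n} {S : Finset V}
    (C : Finset (Fin K)) (k : Fin K) (h : ∀ v ∈ S, f v = f' v) :
    hit c f S C k = hit c f' S C k :=
  pr_congr fun z => by rw [ok_congr c C z h, cols_congr c z h]

theorem two_congr (c : Sym2 (Fin n) → Fin K) {f f' : V → Fin n} {S : Finset V}
    (C : Finset (Fin K)) (k l : Fin K) (h : ∀ v ∈ S, f v = f' v) :
    two c f S C k l = two c f' S C k l :=
  pr_congr fun z => by rw [ok_congr c C z h, cols_congr c z h]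

theorem gg_nonneg (c : Sym2 (Fin n) → Fin K) (H : SimpleGraph V) (p : Par) (s : Sch V K)
    (q : Cst) (φ : Fin K → Fin K) (i : Ix V) (f : V → Fin n) : 0 ≤ gg c H p s q φ i f := by
  rcases i with u | ⟨u, u'⟩
  · simp only [gg]
    split_ifs <;> norm_num
  · simp only [gg]
    split_ifs
    · refine add_nonneg (mul_nonneg (Real.sqrt_nonneg _) (sq_nonneg _))
        (div_nonneg (sum_nonneg fun k _ => sum_nonneg fun l _ =>
          mul_nonneg (pr_nonneg _) (pr_nonneg _)) (Real.sqrt_nonneg _))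
    · exact le_rfl

theorem gg_local (c : Sym2 (Fin n) → Fin K) (H : SimpleGraph V) (p : Par) (s : Sch V K)
    (q : Cst) (φ : Fin K → Fin K) (i : Ix V) (f f' : V → Fin n)
    (h : ∀ v ∈ supp H s i, f v = f' v) : gg c H p s q φ i f = gg c H p s q φ i f' := by
  rcases i with u | ⟨u, u'⟩
  · simp only [supp] at h
    have h1 : NonTwin c H s q f u ↔ NonTwin c H s q f' u := by
      unfold NonTwin
      refine forall₂_congr fun w hw => forall₂_congr fun w' hw' => ?_
      rw [h w hw, h w' hw']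
    have h2 : BadT c H p s q φ f u ↔ BadT c H p s q φ f' u := by
      unfold BadT
      rw [tm_congr c _ h, tm_congr c _ h]
    simp only [gg, h1, h2]
  · by_cases hp : pairOK H s u u'
    · simp only [supp, if_pos hp] at h
      have h1 : ∀ v ∈ Nb H s.lev u, f v = f' v := fun v hv => h v (mem_union_left _ hv)
      have h2 : ∀ v ∈ Nb H s.lev u', f v = f' v := fun v hv => h v (mem_union_right _ hv)
      simp only [gg, if_pos hp, Yp, Dp]
      simp only [hit_congr c _ _ h1, hit_congr c _ _ h2, two_congr c _ _ _ h1,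
        two_congr c _ _ _ h2]
    · simp only [gg, if_neg hp]

theorem supp_card {H : SimpleGraph V} {p : Par} {s : Sch V K} (hG : Good H p s) (i : Ix V) :
    (supp H s i).card ≤ p.a0 + 2 * p.Δ := by
  rcases i with u | ⟨u, u'⟩
  · simp only [supp]
    by_cases hu : s.lev u ≤ s.t0
    · have h1 : Nb H s.lev u ⊆ univ.filter fun u => s.lev u ≤ s.t0 := by
        intro w hw
        simp only [Nb, mem_filter, mem_univ, true_and] at hw ⊢
        omega
      have := (card_le_card h1).trans hG.card0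
      omega
    · have := hG.deg1 u (by omega)
      omega
  · simp only [supp]
    split_ifs with hp
    · obtain ⟨h1, h2, -, -⟩ := hp
      have h3 := hG.deg u h1
      have h4 := hG.deg u' (by rw [h2]; exact h1)
      have h5 := (hG.dpos _ h1).2
      rw [h2] at h4
      have := card_union_le (Nb H s.lev u) (Nb H s.lev u')
      omega
    · simp

end pot

section step

variable {V : Type} [Fintype V] {n K : ℕ}

theorem mem_Nb {H : SimpleGraph V} {lev : V → ℕ} {u w : V} :
    w ∈ Nb H lev u ↔ H.Adj u w ∧ lev w < lev u := by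
  simp [Nb]

theorem mem_cell {φ : Fin K → Fin K} {I : Finset (Fin K)} {k : Fin K} :
    k ∈ cell φ I ↔ φ k ∈ I := by
  simp [cell]

theorem Co_symm {H : SimpleGraph V} {lev : V → ℕ} {w w' : V} (h : Co H lev w w') :
    Co H lev w' w := by
  obtain ⟨h1, u, h2, h3⟩ := h
  exact ⟨h1.symm, u, h3, h2⟩

theorem inv_step {c : Sym2 (Fin n) → Fin K} {H : SimpleGraph V} {p : Par} {s : Sch V K}
    {q : Cst} {φ : Fin K → Fin K} {ℓ : ℕ} {E Q B' : Finset V} {f g : V → Fin n}
    (hE : E = univ.filter fun v => s.lev v < ℓ)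
    (hG : Good H p s) (hℓ : ℓ ∈ s.B) (hI : Inv c H s q φ E Q f)
    (hB : ∀ v ∈ B', s.lev v = ℓ)
    (ha : ∀ u ∈ B', OkB c H s q φ E f u (g u))
    (hb : ∀ u ∈ B', ∀ u' ∈ B', u ≠ u' →
      Disjoint (cols c f (Nb H s.lev u) (g u)) (cols c f (Nb H s.lev u') (g u')))
    (hc : ∀ u ∈ B', ∀ u' ∈ B', g u = g u' → u = u')
    (hc' : ∀ u ∈ B', ∀ v ∈ E, g u ≠ f v)
    (hd : ∀ u ∈ B', ∀ u' ∈ B', Co H s.lev u u' → sim c (g u) (g u') ≤ q.β1) :
    Inv c H s q φ (E ∪ B') Q (fun v => if v ∈ B' then g v else f v) := by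
  have hEl : ∀ v, v ∈ E ↔ s.lev v < ℓ := by
    intro v
    rw [hE]
    simp
  have hdis : ∀ v ∈ E, v ∉ B' := by
    intro v hv hv'
    have h1 := (hEl v).1 hv
    have h2 := hB v hv'
    omega
  have hNbE : ∀ u ∈ B', ∀ w ∈ Nb H s.lev u, w ∈ E := by
    intro u hu w hw
    rw [hEl]
    have := (mem_Nb.1 hw).2
    rw [hB u hu] at this
    exact this
  have hfE : ∀ v ∈ E, (if v ∈ B' then g v else f v) = f v := fun v hv => if_neg (hdis v hv)
  have hfB : ∀ v ∈ B', (if v ∈ B' then g v else f v) = g v := fun v hv => if_pos hv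
  -- colours of old edges
  have hold : ∀ x ∈ E, ∀ y ∈ E, H.Adj x y → c s(f x, f y) ∉ cell φ (s.I ℓ) := by
    have key : ∀ x ∈ E, ∀ y ∈ E, H.Adj x y → s.lev x < s.lev y →
        c s(f x, f y) ∉ cell φ (s.I ℓ) := by
      intro x hx y hy hxy hlt hcell
      rw [mem_cell] at hcell
      have hxN : x ∈ Nb H s.lev y := mem_Nb.2 ⟨hxy.symm, hlt⟩
      by_cases hyQ : y ∈ Q
      · have h1 := hI.colR y hyQ x hxN
        rw [mem_cell] at h1
        simp only [resI, mem_filter, mem_univ, true_and] at h1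
        exact h1 ℓ hℓ hcell
      · have h1 := hI.colB y hy hyQ x hxN
        have h2 := hI.lvB y hy hyQ
        rw [mem_cell] at h1
        have h3 := hG.disj _ h2 ℓ hℓ (by have := (hEl y).1 hy; omega)
        exact (disjoint_left.1 h3) h1 hcell
    intro x hx y hy hxy
    rcases lt_or_gt_of_ne (hG.adj x y hxy) with h | h
    · exact key x hx y hy hxy h
    · rw [Sym2.eq_swap]
      exact key y hy x hx hxy.symm h
  -- classification of the edges in `E ∪ B'`
  have hcls : ∀ e ∈ eIn H (E ∪ B'),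
      (e ∈ eIn H E) ∨ ∃ u ∈ B', ∃ w ∈ Nb H s.lev u, e = s(w, u) := by
    intro e he
    induction e using Sym2.ind with
    | h x y =>
      obtain ⟨h1, h2⟩ := he
      rw [SimpleGraph.mem_edgeSet] at h1
      have hx := h2 x (by simp)
      have hy := h2 y (by simp)
      rw [mem_union] at hx hy
      rcases hx with hx | hx
      · rcases hy with hy | hy
        · left
          refine ⟨by rwa [SimpleGraph.mem_edgeSet], fun z hz => ?_⟩
          rw [Sym2.mem_iff] at hz
          rcases hz with rfl | rfl <;> assumption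
        · right
          refine ⟨y, hy, x, mem_Nb.2 ⟨h1.symm, ?_⟩, rfl⟩
          rw [hB y hy]
          exact (hEl x).1 hx
      · rcases hy with hy | hy
        · right
          refine ⟨x, hx, y, mem_Nb.2 ⟨h1, ?_⟩, Sym2.eq_swap⟩
          rw [hB x hx]
          exact (hEl y).1 hy
        · exact absurd ((hB x hx).trans (hB y hy).symm) (hG.adj x y h1)
  have hmapold : ∀ e ∈ eIn H E, e.map (fun v => if v ∈ B' then g v else f v) = e.map f := by
    intro e he
    induction e using Sym2.ind with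
    | h x y =>
      obtain ⟨-, h2⟩ := he
      simp only [Sym2.map_mk]
      rw [hfE x (h2 x (by simp)), hfE y (h2 y (by simp))]
  have hcolold : ∀ e ∈ eIn H E, c (e.map f) ∉ cell φ (s.I ℓ) := by
    intro e he
    induction e using Sym2.ind with
    | h x y =>
      obtain ⟨h1, h2⟩ := he
      exact hold x (h2 x (by simp)) y (h2 y (by simp)) (by rwa [SimpleGraph.mem_edgeSet] at h1)
  have hokc : ∀ u ∈ B', ok c f (Nb H s.lev u) (cell φ (s.I ℓ)) (g u) := by
    intro u hu
    have := (ha u hu).1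
    rwa [hB u hu] at this
  have hcolnew : ∀ u ∈ B', ∀ w ∈ Nb H s.lev u,
      c ((s(w, u)).map (fun v => if v ∈ B' then g v else f v)) = c s(f w, g u) := by
    intro u hu w hw
    simp only [Sym2.map_mk]
    rw [hfE w (hNbE u hu w hw), hfB u hu]
  refine ⟨hI.sub.trans subset_union_left, ?_, ?_, ?_, ?_, ?_, ?_, ?_⟩
  · -- injectivity
    intro x hx y hy hxy
    simp only [coe_union, Set.mem_union, mem_coe] at hx hy
    rcases hx with hx | hx
    · rcases hy with hy | hy
      · simp only [hfE x hx, hfE y hy] at hxy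
        exact hI.inj (mem_coe.2 hx) (mem_coe.2 hy) hxy
      · simp only [hfE x hx, hfB y hy] at hxy
        exact absurd hxy.symm (hc' y hy x hx)
    · rcases hy with hy | hy
      · simp only [hfB x hx, hfE y hy] at hxy
        exact absurd hxy (hc' x hx y hy)
      · simp only [hfB x hx, hfB y hy] at hxy
        exact hc x hx y hy hxy
  · -- rainbow
    intro e he e' he' hee
    simp only at hee
    rcases hcls e he with h1 | ⟨u, hu, w, hw, rfl⟩
    · rcases hcls e' he' with h2 | ⟨u', hu', w', hw', rfl⟩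
      · rw [hmapold e h1, hmapold e' h2] at hee
        exact hI.rain h1 h2 hee
      · exfalso
        rw [hmapold e h1, hcolnew u' hu' w' hw'] at hee
        exact hcolold e h1 (by rw [hee]; exact (hokc u' hu').1 w' hw')
    · rcases hcls e' he' with h2 | ⟨u', hu', w', hw', rfl⟩
      · exfalso
        rw [hmapold e' h2, hcolnew u hu w hw] at hee
        exact hcolold e' h2 (by rw [← hee]; exact (hokc u hu).1 w hw)
      · rw [hcolnew u hu w hw, hcolnew u' hu' w' hw'] at hee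
        by_cases huu : u = u'
        · subst huu
          rw [(hokc u hu).2 w hw w' hw' hee]
        · exfalso
          have h3 := hb u hu u' hu' huu
          refine (disjoint_left.1 h3) (a := c s(f w, g u)) ?_ ?_
          · exact mem_image_of_mem _ hw
          · rw [hee]
            exact mem_image_of_mem _ hw'
  · -- back
    intro u hu w hw
    rw [mem_union] at hu ⊢
    rcases hu with hu | hu
    · exact Or.inl (hI.back u hu hw)
    · exact Or.inl (hNbE u hu w hw)
  · -- lvB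
    intro u hu huQ
    rw [mem_union] at hu
    rcases hu with hu | hu
    · exact hI.lvB u hu huQ
    · rw [hB u hu]; exact hℓ
  · -- colB
    intro u hu huQ w hw
    rw [mem_union] at hu
    rcases hu with hu | hu
    · rw [hfE w (hI.back u hu hw), hfE u hu]
      exact hI.colB u hu huQ w hw
    · rw [hfE w (hNbE u hu w hw), hfB u hu, hB u hu]
      exact (hokc u hu).1 w hw
  · -- colR
    intro u hu w hw
    have huE := hI.sub hu
    rw [hfE w (hI.back u huE hw), hfE u huE]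
    exact hI.colR u hu w hw
  · -- ntw
    intro w hw w' hw' hco
    rw [mem_union] at hw hw'
    rcases hw with hw | hw
    · rcases hw' with hw' | hw'
      · rw [hfE w hw, hfE w' hw']
        exact hI.ntw w hw w' hw' hco
      · rw [hfE w hw, hfB w' hw', if_neg (by
          rintro ⟨-, h2⟩
          have h3 := hG.late ℓ hℓ
          have h4 := hB w' hw'
          omega), sim_comm]
        exact (ha w' hw').2 w hw (Co_symm hco)
    · have hneg : ¬(s.lev w ≤ s.t0 ∧ s.lev w' ≤ s.t0) := by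
        rintro ⟨h2, -⟩
        have h3 := hG.late ℓ hℓ
        have h4 := hB w hw
        omega
      rw [if_neg hneg, hfB w hw]
      rcases hw' with hw' | hw'
      · rw [hfE w' hw']
        exact (ha w hw).2 w' hw' hco
      · rw [hfB w' hw']
        exact hd w hw w' hw' hco

end step

section expect

variable {V : Type} [Fintype V] {M n K : ℕ}

/-- total similarity of the lists over a set of pairs -/
def Sf (c : Sym2 (Fin n) → Fin K) (pairs : Finset (V × V)) (Λ : V → Fin M → Fin n) : ℝ :=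
  ∑ q ∈ pairs, ∑ m : Fin M, ∑ m' : Fin M, sim c (Λ q.1 m) (Λ q.2 m')

theorem Sf_nonneg (c : Sym2 (Fin n) → Fin K) (pairs : Finset (V × V))
    (Λ : V → Fin M → Fin n) : 0 ≤ Sf c pairs Λ :=
  sum_nonneg fun _ _ => sum_nonneg fun _ _ => sum_nonneg fun _ _ => sim_nonneg _ _ _

theorem av_Sf {c : Sym2 (Fin n) → Fin K} (hc : Env c 1) (pairs : Finset (V × V))
    (hp : ∀ q ∈ pairs, q.1 ≠ q.2) :
    av (fun Λ : V → Fin M → Fin n => Sf c pairs Λ) ≤
      (pairs.card : ℝ) * (M : ℝ) ^ 2 * (2 / (K : ℝ)) := by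
  have hne : Nonempty (Fin n) := ⟨⟨0, hc.npos⟩⟩
  unfold Sf
  rw [av_sum]
  have h1 : ∀ q ∈ pairs, av (fun Λ : V → Fin M → Fin n =>
      ∑ m : Fin M, ∑ m' : Fin M, sim c (Λ q.1 m) (Λ q.2 m')) ≤ (M : ℝ) ^ 2 * (2 / (K : ℝ)) := by
    intro q hq
    rw [av_sum]
    have h2 : ∀ m ∈ (univ : Finset (Fin M)), av (fun Λ : V → Fin M → Fin n =>
        ∑ m' : Fin M, sim c (Λ q.1 m) (Λ q.2 m')) ≤ (M : ℝ) * (2 / (K : ℝ)) := by
      intro m _
      rw [av_sum]
      have h3 : ∀ m' ∈ (univ : Finset (Fin M)), av (fun Λ : V → Fin M → Fin n =>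
          sim c (Λ q.1 m) (Λ q.2 m')) ≤ 2 / (K : ℝ) := by
        intro m' _
        rw [av_list2 (u := q.1) (u' := q.2) (m := m) (m' := m')
          (fun h => hp q hq (congrArg Prod.fst h)) (sim c)]
        rw [← av_const (Ω := Fin n) (2 / (K : ℝ))]
        exact av_mono fun a => av_sim hc a
      refine (sum_le_sum h3).trans (le_of_eq ?_)
      rw [sum_const, nsmul_eq_mul, card_univ, Fintype.card_fin]
    refine (sum_le_sum h2).trans (le_of_eq ?_)
    rw [sum_const, nsmul_eq_mul, card_univ, Fintype.card_fin]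
    ring
  refine (sum_le_sum h1).trans (le_of_eq ?_)
  rw [sum_const, nsmul_eq_mul]
  ring

/-- indicator of equality -/
def ind (a b : Fin n) : ℝ := if a = b then 1 else 0

theorem ind_nonneg (a b : Fin n) : 0 ≤ ind a b := by
  unfold ind
  split_ifs <;> norm_num

theorem av_ind (a : Fin n) : av (fun b => ind a b) = 1 / (n : ℝ) := by
  unfold av ind
  rw [sum_ite_eq, if_pos (mem_univ _), Fintype.card_fin]

theorem av_ind' (b : Fin n) : av (fun a => ind a b) = 1 / (n : ℝ) := by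
  unfold av ind
  rw [sum_ite_eq', if_pos (mem_univ _), Fintype.card_fin]

/-- number of coincidences -/
def Df (E : Finset V) (f : V → Fin n) (Λ : V → Fin M → Fin n) : ℝ :=
  (∑ i : V × Fin M, ∑ j ∈ univ.erase i, ind (Λ i.1 i.2) (Λ j.1 j.2)) +
    ∑ i : V × Fin M, ∑ v ∈ E, ind (Λ i.1 i.2) (f v)

theorem Df_nonneg (E : Finset V) (f : V → Fin n) (Λ : V → Fin M → Fin n) : 0 ≤ Df E f Λ :=
  add_nonneg (sum_nonneg fun _ _ => sum_nonneg fun _ _ => ind_nonneg _ _)
    (sum_nonneg fun _ _ => sum_nonneg fun _ _ => ind_nonneg _ _)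

theorem av_Df (hn : 0 < n) (E : Finset V) (f : V → Fin n) :
    av (fun Λ : V → Fin M → Fin n => Df E f Λ) ≤
      ((Fintype.card V : ℝ) * ((M : ℝ) + 1)) ^ 2 / (n : ℝ) := by
  have hne : Nonempty (Fin n) := ⟨⟨0, hn⟩⟩
  have hn' : (0 : ℝ) < n := by exact_mod_cast hn
  unfold Df
  rw [av_add, av_sum, av_sum]
  have h1 : ∀ i ∈ (univ : Finset (V × Fin M)), av (fun Λ : V → Fin M → Fin n =>
      ∑ j ∈ univ.erase i, ind (Λ i.1 i.2) (Λ j.1 j.2)) ≤
        ((Fintype.card V : ℝ) * (M : ℝ)) * (1 / (n : ℝ)) := by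
    intro i _
    rw [av_sum]
    have h2 : ∀ j ∈ (univ : Finset (V × Fin M)).erase i, av (fun Λ : V → Fin M → Fin n =>
        ind (Λ i.1 i.2) (Λ j.1 j.2)) = 1 / (n : ℝ) := by
      intro j hj
      have hij : (i.1, i.2) ≠ (j.1, j.2) := by
        intro h
        exact (ne_of_mem_erase hj) h.symm
      rw [av_list2 hij ind]
      simp only [av_ind]
      exact av_const _
    rw [sum_congr rfl h2, sum_const, nsmul_eq_mul]
    refine mul_le_mul_of_nonneg_right ?_ (by positivity)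
    have : ((univ : Finset (V × Fin M)).erase i).card ≤ Fintype.card V * M := by
      refine (card_le_card (erase_subset _ _)).trans (le_of_eq ?_)
      rw [card_univ, Fintype.card_prod, Fintype.card_fin]
    exact_mod_cast this
  have h3 : ∀ i ∈ (univ : Finset (V × Fin M)), av (fun Λ : V → Fin M → Fin n =>
      ∑ v ∈ E, ind (Λ i.1 i.2) (f v)) ≤ (Fintype.card V : ℝ) * (1 / (n : ℝ)) := by
    intro i _
    rw [av_sum]
    have h2 : ∀ v ∈ E, av (fun Λ : V → Fin M → Fin n => ind (Λ i.1 i.2) (f v)) =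
        1 / (n : ℝ) := by
      intro v _
      rw [av_list i.1 i.2 (fun a => ind a (f v))]
      exact av_ind' _
    rw [sum_congr rfl h2, sum_const, nsmul_eq_mul]
    refine mul_le_mul_of_nonneg_right ?_ (by positivity)
    exact_mod_cast card_le_univ E
  refine (add_le_add (sum_le_sum h1) (sum_le_sum h3)).trans ?_
  rw [sum_const, sum_const, nsmul_eq_mul, nsmul_eq_mul, card_univ, Fintype.card_prod,
    Fintype.card_fin]
  push_cast
  have hv : (0 : ℝ) ≤ Fintype.card V := Nat.cast_nonneg _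
  have hm : (0 : ℝ) ≤ M := Nat.cast_nonneg _
  rw [mul_one_div, mul_one_div, mul_div_assoc', mul_div_assoc', ← add_div]
  refine div_le_div_of_nonneg_right ?_ hn'.le
  nlinarith [mul_nonneg (mul_nonneg hv hv) hm, mul_nonneg hv hv]

theorem Df_lt_one {E : Finset V} {f : V → Fin n} {Λ : V → Fin M → Fin n} (h : Df E f Λ < 1) :
    (∀ i j : V × Fin M, i ≠ j → Λ i.1 i.2 ≠ Λ j.1 j.2) ∧
    ∀ (i : V × Fin M), ∀ v ∈ E, Λ i.1 i.2 ≠ f v := by
  have hA : 0 ≤ ∑ i : V × Fin M, ∑ j ∈ univ.erase i, ind (Λ i.1 i.2) (Λ j.1 j.2) :=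
    sum_nonneg fun _ _ => sum_nonneg fun _ _ => ind_nonneg _ _
  have hB : 0 ≤ ∑ i : V × Fin M, ∑ v ∈ E, ind (Λ i.1 i.2) (f v) :=
    sum_nonneg fun _ _ => sum_nonneg fun _ _ => ind_nonneg _ _
  unfold Df at h
  constructor
  · intro i j hij heq
    have h1 : ind (Λ i.1 i.2) (Λ j.1 j.2) ≤ ∑ j ∈ univ.erase i, ind (Λ i.1 i.2) (Λ j.1 j.2) :=
      single_le_sum (f := fun j : V × Fin M => ind (Λ i.1 i.2) (Λ j.1 j.2))
        (fun _ _ => ind_nonneg _ _) (mem_erase.2 ⟨hij.symm, mem_univ _⟩)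
    have h2 : ∑ j ∈ univ.erase i, ind (Λ i.1 i.2) (Λ j.1 j.2) ≤
        ∑ i : V × Fin M, ∑ j ∈ univ.erase i, ind (Λ i.1 i.2) (Λ j.1 j.2) :=
      single_le_sum (f := fun i : V × Fin M => ∑ j ∈ univ.erase i, ind (Λ i.1 i.2) (Λ j.1 j.2))
        (fun _ _ => sum_nonneg fun _ _ => ind_nonneg _ _) (mem_univ i)
    have h3 : ind (Λ i.1 i.2) (Λ j.1 j.2) = 1 := if_pos heq
    linarith
  · intro i v hv heq
    have h1 : ind (Λ i.1 i.2) (f v) ≤ ∑ v ∈ E, ind (Λ i.1 i.2) (f v) :=
      single_le_sum (f := fun v => ind (Λ i.1 i.2) (f v))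
        (fun _ _ => ind_nonneg _ _) hv
    have h2 : ∑ v ∈ E, ind (Λ i.1 i.2) (f v) ≤
        ∑ i : V × Fin M, ∑ v ∈ E, ind (Λ i.1 i.2) (f v) :=
      single_le_sum (f := fun i : V × Fin M => ∑ v ∈ E, ind (Λ i.1 i.2) (f v))
        (fun _ _ => sum_nonneg fun _ _ => ind_nonneg _ _) (mem_univ i)
    have h3 : ind (Λ i.1 i.2) (f v) = 1 := if_pos heq
    linarith

/-- the number of vertices in conflicts is bounded by the total similarity -/
theorem card_conf {c : Sym2 (Fin n) → Fin K} {pairs : Finset (V × V)} {R : Finset V} {β : ℝ}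
    {Λ : V → Fin M → Fin n} {m : V → Fin M}
    (h : ∀ u ∈ R, ∃ u', (u, u') ∈ pairs ∧ β ≤ sim c (Λ u (m u)) (Λ u' (m u'))) :
    (R.card : ℝ) * β ≤ Sf c pairs Λ := by
  choose! w hw1 hw2 using h
  have h1 : (R.card : ℝ) * β ≤ ∑ u ∈ R, sim c (Λ u (m u)) (Λ (w u) (m (w u))) := by
    rw [← nsmul_eq_mul, ← sum_const]
    exact sum_le_sum fun u hu => hw2 u hu
  have h2 : ∑ u ∈ R, sim c (Λ u (m u)) (Λ (w u) (m (w u))) =
      ∑ q ∈ R.image (fun u => (u, w u)), sim c (Λ q.1 (m q.1)) (Λ q.2 (m q.2)) := by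
    rw [sum_image]
    intro a _ b _ hab
    exact congrArg Prod.fst hab
  have h3 : ∑ q ∈ R.image (fun u => (u, w u)), sim c (Λ q.1 (m q.1)) (Λ q.2 (m q.2)) ≤
      ∑ q ∈ pairs, sim c (Λ q.1 (m q.1)) (Λ q.2 (m q.2)) := by
    refine sum_le_sum_of_subset_of_nonneg ?_ fun _ _ _ => sim_nonneg _ _ _
    intro q hq
    rw [mem_image] at hq
    obtain ⟨u, hu, rfl⟩ := hq
    exact hw1 u hu
  have h4 : ∑ q ∈ pairs, sim c (Λ q.1 (m q.1)) (Λ q.2 (m q.2)) ≤ Sf c pairs Λ := by
    unfold Sf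
    refine sum_le_sum fun q _ => ?_
    refine le_trans ?_ (single_le_sum (f := fun a : Fin M => ∑ m' : Fin M,
      sim c (Λ q.1 a) (Λ q.2 m')) (fun _ _ => sum_nonneg fun _ _ => sim_nonneg _ _ _)
      (mem_univ (m q.1)))
    exact single_le_sum (f := fun a : Fin M => sim c (Λ q.1 (m q.1)) (Λ q.2 a))
      (fun _ _ => sim_nonneg _ _ _) (mem_univ (m q.2))
  linarith

end expect

end BatAux

open BatAux

theorem prfBat (hB : StBatch) (hH : StHyp) (hP : StPot2) : StBat := by
  intro Δ bb γ hΔ hbb hγ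
  -- the constant of the batch lemma
  let δf : ℕ → ℝ := fun d => if h : 1 ≤ d then (hB d γ h hγ).choose else 1
  have hδf0 : ∀ d, 0 < δf d := by
    intro d
    simp only [δf]
    split_ifs with h
    · exact (hB d γ h hγ).choose_spec.1
    · exact one_pos
  have hδ : ∀ S : Finset ℕ, ∃ δ : ℝ, 0 < δ ∧ δ ≤ 1 ∧ ∀ d ∈ S, δ ≤ δf d := by
    intro S
    induction S using Finset.induction_on with
    | empty => exact ⟨1, one_pos, le_rfl, by simp⟩
    | insert a S _ ih =>
      obtain ⟨δ, h1, h2, h3⟩ := ih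
      refine ⟨min δ (δf a), lt_min h1 (hδf0 a), (min_le_left _ _).trans h2, fun d hd => ?_⟩
      rw [mem_insert] at hd
      rcases hd with rfl | hd
      · exact min_le_right _ _
      · exact (min_le_left _ _).trans (h3 d hd)
  obtain ⟨δ, hδ0, hδ1, hδS⟩ := hδ (Finset.Icc 1 Δ)
  obtain ⟨δ1, hδ10, hH1⟩ := hH Δ bb δ hΔ hbb hδ0
  refine ⟨δ1, hδ10, fun β1 hβ1 => ?_⟩
  obtain ⟨κ, η, ε, hκ, hη, hε, K0, hH2⟩ := hH1 β1 hβ1
  obtain ⟨M0, hM0⟩ := exists_nat_ge (1 / (δ * bb ^ Δ))
  obtain ⟨M, hM⟩ : ∃ M : ℕ, M = M0 + 1 := ⟨_, rfl⟩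
  have hMpos : 0 < M := by omega
  have hMr : (0 : ℝ) < M := by exact_mod_cast hMpos
  have hΔr : (0 : ℝ) < Δ := by exact_mod_cast hΔ
  have hMδ : 1 ≤ δ * (M : ℝ) * bb ^ Δ := by
    have h1 : 1 / (δ * bb ^ Δ) ≤ (M : ℝ) := by
      refine hM0.trans ?_
      rw [hM]; push_cast; linarith
    rw [div_le_iff₀ (by positivity)] at h1
    nlinarith
  refine ⟨κ, η, ε, 16 * (Δ : ℝ) ^ 2 * (M : ℝ) ^ 2 / β1, M, hκ, hη, hε, fun a0 A hA1 hMA =>
    ⟨K0 + 1, ?_⟩⟩
  intro n K c hK hEnv V _ H p s q φ hG hpΔ hpa hpb hpκ hpη hqA hβ0 hβ01 hqβ hqδ hn64 ℓ hℓ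
    hcell Q f P hInv hTot hP0 hP1
  have hn : 0 < n := hEnv.npos
  have hnr : (0 : ℝ) < n := by exact_mod_cast hn
  have hKr : (0 : ℝ) < K := by
    have : 0 < K := by omega
    exact_mod_cast this
  set E : Finset V := univ.filter fun v => s.lev v < ℓ with hE
  set U : Finset V := univ.filter fun v => s.lev v = ℓ with hU
  have hNT : ∀ u, s.lev u = ℓ → NonTwin c H s q f u := by
    intro u hu w hw w' hw' hne
    have h1 : w ∈ E := by
      rw [hE, mem_filter]
      exact ⟨mem_univ _, by have := (mem_Nb.1 hw).2; omega⟩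
    have h2 : w' ∈ E := by
      rw [hE, mem_filter]
      exact ⟨mem_univ _, by have := (mem_Nb.1 hw').2; omega⟩
    have h3 := hInv.ntw w h1 w' h2 ⟨hne, u, hw, hw'⟩
    have h4 := hG.late ℓ hℓ
    rw [if_neg (by omega)]
    refine h3.trans ?_
    split_ifs
    · exact hβ01
    · exact le_rfl
  obtain ⟨hY1, hY2, hY3, hY4, hY5, hY6⟩ := hH2 n K c (by omega) hEnv V H p s q φ ℓ f hG hpΔ hpb
    hpκ hpη (by rw [hqA]; exact hA1) hqβ hqδ hℓ hcell hNT (hTot.trans hP1)
  rw [← hE] at hY3 hY4 hY5 hY6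
  rw [← hU] at hY1 hY2 hY3 hY4 hY5 hY6
  -- the size of the cell
  have hgam : bb ≤ gam s ℓ := by
    unfold gam
    rw [le_div_iff₀ hKr, ← hpb]
    exact hG.big ℓ hℓ
  have hgam1 : gam s ℓ ≤ 1 := by
    unfold gam
    rw [div_le_one hKr]
    have : (s.I ℓ).card ≤ K := by
      have := card_le_univ (s.I ℓ)
      rwa [Fintype.card_fin] at this
    exact_mod_cast this
  obtain ⟨hd1, hd2⟩ := hG.dpos ℓ hℓ
  rw [hpΔ] at hd2
  have hτ : bb ^ Δ ≤ gam s ℓ ^ s.dg ℓ := by
    calc bb ^ Δ ≤ bb ^ s.dg ℓ := pow_le_pow_of_le_one hbb.le (hgam.trans hgam1) hd2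
      _ ≤ gam s ℓ ^ s.dg ℓ := pow_le_pow_left₀ hbb.le hgam _
  have hτ0 : 0 < gam s ℓ ^ s.dg ℓ := lt_of_lt_of_le (by positivity) hτ
  set τ : ℝ := gam s ℓ ^ s.dg ℓ with hτdef
  -- the batch lemma
  have hδd : δ ≤ δf (s.dg ℓ) := hδS _ (mem_Icc.2 ⟨hd1, hd2⟩)
  have hBd := (hB (s.dg ℓ) γ hd1 hγ).choose_spec.2
  have hδe : δf (s.dg ℓ) = (hB (s.dg ℓ) γ hd1 hγ).choose := dif_pos hd1
  rw [← hδe] at hBd
  set δ' : ℝ := δf (s.dg ℓ) with hδ'
  have hUl : ∀ u ∈ U, s.lev u = ℓ := fun u hu => (mem_filter.1 hu).2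
  have hEvent := hBd V U n K M (cell φ (s.I ℓ)) (fun u z => OkB c H s q φ E f u z)
    (fun u z => cols c f (Nb H s.lev u) z) τ hn hτ0
    (by
      intro u hu z hz
      have hok := hz.1
      rw [hUl u hu] at hok
      refine ⟨?_, ?_⟩
      · have h1 : (cols c f (Nb H s.lev u) z).card = (Nb H s.lev u).card := by
          unfold cols
          exact card_image_of_injOn fun w hw w' hw' h => hok.2 w hw w' hw' h
        rw [h1, hG.deg u (by rw [hUl u hu]; exact hℓ), hUl u hu]
      · intro k hk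
        simp only [cols, mem_image] at hk
        obtain ⟨w, hw, rfl⟩ := hk
        exact hok.1 w hw)
    (by
      have h1 : δ * (M : ℝ) * bb ^ Δ ≤ δ' * (M : ℝ) * τ := by
        have : δ * (M : ℝ) ≤ δ' * (M : ℝ) := mul_le_mul_of_nonneg_right hδd hMr.le
        exact mul_le_mul this hτ (by positivity) (by have := hδf0 (s.dg ℓ); positivity)
      linarith)
    (by
      have : δ * (U.card : ℝ) ≤ δ' * (U.card : ℝ) :=
        mul_le_mul_of_nonneg_right hδd (Nat.cast_nonneg _)
      linarith)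
    (hY2.trans (mul_le_mul_of_nonneg_right hδd (Nat.cast_nonneg _)))
    (fun u hu => (hY3 u hu).trans (mul_le_mul_of_nonneg_right hδd hτ0.le))
    (hY4.trans (by
      have h1 : (1 + δ) * τ ^ 2 ≤ (1 + δ') * τ ^ 2 :=
        mul_le_mul_of_nonneg_right (by linarith) (by positivity)
      exact mul_le_mul_of_nonneg_right h1 (Nat.cast_nonneg _)))
    (hY5.trans (by
      have h1 : δ * τ ^ 2 ≤ δ' * τ ^ 2 := mul_le_mul_of_nonneg_right hδd (by positivity)
      exact mul_le_mul_of_nonneg_right h1 (Nat.cast_nonneg _)))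
    (fun u hu => (hY6 u hu).trans (mul_le_mul_of_nonneg_right hδd (by positivity)))
  -- the potential
  have hdisEU : Disjoint E U := by
    rw [disjoint_left]
    intro v hv hv'
    have h1 := (mem_filter.1 hv).2
    have h2 := (mem_filter.1 hv').2
    omega
  obtain ⟨Qf, hQ0, hQav, hQb⟩ := hP V (Ix V) n M (a0 + 2 * Δ) A (supp H s) (gg c H p s q φ) hn
    hMpos hA1 hMA (fun i f => gg_nonneg c H p s q φ i f)
    (fun i f f' h => gg_local c H p s q φ i f f' h)
    (fun i => by rw [← hpa, ← hpΔ]; exact supp_card hG i) E U f hdisEU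
  have hTot' : Pot A (supp H s) (gg c H p s q φ) E f ≤ P := by
    have := hTot
    unfold Tot at this
    rwa [hqA] at this
  -- the pairs
  set pairs : Finset (V × V) := univ.filter fun q : V × V =>
    s.lev q.1 = ℓ ∧ s.lev q.2 = ℓ ∧ Co H s.lev q.1 q.2 with hpairs
  have hpc : (pairs.card : ℝ) ≤ (Δ : ℝ) ^ 2 * (K : ℝ) := by
    have := hG.copairs ℓ hℓ
    rwa [hpΔ] at this
  set W : ℝ := 2 ^ (a0 + 2 * Δ + 3) * P with hW
  have hW0 : 0 < W := by positivity
  set Y : ℝ := 16 * (Δ : ℝ) ^ 2 * (M : ℝ) ^ 2 with hY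
  have hY0 : 0 < Y := by positivity
  obtain ⟨Λ, hΛ1, hΛ2⟩ : ∃ Λ : V → Fin M → Fin n, (∃ (T : Finset V) (m : V → Fin M), T ⊆ U ∧
        (∀ u ∈ T, OkB c H s q φ E f u (Λ u (m u))) ∧
        (∀ u ∈ T, ∀ u' ∈ T, u ≠ u' → Disjoint (cols c f (Nb H s.lev u) (Λ u (m u)))
          (cols c f (Nb H s.lev u') (Λ u' (m u')))) ∧
        ((U \ T).card : ℝ) ≤ γ * (U.card : ℝ)) ∧
      Qf Λ / W + Sf c pairs Λ / Y + Df E f Λ < 1 := by
    by_contra hcon
    push Not at hcon
    have h1 := pr_le_av (F := fun Λ : V → Fin M → Fin n =>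
      Qf Λ / W + Sf c pairs Λ / Y + Df E f Λ)
      (fun Λ => add_nonneg (add_nonneg (div_nonneg (hQ0 Λ) hW0.le)
        (div_nonneg (Sf_nonneg c pairs Λ) hY0.le)) (Df_nonneg E f Λ)) hcon
    have h2 := hEvent.trans h1
    rw [av_add, av_add, av_div, av_div] at h2
    have h3 : av Qf / W ≤ 1 / 8 := by
      rw [div_le_iff₀ hW0]
      have h4 : av Qf ≤ 2 ^ (a0 + 2 * Δ) * P :=
        hQav.trans (mul_le_mul_of_nonneg_left hTot' (by positivity))
      refine h4.trans (le_of_eq ?_)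
      rw [hW, pow_add]
      ring
    have h4 : av (fun Λ : V → Fin M → Fin n => Sf c pairs Λ) / Y ≤ 1 / 8 := by
      rw [div_le_iff₀ hY0]
      refine (av_Sf hEnv pairs (fun q hq => (mem_filter.1 hq).2.2.2.1)).trans ?_
      have h5 : (pairs.card : ℝ) * (M : ℝ) ^ 2 * (2 / (K : ℝ)) ≤
          ((Δ : ℝ) ^ 2 * (K : ℝ)) * (M : ℝ) ^ 2 * (2 / (K : ℝ)) := by
        refine mul_le_mul_of_nonneg_right (mul_le_mul_of_nonneg_right hpc (by positivity))
          (by positivity)
      refine h5.trans (le_of_eq ?_)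
      rw [hY]
      field_simp
      ring
    have h6 : av (fun Λ : V → Fin M → Fin n => Df E f Λ) ≤ 1 / 64 := by
      refine (av_Df hn E f).trans ?_
      rw [div_le_iff₀ hnr]
      linarith
    have h7 : av (fun x : V → Fin M → Fin n => Qf x) = av Qf := rfl
    rw [h7] at h2
    linarith
  obtain ⟨T, m, hTU, hTok, hTdis, hTcard⟩ := hΛ1
  have hq0 := div_nonneg (hQ0 Λ) hW0.le
  have hs0 := div_nonneg (Sf_nonneg c pairs Λ) hY0.le
  have hd0 := Df_nonneg E f Λ
  have hQΛ : Qf Λ ≤ W := by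
    have : Qf Λ / W ≤ 1 := by linarith
    rwa [div_le_one hW0] at this
  have hSΛ : Sf c pairs Λ ≤ Y := by
    have : Sf c pairs Λ / Y ≤ 1 := by linarith
    rwa [div_le_one hY0] at this
  obtain ⟨hD1, hD2⟩ := Df_lt_one (E := E) (f := f) (Λ := Λ) (by linarith)
  -- the embedded vertices
  let R : Finset V := T.filter fun u => ∃ u' ∈ T, Co H s.lev u u' ∧
    q.β1 < sim c (Λ u (m u)) (Λ u' (m u'))
  let B' : Finset V := T \ R
  have hB'T : B' ⊆ T := sdiff_subset
  have hB'l : ∀ v ∈ B', s.lev v = ℓ := fun v hv => hUl v (hTU (hB'T hv))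
  have hRcard : (R.card : ℝ) ≤ Y / β1 := by
    rw [le_div_iff₀ hβ1]
    refine (card_conf (c := c) (pairs := pairs) (R := R) (β := β1) (Λ := Λ) (m := m) ?_).trans hSΛ
    intro u hu
    obtain ⟨huT, u', hu'T, hco, hlt⟩ := mem_filter.1 hu
    refine ⟨u', ?_, by rw [← hqβ]; exact hlt.le⟩
    rw [hpairs, mem_filter]
    exact ⟨mem_univ _, hUl u (hTU huT), hUl u' (hTU hu'T), hco⟩
  refine ⟨B', fun v => if v ∈ B' then Λ v (m v) else f v, hB'l, ?_, ?_, ?_⟩
  · refine inv_step (g := fun v => Λ v (m v)) hE hG hℓ hInv hB'l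
      (fun u hu => hTok u (hB'T hu))
      (fun u hu u' hu' hne => hTdis u (hB'T hu) u' (hB'T hu') hne) ?_ ?_ ?_
    · intro u _ u' _ h
      by_contra hne
      exact hD1 (u, m u) (u', m u') (fun h' => hne (congrArg Prod.fst h')) h
    · intro u _ v hv
      exact hD2 (u, m u) v hv
    · intro u hu u' hu' hco
      by_contra hlt
      push Not at hlt
      have huR : u ∈ R := mem_filter.2 ⟨hB'T hu, u', hB'T hu', hco, hlt⟩
      exact (mem_sdiff.1 hu).2 huR
  · have h1 := hQb Λ B' m (hB'T.trans hTU)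
    unfold Tot
    rw [hqA]
    exact h1.trans hQΛ
  · have h1 : (univ.filter fun v => s.lev v = ℓ ∧ v ∉ B') ⊆ (U \ T) ∪ R := by
      intro v hv
      obtain ⟨-, hv1, hv2⟩ := mem_filter.1 hv
      rw [mem_union]
      by_cases hvT : v ∈ T
      · right
        by_contra hvR
        exact hv2 (mem_sdiff.2 ⟨hvT, hvR⟩)
      · left
        exact mem_sdiff.2 ⟨mem_filter.2 ⟨mem_univ _, hv1⟩, hvT⟩
    have h2 : ((univ.filter fun v => s.lev v = ℓ ∧ v ∉ B').card : ℝ) ≤
        ((U \ T).card : ℝ) + (R.card : ℝ) := by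
      have := (card_le_card h1).trans (card_union_le _ _)
      exact_mod_cast this
    linarith

end

end Pool.Agent.Lib.MP_b1acb3_co.Dgn
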