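import Pool.Agent.Lib.MP_b1acb3_co.Dgn.Bat

/-!
MP_b1acb3_co, project DGN, module Batch: the batch lemma from the robust nibble.
-/

set_option autoImplicit false

namespace Pool.Agent.Lib.MP_b1acb3_co.Dgn

open Finset Classical

noncomputable section

namespace BatchAux

open BatAux

/-- indicator -/
def ind (P : Prop) : ℝ := if P then 1 else 0

theorem ind_nonneg (P : Prop) : 0 ≤ ind P := by
  unfold ind; split_ifs <;> norm_num

theorem ind_sq (P : Prop) : ind P * ind P = ind P := by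
  unfold ind; split_ifs <;> norm_num

theorem av_mul {Ω : Type} [Fintype Ω] (a : ℝ) (f : Ω → ℝ) :
    av (fun x => a * f x) = a * av f := by
  simp only [av]
  rw [← mul_sum, mul_div_assoc]

theorem av_sub {Ω : Type} [Fintype Ω] (f g : Ω → ℝ) :
    av (fun x => f x - g x) = av f - av g := by
  simp only [av, sum_sub_distrib, sub_div]

theorem pr_ind {Ω : Type} [Fintype Ω] (P : Ω → Prop) : pr P = av fun x => ind (P x) := rfl

section mom

variable {V : Type} [Fintype V] {M n : ℕ}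

/-- the number of pairs `(u, m)` with the property -/
def X (U : Finset V) (R : V → Fin n → Prop) (Λ : V → Fin M → Fin n) : ℝ :=
  ∑ i ∈ U ×ˢ (univ : Finset (Fin M)), ind (R i.1 (Λ i.1 i.2))

/-- the sum of the probabilities -/
def P (U : Finset V) (R : V → Fin n → Prop) : ℝ := ∑ u ∈ U, pr (R u)

theorem P_nonneg (U : Finset V) (R : V → Fin n → Prop) : 0 ≤ P U R :=
  sum_nonneg fun _ _ => pr_nonneg _

theorem sum_pr (U : Finset V) (R : V → Fin n → Prop) :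
    ∑ i ∈ U ×ˢ (univ : Finset (Fin M)), pr (R i.1) = (M : ℝ) * P U R := by
  rw [sum_product, P, mul_sum]
  refine sum_congr rfl fun u _ => ?_
  simp

theorem av_X [Nonempty (Fin n)] (U : Finset V) (R : V → Fin n → Prop) :
    av (fun Λ : V → Fin M → Fin n => X U R Λ) = (M : ℝ) * P U R := by
  unfold X
  rw [av_sum (U ×ˢ (univ : Finset (Fin M)))
    (fun i (Λ : V → Fin M → Fin n) => ind (R i.1 (Λ i.1 i.2))), ← sum_pr]
  refine sum_congr rfl fun i _ => ?_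
  exact av_list i.1 i.2 fun z => ind (R i.1 z)

theorem av_X2 [Nonempty (Fin n)] (U : Finset V) (R : V → Fin n → Prop) :
    av (fun Λ : V → Fin M → Fin n => X U R Λ ^ 2) ≤ (M : ℝ) * P U R + ((M : ℝ) * P U R) ^ 2 := by
  have h1 : (fun Λ : V → Fin M → Fin n => X U R Λ ^ 2) = fun Λ =>
      ∑ i ∈ U ×ˢ (univ : Finset (Fin M)), ∑ j ∈ U ×ˢ (univ : Finset (Fin M)),
        ind (R i.1 (Λ i.1 i.2)) * ind (R j.1 (Λ j.1 j.2)) := by
    funext Λ
    rw [sq, X, sum_mul_sum]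
  rw [h1, av_sum (U ×ˢ (univ : Finset (Fin M))) (fun i (Λ : V → Fin M → Fin n) =>
    ∑ j ∈ U ×ˢ (univ : Finset (Fin M)), ind (R i.1 (Λ i.1 i.2)) * ind (R j.1 (Λ j.1 j.2)))]
  have h2 : ∀ i ∈ U ×ˢ (univ : Finset (Fin M)),
      av (fun Λ : V → Fin M → Fin n =>
        ∑ j ∈ U ×ˢ (univ : Finset (Fin M)), ind (R i.1 (Λ i.1 i.2)) * ind (R j.1 (Λ j.1 j.2)))
      ≤ pr (R i.1) + pr (R i.1) * ∑ j ∈ U ×ˢ (univ : Finset (Fin M)), pr (R j.1) := by
    intro i hi
    rw [av_sum (U ×ˢ (univ : Finset (Fin M))) (fun j (Λ : V → Fin M → Fin n) =>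
      ind (R i.1 (Λ i.1 i.2)) * ind (R j.1 (Λ j.1 j.2)))]
    have h3 : ∀ j ∈ U ×ˢ (univ : Finset (Fin M)),
        av (fun Λ : V → Fin M → Fin n => ind (R i.1 (Λ i.1 i.2)) * ind (R j.1 (Λ j.1 j.2)))
          ≤ (if j = i then pr (R i.1) else 0) + pr (R i.1) * pr (R j.1) := by
      intro j _
      split_ifs with hji
      · subst hji
        have : (fun Λ : V → Fin M → Fin n =>
            ind (R j.1 (Λ j.1 j.2)) * ind (R j.1 (Λ j.1 j.2)))
            = fun Λ => (fun z => ind (R j.1 z)) (Λ j.1 j.2) := by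
          funext Λ
          exact ind_sq _
        rw [this, av_list j.1 j.2 (fun z => ind (R j.1 z)), ← pr_ind]
        have := mul_nonneg (pr_nonneg (R j.1)) (pr_nonneg (R j.1))
        linarith
      · have := av_list2 (V := V) (M := M) (n := n) (u := i.1) (u' := j.1) (m := i.2) (m' := j.2)
          (fun hh => hji (by
            have h5 : i.1 = j.1 := congrArg Prod.fst hh
            have h6 : i.2 = j.2 := congrArg Prod.snd hh
            exact (Prod.ext h5 h6).symm)) (fun a b => ind (R i.1 a) * ind (R j.1 b))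
        rw [this]
        have h7 : (fun a => av fun b => ind (R i.1 a) * ind (R j.1 b))
            = fun a => pr (R j.1) * ind (R i.1 a) := by
          funext a
          rw [av_mul, ← pr_ind, mul_comm]
        rw [h7, av_mul, ← pr_ind, zero_add, mul_comm]
    refine (sum_le_sum h3).trans ?_
    rw [sum_add_distrib, sum_ite_eq' _ i, if_pos hi, mul_sum]
  refine (sum_le_sum h2).trans ?_
  rw [sum_add_distrib, ← sum_mul, sum_pr, sq]

/-- second moment, normalised -/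
theorem av_Y2 [Nonempty (Fin n)] (U : Finset V) (R : V → Fin n → Prop) {τ δ : ℝ} (hτ : 0 < τ)
    (hM : 1 ≤ δ * (M : ℝ) * τ) (hM0 : 0 < (M : ℝ)) :
    av (fun Λ : V → Fin M → Fin n => (1 / ((M : ℝ) * τ) * X U R Λ) ^ 2)
      ≤ δ * (P U R / τ) + (P U R / τ) ^ 2 := by
  have h1 : (fun Λ : V → Fin M → Fin n => (1 / ((M : ℝ) * τ) * X U R Λ) ^ 2)
      = fun Λ => (1 / ((M : ℝ) * τ)) ^ 2 * X U R Λ ^ 2 := by
    funext Λ; ring
  rw [h1, av_mul]
  have h2 := mul_le_mul_of_nonneg_left (av_X2 (M := M) U R) (sq_nonneg (1 / ((M : ℝ) * τ)))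
  refine h2.trans ?_
  have h3 : (1 / ((M : ℝ) * τ)) ^ 2 * ((M : ℝ) * P U R + ((M : ℝ) * P U R) ^ 2)
      = 1 / ((M : ℝ) * τ) * (P U R / τ) + (P U R / τ) ^ 2 := by
    field_simp
  rw [h3]
  have h4 : 1 / ((M : ℝ) * τ) ≤ δ := by
    rw [div_le_iff₀ (by positivity)]
    linarith
  have h5 := mul_le_mul_of_nonneg_right h4 (div_nonneg (P_nonneg U R) hτ.le)
  linarith

theorem av_Y1 [Nonempty (Fin n)] (U : Finset V) (R : V → Fin n → Prop) {τ δ : ℝ} (hτ : 0 < τ)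
    (hM : 1 ≤ δ * (M : ℝ) * τ) (hM0 : 0 < (M : ℝ)) :
    av (fun Λ : V → Fin M → Fin n => (1 / ((M : ℝ) * τ) * X U R Λ - 1) ^ 2)
      ≤ δ * (P U R / τ) + (P U R / τ - 1) ^ 2 := by
  have : Nonempty (V → Fin M → Fin n) := ⟨fun _ _ => Classical.arbitrary _⟩
  have h1 : (fun Λ : V → Fin M → Fin n => (1 / ((M : ℝ) * τ) * X U R Λ - 1) ^ 2)
      = fun Λ => ((1 / ((M : ℝ) * τ) * X U R Λ) ^ 2 + 1) - (2 / ((M : ℝ) * τ)) * X U R Λ := by
    funext Λ; ring
  rw [h1, av_sub, av_add, av_const, av_mul, av_X]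
  have h2 := av_Y2 (M := M) U R hτ hM hM0
  have h3 : 2 / ((M : ℝ) * τ) * ((M : ℝ) * P U R) = 2 * (P U R / τ) := by
    field_simp
  rw [h3]
  nlinarith [h2]

end mom

section hyper

variable {V : Type} [Fintype V] {M n K : ℕ}

/-- incidence of a vertex of the hypergraph with the pair `(u, z)` -/
def In {U : Finset V} {C : Finset (Fin K)} (Col : V → Fin n → Finset (Fin K))
    (x : {u // u ∈ U} ⊕ {k // k ∈ C}) (u : V) (z : Fin n) : Prop :=
  Sum.elim (fun u' : {u // u ∈ U} => u = u'.1) (fun k : {k // k ∈ C} => k.1 ∈ Col u z) x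

/-- hyperedges -/
def eE (U : Finset V) (C : Finset (Fin K)) (Col : V → Fin n → Finset (Fin K))
    (Λ : V → Fin M → Fin n) (i : {u // u ∈ U} × Fin M) : Finset ({u // u ∈ U} ⊕ {k // k ∈ C}) :=
  univ.filter fun x => In Col x i.1.1 (Λ i.1.1 i.2)

/-- weights -/
def wW (U : Finset V) (Ok : V → Fin n → Prop) (τ : ℝ)
    (Λ : V → Fin M → Fin n) (i : {u // u ∈ U} × Fin M) : ℝ :=
  1 / ((M : ℝ) * τ) * ind (Ok i.1.1 (Λ i.1.1 i.2))

theorem sum_ix (U : Finset V) (g : V → Fin M → ℝ) :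
    ∑ i : {u // u ∈ U} × Fin M, g i.1.1 i.2 = ∑ i ∈ U ×ˢ (univ : Finset (Fin M)), g i.1 i.2 := by
  rw [Fintype.sum_prod_type, sum_product]
  exact sum_coe_sort U fun u => ∑ m, g u m

theorem deg_eq (U : Finset V) (C : Finset (Fin K)) (Ok : V → Fin n → Prop)
    (Col : V → Fin n → Finset (Fin K)) (τ : ℝ) (Λ : V → Fin M → Fin n)
    (x : {u // u ∈ U} ⊕ {k // k ∈ C}) :
    Pool.Agent.Nibble.deg (eE U C Col Λ) (wW U Ok τ Λ) x
      = 1 / ((M : ℝ) * τ) * X U (fun u z => Ok u z ∧ In Col x u z) Λ := by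
  unfold Pool.Agent.Nibble.deg X
  rw [mul_sum]
  have := sum_ix U (fun u m => 1 / ((M : ℝ) * τ) * ind (Ok u (Λ u m) ∧ In Col x u (Λ u m)))
  rw [← this]
  refine sum_congr rfl fun i _ => ?_
  simp only [eE, wW, ind, mem_filter, mem_univ, true_and]
  by_cases h1 : In Col x i.1.1 (Λ i.1.1 i.2) <;> by_cases h2 : Ok i.1.1 (Λ i.1.1 i.2) <;>
    simp [h1, h2]

theorem cod_eq (U : Finset V) (C : Finset (Fin K)) (Ok : V → Fin n → Prop)
    (Col : V → Fin n → Finset (Fin K)) (τ : ℝ) (Λ : V → Fin M → Fin n)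
    (x y : {u // u ∈ U} ⊕ {k // k ∈ C}) :
    Pool.Agent.Nibble.cod (eE U C Col Λ) (wW U Ok τ Λ) x y
      = 1 / ((M : ℝ) * τ) * X U (fun u z => Ok u z ∧ In Col x u z ∧ In Col y u z) Λ := by
  unfold Pool.Agent.Nibble.cod X
  rw [mul_sum]
  have := sum_ix U (fun u m => 1 / ((M : ℝ) * τ) *
    ind (Ok u (Λ u m) ∧ In Col x u (Λ u m) ∧ In Col y u (Λ u m)))
  rw [← this]
  refine sum_congr rfl fun i _ => ?_
  simp only [eE, wW, ind, mem_filter, mem_univ, true_and]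
  by_cases h1 : In Col x i.1.1 (Λ i.1.1 i.2) <;> by_cases h2 : Ok i.1.1 (Λ i.1.1 i.2) <;>
    by_cases h3 : In Col y i.1.1 (Λ i.1.1 i.2) <;> simp [h1, h2, h3]

/-- the sum of the squared errors -/
def FF (U : Finset V) (C : Finset (Fin K)) (Ok : V → Fin n → Prop)
    (Col : V → Fin n → Finset (Fin K)) (τ : ℝ) (Λ : V → Fin M → Fin n) : ℝ :=
  (∑ x : {u // u ∈ U} ⊕ {k // k ∈ C},
    (1 / ((M : ℝ) * τ) * X U (fun u z => Ok u z ∧ In Col x u z) Λ - 1) ^ 2) +
  ∑ x : {u // u ∈ U} ⊕ {k // k ∈ C}, ∑ y : {u // u ∈ U} ⊕ {k // k ∈ C},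
    if x = y then 0 else
      (1 / ((M : ℝ) * τ) * X U (fun u z => Ok u z ∧ In Col x u z ∧ In Col y u z) Λ) ^ 2

theorem FF_nonneg (U : Finset V) (C : Finset (Fin K)) (Ok : V → Fin n → Prop)
    (Col : V → Fin n → Finset (Fin K)) (τ : ℝ) (Λ : V → Fin M → Fin n) :
    0 ≤ FF U C Ok Col τ Λ := by
  unfold FF
  refine add_nonneg (sum_nonneg fun _ _ => sq_nonneg _)
    (sum_nonneg fun _ _ => sum_nonneg fun _ _ => ?_)
  split_ifs
  · exact le_rfl
  · exact sq_nonneg _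

/-- the nibble for one family of lists -/
theorem det (d : ℕ) (γ η : ℝ) (hη : 0 < η)
    (hnib : ∀ (V ι : Type) [Fintype V] [DecidableEq V] [Fintype ι] [DecidableEq ι]
      (e : ι → Finset V) (w : ι → ℝ),
      (∀ i, 0 ≤ w i) → (∀ i, w i ≠ 0 → (e i).card = d + 1) →
      (∑ v, |Pool.Agent.Nibble.deg e w v - 1| ≤ η * (Fintype.card V : ℝ)) →
      (∑ i, (if ∃ u ∈ e i, ∃ v ∈ e i, u ≠ v ∧ η < Pool.Agent.Nibble.cod e w u v then w i else 0)
        ≤ η * (Fintype.card V : ℝ)) →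
      1 ≤ η * (Fintype.card V : ℝ) →
      ∃ M : Finset ι, (∀ i ∈ M, w i ≠ 0) ∧
        (∀ i ∈ M, ∀ j ∈ M, i ≠ j → Disjoint (e i) (e j)) ∧
        (((univ.filter fun v => ∀ i ∈ M, v ∉ e i).card : ℝ)
          ≤ γ / (1 + 2 * (d : ℝ)) * (Fintype.card V : ℝ)))
    (U : Finset V) (C : Finset (Fin K)) (Ok : V → Fin n → Prop)
    (Col : V → Fin n → Finset (Fin K)) (τ : ℝ) (hτ : 0 < τ) (Λ : V → Fin M → Fin n)
    (hcol : ∀ u ∈ U, ∀ z, Ok u z → (Col u z).card = d ∧ Col u z ⊆ C)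
    (hC : (C.card : ℝ) ≤ 2 * (d : ℝ) * (U.card : ℝ)) (hγ : 0 < γ)
    (hU : 1 ≤ η * (U.card : ℝ)) (hM : 0 < M)
    (hF : FF U C Ok Col τ Λ ≤ η ^ 2 * ((U.card : ℝ) + (C.card : ℝ))) :
    ∃ (T : Finset V) (m : V → Fin M), T ⊆ U ∧
        (∀ u ∈ T, Ok u (Λ u (m u))) ∧
        (∀ u ∈ T, ∀ u' ∈ T, u ≠ u' → Disjoint (Col u (Λ u (m u))) (Col u' (Λ u' (m u')))) ∧
        ((U \ T).card : ℝ) ≤ γ * (U.card : ℝ) := by
  have hcardV : (Fintype.card ({u // u ∈ U} ⊕ {k // k ∈ C}) : ℝ) = (U.card : ℝ) + (C.card : ℝ) := by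
    rw [Fintype.card_sum, Fintype.card_coe, Fintype.card_coe]
    push_cast
    ring
  have hq : 0 ≤ 1 / ((M : ℝ) * τ) := by positivity
  have hw0 : ∀ i, 0 ≤ wW U Ok τ Λ i := fun i => mul_nonneg hq (ind_nonneg _)
  have hwOk : ∀ i, wW U Ok τ Λ i ≠ 0 → Ok i.1.1 (Λ i.1.1 i.2) := by
    intro i hi
    by_contra hcon
    exact hi (by simp [wW, ind, hcon])
  have hcard : ∀ i, wW U Ok τ Λ i ≠ 0 → (eE U C Col Λ i).card = d + 1 := by
    intro i hi
    have hOk := hwOk i hi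
    obtain ⟨h1, h2⟩ := hcol i.1.1 i.1.2 _ hOk
    unfold eE
    rw [card_filter, Fintype.sum_sum_type]
    have e1 : (∑ a : {u // u ∈ U}, if In (C := C) Col (Sum.inl a) i.1.1 (Λ i.1.1 i.2) then 1 else 0)
        = 1 := by
      rw [sum_eq_single i.1]
      · simp [In]
      · intro b _ hb
        rw [if_neg]
        intro hh
        exact hb (Subtype.ext hh.symm)
      · intro hh
        exact absurd (mem_univ _) hh
    have e2 : (∑ a : {k // k ∈ C}, if In (U := U) Col (Sum.inr a) i.1.1 (Λ i.1.1 i.2) then 1 else 0)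
        = d := by
      have e4 : C.filter (fun k => k ∈ Col i.1.1 (Λ i.1.1 i.2)) = Col i.1.1 (Λ i.1.1 i.2) := by
        ext k
        rw [mem_filter]
        exact ⟨fun hh => hh.2, fun hh => ⟨h2 hh, hh⟩⟩
      have e3 := sum_coe_sort C (fun k => if k ∈ Col i.1.1 (Λ i.1.1 i.2) then (1 : ℕ) else 0)
      have e5 : (∑ k ∈ C, if k ∈ Col i.1.1 (Λ i.1.1 i.2) then (1 : ℕ) else 0) = d := by
        rw [← card_filter, e4, h1]
      convert e3.trans e5 using 3
      exact Iff.rfl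
    rw [e1, e2, add_comm]
  have hFa : (∑ x : {u // u ∈ U} ⊕ {k // k ∈ C},
      (1 / ((M : ℝ) * τ) * X U (fun u z => Ok u z ∧ In Col x u z) Λ - 1) ^ 2)
      ≤ η ^ 2 * ((U.card : ℝ) + (C.card : ℝ)) := by
    refine le_trans ?_ hF
    unfold FF
    refine le_add_of_nonneg_right (sum_nonneg fun x _ => sum_nonneg fun y _ => ?_)
    split_ifs
    · exact le_rfl
    · exact sq_nonneg _
  have hFb : (∑ x : {u // u ∈ U} ⊕ {k // k ∈ C}, ∑ y : {u // u ∈ U} ⊕ {k // k ∈ C},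
      if x = y then 0 else
      (1 / ((M : ℝ) * τ) * X U (fun u z => Ok u z ∧ In Col x u z ∧ In Col y u z) Λ) ^ 2)
      ≤ η ^ 2 * ((U.card : ℝ) + (C.card : ℝ)) := by
    refine le_trans ?_ hF
    unfold FF
    exact le_add_of_nonneg_left (sum_nonneg fun x _ => sq_nonneg _)
  have h1 : ∑ v, |Pool.Agent.Nibble.deg (eE U C Col Λ) (wW U Ok τ Λ) v - 1|
      ≤ η * (Fintype.card ({u // u ∈ U} ⊕ {k // k ∈ C}) : ℝ) := by
    have h2 : ∀ v ∈ (univ : Finset ({u // u ∈ U} ⊕ {k // k ∈ C})),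
        |Pool.Agent.Nibble.deg (eE U C Col Λ) (wW U Ok τ Λ) v - 1|
        ≤ (1 / (2 * η)) * (1 / ((M : ℝ) * τ) * X U (fun u z => Ok u z ∧ In Col v u z) Λ - 1) ^ 2
          + η / 2 := by
      intro v _
      rw [deg_eq]
      set t := 1 / ((M : ℝ) * τ) * X U (fun u z => Ok u z ∧ In Col v u z) Λ - 1 with ht
      have h3 : (1 / (2 * η)) * t ^ 2 + η / 2 - |t| = (1 / (2 * η)) * (|t| - η) ^ 2 := by
        rw [← sq_abs t]
        field_simp
        ring
      have h4 : 0 ≤ (1 / (2 * η)) * (|t| - η) ^ 2 := by positivity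
      linarith
    refine (sum_le_sum h2).trans ?_
    rw [sum_add_distrib, ← mul_sum, sum_const, card_univ, nsmul_eq_mul, hcardV]
    have h5 := mul_le_mul_of_nonneg_left hFa (by positivity : (0 : ℝ) ≤ 1 / (2 * η))
    have h6 : (1 / (2 * η)) * (η ^ 2 * ((U.card : ℝ) + (C.card : ℝ)))
        = η / 2 * ((U.card : ℝ) + (C.card : ℝ)) := by
      field_simp
    linarith
  have h2 : ∑ i, (if ∃ u ∈ eE U C Col Λ i, ∃ v ∈ eE U C Col Λ i, u ≠ v ∧
        η < Pool.Agent.Nibble.cod (eE U C Col Λ) (wW U Ok τ Λ) u v then wW U Ok τ Λ i else 0)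
      ≤ η * (Fintype.card ({u // u ∈ U} ⊕ {k // k ∈ C}) : ℝ) := by
    have h3 : ∀ i ∈ (univ : Finset ({u // u ∈ U} × Fin M)),
        (if ∃ u ∈ eE U C Col Λ i, ∃ v ∈ eE U C Col Λ i, u ≠ v ∧
        η < Pool.Agent.Nibble.cod (eE U C Col Λ) (wW U Ok τ Λ) u v then wW U Ok τ Λ i else 0)
        ≤ ∑ x : {u // u ∈ U} ⊕ {k // k ∈ C}, ∑ y : {u // u ∈ U} ⊕ {k // k ∈ C},
          if (x ≠ y ∧ η < Pool.Agent.Nibble.cod (eE U C Col Λ) (wW U Ok τ Λ) x y) then
            (if x ∈ eE U C Col Λ i ∧ y ∈ eE U C Col Λ i then wW U Ok τ Λ i else 0) else 0 := by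
      intro i _
      have hnn : ∀ x y : {u // u ∈ U} ⊕ {k // k ∈ C}, 0 ≤
          if (x ≠ y ∧ η < Pool.Agent.Nibble.cod (eE U C Col Λ) (wW U Ok τ Λ) x y) then
            (if x ∈ eE U C Col Λ i ∧ y ∈ eE U C Col Λ i then wW U Ok τ Λ i else 0) else 0 := by
        intro x y
        split_ifs
        · exact hw0 i
        · exact le_rfl
        · exact le_rfl
      split_ifs with hex
      · obtain ⟨x, hx, y, hy, hxy, hc⟩ := hex
        have g1 := single_le_sum (f := fun y : {u // u ∈ U} ⊕ {k // k ∈ C} =>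
          if (x ≠ y ∧ η < Pool.Agent.Nibble.cod (eE U C Col Λ) (wW U Ok τ Λ) x y) then
            (if x ∈ eE U C Col Λ i ∧ y ∈ eE U C Col Λ i then wW U Ok τ Λ i else 0) else 0)
          (fun y _ => hnn x y) (mem_univ y)
        have g2 := single_le_sum (f := fun x : {u // u ∈ U} ⊕ {k // k ∈ C} =>
          ∑ y : {u // u ∈ U} ⊕ {k // k ∈ C},
          if (x ≠ y ∧ η < Pool.Agent.Nibble.cod (eE U C Col Λ) (wW U Ok τ Λ) x y) then
            (if x ∈ eE U C Col Λ i ∧ y ∈ eE U C Col Λ i then wW U Ok τ Λ i else 0) else 0)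
          (fun x _ => sum_nonneg fun y _ => hnn x y) (mem_univ x)
        refine le_trans (le_of_eq ?_) (g1.trans g2)
        show _ = if (x ≠ y ∧ η < Pool.Agent.Nibble.cod (eE U C Col Λ) (wW U Ok τ Λ) x y) then
            (if x ∈ eE U C Col Λ i ∧ y ∈ eE U C Col Λ i then wW U Ok τ Λ i else 0) else 0
        rw [if_pos ⟨hxy, hc⟩, if_pos ⟨hx, hy⟩]
      · exact sum_nonneg fun x _ => sum_nonneg fun y _ => hnn x y
    refine (sum_le_sum h3).trans ?_
    rw [sum_comm]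
    have h4 : ∀ x ∈ (univ : Finset ({u // u ∈ U} ⊕ {k // k ∈ C})),
        (∑ i, ∑ y : {u // u ∈ U} ⊕ {k // k ∈ C},
          if (x ≠ y ∧ η < Pool.Agent.Nibble.cod (eE U C Col Λ) (wW U Ok τ Λ) x y) then
            (if x ∈ eE U C Col Λ i ∧ y ∈ eE U C Col Λ i then wW U Ok τ Λ i else 0) else 0)
        ≤ ∑ y : {u // u ∈ U} ⊕ {k // k ∈ C}, (1 / η) * (if x = y then 0 else
          (1 / ((M : ℝ) * τ) * X U (fun u z => Ok u z ∧ In Col x u z ∧ In Col y u z) Λ) ^ 2) := by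
      intro x _
      rw [sum_comm]
      refine sum_le_sum fun y _ => ?_
      by_cases hxy : x = y
      · simp [hxy]
      · rw [if_neg hxy]
        by_cases hc : η < Pool.Agent.Nibble.cod (eE U C Col Λ) (wW U Ok τ Λ) x y
        · simp only [ne_eq, hxy, not_false_eq_true, hc, and_self, if_true]
          have g1 : (∑ i, if x ∈ eE U C Col Λ i ∧ y ∈ eE U C Col Λ i then wW U Ok τ Λ i else 0)
              = Pool.Agent.Nibble.cod (eE U C Col Λ) (wW U Ok τ Λ) x y := rfl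
          rw [g1]
          rw [cod_eq] at hc ⊢
          set t := 1 / ((M : ℝ) * τ) * X U (fun u z => Ok u z ∧ In Col x u z ∧ In Col y u z) Λ
          have g2 : 1 ≤ (1 / η) * t := by
            rw [one_div, inv_mul_eq_div, le_div_iff₀ hη]
            linarith
          have g3 : 0 ≤ t := le_trans hη.le hc.le
          nlinarith [mul_le_mul_of_nonneg_right g2 g3]
        · have g1 : ¬ (x ≠ y ∧ η < Pool.Agent.Nibble.cod (eE U C Col Λ) (wW U Ok τ Λ) x y) :=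
            fun hh => hc hh.2
          simp only [g1, if_false, sum_const_zero]
          positivity
    refine (sum_le_sum h4).trans ?_
    simp only [← mul_sum]
    have h5 := mul_le_mul_of_nonneg_left hFb (by positivity : (0 : ℝ) ≤ 1 / η)
    have h6 : (1 / η) * (η ^ 2 * ((U.card : ℝ) + (C.card : ℝ)))
        = η * ((U.card : ℝ) + (C.card : ℝ)) := by
      field_simp
    rw [h6] at h5
    rw [hcardV]
    exact h5
  have h3 : 1 ≤ η * (Fintype.card ({u // u ∈ U} ⊕ {k // k ∈ C}) : ℝ) := by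
    rw [hcardV]
    have : 0 ≤ η * (C.card : ℝ) := by positivity
    linarith
  obtain ⟨S, hS1, hS2, hS3⟩ := hnib ({u // u ∈ U} ⊕ {k // k ∈ C}) ({u // u ∈ U} × Fin M)
    (eE U C Col Λ) (wW U Ok τ Λ) hw0 hcard h1 h2 h3
  have hdis : ∀ (u u' : {u // u ∈ U}) (m m' : Fin M), u ≠ u' → (u, m) ∈ S → (u', m') ∈ S →
      Disjoint (Col u.1 (Λ u.1 m)) (Col u'.1 (Λ u'.1 m')) := by
    intro u u' m m' hne h4 h5
    have h6 := hS2 (u, m) h4 (u', m') h5 (fun hh => hne (congrArg Prod.fst hh))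
    rw [disjoint_left] at h6 ⊢
    intro k hk hk'
    have hkC : k ∈ C := (hcol u.1 u.2 _ (hwOk (u, m) (hS1 _ h4))).2 hk
    refine @h6 (Sum.inr ⟨k, hkC⟩) ?_ ?_
    · simp only [eE, mem_filter, mem_univ, true_and]
      exact hk
    · simp only [eE, mem_filter, mem_univ, true_and]
      exact hk'
  let T : Finset V := U.filter fun u => ∃ (hu : u ∈ U) (m : Fin M), ((⟨u, hu⟩ : {u // u ∈ U}), m) ∈ S
  let mm : V → Fin M := fun u =>
    if h : ∃ (hu : u ∈ U) (m : Fin M), ((⟨u, hu⟩ : {u // u ∈ U}), m) ∈ S then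
      h.choose_spec.choose else ⟨0, hM⟩
  have hmm : ∀ u ∈ T, ∃ hu : u ∈ U, ((⟨u, hu⟩ : {u // u ∈ U}), mm u) ∈ S := by
    intro u hu
    have h4 := (mem_filter.1 hu).2
    refine ⟨(mem_filter.1 hu).1, ?_⟩
    have h5 := h4.choose_spec.choose_spec
    have h6 : mm u = h4.choose_spec.choose := dif_pos h4
    rw [h6]
    exact h5
  refine ⟨T, mm, filter_subset _ _, ?_, ?_, ?_⟩
  · intro u hu
    obtain ⟨hu1, hu2⟩ := hmm u hu
    exact hwOk _ (hS1 _ hu2)
  · intro u hu u' hu' hne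
    obtain ⟨hu1, hu2⟩ := hmm u hu
    obtain ⟨hu1', hu2'⟩ := hmm u' hu'
    exact hdis ⟨u, hu1⟩ ⟨u', hu1'⟩ _ _ (fun hh => hne (congrArg Subtype.val hh)) hu2 hu2'
  · have h4 : (U \ T).card ≤ (univ.filter fun v : {u // u ∈ U} ⊕ {k // k ∈ C} =>
        ∀ i ∈ S, v ∉ eE U C Col Λ i).card := by
      have h5 : (U \ T) ⊆ ((univ.filter fun v : {u // u ∈ U} ⊕ {k // k ∈ C} =>
        ∀ i ∈ S, v ∉ eE U C Col Λ i).image (Sum.elim (fun u => some u.1) fun _ => none)).eraseNone := by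
        intro u hu
        rw [mem_eraseNone, mem_image]
        rw [mem_sdiff] at hu
        refine ⟨Sum.inl ⟨u, hu.1⟩, ?_, rfl⟩
        rw [mem_filter]
        refine ⟨mem_univ _, fun i hi hmem => hu.2 ?_⟩
        simp only [eE, mem_filter, mem_univ, true_and] at hmem
        have h6 : i.1.1 = u := hmem
        rw [mem_filter]
        refine ⟨hu.1, hu.1, i.2, ?_⟩
        have h7 : i = ((⟨u, hu.1⟩ : {u // u ∈ U}), i.2) := Prod.ext (Subtype.ext h6) rfl
        rw [← h7]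
        exact hi
      refine (card_le_card h5).trans ?_
      exact (card_eraseNone_le _).trans card_image_le
    have h5 : ((U \ T).card : ℝ) ≤ γ / (1 + 2 * (d : ℝ)) * ((U.card : ℝ) + (C.card : ℝ)) := by
      rw [← hcardV]
      exact le_trans (by exact_mod_cast h4) hS3
    refine h5.trans ?_
    have h6 : (U.card : ℝ) + (C.card : ℝ) ≤ (1 + 2 * (d : ℝ)) * (U.card : ℝ) := by linarith
    have h7 := mul_le_mul_of_nonneg_left h6 (by positivity : 0 ≤ γ / (1 + 2 * (d : ℝ)))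
    refine h7.trans (le_of_eq ?_)
    field_simp

theorem pr_false {Ω : Type} [Fintype Ω] {Q : Ω → Prop} (h : ∀ x, ¬ Q x) : pr Q = 0 := by
  unfold pr av
  simp [h]

theorem P_single {U : Finset V} {R Q : V → Fin n → Prop} {u0 : V} (h0 : u0 ∈ U)
    (h : ∀ u z, R u z ↔ (u = u0 ∧ Q u z)) : P U R = pr (Q u0) := by
  unfold P
  rw [sum_eq_single u0]
  · exact pr_congr fun z => by simp [h]
  · intro b _ hb
    exact pr_false fun z hz => hb ((h b z).1 hz).1
  · intro hh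
    exact absurd h0 hh

theorem sum_ind {C D : Finset (Fin K)} (h : D ⊆ C) : ∑ k ∈ C, ind (k ∈ D) = (D.card : ℝ) := by
  have h1 : C.filter (fun k => k ∈ D) = D := by
    ext k
    rw [mem_filter]
    exact ⟨fun hh => hh.2, fun hh => ⟨h hh, hh⟩⟩
  have h2 : ∑ k ∈ C, ind (k ∈ D) = ∑ k ∈ C, if k ∈ D then (1 : ℝ) else 0 :=
    sum_congr rfl fun k _ => by unfold ind; congr
  rw [h2, sum_boole, h1]

theorem sum_pk {C : Finset (Fin K)} {d : ℕ} {O : Fin n → Prop} {L : Fin n → Finset (Fin K)}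
    (h : ∀ z, O z → (L z).card = d ∧ L z ⊆ C) :
    ∑ k ∈ C, pr (fun z => O z ∧ k ∈ L z) = (d : ℝ) * pr O := by
  have h1 : ∑ k ∈ C, pr (fun z => O z ∧ k ∈ L z)
      = av fun z => ∑ k ∈ C, ind (O z ∧ k ∈ L z) := by
    rw [av_sum C (fun k z => ind (O z ∧ k ∈ L z))]
    rfl
  rw [h1, pr_ind, ← av_mul]
  congr 1
  funext z
  by_cases hz : O z
  · have h2 : ∑ k ∈ C, ind (O z ∧ k ∈ L z) = ∑ k ∈ C, ind (k ∈ L z) :=
      sum_congr rfl fun k _ => by simp [ind, hz]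
    rw [h2, sum_ind (h z hz).2, (h z hz).1]
    simp [ind, hz]
  · simp [ind, hz]

theorem sum_pkl {C : Finset (Fin K)} {d : ℕ} {O : Fin n → Prop} {L : Fin n → Finset (Fin K)}
    (h : ∀ z, O z → (L z).card = d ∧ L z ⊆ C) :
    ∑ k ∈ C, ∑ l ∈ C, pr (fun z => O z ∧ k ∈ L z ∧ l ∈ L z) = (d : ℝ) ^ 2 * pr O := by
  have h1 : ∑ k ∈ C, ∑ l ∈ C, pr (fun z => O z ∧ k ∈ L z ∧ l ∈ L z)
      = av fun z => ∑ k ∈ C, ∑ l ∈ C, ind (O z ∧ k ∈ L z ∧ l ∈ L z) := by
    rw [av_sum C (fun k z => ∑ l ∈ C, ind (O z ∧ k ∈ L z ∧ l ∈ L z))]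
    refine sum_congr rfl fun k _ => ?_
    rw [av_sum C (fun l z => ind (O z ∧ k ∈ L z ∧ l ∈ L z))]
    rfl
  rw [h1, pr_ind, ← av_mul]
  congr 1
  funext z
  by_cases hz : O z
  · have h2 : ∑ k ∈ C, ∑ l ∈ C, ind (O z ∧ k ∈ L z ∧ l ∈ L z)
        = (∑ k ∈ C, ind (k ∈ L z)) * (∑ l ∈ C, ind (l ∈ L z)) := by
      rw [sum_mul_sum]
      refine sum_congr rfl fun k _ => sum_congr rfl fun l _ => ?_
      by_cases h3 : k ∈ L z <;> by_cases h4 : l ∈ L z <;> simp [ind, hz, h3, h4]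
    rw [h2, sum_ind (h z hz).2, (h z hz).1]
    simp [ind, hz]
    ring
  · simp [ind, hz]

theorem av_FF [Nonempty (Fin n)] (hMpos : 0 < (M : ℝ)) (d : ℕ) (hd : 1 ≤ d) (U : Finset V)
    (C : Finset (Fin K))
    (Ok : V → Fin n → Prop) (Col : V → Fin n → Finset (Fin K)) (τ δ : ℝ) (hδ : 0 < δ)
    (hδ1 : δ ≤ 1 / 2) (hτ : 0 < τ)
    (hcol : ∀ u ∈ U, ∀ z, Ok u z → (Col u z).card = d ∧ Col u z ⊆ C)
    (hM : 1 ≤ δ * (M : ℝ) * τ)
    (hC : |(C.card : ℝ) - (d : ℝ) * (U.card : ℝ)| ≤ δ * (C.card : ℝ))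
    (hp : ∀ u ∈ U, |pr (Ok u) - τ| ≤ δ * τ)
    (h2 : ∑ k, (∑ u ∈ U, pr (fun z => Ok u z ∧ k ∈ Col u z)) ^ 2 ≤ (1 + δ) * τ ^ 2 * (C.card : ℝ))
    (h22 : ∑ k, ∑ l ∈ univ.erase k,
        (∑ u ∈ U, pr (fun z => Ok u z ∧ k ∈ Col u z ∧ l ∈ Col u z)) ^ 2
          ≤ δ * τ ^ 2 * (C.card : ℝ))
    (h1 : ∀ u ∈ U, ∑ k, (pr (fun z => Ok u z ∧ k ∈ Col u z)) ^ 2 ≤ δ * τ ^ 2) :
    av (fun Λ : V → Fin M → Fin n => FF U C Ok Col τ Λ)
      ≤ 10 * (d : ℝ) ^ 2 * δ * ((U.card : ℝ) + (C.card : ℝ)) := by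
  have hd1 : (1 : ℝ) ≤ d := by exact_mod_cast hd
  have hU0 : (0 : ℝ) ≤ U.card := Nat.cast_nonneg _
  have hC0 : (0 : ℝ) ≤ C.card := Nat.cast_nonneg _
  -- bounds for the sum of the probabilities
  have hpu : ∀ u ∈ U, pr (Ok u) / τ ≤ 1 + δ ∧ 1 - δ ≤ pr (Ok u) / τ := by
    intro u hu
    have := abs_le.1 (hp u hu)
    constructor
    · rw [div_le_iff₀ hτ]; linarith [this.2]
    · rw [le_div_iff₀ hτ]; linarith [this.1]
  -- the sum over the vertices
  have hA : ∑ x : {u // u ∈ U} ⊕ {k // k ∈ C},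
      (δ * (P U (fun u z => Ok u z ∧ In Col x u z) / τ)
        + (P U (fun u z => Ok u z ∧ In Col x u z) / τ - 1) ^ 2)
      ≤ 2 * δ * (U.card : ℝ) + 9 * δ * (C.card : ℝ) := by
    rw [Fintype.sum_sum_type]
    refine add_le_add ?_ ?_
    · have h3 : ∀ u ∈ (univ : Finset {u // u ∈ U}),
          (δ * (P U (fun u' z => Ok u' z ∧ In (C := C) Col (Sum.inl u) u' z) / τ)
        + (P U (fun u' z => Ok u' z ∧ In (C := C) Col (Sum.inl u) u' z) / τ - 1) ^ 2) ≤ 2 * δ := by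
        intro u _
        rw [P_single (Q := Ok) u.2 (fun u' z => by
          show (Ok u' z ∧ u' = u.1) ↔ _
          tauto)]
        obtain ⟨g1, g2⟩ := hpu u.1 u.2
        nlinarith [mul_nonneg (sub_nonneg.2 g1) (sub_nonneg.2 g2)]
      refine (sum_le_sum h3).trans (le_of_eq ?_)
      rw [sum_const, card_univ, Fintype.card_coe, nsmul_eq_mul]
      ring
    · have h3 : ∑ k : {k // k ∈ C},
          (δ * (P U (fun u z => Ok u z ∧ In (U := U) Col (Sum.inr k) u z) / τ)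
        + (P U (fun u z => Ok u z ∧ In (U := U) Col (Sum.inr k) u z) / τ - 1) ^ 2)
          = ∑ k ∈ C, (δ * ((∑ u ∈ U, pr (fun z => Ok u z ∧ k ∈ Col u z)) / τ)
            + ((∑ u ∈ U, pr (fun z => Ok u z ∧ k ∈ Col u z)) / τ - 1) ^ 2) :=
        sum_coe_sort C (fun k => (δ * ((∑ u ∈ U, pr (fun z => Ok u z ∧ k ∈ Col u z)) / τ)
            + ((∑ u ∈ U, pr (fun z => Ok u z ∧ k ∈ Col u z)) / τ - 1) ^ 2))
      rw [h3]
      set hh : Fin K → ℝ := fun k => (∑ u ∈ U, pr (fun z => Ok u z ∧ k ∈ Col u z)) / τ with hhh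
      have g1 : ∑ k ∈ C, hh k = (d : ℝ) * ∑ u ∈ U, pr (Ok u) / τ := by
        simp only [hhh]
        rw [← sum_div, sum_comm, sum_congr rfl fun u hu => sum_pk (hcol u hu), ← mul_sum,
          ← sum_div, mul_div_assoc]
      have g2 : ∑ k ∈ C, hh k ^ 2 ≤ (1 + δ) * (C.card : ℝ) := by
        have g3 : ∑ k ∈ C, hh k ^ 2 ≤ ∑ k, hh k ^ 2 :=
          sum_le_sum_of_subset_of_nonneg (subset_univ _) fun _ _ _ => sq_nonneg _
        refine g3.trans ?_
        simp only [hhh, div_pow]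
        rw [← sum_div, div_le_iff₀ (by positivity)]
        linarith
      have g3 : (1 - δ) * (U.card : ℝ) ≤ ∑ u ∈ U, pr (Ok u) / τ := by
        have := sum_le_sum fun u hu => (hpu u hu).2
        rw [sum_const, nsmul_eq_mul] at this
        linarith
      have g4 : (1 - δ) * (C.card : ℝ) ≤ (d : ℝ) * (U.card : ℝ) := by
        linarith [(abs_le.1 hC).2]
      have g5 : (1 - δ) ^ 2 * (C.card : ℝ) ≤ ∑ k ∈ C, hh k := by
        rw [g1]
        have g6 := mul_le_mul_of_nonneg_left g3 (by linarith : (0 : ℝ) ≤ d)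
        have g7 := mul_le_mul_of_nonneg_left g4 (by linarith : (0 : ℝ) ≤ 1 - δ)
        nlinarith
      have g6 : ∑ k ∈ C, (δ * hh k + (hh k - 1) ^ 2)
          = ∑ k ∈ C, hh k ^ 2 - (2 - δ) * ∑ k ∈ C, hh k + (C.card : ℝ) := by
        rw [mul_sum, ← sum_sub_distrib]
        have : (C.card : ℝ) = ∑ k ∈ C, (1 : ℝ) := by simp
        rw [this, ← sum_add_distrib]
        refine sum_congr rfl fun k _ => ?_
        ring
      refine (le_of_eq g6).trans ?_
      have g7 := mul_le_mul_of_nonneg_left g5 (by linarith : (0 : ℝ) ≤ 2 - δ)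
      have g8 : 2 - 5 * δ ≤ (2 - δ) * (1 - δ) ^ 2 := by nlinarith [sq_nonneg δ]
      have g9 := mul_le_mul_of_nonneg_right g8 hC0
      have g10 : 0 ≤ δ * (C.card : ℝ) := mul_nonneg hδ.le hC0
      nlinarith
  have hB : ∑ x : {u // u ∈ U} ⊕ {k // k ∈ C}, ∑ y : {u // u ∈ U} ⊕ {k // k ∈ C},
      (if x = y then 0 else
      (δ * (P U (fun u z => Ok u z ∧ In Col x u z ∧ In Col y u z) / τ)
        + (P U (fun u z => Ok u z ∧ In Col x u z ∧ In Col y u z) / τ) ^ 2))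
      ≤ (6 * d + 2 * d ^ 2) * δ * (U.card : ℝ) + δ * (C.card : ℝ) := by
    have hrow : ∀ u ∈ U, ∑ k ∈ C, (δ * (pr (fun z => Ok u z ∧ k ∈ Col u z) / τ)
        + (pr (fun z => Ok u z ∧ k ∈ Col u z) / τ) ^ 2) ≤ 3 * d * δ := by
      intro u hu
      rw [sum_add_distrib, ← mul_sum, ← sum_div, sum_pk (hcol u hu)]
      have g1 : ∑ k ∈ C, (pr (fun z => Ok u z ∧ k ∈ Col u z) / τ) ^ 2 ≤ δ := by
        have g3 : ∑ k ∈ C, (pr (fun z => Ok u z ∧ k ∈ Col u z) / τ) ^ 2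
            ≤ ∑ k, (pr (fun z => Ok u z ∧ k ∈ Col u z) / τ) ^ 2 :=
          sum_le_sum_of_subset_of_nonneg (subset_univ _) fun _ _ _ => sq_nonneg _
        refine g3.trans ?_
        simp only [div_pow]
        rw [← sum_div, div_le_iff₀ (by positivity)]
        exact h1 u hu
      have g2 : (d : ℝ) * pr (Ok u) / τ = d * (pr (Ok u) / τ) := by ring
      rw [g2]
      have g4 := mul_le_mul_of_nonneg_left (hpu u hu).1 (by positivity : (0 : ℝ) ≤ δ * d)
      have g5 := mul_le_mul_of_nonneg_left hδ1 (by positivity : (0 : ℝ) ≤ δ * d)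
      have g6 := mul_le_mul_of_nonneg_left hd1 hδ.le
      have g7 : δ * ((d : ℝ) * (pr (Ok u) / τ)) = δ * (d : ℝ) * (pr (Ok u) / τ) := by ring
      rw [g7]
      have g8 : δ * (d : ℝ) * (1 + δ) = δ * d + δ * d * δ := by ring
      nlinarith
    rw [Fintype.sum_sum_type]
    have hl : ∀ u ∈ (univ : Finset {u // u ∈ U}), (∑ y : {u // u ∈ U} ⊕ {k // k ∈ C},
        (if Sum.inl u = y then 0 else
        (δ * (P U (fun u' z => Ok u' z ∧ In Col (Sum.inl u : {u // u ∈ U} ⊕ {k // k ∈ C}) u' z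
            ∧ In Col y u' z) / τ)
        + (P U (fun u' z => Ok u' z ∧ In Col (Sum.inl u : {u // u ∈ U} ⊕ {k // k ∈ C}) u' z
            ∧ In Col y u' z) / τ) ^ 2))) ≤ 3 * d * δ := by
      intro u _
      rw [Fintype.sum_sum_type]
      have g1 : (∑ u' : {u // u ∈ U},
        (if (Sum.inl u : {u // u ∈ U} ⊕ {k // k ∈ C}) = Sum.inl u' then 0 else
        (δ * (P U (fun u'' z => Ok u'' z ∧ In Col (Sum.inl u : {u // u ∈ U} ⊕ {k // k ∈ C}) u'' z
            ∧ In Col (Sum.inl u' : {u // u ∈ U} ⊕ {k // k ∈ C}) u'' z) / τ)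
        + (P U (fun u'' z => Ok u'' z ∧ In Col (Sum.inl u : {u // u ∈ U} ⊕ {k // k ∈ C}) u'' z
            ∧ In Col (Sum.inl u' : {u // u ∈ U} ⊕ {k // k ∈ C}) u'' z) / τ) ^ 2))) = 0 := by
        refine sum_eq_zero fun u' _ => ?_
        split_ifs with h3
        · rfl
        · have g2 : P U (fun u'' z => Ok u'' z ∧
              In Col (Sum.inl u : {u // u ∈ U} ⊕ {k // k ∈ C}) u'' z
              ∧ In Col (Sum.inl u' : {u // u ∈ U} ⊕ {k // k ∈ C}) u'' z) = 0 := by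
            unfold P
            refine sum_eq_zero fun u'' _ => pr_false fun z hz => h3 ?_
            have g3 : u'' = u.1 := hz.2.1
            have g4 : u'' = u'.1 := hz.2.2
            rw [Subtype.ext (g3.symm.trans g4)]
          rw [g2]
          norm_num
      rw [g1, zero_add]
      refine le_trans (le_of_eq ?_) (hrow u.1 u.2)
      rw [← sum_coe_sort C]
      refine sum_congr rfl fun k _ => ?_
      rw [if_neg (by simp)]
      rw [P_single (Q := fun u' z => Ok u' z ∧ k.1 ∈ Col u' z) u.2 (fun u' z => by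
          show (Ok u' z ∧ u' = u.1 ∧ k.1 ∈ Col u' z) ↔ _
          tauto)]
    have hr : ∀ k ∈ (univ : Finset {k // k ∈ C}), (∑ y : {u // u ∈ U} ⊕ {k // k ∈ C},
        (if Sum.inr k = y then 0 else
        (δ * (P U (fun u' z => Ok u' z ∧ In Col (Sum.inr k : {u // u ∈ U} ⊕ {k // k ∈ C}) u' z
            ∧ In Col y u' z) / τ)
        + (P U (fun u' z => Ok u' z ∧ In Col (Sum.inr k : {u // u ∈ U} ⊕ {k // k ∈ C}) u' z
            ∧ In Col y u' z) / τ) ^ 2)))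
        ≤ (∑ u : {u // u ∈ U}, (δ * (pr (fun z => Ok u.1 z ∧ k.1 ∈ Col u.1 z) / τ)
        + (pr (fun z => Ok u.1 z ∧ k.1 ∈ Col u.1 z) / τ) ^ 2)) +
        ∑ l ∈ C, (δ * ((∑ u ∈ U, pr (fun z => Ok u z ∧ k.1 ∈ Col u z ∧ l ∈ Col u z)) / τ)
          + (if k.1 = l then 0 else
            ((∑ u ∈ U, pr (fun z => Ok u z ∧ k.1 ∈ Col u z ∧ l ∈ Col u z)) / τ) ^ 2)) := by
      intro k _
      rw [Fintype.sum_sum_type]
      refine add_le_add (le_of_eq ?_) ?_
      · refine sum_congr rfl fun u _ => ?_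
        rw [if_neg (by simp)]
        rw [P_single (Q := fun u' z => Ok u' z ∧ k.1 ∈ Col u' z) u.2 (fun u' z => by
          show (Ok u' z ∧ k.1 ∈ Col u' z ∧ u' = u.1) ↔ _
          tauto)]
      · rw [← sum_coe_sort C]
        refine sum_le_sum fun l _ => ?_
        by_cases hkl : k = l
        · subst hkl
          rw [if_pos rfl, if_pos rfl, add_zero]
          have : 0 ≤ ∑ u ∈ U, pr (fun z => Ok u z ∧ k.1 ∈ Col u z ∧ k.1 ∈ Col u z) :=
            sum_nonneg fun _ _ => pr_nonneg _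
          positivity
        · rw [if_neg (fun hh => hkl (Sum.inr.inj hh)), if_neg (fun hh => hkl (Subtype.ext hh))]
          exact le_rfl
    refine (add_le_add (sum_le_sum hl) (sum_le_sum hr)).trans ?_
    rw [sum_add_distrib, sum_const, card_univ, Fintype.card_coe, nsmul_eq_mul]
    have q1 : (∑ k : {k // k ∈ C}, ∑ u : {u // u ∈ U},
        (δ * (pr (fun z => Ok u.1 z ∧ k.1 ∈ Col u.1 z) / τ)
        + (pr (fun z => Ok u.1 z ∧ k.1 ∈ Col u.1 z) / τ) ^ 2)) ≤ (U.card : ℝ) * (3 * d * δ) := by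
      rw [sum_comm]
      have g1 : ∀ u ∈ (univ : Finset {u // u ∈ U}), (∑ k : {k // k ∈ C},
          (δ * (pr (fun z => Ok u.1 z ∧ k.1 ∈ Col u.1 z) / τ)
          + (pr (fun z => Ok u.1 z ∧ k.1 ∈ Col u.1 z) / τ) ^ 2)) ≤ 3 * d * δ := by
        intro u _
        refine le_trans (le_of_eq ?_) (hrow u.1 u.2)
        exact sum_coe_sort C (fun k => (δ * (pr (fun z => Ok u.1 z ∧ k ∈ Col u.1 z) / τ)
          + (pr (fun z => Ok u.1 z ∧ k ∈ Col u.1 z) / τ) ^ 2))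
      refine (sum_le_sum g1).trans (le_of_eq ?_)
      rw [sum_const, card_univ, Fintype.card_coe, nsmul_eq_mul]
    have q2 : (∑ k : {k // k ∈ C}, ∑ l ∈ C,
        (δ * ((∑ u ∈ U, pr (fun z => Ok u z ∧ k.1 ∈ Col u z ∧ l ∈ Col u z)) / τ)
          + (if k.1 = l then 0 else
            ((∑ u ∈ U, pr (fun z => Ok u z ∧ k.1 ∈ Col u z ∧ l ∈ Col u z)) / τ) ^ 2)))
        ≤ 2 * d ^ 2 * δ * (U.card : ℝ) + δ * (C.card : ℝ) := by
      have g0 := sum_coe_sort C (fun k => ∑ l ∈ C,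
        (δ * ((∑ u ∈ U, pr (fun z => Ok u z ∧ k ∈ Col u z ∧ l ∈ Col u z)) / τ)
          + (if k = l then 0 else
            ((∑ u ∈ U, pr (fun z => Ok u z ∧ k ∈ Col u z ∧ l ∈ Col u z)) / τ) ^ 2)))
      rw [g0]
      simp only [sum_add_distrib, ← mul_sum]
      refine add_le_add ?_ ?_
      · have g1 : ∑ k ∈ C, ∑ l ∈ C,
            (∑ u ∈ U, pr (fun z => Ok u z ∧ k ∈ Col u z ∧ l ∈ Col u z)) / τ
            = (d : ℝ) ^ 2 * ∑ u ∈ U, pr (Ok u) / τ := by
          simp only [← sum_div]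
          have g2 : ∑ k ∈ C, ∑ l ∈ C, ∑ u ∈ U, pr (fun z => Ok u z ∧ k ∈ Col u z ∧ l ∈ Col u z)
              = ∑ u ∈ U, ∑ k ∈ C, ∑ l ∈ C, pr (fun z => Ok u z ∧ k ∈ Col u z ∧ l ∈ Col u z) := by
            rw [sum_comm]
            rw [sum_congr rfl fun l _ => sum_comm]
            rw [sum_comm]
            refine sum_congr rfl fun u _ => ?_
            rw [sum_comm]
          rw [g2, sum_congr rfl fun u hu => sum_pkl (hcol u hu), ← mul_sum, mul_div_assoc]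
        rw [g1]
        have g3 : ∑ u ∈ U, pr (Ok u) / τ ≤ 2 * (U.card : ℝ) := by
          have := sum_le_sum fun u hu => (hpu u hu).1
          rw [sum_const, nsmul_eq_mul] at this
          nlinarith
        have g4 := mul_le_mul_of_nonneg_left g3 (by positivity : (0 : ℝ) ≤ δ * (d : ℝ) ^ 2)
        nlinarith
      · have g1 : ∑ k ∈ C, ∑ l ∈ C, (if k = l then (0 : ℝ) else
            ((∑ u ∈ U, pr (fun z => Ok u z ∧ k ∈ Col u z ∧ l ∈ Col u z)) / τ) ^ 2)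
            ≤ ∑ k, ∑ l ∈ univ.erase k,
            ((∑ u ∈ U, pr (fun z => Ok u z ∧ k ∈ Col u z ∧ l ∈ Col u z)) / τ) ^ 2 := by
          have g2 : ∀ k ∈ C, ∑ l ∈ C, (if k = l then (0 : ℝ) else
            ((∑ u ∈ U, pr (fun z => Ok u z ∧ k ∈ Col u z ∧ l ∈ Col u z)) / τ) ^ 2)
            ≤ ∑ l ∈ univ.erase k,
            ((∑ u ∈ U, pr (fun z => Ok u z ∧ k ∈ Col u z ∧ l ∈ Col u z)) / τ) ^ 2 := by
            intro k _
            have g3 : ∑ l ∈ C, (if k = l then (0 : ℝ) else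
              ((∑ u ∈ U, pr (fun z => Ok u z ∧ k ∈ Col u z ∧ l ∈ Col u z)) / τ) ^ 2)
              = ∑ l ∈ C.erase k, ((∑ u ∈ U, pr (fun z => Ok u z ∧ k ∈ Col u z
                ∧ l ∈ Col u z)) / τ) ^ 2 := by
              have g4 : C.erase k = C.filter (fun l => ¬ k = l) := by
                ext l
                rw [mem_erase, mem_filter]
                constructor
                · exact fun hh => ⟨hh.2, fun h5 => hh.1 h5.symm⟩
                · exact fun hh => ⟨fun h5 => hh.2 h5.symm, hh.1⟩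
              rw [g4, sum_filter]
              refine sum_congr rfl fun l _ => ?_
              by_cases h5 : k = l
              · rw [if_pos h5, if_neg (not_not.2 h5)]
              · rw [if_neg h5, if_pos h5]
            rw [g3]
            exact sum_le_sum_of_subset_of_nonneg (erase_subset_erase k (subset_univ _))
              fun _ _ _ => sq_nonneg _
          refine (sum_le_sum g2).trans ?_
          exact sum_le_sum_of_subset_of_nonneg (subset_univ _)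
              fun _ _ _ => sum_nonneg fun _ _ => sq_nonneg _
        refine g1.trans ?_
        simp only [div_pow, ← sum_div]
        rw [div_le_iff₀ (by positivity)]
        linarith
    nlinarith
  have hE : av (fun Λ : V → Fin M → Fin n => FF U C Ok Col τ Λ) ≤
      (∑ x : {u // u ∈ U} ⊕ {k // k ∈ C},
      (δ * (P U (fun u z => Ok u z ∧ In Col x u z) / τ)
        + (P U (fun u z => Ok u z ∧ In Col x u z) / τ - 1) ^ 2)) +
      ∑ x : {u // u ∈ U} ⊕ {k // k ∈ C}, ∑ y : {u // u ∈ U} ⊕ {k // k ∈ C},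
      (if x = y then 0 else
      (δ * (P U (fun u z => Ok u z ∧ In Col x u z ∧ In Col y u z) / τ)
        + (P U (fun u z => Ok u z ∧ In Col x u z ∧ In Col y u z) / τ) ^ 2)) := by
    unfold FF
    rw [av_add, av_sum univ (fun (x : {u // u ∈ U} ⊕ {k // k ∈ C}) (Λ : V → Fin M → Fin n) =>
      (1 / ((M : ℝ) * τ) * X U (fun u z => Ok u z ∧ In Col x u z) Λ - 1) ^ 2),
      av_sum univ (fun (x : {u // u ∈ U} ⊕ {k // k ∈ C}) (Λ : V → Fin M → Fin n) =>
        ∑ y : {u // u ∈ U} ⊕ {k // k ∈ C}, if x = y then 0 else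
      (1 / ((M : ℝ) * τ) * X U (fun u z => Ok u z ∧ In Col x u z ∧ In Col y u z) Λ) ^ 2)]
    refine add_le_add (sum_le_sum fun x _ => av_Y1 U _ hτ hM hMpos) (sum_le_sum fun x _ => ?_)
    rw [av_sum univ (fun (y : {u // u ∈ U} ⊕ {k // k ∈ C}) (Λ : V → Fin M → Fin n) =>
       if x = y then 0 else
      (1 / ((M : ℝ) * τ) * X U (fun u z => Ok u z ∧ In Col x u z ∧ In Col y u z) Λ) ^ 2)]
    refine sum_le_sum fun y _ => ?_
    split_ifs with hxy
    · simp [av]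
    · exact av_Y2 U _ hτ hM hMpos
  refine hE.trans ((add_le_add hA hB).trans ?_)
  have e1 : 6 * (d : ℝ) + 2 * (d : ℝ) ^ 2 + 2 ≤ 10 * (d : ℝ) ^ 2 := by nlinarith
  have e2 : (10 : ℝ) ≤ 10 * (d : ℝ) ^ 2 := by nlinarith
  have e3 := mul_le_mul_of_nonneg_right e1 (mul_nonneg hδ.le hU0)
  have e4 := mul_le_mul_of_nonneg_right e2 (mul_nonneg hδ.le hC0)
  nlinarith [e3, e4]

end hyper

end BatchAux

open BatAux BatchAux in
theorem prfBatch (h : StNibR) : StBatch := by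
  intro d γ hd hγ
  obtain ⟨η, hη, hN⟩ := h (d + 1) (by omega) (γ / (1 + 2 * (d : ℝ))) (by positivity)
  have hd1 : (1 : ℝ) ≤ d := by exact_mod_cast hd
  have hd0 : (0 : ℝ) < d := by linarith
  refine ⟨min (1 / 2) (min η (η ^ 2 / (40 * (d : ℝ) ^ 2))), by positivity, ?_⟩
  intro V _ U n K M C Ok Col τ hn hτ hcol hM hU hC hp h2 h22 h1
  set δ := min (1 / 2) (min η (η ^ 2 / (40 * (d : ℝ) ^ 2))) with hδdef
  have hδ : 0 < δ := by positivity
  have hδ1 : δ ≤ 1 / 2 := min_le_left _ _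
  have hδ2 : δ ≤ η := (min_le_right _ _).trans (min_le_left _ _)
  have hδ3 : δ ≤ η ^ 2 / (40 * (d : ℝ) ^ 2) := (min_le_right _ _).trans (min_le_right _ _)
  have hne : Nonempty (Fin n) := ⟨⟨0, hn⟩⟩
  have hM0 : 0 < M := by
    rcases Nat.eq_zero_or_pos M with h0 | h0
    · rw [h0] at hM
      norm_num at hM
    · exact h0
  have hMpos : (0 : ℝ) < M := by exact_mod_cast hM0
  have hUpos : (0 : ℝ) < U.card := by
    by_contra hcon
    have h3 : (U.card : ℝ) = 0 := le_antisymm (not_lt.1 hcon) (Nat.cast_nonneg _)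
    rw [h3] at hU
    norm_num at hU
  have hC' : (C.card : ℝ) ≤ 2 * (d : ℝ) * (U.card : ℝ) := by
    have h3 := (abs_le.1 hC).2
    have h4 : (0 : ℝ) ≤ C.card := Nat.cast_nonneg _
    nlinarith
  have hF := av_FF (M := M) hMpos d hd U C Ok Col τ δ hδ hδ1 hτ hcol hM hC hp h2 h22 h1
  have hNpos : 0 < (U.card : ℝ) + (C.card : ℝ) := by positivity
  have hc : 0 < η ^ 2 * ((U.card : ℝ) + (C.card : ℝ)) := by positivity
  -- the complement of the event
  set G : (V → Fin M → Fin n) → Prop := fun Λ => ∃ (T : Finset V) (m : V → Fin M), T ⊆ U ∧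
        (∀ u ∈ T, Ok u (Λ u (m u))) ∧
        (∀ u ∈ T, ∀ u' ∈ T, u ≠ u' → Disjoint (Col u (Λ u (m u))) (Col u' (Λ u' (m u')))) ∧
        ((U \ T).card : ℝ) ≤ γ * (U.card : ℝ) with hG
  have h3 : pr (fun Λ => ¬ G Λ) ≤ av fun Λ : V → Fin M → Fin n =>
      FF U C Ok Col τ Λ / (η ^ 2 * ((U.card : ℝ) + (C.card : ℝ))) := by
    refine pr_le_av (fun Λ => div_nonneg (FF_nonneg _ _ _ _ _ _) hc.le) fun Λ hΛ => ?_
    rw [le_div_iff₀ hc, one_mul]
    by_contra hcon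
    refine hΛ (det d γ η hη hN U C Ok Col τ hτ Λ hcol hC' hγ ?_ hM0 (not_le.1 hcon).le)
    exact hU.trans (mul_le_mul_of_nonneg_right hδ2 hUpos.le)
  have h4 : pr (fun Λ => ¬ G Λ) ≤ 1 / 4 := by
    refine h3.trans ?_
    rw [av_div, div_le_iff₀ hc]
    refine hF.trans ?_
    rw [le_div_iff₀ (by positivity)] at hδ3
    have h5 := mul_le_mul_of_nonneg_right hδ3 hNpos.le
    linarith
  have hneΛ : Nonempty (V → Fin M → Fin n) := ⟨fun _ _ => Classical.arbitrary _⟩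
  have h5 : pr G + pr (fun Λ => ¬ G Λ) = 1 := by
    rw [pr_ind, pr_ind, ← av_add, ← av_const (Ω := V → Fin M → Fin n) 1]
    congr 1
    funext Λ
    by_cases h6 : G Λ <;> simp [BatchAux.ind, h6]
  linarith

end

end Pool.Agent.Lib.MP_b1acb3_co.Dgn
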