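import Pool.Agent.Lib.MP_b1acb3_co.Dgn.Stmts

/-!
MP_b1acb3_co, project DGN, module Core: combination of the schedule and the embedding process.
-/

set_option autoImplicit false

namespace Pool.Agent.Lib.MP_b1acb3_co.Dgn

open Finset Classical

/-- Module Core. -/
theorem prfCore (hS : StSched) (hM : StMain) : StCore := by
  intro D δ hδ
  obtain ⟨Δ, ρ, hΔ, hρ, hρ1, hS1⟩ := hS D δ hδ
  obtain ⟨θ, hθ, hM1⟩ := hM Δ ρ hΔ hρ hρ1
  obtain ⟨bb, sB, hbb, hS2⟩ := hS1 θ hθ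
  obtain ⟨κ, η, hκ, hη, hM2⟩ := hM1 bb hbb
  obtain ⟨a0, ηc, K0, hηc, hS3⟩ := hS2 κ η hκ hη
  obtain ⟨K1, hM3⟩ := hM2 a0 sB
  refine ⟨ηc, max K0 K1, hηc, fun K hK m => ?_⟩
  obtain ⟨n0, hM4⟩ := hM3 K ((le_max_right _ _).trans hK) m
  refine ⟨n0, fun n hn c hc V _ H r hV hr hD he hcod => ?_⟩
  obtain ⟨s, hs⟩ := hS3 K V H r ((le_max_left _ _).trans hK) hr hD he hcod
  exact hM4 n hn c hc V H s hV hs

end Pool.Agent.Lib.MP_b1acb3_co.Dgn
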