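import Pool.Agent.Lib.MP_b1acb3_co.Dgn.Stmts

/-!
MP_b1acb3_co, project DGN, module DegR: sparse random graphs are degenerate.
-/

set_option autoImplicit false

namespace Pool.Agent.Lib.MP_b1acb3_co.Dgn

open Finset Classical

namespace DegRAux

/-- degeneracy from vertices of small degree in every set -/
theorem degen {V : Type} [Fintype V] (G : SimpleGraph V) (D : ℕ)
    (h : ∀ S : Finset V, S.Nonempty → ∃ u ∈ S, (S.filter fun w => G.Adj u w).card ≤ D) :
    ∀ (n : ℕ) (S : Finset V), S.card = n → ∃ r : V → ℕ, Set.InjOn r (S : Set V) ∧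
      (∀ x ∈ S, r x < n) ∧ ∀ x ∈ S, {u | u ∈ S ∧ G.Adj x u ∧ r u < r x}.ncard ≤ D := by
  intro n
  induction n with
  | zero =>
    intro S hS
    rw [Finset.card_eq_zero] at hS
    subst hS
    exact ⟨fun _ => 0, by simp, by simp, by simp⟩
  | succ n ih =>
    intro S hS
    obtain ⟨u, hu, hd⟩ := h S (Finset.card_pos.1 (by omega))
    obtain ⟨r, h1, h2, h3⟩ := ih (S.erase u) (by rw [Finset.card_erase_of_mem hu, hS]; rfl)
    have hne : ∀ x ∈ S, x ≠ u → x ∈ S.erase u := fun x hx hxu => Finset.mem_erase.2 ⟨hxu, hx⟩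
    refine ⟨Function.update r u n, ?_, ?_, ?_⟩
    · intro x hx y hy hxy
      rcases eq_or_ne x u with rfl | hxu
      · rcases eq_or_ne y x with rfl | hyu
        · rfl
        · rw [Function.update_self, Function.update_of_ne hyu] at hxy
          have := h2 y (hne y hy hyu)
          omega
      · rcases eq_or_ne y u with rfl | hyu
        · rw [Function.update_self, Function.update_of_ne hxu] at hxy
          have := h2 x (hne x hx hxu)
          omega
        · rw [Function.update_of_ne hyu, Function.update_of_ne hxu] at hxy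
          exact h1 (by exact_mod_cast hne x hx hxu) (by exact_mod_cast hne y hy hyu) hxy
    · intro x hx
      rcases eq_or_ne x u with rfl | hxu
      · rw [Function.update_self]
        omega
      · rw [Function.update_of_ne hxu]
        have := h2 x (hne x hx hxu)
        omega
    · intro x hx
      rcases eq_or_ne x u with rfl | hxu
      · refine le_trans ?_ hd
        rw [← Set.ncard_coe_finset]
        apply Set.ncard_le_ncard _ (Finset.finite_toSet _)
        rintro w ⟨hw1, hw2, -⟩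
        simp only [Finset.coe_filter, Set.mem_ofPred_eq]
        exact ⟨hw1, hw2⟩
      · refine le_trans ?_ (h3 x (hne x hx hxu))
        apply Set.ncard_le_ncard _ ((Finset.finite_toSet (S.erase u)).subset fun w hw => hw.1)
        rintro w ⟨hw1, hw2, hw3⟩
        have hr := h2 x (hne x hx hxu)
        rcases eq_or_ne w u with rfl | hwu
        · rw [Function.update_self, Function.update_of_ne hxu] at hw3
          omega
        · rw [Function.update_of_ne hwu, Function.update_of_ne hxu] at hw3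
          exact ⟨hne w hw1 hwu, hw2, hw3⟩

/-- few pairs inside every set imply degeneracy -/
theorem degen_of {v m : ℕ} (ω : Fin m → Fin v × Fin v) (D : ℕ)
    (h : ∀ S : Finset (Fin v), S.Nonempty →
      (univ.filter fun i => ω i ∈ S ×ˢ S).card ≤ D * S.card) :
    DegenerateIn (grOf ω) univ (2 * D) := by
  obtain ⟨r, h1, -, h3⟩ := degen (grOf ω) (2 * D) (by
    intro S hS
    by_contra hc
    push Not at hc
    have h4 : ∑ u ∈ S, (S.filter fun w => (grOf ω).Adj u w).card ≤
        2 * (univ.filter fun i => ω i ∈ S ×ˢ S).card := by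
      have h5 : ∑ u ∈ S, (S.filter fun w => (grOf ω).Adj u w).card =
          ((S ×ˢ S).filter fun q => (grOf ω).Adj q.1 q.2).card := by
        rw [Finset.card_filter, Finset.sum_product]
        refine Finset.sum_congr rfl fun u _ => ?_
        rw [Finset.card_filter]
      rw [h5]
      have h6 : ((S ×ˢ S).filter fun q => (grOf ω).Adj q.1 q.2) ⊆
          ((univ.filter fun i => ω i ∈ S ×ˢ S).image fun i => ω i) ∪
          ((univ.filter fun i => ω i ∈ S ×ˢ S).image fun i => (ω i).swap) := by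
        intro q hq
        obtain ⟨q1, q2⟩ := q
        rw [Finset.mem_filter, Finset.mem_product] at hq
        obtain ⟨⟨ha, hb⟩, -, i, hi⟩ := hq
        simp only at ha hb hi
        rw [Finset.mem_union, Finset.mem_image, Finset.mem_image]
        rw [Sym2.eq_iff] at hi
        rcases hi with ⟨e1, e2⟩ | ⟨e1, e2⟩
        · left
          refine ⟨i, ?_, Prod.ext e1 e2⟩
          rw [Finset.mem_filter, Finset.mem_product, e1, e2]
          exact ⟨Finset.mem_univ _, ha, hb⟩
        · right
          refine ⟨i, ?_, Prod.ext e2 e1⟩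
          rw [Finset.mem_filter, Finset.mem_product, e1, e2]
          exact ⟨Finset.mem_univ _, hb, ha⟩
      refine le_trans (Finset.card_le_card h6) (le_trans (Finset.card_union_le _ _) ?_)
      have := Finset.card_image_le (s := univ.filter fun i => ω i ∈ S ×ˢ S) (f := fun i => ω i)
      have := Finset.card_image_le (s := univ.filter fun i => ω i ∈ S ×ˢ S)
        (f := fun i => (ω i).swap)
      omega
    have h7 : S.card * (2 * D + 1) ≤ ∑ u ∈ S, (S.filter fun w => (grOf ω).Adj u w).card := by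
      rw [← smul_eq_mul]
      exact Finset.card_nsmul_le_sum _ _ _ fun u hu => hc u hu
    have h8 := h S hS
    have h9 := Finset.card_pos.2 hS
    nlinarith) _ univ rfl
  exact ⟨r, h1, h3⟩

/-- the number of functions with restricted values on `J` -/
theorem card_fun {m : ℕ} {α : Type} [Fintype α] (J : Finset (Fin m)) (A : Finset α) :
    (univ.filter fun ω : Fin m → α => ∀ j ∈ J, ω j ∈ A).card =
      A.card ^ J.card * Fintype.card α ^ (m - J.card) := by
  have h1 : (univ.filter fun ω : Fin m → α => ∀ j ∈ J, ω j ∈ A) =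
      Fintype.piFinset fun j => if j ∈ J then A else univ := by
    ext ω
    rw [Finset.mem_filter, Fintype.mem_piFinset]
    constructor
    · rintro ⟨-, h⟩ j
      by_cases hj : j ∈ J
      · rw [if_pos hj]
        exact h j hj
      · rw [if_neg hj]
        exact Finset.mem_univ _
    · intro h
      refine ⟨Finset.mem_univ _, fun j hj => ?_⟩
      have := h j
      rwa [if_pos hj] at this
  rw [h1, Fintype.card_piFinset]
  have h2 : ∀ j : Fin m, (if j ∈ J then A else univ).card =
      if j ∈ J then A.card else Fintype.card α := by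
    intro j
    split_ifs
    · rfl
    · exact Finset.card_univ
  rw [Finset.prod_congr rfl fun j _ => h2 j, Finset.prod_ite, Finset.prod_const, Finset.prod_const]
  have h3 : (univ.filter fun j => j ∈ J) = J := by
    ext j
    simp
  have h4 : (univ.filter fun j => j ∉ J) = Jᶜ := by
    ext j
    simp
  rw [h3, h4, Finset.card_compl, Fintype.card_fin]

/-- upper bound for binomial coefficients -/
theorem choose_le (n r : ℕ) : (n.choose r : ℝ) * (r : ℝ) ^ r ≤ (Real.exp 1 * (n : ℝ)) ^ r := by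
  have h1 : (n.choose r : ℝ) ≤ (n : ℝ) ^ r / (r.factorial : ℝ) := Nat.choose_le_pow_div r n
  have h2 : (r : ℝ) ^ r / (r.factorial : ℝ) ≤ Real.exp (r : ℝ) :=
    Real.pow_div_factorial_le_exp (r : ℝ) (Nat.cast_nonneg _) r
  have h3 : Real.exp (r : ℝ) = Real.exp 1 ^ r := by
    rw [← Real.exp_nat_mul, mul_one]
  calc (n.choose r : ℝ) * (r : ℝ) ^ r ≤ (n : ℝ) ^ r / (r.factorial : ℝ) * (r : ℝ) ^ r := by
        gcongr
    _ = (n : ℝ) ^ r * ((r : ℝ) ^ r / (r.factorial : ℝ)) := by ring
    _ ≤ (n : ℝ) ^ r * Real.exp (r : ℝ) := by gcongr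
    _ = (Real.exp 1 * (n : ℝ)) ^ r := by rw [h3, mul_pow, mul_comm]

theorem sum_half (n : ℕ) :
    ∑ k ∈ range (n + 1), (k : ℝ) * (1 / 2) ^ k = 2 - ((n : ℝ) + 2) * (1 / 2) ^ n := by
  induction n with
  | zero => norm_num
  | succ n ih =>
    rw [Finset.sum_range_succ, ih]
    push_cast
    ring

theorem term_le (ε : ℝ) (D v m k : ℕ) (hD : 2 ≤ D)
    (hD2 : 2 * Real.exp 1 ^ 2 ≤ ε * (D : ℝ)) (hk : 1 ≤ k) (hkv : k ≤ v)
    (hm : ε * (m : ℝ) ≤ (v : ℝ)) :
    (v.choose k : ℝ) * ((m.choose (D * k) : ℝ) * ((k : ℝ) / (v : ℝ)) ^ (2 * (D * k))) ≤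
      (k : ℝ) * (1 / 2) ^ k / (v : ℝ) := by
  have hk0 : (0 : ℝ) < k := by exact_mod_cast hk
  have hkv' : (k : ℝ) ≤ v := by exact_mod_cast hkv
  have hv0 : (0 : ℝ) < v := lt_of_lt_of_le hk0 hkv'
  have hD0 : (0 : ℝ) < D := by
    have : 0 < D := by omega
    exact_mod_cast this
  have he0 : (0 : ℝ) < Real.exp 1 := Real.exp_pos 1
  have he1 : (1 : ℝ) ≤ Real.exp 1 := Real.one_le_exp zero_le_one
  have ha0 : (0 : ℝ) < (k : ℝ) / v := div_pos hk0 hv0
  have ha1 : (k : ℝ) / v ≤ 1 := (div_le_one hv0).2 hkv'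
  have h1 : (v.choose k : ℝ) ≤ (Real.exp 1 / ((k : ℝ) / v)) ^ k := by
    have h := choose_le v k
    rw [show Real.exp 1 / ((k : ℝ) / v) = Real.exp 1 * v / k by field_simp, div_pow,
      le_div_iff₀ (pow_pos hk0 k)]
    exact h
  have h2 : (m.choose (D * k) : ℝ) ≤ (1 / (2 * Real.exp 1 * ((k : ℝ) / v))) ^ (D * k) := by
    have h := choose_le m (D * k)
    have hDk : (0 : ℝ) < ((D * k : ℕ) : ℝ) := by
      push_cast
      exact mul_pos hD0 hk0
    have h3 : (m.choose (D * k) : ℝ) ≤ (Real.exp 1 * m / ((D * k : ℕ) : ℝ)) ^ (D * k) := by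
      rw [div_pow, le_div_iff₀ (pow_pos hDk _)]
      exact h
    refine le_trans h3 (pow_le_pow_left₀ (by positivity) ?_ _)
    rw [div_le_div_iff₀ hDk (by positivity)]
    push_cast
    have h4 : 2 * Real.exp 1 ^ 2 * (m : ℝ) ≤ (D : ℝ) * v := by
      calc 2 * Real.exp 1 ^ 2 * (m : ℝ) ≤ ε * D * m := by gcongr
        _ = D * (ε * m) := by ring
        _ ≤ D * v := by gcongr
    have h5 : Real.exp 1 * (m : ℝ) * (2 * Real.exp 1 * ((k : ℝ) / v)) =
        (2 * Real.exp 1 ^ 2 * m) * ((k : ℝ) / v) := by ring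
    rw [h5, one_mul]
    calc (2 * Real.exp 1 ^ 2 * (m : ℝ)) * ((k : ℝ) / v) ≤ (D * v) * ((k : ℝ) / v) := by gcongr
      _ = D * k := by field_simp
  set a : ℝ := (k : ℝ) / v with ha
  have h6 : Real.exp 1 / a * (a / (2 * Real.exp 1)) ^ D ≤ a / 2 := by
    have h7 : (a / (2 * Real.exp 1)) ^ D ≤ (a / (2 * Real.exp 1)) ^ 2 := by
      apply pow_le_pow_of_le_one (by positivity) _ hD
      rw [div_le_one (by positivity)]
      linarith
    calc Real.exp 1 / a * (a / (2 * Real.exp 1)) ^ D
        ≤ Real.exp 1 / a * (a / (2 * Real.exp 1)) ^ 2 := by gcongr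
      _ = a / (4 * Real.exp 1) := by
        field_simp
        ring
      _ ≤ a / 2 := by
        apply div_le_div_of_nonneg_left ha0.le (by norm_num)
        linarith
  calc (v.choose k : ℝ) * ((m.choose (D * k) : ℝ) * a ^ (2 * (D * k)))
      ≤ (Real.exp 1 / a) ^ k * ((1 / (2 * Real.exp 1 * a)) ^ (D * k) * a ^ (2 * (D * k))) := by
        gcongr
    _ = (Real.exp 1 / a * (a / (2 * Real.exp 1)) ^ D) ^ k := by
        rw [mul_pow, ← pow_mul, pow_mul a 2, ← mul_pow]
        congr 2
        field_simp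
    _ ≤ (a / 2) ^ k := pow_le_pow_left₀ (by positivity) h6 k
    _ = (1 / 2) ^ k * a ^ k := by
        rw [← mul_pow]
        congr 1
        ring
    _ ≤ (1 / 2) ^ k * a ^ 1 := by
        gcongr ?_ * ?_
        exact pow_le_pow_of_le_one ha0.le ha1 hk
    _ = (k : ℝ) * (1 / 2) ^ k / (v : ℝ) := by
        rw [ha, pow_one]
        ring

theorem pr_eq {Ω : Type} [Fintype Ω] (P : Ω → Prop) :
    pr P = ((univ.filter P).card : ℝ) / (Fintype.card Ω : ℝ) := by
  unfold pr av
  rw [Finset.card_filter]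
  push_cast
  rfl

/-- union bound -/
theorem union_bound (D v m : ℕ) (hv : 0 < v) :
    pr (fun ω : Fin m → Fin v × Fin v => ¬ DegenerateIn (grOf ω) univ (2 * D)) ≤
      ∑ k ∈ range (v + 1), if k = 0 then (0 : ℝ) else
        (v.choose k : ℝ) * ((m.choose (D * k) : ℝ) * ((k : ℝ) / (v : ℝ)) ^ (2 * (D * k))) := by
  have hv0 : (0 : ℝ) < v := by exact_mod_cast hv
  have h1 : (univ.filter fun ω : Fin m → Fin v × Fin v =>
      ¬ DegenerateIn (grOf ω) univ (2 * D)) ⊆
      ((univ : Finset (Fin v)).powerset.filter fun S => S.Nonempty).biUnion fun S =>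
        ((univ : Finset (Fin m)).powersetCard (D * S.card)).biUnion fun J =>
          univ.filter fun ω : Fin m → Fin v × Fin v => ∀ j ∈ J, ω j ∈ S ×ˢ S := by
    intro ω hω
    rw [Finset.mem_filter] at hω
    obtain ⟨-, hω⟩ := hω
    have h2 : ∃ S : Finset (Fin v), S.Nonempty ∧
        ¬ (univ.filter fun i => ω i ∈ S ×ˢ S).card ≤ D * S.card := by
      by_contra hc
      push Not at hc
      exact hω (degen_of ω D fun S hS => by
        have := hc S hS
        exact this)
    obtain ⟨S, hS, hc⟩ := h2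
    obtain ⟨J, hJ1, hJ2⟩ := Finset.exists_subset_card_eq (not_le.1 hc).le
    rw [Finset.mem_biUnion]
    refine ⟨S, by simp [hS], ?_⟩
    rw [Finset.mem_biUnion]
    refine ⟨J, Finset.mem_powersetCard.2 ⟨Finset.subset_univ _, hJ2⟩, ?_⟩
    rw [Finset.mem_filter]
    exact ⟨Finset.mem_univ _, fun j hj => (Finset.mem_filter.1 (hJ1 hj)).2⟩
  have h2 : (univ.filter fun ω : Fin m → Fin v × Fin v =>
      ¬ DegenerateIn (grOf ω) univ (2 * D)).card ≤
      ∑ k ∈ range (v + 1), v.choose k * (if k = 0 then 0 else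
        m.choose (D * k) * ((k * k) ^ (D * k) * (v * v) ^ (m - D * k))) := by
    refine le_trans (Finset.card_le_card h1) (le_trans Finset.card_biUnion_le ?_)
    rw [Finset.sum_filter]
    have h3 := Finset.sum_powerset_apply_card (fun k => if k = 0 then 0 else
        m.choose (D * k) * ((k * k) ^ (D * k) * (v * v) ^ (m - D * k))) (x := (univ : Finset (Fin v)))
    rw [Finset.card_univ, Fintype.card_fin] at h3
    simp only [smul_eq_mul] at h3
    rw [← h3]
    refine Finset.sum_le_sum fun S _ => ?_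
    by_cases hS : S.Nonempty
    · rw [if_pos hS, if_neg (Finset.card_pos.2 hS).ne']
      refine le_trans Finset.card_biUnion_le ?_
      have h4 : ∀ J ∈ (univ : Finset (Fin m)).powersetCard (D * S.card),
          (univ.filter fun ω : Fin m → Fin v × Fin v => ∀ j ∈ J, ω j ∈ S ×ˢ S).card =
            (S.card * S.card) ^ (D * S.card) * (v * v) ^ (m - D * S.card) := by
        intro J hJ
        have h9 := card_fun J (S ×ˢ S)
        rw [Finset.card_product, (Finset.mem_powersetCard.1 hJ).2, Fintype.card_prod,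
          Fintype.card_fin] at h9
        rw [← h9]
        congr 1
        ext ω
        simp only [Finset.mem_filter]
      rw [Finset.sum_congr rfl h4, Finset.sum_const, Finset.card_powersetCard, Finset.card_univ,
        Fintype.card_fin, smul_eq_mul]
    · rw [if_neg hS]
      exact Nat.zero_le _
  have h3 : pr (fun ω : Fin m → Fin v × Fin v => ¬ DegenerateIn (grOf ω) univ (2 * D)) =
      ((univ.filter fun ω : Fin m → Fin v × Fin v =>
        ¬ DegenerateIn (grOf ω) univ (2 * D)).card : ℝ) / ((v : ℝ) * v) ^ m := by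
    rw [pr_eq]
    have e1 : (Fintype.card (Fin m → Fin v × Fin v) : ℝ) = ((v : ℝ) * v) ^ m := by
      rw [Fintype.card_fun, Fintype.card_prod, Fintype.card_fin, Fintype.card_fin]
      push_cast
      ring
    rw [e1]
    congr!
  rw [h3, div_le_iff₀ (by positivity)]
  have h4 : ((univ.filter fun ω : Fin m → Fin v × Fin v =>
      ¬ DegenerateIn (grOf ω) univ (2 * D)).card : ℝ) ≤
      ((∑ k ∈ range (v + 1), v.choose k * (if k = 0 then 0 else
        m.choose (D * k) * ((k * k) ^ (D * k) * (v * v) ^ (m - D * k))) : ℕ) : ℝ) := by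
    exact_mod_cast h2
  refine le_trans h4 ?_
  rw [Nat.cast_sum, Finset.sum_mul]
  refine Finset.sum_le_sum fun k _ => ?_
  by_cases hk : k = 0
  · rw [if_pos hk, if_pos hk]
    simp
  · rw [if_neg hk, if_neg hk]
    by_cases hm : D * k ≤ m
    · have h5 : ((v : ℝ) * v) ^ m = ((v : ℝ) * v) ^ (D * k) * ((v : ℝ) * v) ^ (m - D * k) := by
        rw [← pow_add, Nat.add_sub_cancel' hm]
      rw [h5]
      push_cast
      rw [pow_mul ((k : ℝ) / v) 2, div_pow, div_pow]
      apply le_of_eq
      have h6 : (((v : ℝ) ^ 2) ^ (D * k)) ≠ 0 := by positivity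
      have h7 : (v : ℝ) * v = (v : ℝ) ^ 2 := by ring
      have h8 : (k : ℝ) * k = (k : ℝ) ^ 2 := by ring
      rw [h7, h8]
      field_simp
    · rw [Nat.choose_eq_zero_of_lt (not_le.1 hm)]
      simp

end DegRAux

open DegRAux in
theorem prfDegR : StDegR := by
  intro ε hε
  obtain ⟨D0, hD0⟩ := exists_nat_ge (2 * Real.exp 1 ^ 2 / ε)
  refine ⟨2 * (D0 + 2), fun ε' hε' => ?_⟩
  obtain ⟨v0, hv0⟩ := exists_nat_ge (2 / ε')
  refine ⟨v0 + 1, fun v m hv hm => ?_⟩
  have hvpos : 0 < v := by omega
  have hvr : (0 : ℝ) < v := by exact_mod_cast hvpos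
  have hD2 : 2 * Real.exp 1 ^ 2 ≤ ε * ((D0 + 2 : ℕ) : ℝ) := by
    rw [div_le_iff₀ hε] at hD0
    push_cast
    nlinarith
  refine le_trans (union_bound (D0 + 2) v m hvpos) ?_
  have h1 : ∀ k ∈ range (v + 1), (if k = 0 then (0 : ℝ) else
        (v.choose k : ℝ) * ((m.choose ((D0 + 2) * k) : ℝ) *
          ((k : ℝ) / (v : ℝ)) ^ (2 * ((D0 + 2) * k)))) ≤ (k : ℝ) * (1 / 2) ^ k / (v : ℝ) := by
    intro k hk
    rw [Finset.mem_range] at hk
    split_ifs with h
    · positivity
    · exact term_le ε (D0 + 2) v m k (by omega) hD2 (by omega) (by omega) hm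
  refine le_trans (Finset.sum_le_sum h1) ?_
  rw [← Finset.sum_div, sum_half, div_le_iff₀ hvr]
  have h2 : (2 : ℝ) ≤ ε' * v := by
    rw [div_le_iff₀ hε'] at hv0
    have h3 : (v0 : ℝ) ≤ v := by
      have : v0 ≤ v := by omega
      exact_mod_cast this
    nlinarith
  have h3 : (0 : ℝ) ≤ ((v : ℝ) + 2) * (1 / 2) ^ v := by positivity
  linarith

end Pool.Agent.Lib.MP_b1acb3_co.Dgn
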