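import Pool.Agent.Lib.MP_b1acb3_co.Dgn.Stmts

/-!
MP_b1acb3_co, project DGN, module E1: second moment of the pair correlation.
-/

set_option autoImplicit false
set_option linter.unusedSectionVars false

namespace Pool.Agent.Lib.MP_b1acb3_co.Dgn

open Finset Classical

noncomputable section

namespace E1Aux

/-! ### averages -/

section av

variable {Ω Ω' : Type} [Fintype Ω] [Fintype Ω']

def ind (P : Prop) : ℝ := if P then 1 else 0

lemma ind_nonneg (P : Prop) : 0 ≤ ind P := by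
  unfold ind; split_ifs <;> norm_num

lemma ind_le_one (P : Prop) : ind P ≤ 1 := by
  unfold ind; split_ifs <;> norm_num

lemma ind_true {P : Prop} (h : P) : ind P = 1 := by simp [ind, h]

lemma ind_false {P : Prop} (h : ¬ P) : ind P = 0 := by simp [ind, h]

lemma ind_and (P Q : Prop) : ind (P ∧ Q) = ind P * ind Q := by
  by_cases hP : P <;> by_cases hQ : Q <;> simp [ind, hP, hQ]

lemma pr_eq (P : Ω → Prop) : pr P = av fun x => ind (P x) := rfl

lemma av_mono {F G : Ω → ℝ} (h : ∀ x, F x ≤ G x) : av F ≤ av G := by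
  unfold av
  exact div_le_div_of_nonneg_right (Finset.sum_le_sum fun x _ => h x) (Nat.cast_nonneg _)

lemma av_nonneg {F : Ω → ℝ} (h : ∀ x, 0 ≤ F x) : 0 ≤ av F := by
  unfold av
  exact div_nonneg (Finset.sum_nonneg fun x _ => h x) (Nat.cast_nonneg _)

lemma av_add (F G : Ω → ℝ) : av (fun x => F x + G x) = av F + av G := by
  simp only [av, Finset.sum_add_distrib, add_div]

lemma av_sub (F G : Ω → ℝ) : av (fun x => F x - G x) = av F - av G := by
  simp only [av, Finset.sum_sub_distrib, sub_div]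

lemma av_mul_left (a : ℝ) (F : Ω → ℝ) : av (fun x => a * F x) = a * av F := by
  simp only [av, ← Finset.mul_sum, mul_div_assoc]

lemma av_mul_right (a : ℝ) (F : Ω → ℝ) : av (fun x => F x * a) = av F * a := by
  simp only [av, ← Finset.sum_mul, div_mul_eq_mul_div]

lemma av_sum {ι : Type} (s : Finset ι) (F : ι → Ω → ℝ) :
    av (fun x => ∑ i ∈ s, F i x) = ∑ i ∈ s, av (F i) := by
  simp only [av]
  rw [Finset.sum_comm, Finset.sum_div]

lemma av_comm (F : Ω → Ω' → ℝ) :
    av (fun x => av fun y => F x y) = av fun y => av fun x => F x y := by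
  simp only [av, ← Finset.sum_div, div_div]
  rw [Finset.sum_comm, mul_comm]

lemma av_const [Nonempty Ω] (a : ℝ) : av (fun _ : Ω => a) = a := by
  have : (Fintype.card Ω : ℝ) ≠ 0 := by
    exact_mod_cast Fintype.card_ne_zero
  simp only [av, Finset.sum_const, Finset.card_univ, nsmul_eq_mul]
  field_simp

lemma av_equiv (e : Ω ≃ Ω') (F : Ω' → ℝ) : av (fun x => F (e x)) = av F := by
  simp only [av]
  rw [Fintype.card_congr e, Equiv.sum_comp e F]

lemma av_prod (F : Ω × Ω' → ℝ) : av F = av fun x => av fun y => F (x, y) := by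
  simp only [av, ← Finset.sum_div, div_div]
  rw [Fintype.sum_prod_type, Fintype.card_prod, Nat.cast_mul, mul_comm]

end av

def e4 (n : ℕ) : (Fin 4 → Fin n) ≃ Fin n × Fin n × Fin n × Fin n where
  toFun p := (p 0, p 1, p 2, p 3)
  invFun q := ![q.1, q.2.1, q.2.2.1, q.2.2.2]
  left_inv p := by
    funext i
    fin_cases i <;> rfl
  right_inv q := by
    obtain ⟨a, b, c, d⟩ := q
    rfl

lemma av4 {n : ℕ} (H : Fin n → Fin n → Fin n → Fin n → ℝ) :
    av (fun p : Fin 4 → Fin n => H (p 0) (p 1) (p 2) (p 3)) =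
      av fun a => av fun b => av fun c => av fun d => H a b c d := by
  have := av_equiv (e4 n) (fun q => H q.1 q.2.1 q.2.2.1 q.2.2.2)
  simp only [e4, Equiv.coe_fn_mk] at this
  rw [this, av_prod]
  congr 1; funext a
  rw [av_prod]
  congr 1; funext b
  rw [av_prod]

/-- resampling one coordinate -/
lemma av_update {W : Type} [Fintype W] [DecidableEq W] {n : ℕ} (v : W) (F : (W → Fin n) → ℝ) (hn : 0 < n) :
    av F = av fun g => av fun z : Fin n => F (Function.update g v z) := by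
  have hn' : (n : ℝ) ≠ 0 := by exact_mod_cast hn.ne'
  have h1 : ∑ q : (W → Fin n) × Fin n, F (Function.update q.1 v q.2)
      = ∑ q : (W → Fin n) × Fin n, F q.1 := by
    refine Finset.sum_bij' (fun q _ => (Function.update q.1 v q.2, q.1 v))
      (fun q _ => (Function.update q.1 v q.2, q.1 v)) ?_ ?_ ?_ ?_ ?_
    · intro q _; exact Finset.mem_univ _
    · intro q _; exact Finset.mem_univ _
    · intro q _; simp
    · intro q _; simp
    · intro q _; rfl
  rw [Fintype.sum_prod_type, Fintype.sum_prod_type] at h1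
  simp only [av, ← Finset.sum_div, div_div]
  rw [h1]
  simp only [Finset.sum_const, Finset.card_univ, nsmul_eq_mul, Fintype.card_fin]
  rw [← Finset.mul_sum]
  by_cases hc : ((Fintype.card (W → Fin n) : ℕ) : ℝ) = 0
  · rw [hc]; simp
  · field_simp

/-! ### peeling -/

section peel

variable {V : Type} [Fintype V] {n K : ℕ}

/-- expectation over the images of the vertices and of four points -/
def EE (F : (V → Fin n) → (Fin 4 → Fin n) → ℝ) : ℝ := av fun f => av fun p => F f p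

lemma EE_mono {F G : (V → Fin n) → (Fin 4 → Fin n) → ℝ} (h : ∀ f p, F f p ≤ G f p) :
    EE F ≤ EE G := av_mono fun f => av_mono fun p => h f p

lemma EE_nonneg {F : (V → Fin n) → (Fin 4 → Fin n) → ℝ} (h : ∀ f p, 0 ≤ F f p) :
    0 ≤ EE F := av_nonneg fun f => av_nonneg fun p => h f p

lemma EE_add (F G : (V → Fin n) → (Fin 4 → Fin n) → ℝ) :
    EE (fun f p => F f p + G f p) = EE F + EE G := by
  simp only [EE, av_add]

lemma EE_sub (F G : (V → Fin n) → (Fin 4 → Fin n) → ℝ) :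
    EE (fun f p => F f p - G f p) = EE F - EE G := by
  simp only [EE, av_sub]

lemma EE_mul_left (a : ℝ) (F : (V → Fin n) → (Fin 4 → Fin n) → ℝ) :
    EE (fun f p => a * F f p) = a * EE F := by
  simp only [EE, av_mul_left]

lemma EE_sum {ι : Type} (s : Finset ι) (F : ι → (V → Fin n) → (Fin 4 → Fin n) → ℝ) :
    EE (fun f p => ∑ i ∈ s, F i f p) = ∑ i ∈ s, EE (F i) := by
  simp only [EE, av_sum]

lemma EE_const (hn : 0 < n) (a : ℝ) :
    EE (fun (_ : V → Fin n) (_ : Fin 4 → Fin n) => a) = a := by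
  have : Nonempty (Fin n) := ⟨⟨0, hn⟩⟩
  simp only [EE, av_const]

/-- colour of the slot `(x, y)` -/
def cl (c : Sym2 (Fin n) → Fin K) (f : V → Fin n) (p : Fin 4 → Fin n) (s : V × Fin 4) : Fin K :=
  c s(f s.1, p s.2)

/-- indicator of an equality of two colours -/
def eqn (c : Sym2 (Fin n) → Fin K) (s t : V × Fin 4) (f : V → Fin n) (p : Fin 4 → Fin n) : ℝ :=
  ind (cl c f p s = cl c f p t)

lemma eqn_nonneg (c : Sym2 (Fin n) → Fin K) (s t : V × Fin 4) (f : V → Fin n)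
    (p : Fin 4 → Fin n) : 0 ≤ eqn c s t f p := ind_nonneg _

lemma eqn_symm (c : Sym2 (Fin n) → Fin K) (s t : V × Fin 4) (f : V → Fin n)
    (p : Fin 4 → Fin n) : eqn c s t f p = eqn c t s f p :=
  congrArg ind (propext eq_comm)

/-- `v` occurs in `s` but not in `t` -/
def inl1 (v : V ⊕ Fin 4) (s t : V × Fin 4) : Prop :=
  match v with
  | Sum.inl x => s.1 = x ∧ t.1 ≠ x
  | Sum.inr y => s.2 = y ∧ t.2 ≠ y

/-- `v` occurs exactly once in the equation `s = t` -/
def once (v : V ⊕ Fin 4) (s t : V × Fin 4) : Prop := inl1 v s t ∨ inl1 v t s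

/-- `v` does not occur in the equation -/
def non (v : V ⊕ Fin 4) (s t : V × Fin 4) : Prop :=
  match v with
  | Sum.inl x => s.1 ≠ x ∧ t.1 ≠ x
  | Sum.inr y => s.2 ≠ y ∧ t.2 ≠ y

/-- `F` does not depend on the coordinate `v` -/
def indep (v : V ⊕ Fin 4) (F : (V → Fin n) → (Fin 4 → Fin n) → ℝ) : Prop :=
  match v with
  | Sum.inl x => ∀ f p z, F (Function.update f x z) p = F f p
  | Sum.inr y => ∀ f p z, F f (Function.update p y z) = F f p

lemma indep_mul {v : V ⊕ Fin 4} {F G : (V → Fin n) → (Fin 4 → Fin n) → ℝ} (hF : indep v F)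
    (hG : indep v G) : indep v (fun f p => F f p * G f p) := by
  cases v with
  | inl x => intro f p z; show _ * _ = _; rw [hF f p z, hG f p z]
  | inr y => intro f p z; show _ * _ = _; rw [hF f p z, hG f p z]

lemma indep_one (v : V ⊕ Fin 4) : indep v (fun (_ : V → Fin n) (_ : Fin 4 → Fin n) => (1 : ℝ)) := by
  cases v with
  | inl x => intro f p z; rfl
  | inr y => intro f p z; rfl

lemma indep_eqn (c : Sym2 (Fin n) → Fin K) {v : V ⊕ Fin 4} {s t : V × Fin 4} (h : non v s t) :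
    indep v (eqn c s t) := by
  cases v with
  | inl x =>
    intro f p z
    simp only [non] at h
    simp only [eqn, cl]
    rw [Function.update_of_ne h.1, Function.update_of_ne h.2]
  | inr y =>
    intro f p z
    simp only [non] at h
    simp only [eqn, cl]
    rw [Function.update_of_ne h.1, Function.update_of_ne h.2]

lemma EE_swap (F : (V → Fin n) → (Fin 4 → Fin n) → ℝ) :
    EE F = av fun p => av fun f => F f p := av_comm F

lemma peel_aux (c : Sym2 (Fin n) → Fin K) {ξ : ℝ} (hc : Env c ξ) {v : V ⊕ Fin 4}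
    {s t : V × Fin 4} (hv : inl1 v s t) {F : (V → Fin n) → (Fin 4 → Fin n) → ℝ}
    (hF : indep v F) (h0 : ∀ f p, 0 ≤ F f p) :
    EE (fun f p => F f p * eqn c s t f p) ≤ (1 + ξ) / K * EE F := by
  cases v with
  | inl x =>
    obtain ⟨hs, ht⟩ := hv
    rw [EE_swap, EE_swap, ← av_mul_left]
    refine av_mono fun p => ?_
    rw [av_update x (fun f => F f p * eqn c s t f p) hc.npos, ← av_mul_left]
    refine av_mono fun f => ?_
    have : (fun z : Fin n => F (Function.update f x z) p * eqn c s t (Function.update f x z) p)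
        = fun z => F f p * ind (c s(p s.2, z) = c s(f t.1, p t.2)) := by
      funext z
      rw [hF f p z]
      simp only [eqn, cl]
      rw [hs, Function.update_self, Function.update_of_ne ht, Sym2.eq_swap]
    rw [this, av_mul_left, mul_comm ((1 + ξ) / (K : ℝ))]
    exact mul_le_mul_of_nonneg_left (hc.up (p s.2) _) (h0 f p)
  | inr y =>
    obtain ⟨hs, ht⟩ := hv
    unfold EE
    rw [← av_mul_left]
    refine av_mono fun f => ?_
    show (av fun p => F f p * eqn c s t f p) ≤ _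
    rw [av_update y (fun p => F f p * eqn c s t f p) hc.npos, ← av_mul_left]
    refine av_mono fun p => ?_
    have : (fun z : Fin n => F f (Function.update p y z) * eqn c s t f (Function.update p y z))
        = fun z => F f p * ind (c s(f s.1, z) = c s(f t.1, p t.2)) := by
      funext z
      rw [hF f p z]
      simp only [eqn, cl]
      rw [hs, Function.update_self, Function.update_of_ne ht]
    rw [this, av_mul_left, mul_comm ((1 + ξ) / (K : ℝ))]
    exact mul_le_mul_of_nonneg_left (hc.up (f s.1) _) (h0 f p)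

lemma peel (c : Sym2 (Fin n) → Fin K) {ξ : ℝ} (hc : Env c ξ) {v : V ⊕ Fin 4}
    {s t : V × Fin 4} (hv : once v s t) {F : (V → Fin n) → (Fin 4 → Fin n) → ℝ}
    (hF : indep v F) (h0 : ∀ f p, 0 ≤ F f p) :
    EE (fun f p => F f p * eqn c s t f p) ≤ (1 + ξ) / K * EE F := by
  rcases hv with hv | hv
  · exact peel_aux c hc hv hF h0
  · have : (fun f p => F f p * eqn c s t f p) = fun f p => F f p * eqn c t s f p := by
      funext f p; rw [eqn_symm]
    rw [this]
    exact peel_aux c hc hv hF h0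

lemma peel_lower (c : Sym2 (Fin n) → Fin K) {ξ : ℝ} (hc : Env c ξ) {s t : V × Fin 4}
    (h : s.2 ≠ t.2) : (1 - ξ) / K ≤ EE (eqn c s t) := by
  have : Nonempty (Fin n) := ⟨⟨0, hc.npos⟩⟩
  unfold EE
  rw [← av_const (Ω := V → Fin n) ((1 - ξ) / (K : ℝ))]
  refine av_mono fun f => ?_
  rw [av_update s.2 (fun p => eqn c s t f p) hc.npos,
    ← av_const (Ω := Fin 4 → Fin n) ((1 - ξ) / (K : ℝ))]
  refine av_mono fun p => ?_
  have : (fun z : Fin n => eqn c s t f (Function.update p s.2 z))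
      = fun z => ind (c s(f s.1, z) = c s(f t.1, p t.2)) := by
    funext z
    simp only [eqn, cl]
    rw [Function.update_self, Function.update_of_ne h.symm]
  rw [this]
  exact hc.lo (f s.1) _

/-- one equation -/
lemma peel1 (c : Sym2 (Fin n) → Fin K) {ξ : ℝ} (hc : Env c ξ) {v : V ⊕ Fin 4}
    {s t : V × Fin 4} (hv : once v s t) : EE (eqn c s t) ≤ (1 + ξ) / K := by
  have := peel c hc hv (F := fun _ _ => 1) (indep_one v) (fun _ _ => zero_le_one)
  simpa [EE_const hc.npos] using this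

lemma q_nonneg (c : Sym2 (Fin n) → Fin K) {ξ : ℝ} (hc : Env c ξ) : 0 ≤ (1 + ξ) / (K : ℝ) := by
  have x : Fin n := ⟨0, hc.npos⟩
  exact le_trans (av_nonneg fun z => ind_nonneg _) (hc.up x (c s(x, x)))

/-- two equations -/
lemma peel2 (c : Sym2 (Fin n) → Fin K) {ξ : ℝ} (hc : Env c ξ) {v₁ v₂ : V ⊕ Fin 4}
    {s₁ t₁ s₂ t₂ : V × Fin 4} (h1 : once v₁ s₁ t₁) (h12 : non v₁ s₂ t₂) (h2 : once v₂ s₂ t₂) :
    EE (fun f p => eqn c s₂ t₂ f p * eqn c s₁ t₁ f p) ≤ ((1 + ξ) / K) ^ 2 := by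
  have hq := q_nonneg c hc
  refine (peel c hc h1 (indep_eqn c h12) (eqn_nonneg c s₂ t₂)).trans ?_
  rw [pow_two]
  exact mul_le_mul_of_nonneg_left (peel1 c hc h2) hq

/-- three equations -/
lemma peel3 (c : Sym2 (Fin n) → Fin K) {ξ : ℝ} (hc : Env c ξ) {v₁ v₂ v₃ : V ⊕ Fin 4}
    {s₁ t₁ s₂ t₂ s₃ t₃ : V × Fin 4} (h1 : once v₁ s₁ t₁) (h12 : non v₁ s₂ t₂)
    (h13 : non v₁ s₃ t₃) (h2 : once v₂ s₂ t₂) (h23 : non v₂ s₃ t₃) (h3 : once v₃ s₃ t₃) :
    EE (fun f p => eqn c s₃ t₃ f p * eqn c s₂ t₂ f p * eqn c s₁ t₁ f p)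
      ≤ ((1 + ξ) / K) ^ 3 := by
  have hq := q_nonneg c hc
  refine (peel c hc h1 (indep_mul (indep_eqn c h13) (indep_eqn c h12))
    (fun f p => mul_nonneg (eqn_nonneg c s₃ t₃ f p) (eqn_nonneg c s₂ t₂ f p))).trans ?_
  calc (1 + ξ) / (K : ℝ) * EE (fun f p => eqn c s₃ t₃ f p * eqn c s₂ t₂ f p)
      ≤ (1 + ξ) / (K : ℝ) * ((1 + ξ) / K) ^ 2 :=
        mul_le_mul_of_nonneg_left (peel2 c hc h2 h23 h3) hq
    _ = _ := by ring

/-- the triple of equations, in the order used below -/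
def E3 (c : Sym2 (Fin n) → Fin K) (s₁ t₁ s₂ t₂ s₃ t₃ : V × Fin 4) : ℝ :=
  EE (fun f p => eqn c s₁ t₁ f p * eqn c s₂ t₂ f p * eqn c s₃ t₃ f p)

lemma E3_213 (c : Sym2 (Fin n) → Fin K) (s₁ t₁ s₂ t₂ s₃ t₃ : V × Fin 4) :
    E3 c s₁ t₁ s₂ t₂ s₃ t₃ = E3 c s₂ t₂ s₁ t₁ s₃ t₃ := by
  unfold E3; congr 1; funext f p; ring

lemma E3_132 (c : Sym2 (Fin n) → Fin K) (s₁ t₁ s₂ t₂ s₃ t₃ : V × Fin 4) :
    E3 c s₁ t₁ s₂ t₂ s₃ t₃ = E3 c s₁ t₁ s₃ t₃ s₂ t₂ := by
  unfold E3; congr 1; funext f p; ring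

lemma E3_symm (c : Sym2 (Fin n) → Fin K) (s₁ t₁ s₂ t₂ s₃ t₃ : V × Fin 4) :
    E3 c s₁ t₁ s₂ t₂ s₃ t₃ = E3 c s₁ t₁ s₂ t₂ t₃ s₃ := by
  unfold E3; congr 1; funext f p; rw [eqn_symm c s₃ t₃]

/-- the vertices attached to the point `y` -/
def grp (S S' : Finset V) (y : Fin 4) : Finset V := if y = 0 ∨ y = 2 then S else S'

/-- two equations between the points `y`, `y'` -/
lemma pair2 (S S' : Finset V) (hSS : (S ∩ S').card ≤ 1) {i j x x' : V} (hi : i ∈ S)
    (hj : j ∈ S') (hx : x ∈ S) (hx' : x' ∈ S') (hne : x' ≠ j) (y y' : Fin 4) (hy : y ≠ y') :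
    (∃ v : V, once (Sum.inl v) (x, y) (x', y') ∧ non (Sum.inl v) (i, y) (j, y')) ∨
    (∃ v : V, once (Sum.inl v) (i, y) (j, y') ∧ non (Sum.inl v) (x, y) (x', y')) := by
  have key : ∀ a b : V, a ∈ S → a ∈ S' → b ∈ S → b ∈ S' → a = b := by
    intro a b ha ha' hb hb'
    exact Finset.card_le_one.mp hSS a (Finset.mem_inter.mpr ⟨ha, ha'⟩) b
      (Finset.mem_inter.mpr ⟨hb, hb'⟩)
  by_cases h1 : x' = x
  · -- `x` is the shared element
    right
    have hjx : j ≠ x := fun h => hne (h1.trans h.symm)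
    have hjS : j ∉ S := fun h => hjx (key j x h hj hx (h1 ▸ hx'))
    refine ⟨j, Or.inr ⟨rfl, fun h => hjS (h ▸ hi)⟩, ⟨fun h => hjx h.symm, hne⟩⟩
  · by_cases h2 : x' = i
    · left
      have hxS' : x ∉ S' := fun h => h1 (key x' x (h2 ▸ hi) hx' hx h)
      refine ⟨x, Or.inl ⟨rfl, h1⟩, ⟨fun h => h1 (h2.trans h), fun h => hxS' (h ▸ hj)⟩⟩
    · left
      exact ⟨x', Or.inr ⟨rfl, fun h => h1 h.symm⟩, ⟨fun h => h2 h.symm, fun h => hne h.symm⟩⟩

lemma E3_le (c : Sym2 (Fin n) → Fin K) {ξ : ℝ} (hc : Env c ξ) {v₁ v₂ v₃ : V ⊕ Fin 4}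
    {s₁ t₁ s₂ t₂ s₃ t₃ : V × Fin 4} (h1 : once v₁ s₁ t₁) (h12 : non v₁ s₂ t₂)
    (h13 : non v₁ s₃ t₃) (h2 : once v₂ s₂ t₂) (h23 : non v₂ s₃ t₃) (h3 : once v₃ s₃ t₃) :
    E3 c s₁ t₁ s₂ t₂ s₃ t₃ ≤ ((1 + ξ) / K) ^ 3 := by
  refine le_trans (le_of_eq ?_) (peel3 c hc h1 h12 h13 h2 h23 h3)
  unfold E3; congr 1; funext f p; ring

lemma inr_ne {y y' : Fin 4} {x x' : V} (h : y ≠ y') :
    once (Sum.inr y) (x, y) (x', y') := Or.inl ⟨rfl, fun h' => h h'.symm⟩

lemma inr_ne' {y y' : Fin 4} {x x' : V} (h : y ≠ y') :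
    once (Sum.inr y') (x, y) (x', y') := Or.inr ⟨rfl, h⟩

lemma inr_non {y y' y'' : Fin 4} {x x' : V} (h : y ≠ y'') (h' : y' ≠ y'') :
    non (Sum.inr y'') (x, y) (x', y') := ⟨h, h'⟩

lemma triple (c : Sym2 (Fin n) → Fin K) {ξ : ℝ} (hc : Env c ξ) (S S' : Finset V)
    (hSS : (S ∩ S').card ≤ 1) {i j a b : V} (hi : i ∈ S) (hj : j ∈ S') (ha : a ∈ S)
    (hb : b ∈ S') {s t : V × Fin 4} (hst : s ≠ t) (hs : s.1 ∈ grp S S' s.2)
    (ht : t.1 ∈ grp S S' t.2) (hs1 : s ≠ (j, 1)) (ht1 : t ≠ (j, 1)) (hs3 : s ≠ (b, 3))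
    (ht3 : t ≠ (b, 3)) :
    E3 c (i, 0) (j, 1) (a, 2) (b, 3) s t ≤ ((1 + ξ) / K) ^ 3 := by
  obtain ⟨x, y⟩ := s
  obtain ⟨x', y'⟩ := t
  simp only at hs ht
  -- same point
  by_cases hyy : y = y'
  · subst hyy
    have hxx : x ≠ x' := fun h => hst (by rw [h])
    have hx3 : once (Sum.inl x) (x, y) (x', y) := Or.inl ⟨rfl, fun h => hxx h.symm⟩
    by_cases h0 : y = 0
    · subst h0
      exact E3_le c hc (inr_ne' (y' := 1) (by decide)) (inr_non (by decide) (by decide))
        (inr_non (by decide) (by decide)) (inr_ne' (y' := 3) (by decide))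
        (inr_non (by decide) (by decide)) hx3
    · by_cases h1 : y = 1
      · subst h1
        exact E3_le c hc (inr_ne (y := 0) (by decide)) (inr_non (by decide) (by decide))
          (inr_non (by decide) (by decide)) (inr_ne' (y' := 3) (by decide))
          (inr_non (by decide) (by decide)) hx3
      · by_cases h2 : y = 2
        · subst h2
          exact E3_le c hc (inr_ne (y := 0) (by decide)) (inr_non (by decide) (by decide))
            (inr_non (by decide) (by decide)) (inr_ne' (y' := 3) (by decide))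
            (inr_non (by decide) (by decide)) hx3
        · have h3 : y = 3 := by
            fin_cases y <;> simp_all
          subst h3
          exact E3_le c hc (inr_ne (y := 0) (by decide)) (inr_non (by decide) (by decide))
            (inr_non (by decide) (by decide)) (inr_ne (y := 2) (by decide))
            (inr_non (by decide) (by decide)) hx3
  · -- different points
    have hcr : ∀ y y' : Fin 4, ∀ x x' : V, y = 0 ∨ y = 1 → y' = 2 ∨ y' = 3 →
        E3 c (i, 0) (j, 1) (a, 2) (b, 3) (x, y) (x', y') ≤ ((1 + ξ) / K) ^ 3 := by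
      intro y y' x x' hy hy'
      rcases hy with rfl | rfl <;> rcases hy' with rfl | rfl
      · exact E3_le c hc (inr_ne' (y' := 1) (by decide)) (inr_non (by decide) (by decide))
          (inr_non (by decide) (by decide)) (inr_ne' (y' := 3) (by decide))
          (inr_non (by decide) (by decide)) (inr_ne (by decide))
      · exact E3_le c hc (inr_ne' (y' := 1) (by decide)) (inr_non (by decide) (by decide))
          (inr_non (by decide) (by decide)) (inr_ne (y := 2) (by decide))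
          (inr_non (by decide) (by decide)) (inr_ne (by decide))
      · exact E3_le c hc (inr_ne (y := 0) (by decide)) (inr_non (by decide) (by decide))
          (inr_non (by decide) (by decide)) (inr_ne' (y' := 3) (by decide))
          (inr_non (by decide) (by decide)) (inr_ne (by decide))
      · exact E3_le c hc (inr_ne (y := 0) (by decide)) (inr_non (by decide) (by decide))
          (inr_non (by decide) (by decide)) (inr_ne (y := 2) (by decide))
          (inr_non (by decide) (by decide)) (inr_ne (by decide))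
    have h01 : ∀ x x' : V, x ∈ S → x' ∈ S' → x' ≠ j →
        E3 c (i, 0) (j, 1) (a, 2) (b, 3) (x, 0) (x', 1) ≤ ((1 + ξ) / K) ^ 3 := by
      intro x x' hx hx' hne
      rw [E3_213]
      rcases pair2 S S' hSS hi hj hx hx' hne 0 1 (by decide) with ⟨v, hv1, hv2⟩ | ⟨v, hv1, hv2⟩
      · rw [E3_132]
        exact E3_le c hc (inr_ne (y := 2) (by decide)) (inr_non (by decide) (by decide))
          (inr_non (by decide) (by decide)) hv1 hv2 (inr_ne (by decide))
      · exact E3_le c hc (inr_ne (y := 2) (by decide)) (inr_non (by decide) (by decide))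
          (inr_non (by decide) (by decide)) hv1 hv2 (inr_ne (by decide))
    have h23 : ∀ x x' : V, x ∈ S → x' ∈ S' → x' ≠ b →
        E3 c (i, 0) (j, 1) (a, 2) (b, 3) (x, 2) (x', 3) ≤ ((1 + ξ) / K) ^ 3 := by
      intro x x' hx hx' hne
      rcases pair2 S S' hSS ha hb hx hx' hne 2 3 (by decide) with ⟨v, hv1, hv2⟩ | ⟨v, hv1, hv2⟩
      · rw [E3_132]
        exact E3_le c hc (inr_ne (y := 0) (by decide)) (inr_non (by decide) (by decide))
          (inr_non (by decide) (by decide)) hv1 hv2 (inr_ne (by decide))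
      · exact E3_le c hc (inr_ne (y := 0) (by decide)) (inr_non (by decide) (by decide))
          (inr_non (by decide) (by decide)) hv1 hv2 (inr_ne (by decide))
    have hy4 : ∀ y : Fin 4, y = 0 ∨ y = 1 ∨ y = 2 ∨ y = 3 := by decide
    rcases hy4 y with rfl | rfl | rfl | rfl <;> rcases hy4 y' with rfl | rfl | rfl | rfl
    · exact absurd rfl hyy
    · exact h01 x x' (by simpa [grp] using hs) (by simpa [grp] using ht)
        (fun h => ht1 (by rw [h]))
    · exact hcr _ _ _ _ (by simp) (by simp)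
    · exact hcr _ _ _ _ (by simp) (by simp)
    · rw [E3_symm]
      exact h01 x' x (by simpa [grp] using ht) (by simpa [grp] using hs)
        (fun h => hs1 (by rw [h]))
    · exact absurd rfl hyy
    · exact hcr _ _ _ _ (by simp) (by simp)
    · exact hcr _ _ _ _ (by simp) (by simp)
    · rw [E3_symm]; exact hcr _ _ _ _ (by simp) (by simp)
    · rw [E3_symm]; exact hcr _ _ _ _ (by simp) (by simp)
    · exact absurd rfl hyy
    · exact h23 x x' (by simpa [grp] using hs) (by simpa [grp] using ht)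
        (fun h => ht3 (by rw [h]))
    · rw [E3_symm]; exact hcr _ _ _ _ (by simp) (by simp)
    · rw [E3_symm]; exact hcr _ _ _ _ (by simp) (by simp)
    · rw [E3_symm]
      exact h23 x' x (by simpa [grp] using ht) (by simpa [grp] using hs)
        (fun h => hs3 (by rw [h]))
    · exact absurd rfl hyy

end peel

/-! ### the pair correlation as an average over points -/

section corr

variable {V : Type} {n K : ℕ}

lemma ind_congr {P Q : Prop} (h : P ↔ Q) : ind P = ind Q := congrArg ind (propext h)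

lemma sum_ind_eq {α : Type} [Fintype α] [DecidableEq α] (A : Finset α) :
    ∑ k, ind (k ∈ A) = (A.card : ℝ) := by
  have : ∀ k, ind (k ∈ A) = if k ∈ A then (1 : ℝ) else 0 := fun k => by
    unfold ind; congr
  simp only [this, Finset.sum_ite_mem, Finset.univ_inter, Finset.sum_const, nsmul_eq_mul,
    mul_one]

def Gf (c : Sym2 (Fin n) → Fin K) (f : V → Fin n) (S S' : Finset V) (C : Finset (Fin K))
    (z z' : Fin n) : ℝ :=
  ind (ok c f S C z) * ind (ok c f S' C z') * ((cols c f S z ∩ cols c f S' z').card : ℝ)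

lemma Yp_eq (c : Sym2 (Fin n) → Fin K) (f : V → Fin n) (S S' : Finset V)
    (C : Finset (Fin K)) :
    Yp c f S S' C = av fun z => av fun z' => Gf c f S S' C z z' := by
  have h1 : ∀ z z', Gf c f S S' C z z' = ∑ k, ind (ok c f S C z ∧ k ∈ cols c f S z) *
      ind (ok c f S' C z' ∧ k ∈ cols c f S' z') := by
    intro z z'
    simp only [Gf, ind_and]
    rw [← sum_ind_eq, Finset.mul_sum]
    refine Finset.sum_congr rfl fun k _ => ?_
    rw [ind_congr (Finset.mem_inter), ind_and]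
    ring
  simp only [h1, av_sum, av_mul_left, av_mul_right]
  rfl

/-- injectivity of the colours at `z` -/
def injz (c : Sym2 (Fin n) → Fin K) (f : V → Fin n) (S : Finset V) (z : Fin n) : Prop :=
  ∀ w ∈ S, ∀ w' ∈ S, c s(f w, z) = c s(f w', z) → w = w'

lemma ok_iff (c : Sym2 (Fin n) → Fin K) (f : V → Fin n) (S : Finset V) (C : Finset (Fin K))
    (z : Fin n) : ok c f S C z ↔ injz c f S z ∧ cols c f S z ⊆ C := by
  unfold ok injz cols
  rw [Finset.image_subset_iff]
  tauto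

lemma Gf_eq (c : Sym2 (Fin n) → Fin K) (f : V → Fin n) (S S' : Finset V) (C : Finset (Fin K))
    (z z' : Fin n) : Gf c f S S' C z z' = ind (injz c f S z) * ind (injz c f S' z') *
      ((cols c f S z ∩ cols c f S' z').card : ℝ) *
      ind (cols c f S z ∪ cols c f S' z' ⊆ C) := by
  rw [Gf, ind_congr (ok_iff c f S C z), ind_congr (ok_iff c f S' C z'),
    ind_congr (Finset.union_subset_iff), ind_and, ind_and, ind_and]
  ring

lemma Gf_mul (c : Sym2 (Fin n) → Fin K) (f : V → Fin n) (S S' : Finset V) (C : Finset (Fin K))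
    (z z' y y' : Fin n) : Gf c f S S' C z z' * Gf c f S S' C y y' =
      ind (injz c f S z) * ind (injz c f S' z') * ind (injz c f S y) * ind (injz c f S' y') *
      ((cols c f S z ∩ cols c f S' z').card : ℝ) *
      ((cols c f S y ∩ cols c f S' y').card : ℝ) *
      ind ((cols c f S z ∪ cols c f S' z') ∪ (cols c f S y ∪ cols c f S' y') ⊆ C) := by
  rw [Gf_eq, Gf_eq, ind_congr (Finset.union_subset_iff (s := cols c f S z ∪ cols c f S' z')),
    ind_and]
  ring

/-- all colours of a set fall into the cell -/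
lemma av_phi (hK : 0 < K) (U I : Finset (Fin K)) :
    av (fun φ : Fin K → Fin K => ind (U ⊆ cell φ I)) = ((I.card : ℝ) / (K : ℝ)) ^ U.card := by
  have hK' : (K : ℝ) ≠ 0 := by exact_mod_cast hK.ne'
  have h1 : ∀ φ : Fin K → Fin K, (U ⊆ cell φ I) ↔
      φ ∈ Fintype.piFinset (fun k => if k ∈ U then I else univ) := by
    intro φ
    rw [Fintype.mem_piFinset]
    constructor
    · intro h k
      by_cases hk : k ∈ U
      · have := h hk
        simp only [cell, Finset.mem_filter, Finset.mem_univ, true_and] at this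
        simpa [hk] using this
      · simp [hk]
    · intro h k hk
      have := h k
      simp only [hk, if_true] at this
      simp only [cell, Finset.mem_filter, Finset.mem_univ, true_and]
      exact this
  have h2 : ∑ φ : Fin K → Fin K, ind (U ⊆ cell φ I) =
      ((Fintype.piFinset (fun k => if k ∈ U then I else univ)).card : ℝ) := by
    rw [← sum_ind_eq]
    exact Finset.sum_congr rfl fun φ _ => ind_congr (h1 φ)
  have h3 : (Fintype.piFinset (fun k => if k ∈ U then I else univ)).card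
      = I.card ^ U.card * K ^ (K - U.card) := by
    rw [Fintype.card_piFinset]
    have : ∀ k : Fin K, (if k ∈ U then I else univ).card = if k ∈ U then I.card else K := by
      intro k; split_ifs <;> simp
    rw [Finset.prod_congr rfl fun k _ => this k, Finset.prod_ite, Finset.prod_const,
      Finset.prod_const]
    congr 2
    · congr 1; ext k; simp
    · have : (univ.filter fun k => k ∉ U) = Uᶜ := by ext k; simp
      rw [this, Finset.card_compl, Fintype.card_fin]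
  have h4 : U.card ≤ K := by simpa using Finset.card_le_univ U
  unfold av
  rw [h2, h3, Fintype.card_fun, Fintype.card_fin]
  push_cast
  rw [div_pow, div_eq_div_iff (pow_ne_zero _ hK') (pow_ne_zero _ hK'), mul_assoc, ← pow_add,
    Nat.sub_add_cancel h4]

/-- size of the intersection of two images -/
lemma cap_card {α : Type} [Fintype α] [DecidableEq α] (S S' : Finset V) (g h : V → α)
    (hg : ∀ w ∈ S, ∀ w' ∈ S, g w = g w' → w = w')
    (hh : ∀ w ∈ S', ∀ w' ∈ S', h w = h w' → w = w') :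
    ((S.image g ∩ S'.image h).card : ℝ) = ∑ i ∈ S, ∑ j ∈ S', ind (g i = h j) := by
  have key : ∀ (T : Finset V) (g : V → α), (∀ w ∈ T, ∀ w' ∈ T, g w = g w' → w = w') →
      ∀ k, ind (k ∈ T.image g) = ∑ i ∈ T, ind (k = g i) := by
    intro T g hg k
    by_cases hk : k ∈ T.image g
    · obtain ⟨i, hi, rfl⟩ := Finset.mem_image.mp hk
      rw [ind_true hk, Finset.sum_eq_single i, ind_true rfl]
      · intro j hj hji
        exact ind_false fun h => hji (hg j hj i hi h.symm)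
      · intro h; exact absurd hi h
    · rw [ind_false hk]
      refine (Finset.sum_eq_zero fun i hi => ?_).symm
      exact ind_false fun h => hk (h ▸ Finset.mem_image_of_mem g hi)
  rw [← sum_ind_eq]
  have h1 : ∀ k, ind (k ∈ S.image g ∩ S'.image h) =
      ∑ i ∈ S, ∑ j ∈ S', ind (k = g i) * ind (k = h j) := by
    intro k
    rw [ind_congr Finset.mem_inter, ind_and, key S g hg, key S' h hh, Finset.sum_mul_sum]
  rw [Finset.sum_congr rfl fun k _ => h1 k, Finset.sum_comm]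
  refine Finset.sum_congr rfl fun i _ => ?_
  rw [Finset.sum_comm]
  refine Finset.sum_congr rfl fun j _ => ?_
  rw [Finset.sum_eq_single (g i)]
  · rw [ind_true rfl, one_mul]
  · intro k _ hk
    rw [ind_false hk, zero_mul]
  · intro h; exact absurd (Finset.mem_univ _) h

end corr

/-! ### pointwise bounds -/

section pointwise

variable {V : Type} [Fintype V] {n K : ℕ}

/-- the slots without two of them -/
def SL (S S' : Finset V) (j b : V) : Finset (V × Fin 4) :=
  ((S ×ˢ ({0, 2} : Finset (Fin 4)) ∪ S' ×ˢ ({1, 3} : Finset (Fin 4))).erase (j, 1)).erase (b, 3)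

lemma SL_card {d : ℕ} {S S' : Finset V} (hS : S.card = d) (hS' : S'.card = d) {j b : V}
    (hj : j ∈ S') (hb : b ∈ S') : (SL S S' j b).card = 4 * d - 2 := by
  unfold SL
  have h0 : (S ×ˢ ({0, 2} : Finset (Fin 4)) ∪ S' ×ˢ ({1, 3} : Finset (Fin 4))).card
      = 4 * d := by
    rw [Finset.card_union_of_disjoint]
    · rw [Finset.card_product, Finset.card_product, hS, hS']
      simp only [show ({0, 2} : Finset (Fin 4)).card = 2 from rfl,
        show ({1, 3} : Finset (Fin 4)).card = 2 from rfl]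
      ring
    · rw [Finset.disjoint_left]
      rintro ⟨x, y⟩ h1 h2
      rw [Finset.mem_product] at h1 h2
      have h3 := h1.2
      have h4 := h2.2
      simp only at h3 h4
      revert h3 h4
      fin_cases y <;> simp
  rw [Finset.card_erase_of_mem, Finset.card_erase_of_mem, h0]
  · omega
  · rw [Finset.mem_union]; right
    exact Finset.mem_product.mpr ⟨hj, by simp⟩
  · rw [Finset.mem_erase]
    refine ⟨?_, ?_⟩
    · intro h
      have := congrArg Prod.snd h
      simp at this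
    · rw [Finset.mem_union]; right
      exact Finset.mem_product.mpr ⟨hb, by simp⟩

lemma SL_mem {S S' : Finset V} {j b : V} {s : V × Fin 4} (h : s ∈ SL S S' j b) :
    s.1 ∈ grp S S' s.2 ∧ s ≠ (j, 1) ∧ s ≠ (b, 3) := by
  unfold SL at h
  rw [Finset.mem_erase, Finset.mem_erase, Finset.mem_union] at h
  obtain ⟨h1, h2, h3⟩ := h
  refine ⟨?_, h2, h1⟩
  obtain ⟨x, y⟩ := s
  rcases h3 with h3 | h3
  · rw [Finset.mem_product] at h3
    have h4 := h3.2
    simp only [Finset.mem_insert, Finset.mem_singleton] at h4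
    simp only [grp, if_pos h4]
    exact h3.1
  · rw [Finset.mem_product] at h3
    have h4 := h3.2
    simp only [Finset.mem_insert, Finset.mem_singleton] at h4
    have h5 : ¬ (y = 0 ∨ y = 2) := by
      rcases h4 with rfl | rfl <;> decide
    simp only [grp, if_neg h5]
    exact h3.1

/-- sum over third coincidences -/
def thd (c : Sym2 (Fin n) → Fin K) (S S' : Finset V) (j b : V) (f : V → Fin n)
    (p : Fin 4 → Fin n) : ℝ :=
  ∑ s ∈ SL S S' j b, ∑ t ∈ (SL S S' j b).erase s, eqn c s t f p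

lemma thd_nonneg (c : Sym2 (Fin n) → Fin K) (S S' : Finset V) (j b : V) (f : V → Fin n)
    (p : Fin 4 → Fin n) : 0 ≤ thd c S S' j b f p :=
  Finset.sum_nonneg fun _ _ => Finset.sum_nonneg fun _ _ => eqn_nonneg _ _ _ _ _

lemma key_up (c : Sym2 (Fin n) → Fin K) {d : ℕ} (hd : 1 ≤ d) {S S' : Finset V}
    (hS : S.card = d) (hS' : S'.card = d) {j b : V} (hj : j ∈ S') (hb : b ∈ S') {γ : ℝ}
    (h0 : 0 ≤ γ) (h1 : γ ≤ 1) (f : V → Fin n) (p : Fin 4 → Fin n) :
    γ ^ ((cols c f S (p 0) ∪ cols c f S' (p 1)) ∪ (cols c f S (p 2) ∪ cols c f S' (p 3))).card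
      ≤ (γ ^ (2 * d - 1)) ^ 2 + thd c S S' j b f p := by
  set U := (cols c f S (p 0) ∪ cols c f S' (p 1)) ∪ (cols c f S (p 2) ∪ cols c f S' (p 3))
    with hU
  by_cases h : ∃ s ∈ SL S S' j b, ∃ t ∈ (SL S S' j b).erase s, cl c f p s = cl c f p t
  · obtain ⟨s, hs, t, ht, hst⟩ := h
    have h2 : 1 ≤ thd c S S' j b f p := by
      calc (1 : ℝ) = eqn c s t f p := (ind_true hst).symm
        _ ≤ ∑ t ∈ (SL S S' j b).erase s, eqn c s t f p :=
          Finset.single_le_sum (f := fun t => eqn c s t f p)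
            (fun _ _ => eqn_nonneg _ _ _ _ _) ht
        _ ≤ _ := Finset.single_le_sum
          (f := fun s => ∑ t ∈ (SL S S' j b).erase s, eqn c s t f p)
          (fun _ _ => Finset.sum_nonneg fun _ _ => eqn_nonneg _ _ _ _ _) hs
    have h3 : γ ^ U.card ≤ 1 := pow_le_one₀ h0 h1
    have h4 : 0 ≤ (γ ^ (2 * d - 1)) ^ 2 := by positivity
    linarith
  · push Not at h
    have hinj : Set.InjOn (cl c f p) (SL S S' j b : Set (V × Fin 4)) := by
      intro s hs t ht hst
      by_contra hne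
      exact h s hs t (Finset.mem_erase.mpr ⟨fun h => hne h.symm, ht⟩) hst
    have hsub : (SL S S' j b).image (cl c f p) ⊆ U := by
      intro k hk
      obtain ⟨s, hs, rfl⟩ := Finset.mem_image.mp hk
      have hs1 := (SL_mem hs).1
      obtain ⟨x, y⟩ := s
      have hy4 : ∀ y : Fin 4, y = 0 ∨ y = 1 ∨ y = 2 ∨ y = 3 := by decide
      simp only [hU, Finset.mem_union, cols, Finset.mem_image, cl]
      rcases hy4 y with rfl | rfl | rfl | rfl
      · left; left; exact ⟨x, by simpa [grp] using hs1, rfl⟩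
      · left; right; exact ⟨x, by simpa [grp] using hs1, rfl⟩
      · right; left; exact ⟨x, by simpa [grp] using hs1, rfl⟩
      · right; right; exact ⟨x, by simpa [grp] using hs1, rfl⟩
    have hc : 4 * d - 2 ≤ U.card := by
      rw [← SL_card hS hS' hj hb, ← Finset.card_image_of_injOn hinj]
      exact Finset.card_le_card hsub
    have h2 : γ ^ U.card ≤ (γ ^ (2 * d - 1)) ^ 2 := by
      rw [← pow_mul]
      exact pow_le_pow_of_le_one h0 h1 (by omega)
    have := thd_nonneg c S S' j b f p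
    linarith

lemma up4 (c : Sym2 (Fin n) → Fin K) {d : ℕ} {S S' : Finset V}
    (hS : S.card = d) (hS' : S'.card = d) {γ : ℝ}
    (h0 : 0 ≤ γ) (h1 : γ ≤ 1) (f : V → Fin n) (p : Fin 4 → Fin n) :
    ind (injz c f S (p 0)) * ind (injz c f S' (p 1)) * ind (injz c f S (p 2)) *
      ind (injz c f S' (p 3)) *
      ((cols c f S (p 0) ∩ cols c f S' (p 1)).card : ℝ) *
      ((cols c f S (p 2) ∩ cols c f S' (p 3)).card : ℝ) *
      γ ^ ((cols c f S (p 0) ∪ cols c f S' (p 1)) ∪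
        (cols c f S (p 2) ∪ cols c f S' (p 3))).card
    ≤ ∑ i ∈ S, ∑ j ∈ S', ∑ a ∈ S, ∑ b ∈ S',
      ((γ ^ (2 * d - 1)) ^ 2 * (eqn c (a, 2) (b, 3) f p * eqn c (i, 0) (j, 1) f p) +
        ∑ s ∈ SL S S' j b, ∑ t ∈ (SL S S' j b).erase s,
          eqn c (i, 0) (j, 1) f p * eqn c (a, 2) (b, 3) f p * eqn c s t f p) := by
  have hR : ∀ i j a b, ((γ ^ (2 * d - 1)) ^ 2 * (eqn c (a, 2) (b, 3) f p *
      eqn c (i, 0) (j, 1) f p) +
        ∑ s ∈ SL S S' j b, ∑ t ∈ (SL S S' j b).erase s,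
          eqn c (i, 0) (j, 1) f p * eqn c (a, 2) (b, 3) f p * eqn c s t f p)
      = eqn c (i, 0) (j, 1) f p * eqn c (a, 2) (b, 3) f p *
        ((γ ^ (2 * d - 1)) ^ 2 + thd c S S' j b f p) := by
    intro i j a b
    simp only [thd, ← Finset.mul_sum]
    ring
  simp only [hR]
  by_cases hJ : injz c f S (p 0) ∧ injz c f S' (p 1) ∧ injz c f S (p 2) ∧ injz c f S' (p 3)
  · obtain ⟨hJ0, hJ1, hJ2, hJ3⟩ := hJ
    rw [ind_true hJ0, ind_true hJ1, ind_true hJ2, ind_true hJ3]
    have e1 : ((cols c f S (p 0) ∩ cols c f S' (p 1)).card : ℝ) =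
        ∑ i ∈ S, ∑ j ∈ S', eqn c (i, 0) (j, 1) f p :=
      cap_card S S' (fun w => c s(f w, p 0)) (fun w => c s(f w, p 1)) hJ0 hJ1
    have e2 : ((cols c f S (p 2) ∩ cols c f S' (p 3)).card : ℝ) =
        ∑ i ∈ S, ∑ j ∈ S', eqn c (i, 2) (j, 3) f p :=
      cap_card S S' (fun w => c s(f w, p 2)) (fun w => c s(f w, p 3)) hJ2 hJ3
    rw [e1, e2]
    simp only [one_mul, Finset.sum_mul]
    refine Finset.sum_le_sum fun i hi => Finset.sum_le_sum fun j hj => ?_
    rw [Finset.mul_sum, Finset.sum_mul]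
    refine Finset.sum_le_sum fun a ha => ?_
    rw [Finset.mul_sum, Finset.sum_mul]
    refine Finset.sum_le_sum fun b hb => ?_
    have hd : 1 ≤ d := by rw [← hS]; exact Finset.card_pos.mpr ⟨i, hi⟩
    exact mul_le_mul_of_nonneg_left (key_up c hd hS hS' hj hb h0 h1 f p)
      (mul_nonneg (eqn_nonneg _ _ _ _ _) (eqn_nonneg _ _ _ _ _))
  · have hz : ind (injz c f S (p 0)) * ind (injz c f S' (p 1)) * ind (injz c f S (p 2)) *
      ind (injz c f S' (p 3)) = 0 := by
      by_cases a0 : injz c f S (p 0)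
      · by_cases a1 : injz c f S' (p 1)
        · by_cases a2 : injz c f S (p 2)
          · have a3 : ¬ injz c f S' (p 3) := fun a3 => hJ ⟨a0, a1, a2, a3⟩
            rw [ind_false a3, mul_zero]
          · rw [ind_false a2, mul_zero, zero_mul]
        · rw [ind_false a1]; ring
      · rw [ind_false a0]; ring
    rw [hz, zero_mul, zero_mul, zero_mul]
    refine Finset.sum_nonneg fun i hi => Finset.sum_nonneg fun j hj =>
      Finset.sum_nonneg fun a ha => Finset.sum_nonneg fun b hb => ?_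
    refine mul_nonneg (mul_nonneg (eqn_nonneg _ _ _ _ _) (eqn_nonneg _ _ _ _ _)) ?_
    exact add_nonneg (by positivity) (thd_nonneg c S S' j b f p)

/-- coincidences at one point -/
def cin (c : Sym2 (Fin n) → Fin K) (S : Finset V) (y : Fin 4) (f : V → Fin n)
    (p : Fin 4 → Fin n) : ℝ :=
  ∑ x ∈ S, ∑ x' ∈ S.erase x, eqn c (x, y) (x', y) f p

lemma cin_nonneg (c : Sym2 (Fin n) → Fin K) (S : Finset V) (y : Fin 4) (f : V → Fin n)
    (p : Fin 4 → Fin n) : 0 ≤ cin c S y f p :=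
  Finset.sum_nonneg fun _ _ => Finset.sum_nonneg fun _ _ => eqn_nonneg _ _ _ _ _

lemma cin_ge (c : Sym2 (Fin n) → Fin K) (S : Finset V) (y : Fin 4) (f : V → Fin n)
    (p : Fin 4 → Fin n) (h : ¬ injz c f S (p y)) : 1 ≤ cin c S y f p := by
  unfold injz at h
  push Not at h
  obtain ⟨w, hw, w', hw', hcol, hne⟩ := h
  calc (1 : ℝ) = eqn c (w, y) (w', y) f p := (ind_true hcol).symm
    _ ≤ ∑ x' ∈ S.erase w, eqn c (w, y) (x', y) f p :=
      Finset.single_le_sum (f := fun x' => eqn c (w, y) (x', y) f p)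
        (fun _ _ => eqn_nonneg _ _ _ _ _) (Finset.mem_erase.mpr ⟨fun h => hne h.symm, hw'⟩)
    _ ≤ _ := Finset.single_le_sum
      (f := fun x => ∑ x' ∈ S.erase x, eqn c (x, y) (x', y) f p)
      (fun _ _ => Finset.sum_nonneg fun _ _ => eqn_nonneg _ _ _ _ _) hw

lemma lo2 (c : Sym2 (Fin n) → Fin K) {d : ℕ} {S S' : Finset V}
    (hS : S.card = d) (hS' : S'.card = d) {γ : ℝ}
    (h0 : 0 ≤ γ) (h1 : γ ≤ 1) (f : V → Fin n) (p : Fin 4 → Fin n) :
    γ ^ (2 * d - 1) * ∑ i ∈ S, ∑ j ∈ S', (eqn c (i, 0) (j, 1) f p -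
      ((∑ x ∈ S, ∑ x' ∈ S.erase x, eqn c (x, 0) (x', 0) f p * eqn c (i, 0) (j, 1) f p) +
      ∑ x ∈ S', ∑ x' ∈ S'.erase x, eqn c (x, 1) (x', 1) f p * eqn c (i, 0) (j, 1) f p))
    ≤ ind (injz c f S (p 0)) * ind (injz c f S' (p 1)) *
      ((cols c f S (p 0) ∩ cols c f S' (p 1)).card : ℝ) *
      γ ^ (cols c f S (p 0) ∪ cols c f S' (p 1)).card := by
  have hR : ∀ i j, (eqn c (i, 0) (j, 1) f p -
      ((∑ x ∈ S, ∑ x' ∈ S.erase x, eqn c (x, 0) (x', 0) f p * eqn c (i, 0) (j, 1) f p) +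
      ∑ x ∈ S', ∑ x' ∈ S'.erase x, eqn c (x, 1) (x', 1) f p * eqn c (i, 0) (j, 1) f p))
      = eqn c (i, 0) (j, 1) f p * (1 - (cin c S 0 f p + cin c S' 1 f p)) := by
    intro i j
    simp only [cin, ← Finset.sum_mul]
    ring
  simp only [hR]
  have hγ : 0 ≤ γ ^ (2 * d - 1) := pow_nonneg h0 _
  by_cases hJ : injz c f S (p 0) ∧ injz c f S' (p 1)
  · obtain ⟨hJ0, hJ1⟩ := hJ
    have e1 : ((cols c f S (p 0) ∩ cols c f S' (p 1)).card : ℝ) =
        ∑ i ∈ S, ∑ j ∈ S', eqn c (i, 0) (j, 1) f p :=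
      cap_card S S' (fun w => c s(f w, p 0)) (fun w => c s(f w, p 1)) hJ0 hJ1
    rw [ind_true hJ0, ind_true hJ1, one_mul, one_mul]
    have h2 : ∑ i ∈ S, ∑ j ∈ S', eqn c (i, 0) (j, 1) f p *
        (1 - (cin c S 0 f p + cin c S' 1 f p)) ≤
        ((cols c f S (p 0) ∩ cols c f S' (p 1)).card : ℝ) := by
      rw [e1]
      refine Finset.sum_le_sum fun i _ => Finset.sum_le_sum fun j _ => ?_
      have := cin_nonneg c S 0 f p
      have := cin_nonneg c S' 1 f p
      have h3 := eqn_nonneg c (i, 0) (j, 1) f p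
      nlinarith
    refine (mul_le_mul_of_nonneg_left h2 hγ).trans ?_
    by_cases hm : (cols c f S (p 0) ∩ cols c f S' (p 1)).card = 0
    · rw [hm]; simp
    · have hu := Finset.card_union_add_card_inter (cols c f S (p 0)) (cols c f S' (p 1))
      have hA : (cols c f S (p 0)).card ≤ d := hS ▸ Finset.card_image_le
      have hB : (cols c f S' (p 1)).card ≤ d := hS' ▸ Finset.card_image_le
      have hle : (cols c f S (p 0) ∪ cols c f S' (p 1)).card ≤ 2 * d - 1 := by omega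
      rw [mul_comm]
      exact mul_le_mul_of_nonneg_left (pow_le_pow_of_le_one h0 h1 hle) (Nat.cast_nonneg _)
  · have h2 : 1 ≤ cin c S 0 f p + cin c S' 1 f p := by
      by_cases a0 : injz c f S (p 0)
      · have a1 : ¬ injz c f S' (p 1) := fun a1 => hJ ⟨a0, a1⟩
        have := cin_ge c S' 1 f p a1
        have := cin_nonneg c S 0 f p
        linarith
      · have := cin_ge c S 0 f p a0
        have := cin_nonneg c S' 1 f p
        linarith
    have h3 : ∑ i ∈ S, ∑ j ∈ S', eqn c (i, 0) (j, 1) f p *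
        (1 - (cin c S 0 f p + cin c S' 1 f p)) ≤ 0 :=
      Finset.sum_nonpos fun i _ => Finset.sum_nonpos fun j _ =>
        mul_nonpos_of_nonneg_of_nonpos (eqn_nonneg _ _ _ _ _) (by linarith)
    have h4 : 0 ≤ ind (injz c f S (p 0)) * ind (injz c f S' (p 1)) *
      ((cols c f S (p 0) ∩ cols c f S' (p 1)).card : ℝ) *
      γ ^ (cols c f S (p 0) ∪ cols c f S' (p 1)).card :=
      mul_nonneg (mul_nonneg (mul_nonneg (ind_nonneg _) (ind_nonneg _)) (Nat.cast_nonneg _))
        (pow_nonneg h0 _)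
    have h5 := mul_nonpos_of_nonneg_of_nonpos hγ h3
    linarith

end pointwise

/-! ### assembly -/

section assembly

variable {V : Type} [Fintype V] {n K : ℕ}

lemma step1 (hn : 0 < n) (c : Sym2 (Fin n) → Fin K) (f : V → Fin n) (S S' : Finset V)
    (C : Finset (Fin K)) (l : ℝ) :
    (Yp c f S S' C - l) ^ 2 = av fun p : Fin 4 → Fin n =>
      Gf c f S S' C (p 0) (p 1) * Gf c f S S' C (p 2) (p 3) -
        2 * l * Gf c f S S' C (p 0) (p 1) + l ^ 2 := by
  have : Nonempty (Fin n) := ⟨⟨0, hn⟩⟩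
  rw [av4 (fun a b e g => Gf c f S S' C a b * Gf c f S S' C e g -
        2 * l * Gf c f S S' C a b + l ^ 2)]
  simp only [av_add, av_sub, av_const, av_mul_left, av_mul_right]
  rw [← Yp_eq]
  ring

lemma step2 (hn : 0 < n) (c : Sym2 (Fin n) → Fin K) (S S' : Finset V)
    (I : Finset (Fin K)) (l : ℝ) :
    av (fun φ : Fin K → Fin K => av fun f : V → Fin n => (Yp c f S S' (cell φ I) - l) ^ 2) =
      EE fun f p => av fun φ : Fin K → Fin K =>
      Gf c f S S' (cell φ I) (p 0) (p 1) * Gf c f S S' (cell φ I) (p 2) (p 3) -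
        2 * l * Gf c f S S' (cell φ I) (p 0) (p 1) + l ^ 2 := by
  rw [av_comm]
  unfold EE
  congr 1; funext f
  rw [av_comm]
  congr 1; funext φ
  exact step1 hn c f S S' (cell φ I) l

lemma step3 (hn : 0 < n) (hK : 0 < K) (c : Sym2 (Fin n) → Fin K) {d : ℕ} {S S' : Finset V}
    (hS : S.card = d) (hS' : S'.card = d) (I : Finset (Fin K)) (l : ℝ) (hl : 0 ≤ l)
    (γ : ℝ) (hγ : γ = (I.card : ℝ) / (K : ℝ)) (h0 : 0 ≤ γ) (h1 : γ ≤ 1)
    (f : V → Fin n) (p : Fin 4 → Fin n) :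
    (av fun φ : Fin K → Fin K =>
      Gf c f S S' (cell φ I) (p 0) (p 1) * Gf c f S S' (cell φ I) (p 2) (p 3) -
        2 * l * Gf c f S S' (cell φ I) (p 0) (p 1) + l ^ 2) ≤
    (∑ i ∈ S, ∑ j ∈ S', ∑ a ∈ S, ∑ b ∈ S',
      ((γ ^ (2 * d - 1)) ^ 2 * (eqn c (a, 2) (b, 3) f p * eqn c (i, 0) (j, 1) f p) +
        ∑ s ∈ SL S S' j b, ∑ t ∈ (SL S S' j b).erase s,
          eqn c (i, 0) (j, 1) f p * eqn c (a, 2) (b, 3) f p * eqn c s t f p)) -
    2 * l * (γ ^ (2 * d - 1) * ∑ i ∈ S, ∑ j ∈ S', (eqn c (i, 0) (j, 1) f p -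
      ((∑ x ∈ S, ∑ x' ∈ S.erase x, eqn c (x, 0) (x', 0) f p * eqn c (i, 0) (j, 1) f p) +
      ∑ x ∈ S', ∑ x' ∈ S'.erase x, eqn c (x, 1) (x', 1) f p * eqn c (i, 0) (j, 1) f p)))
    + l ^ 2 := by
  have : Nonempty (Fin K) := ⟨⟨0, hK⟩⟩
  simp only [Gf_mul]
  simp only [Gf_eq, av_add, av_sub, av_mul_left, av_const, av_phi hK, ← hγ]
  have hu := up4 c hS hS' h0 h1 f p
  have hlo := mul_le_mul_of_nonneg_left (lo2 c hS hS' h0 h1 f p)
    (show (0 : ℝ) ≤ 2 * l by linarith)
  linarith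

lemma sum_le_mul {ι : Type} (s : Finset ι) (F : ι → ℝ) (N a : ℝ) (hN : (s.card : ℝ) ≤ N)
    (ha : 0 ≤ a) (h : ∀ i ∈ s, F i ≤ a) : ∑ i ∈ s, F i ≤ N * a := by
  refine (Finset.sum_le_card_nsmul s F a h).trans ?_
  rw [nsmul_eq_mul]
  exact mul_le_mul_of_nonneg_right hN ha

lemma mul_le_sum {ι : Type} (s : Finset ι) (F : ι → ℝ) (a : ℝ)
    (h : ∀ i ∈ s, a ≤ F i) : (s.card : ℝ) * a ≤ ∑ i ∈ s, F i := by
  have := Finset.card_nsmul_le_sum s F a h
  rwa [nsmul_eq_mul] at this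

lemma step4 (c : Sym2 (Fin n) → Fin K) {ξ : ℝ} (hc : Env c ξ) {d : ℕ} {S S' : Finset V}
    (hS : S.card = d) (hS' : S'.card = d) (hSS : (S ∩ S').card ≤ 1) {g : ℝ} (hg : 0 ≤ g) :
    EE (fun f p => ∑ i ∈ S, ∑ j ∈ S', ∑ a ∈ S, ∑ b ∈ S',
      (g ^ 2 * (eqn c (a, 2) (b, 3) f p * eqn c (i, 0) (j, 1) f p) +
        ∑ s ∈ SL S S' j b, ∑ t ∈ (SL S S' j b).erase s,
          eqn c (i, 0) (j, 1) f p * eqn c (a, 2) (b, 3) f p * eqn c s t f p)) ≤
    (d : ℝ) * (d * (d * (d * (g ^ 2 * ((1 + ξ) / K) ^ 2 +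
      (4 * d : ℝ) * ((4 * d : ℝ) * ((1 + ξ) / K) ^ 3))))) := by
  have hq := q_nonneg c hc
  have hd : (0 : ℝ) ≤ d := Nat.cast_nonneg _
  have hin : 0 ≤ g ^ 2 * ((1 + ξ) / (K : ℝ)) ^ 2 +
      (4 * d : ℝ) * ((4 * d : ℝ) * ((1 + ξ) / K) ^ 3) := by positivity
  rw [EE_sum]
  refine sum_le_mul _ _ _ _ (by rw [hS]) (by positivity) fun i hi => ?_
  rw [EE_sum]
  refine sum_le_mul _ _ _ _ (by rw [hS']) (by positivity) fun j hj => ?_
  rw [EE_sum]
  refine sum_le_mul _ _ _ _ (by rw [hS]) (by positivity) fun a ha => ?_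
  rw [EE_sum]
  refine sum_le_mul _ _ _ _ (by rw [hS']) hin fun b hb => ?_
  rw [EE_add, EE_mul_left]
  refine add_le_add ?_ ?_
  · refine mul_le_mul_of_nonneg_left ?_ (by positivity)
    exact peel2 c hc (v₁ := Sum.inr 0) (v₂ := Sum.inr 2) (inr_ne (by decide))
      (inr_non (by decide) (by decide)) (inr_ne (by decide))
  · have hd1 : 1 ≤ d := by rw [← hS]; exact Finset.card_pos.mpr ⟨i, hi⟩
    have hcard : ((SL S S' j b).card : ℝ) ≤ 4 * d := by
      rw [SL_card hS hS' hj hb]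
      have : 4 * d - 2 ≤ 4 * d := by omega
      exact_mod_cast this
    rw [EE_sum]
    refine sum_le_mul _ _ _ _ hcard (by positivity) fun s hs => ?_
    rw [EE_sum]
    refine sum_le_mul _ _ _ _ ?_ (by positivity) fun t ht => ?_
    · refine le_trans ?_ hcard
      exact_mod_cast Finset.card_le_card (Finset.erase_subset s (SL S S' j b))
    · obtain ⟨hts, ht'⟩ := Finset.mem_erase.mp ht
      obtain ⟨s1, s2, s3⟩ := SL_mem hs
      obtain ⟨t1, t2, t3⟩ := SL_mem ht'
      exact triple c hc S S' hSS hi hj ha hb (fun h => hts h.symm) s1 t1 s2 t2 s3 t3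

lemma step5 (c : Sym2 (Fin n) → Fin K) {ξ : ℝ} (hc : Env c ξ) {d : ℕ} {S S' : Finset V}
    (hS : S.card = d) (hS' : S'.card = d) {g : ℝ} (hg : 0 ≤ g) :
    g * ((d : ℝ) * (d * ((1 - ξ) / K - (d * (d * ((1 + ξ) / K) ^ 2) +
      d * (d * ((1 + ξ) / K) ^ 2))))) ≤
    EE (fun f p => g * ∑ i ∈ S, ∑ j ∈ S', (eqn c (i, 0) (j, 1) f p -
      ((∑ x ∈ S, ∑ x' ∈ S.erase x, eqn c (x, 0) (x', 0) f p * eqn c (i, 0) (j, 1) f p) +
      ∑ x ∈ S', ∑ x' ∈ S'.erase x, eqn c (x, 1) (x', 1) f p * eqn c (i, 0) (j, 1) f p))) := by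
  have hq := q_nonneg c hc
  have hd : (0 : ℝ) ≤ d := Nat.cast_nonneg _
  rw [EE_mul_left]
  refine mul_le_mul_of_nonneg_left ?_ hg
  rw [EE_sum]
  refine le_trans (by rw [hS]) (mul_le_sum S _ _ fun i hi => ?_)
  rw [EE_sum]
  refine le_trans (by rw [hS']) (mul_le_sum S' _ _ fun j hj => ?_)
  rw [EE_sub, EE_add]
  refine sub_le_sub (peel_lower c hc (by simp)) (add_le_add ?_ ?_)
  · rw [EE_sum]
    refine sum_le_mul _ _ _ _ (by rw [hS]) (by positivity) fun x hx => ?_
    rw [EE_sum]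
    refine sum_le_mul _ _ _ _ ?_ (by positivity) fun x' hx' => ?_
    · rw [← hS]
      exact_mod_cast Finset.card_le_card (Finset.erase_subset x S)
    · obtain ⟨h1, _⟩ := Finset.mem_erase.mp hx'
      exact peel2 c hc (v₁ := Sum.inr 1) (v₂ := Sum.inl x) (inr_ne' (by decide))
        (inr_non (by decide) (by decide)) (Or.inl ⟨rfl, h1⟩)
  · rw [EE_sum]
    refine sum_le_mul _ _ _ _ (by rw [hS']) (by positivity) fun x hx => ?_
    rw [EE_sum]
    refine sum_le_mul _ _ _ _ ?_ (by positivity) fun x' hx' => ?_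
    · rw [← hS']
      exact_mod_cast Finset.card_le_card (Finset.erase_subset x S')
    · obtain ⟨h1, _⟩ := Finset.mem_erase.mp hx'
      exact peel2 c hc (v₁ := Sum.inr 0) (v₂ := Sum.inl x) (inr_ne (by decide))
        (inr_non (by decide) (by decide)) (Or.inl ⟨rfl, h1⟩)

lemma arith (D g r : ℝ) (hD : 0 ≤ D) (hg : 0 ≤ g) (hg1 : g ≤ 1) (hr : 0 ≤ r) (hr1 : r ≤ 1) :
    D * (D * (D * (D * (g ^ 2 * ((1 + r) * r) ^ 2 +
      (4 * D) * ((4 * D) * ((1 + r) * r) ^ 3))))) -
    2 * (D ^ 2 * g * r) * (g * (D * (D * ((1 - r) * r - (D * (D * ((1 + r) * r) ^ 2) +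
      D * (D * ((1 + r) * r) ^ 2)))))) + (D ^ 2 * g * r) ^ 2
    ≤ (5 * D ^ 4 + 144 * D ^ 6) * r ^ 3 := by
  have hg2 : g ^ 2 ≤ 1 := by nlinarith
  have e : D * (D * (D * (D * (g ^ 2 * ((1 + r) * r) ^ 2 +
      (4 * D) * ((4 * D) * ((1 + r) * r) ^ 3))))) -
    2 * (D ^ 2 * g * r) * (g * (D * (D * ((1 - r) * r - (D * (D * ((1 + r) * r) ^ 2) +
      D * (D * ((1 + r) * r) ^ 2)))))) + (D ^ 2 * g * r) ^ 2
      = D ^ 4 * r ^ 3 * (g ^ 2 * (4 + r)) + 16 * (D ^ 6 * r ^ 3) * (1 + r) ^ 3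
        + 4 * (D ^ 6 * r ^ 3) * (g ^ 2 * (1 + r) ^ 2) := by ring
  rw [e]
  have h1 : g ^ 2 * (4 + r) ≤ 5 := by nlinarith
  have h2 : (1 + r) ^ 3 ≤ 8 := by
    have := pow_le_pow_left₀ (by linarith : (0 : ℝ) ≤ 1 + r) (by linarith : 1 + r ≤ 2) 3
    linarith
  have h3 : g ^ 2 * (1 + r) ^ 2 ≤ 4 := by
    have := pow_le_pow_left₀ (by linarith : (0 : ℝ) ≤ 1 + r) (by linarith : 1 + r ≤ 2) 2
    have h4 : 0 ≤ (1 + r) ^ 2 := by positivity
    nlinarith
  have p1 : 0 ≤ D ^ 4 * r ^ 3 := by positivity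
  have p2 : 0 ≤ D ^ 6 * r ^ 3 := by positivity
  nlinarith [mul_le_mul_of_nonneg_left h1 p1, mul_le_mul_of_nonneg_left h2 p2,
    mul_le_mul_of_nonneg_left h3 p2]

end assembly

end E1Aux

open E1Aux in
theorem prfE1 : StE1 := by
  intro d
  refine ⟨5 * (d : ℝ) ^ 4 + 144 * (d : ℝ) ^ 6, ?_⟩
  intro n K c hc V _ S S' I hS hS' hSS
  have hn := hc.npos
  have hK : 0 < K := by
    have x : Fin n := ⟨0, hn⟩
    exact Fin.pos (c s(x, x))
  have hKr : (1 : ℝ) ≤ K := by exact_mod_cast hK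
  have hK0 : (K : ℝ) ≠ 0 := by positivity
  obtain ⟨γ, hγ⟩ : ∃ γ : ℝ, γ = (I.card : ℝ) / (K : ℝ) := ⟨_, rfl⟩
  have h0 : 0 ≤ γ := by rw [hγ]; positivity
  have h1 : γ ≤ 1 := by
    rw [hγ, div_le_one (by linarith)]
    have : I.card ≤ K := by simpa using Finset.card_le_univ I
    exact_mod_cast this
  rw [← hγ]
  obtain ⟨g, hg⟩ : ∃ g : ℝ, g = γ ^ (2 * d - 1) := ⟨_, rfl⟩
  have hg0 : 0 ≤ g := by rw [hg]; positivity
  have hg1 : g ≤ 1 := by rw [hg]; exact pow_le_one₀ h0 h1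
  have hl : 0 ≤ (d : ℝ) ^ 2 * γ ^ (2 * d - 1) / (K : ℝ) := by positivity
  rw [step2 hn]
  refine (EE_mono (step3 hn hK c hS hS' I _ hl γ hγ h0 h1)).trans ?_
  rw [← hg] at hl ⊢
  rw [EE_add, EE_sub, EE_mul_left, EE_const hn]
  have u := step4 c hc hS hS' hSS hg0
  have v := mul_le_mul_of_nonneg_left (step5 c hc hS hS' hg0)
    (show (0 : ℝ) ≤ 2 * ((d : ℝ) ^ 2 * g / (K : ℝ)) by linarith)
  have w := arith (d : ℝ) g (1 / (K : ℝ)) (Nat.cast_nonneg _) hg0 hg1 (by positivity)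
    (by rw [div_le_one (by linarith)]; exact hKr)
  have e1 : (1 + 1 / (K : ℝ)) / (K : ℝ) = (1 + 1 / (K : ℝ)) * (1 / (K : ℝ)) := by
    rw [mul_one_div]
  have e2 : (1 - 1 / (K : ℝ)) / (K : ℝ) = (1 - 1 / (K : ℝ)) * (1 / (K : ℝ)) := by
    rw [mul_one_div]
  have e3 : (d : ℝ) ^ 2 * g / (K : ℝ) = (d : ℝ) ^ 2 * g * (1 / (K : ℝ)) := by
    rw [mul_one_div]
  have e4 : (5 * (d : ℝ) ^ 4 + 144 * (d : ℝ) ^ 6) / (K : ℝ) ^ 3 =
      (5 * (d : ℝ) ^ 4 + 144 * (d : ℝ) ^ 6) * (1 / (K : ℝ)) ^ 3 := by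
    rw [one_div, inv_pow, div_eq_mul_inv]
  rw [e4]
  rw [e1] at u
  rw [e1, e2] at v
  rw [e3] at v ⊢
  linarith

end

end Pool.Agent.Lib.MP_b1acb3_co.Dgn
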