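import Pool.Agent.Lib.MP_b1acb3_co.Dgn.Stmts

/-!
MP_b1acb3_co, project DGN: module E2, two common colours are rare.
-/

set_option autoImplicit false

namespace Pool.Agent.Lib.MP_b1acb3_co.Dgn

open Finset Classical

namespace E2Aux

variable {V : Type} [Fintype V] {n K : ℕ}

/-- Resampling one coordinate. -/
lemma sum_update (F : (V → Fin n) → ℝ) (i : V) :
    ∑ f : V → Fin n, ∑ x : Fin n, F (Function.update f i x) = (n : ℝ) * ∑ f, F f := by
  have e : Function.Involutive (fun p : (V → Fin n) × Fin n =>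
      ((Function.update p.1 i p.2, p.1 i) : (V → Fin n) × Fin n)) := by
    rintro ⟨f, x⟩
    simp
  have h1 := Equiv.sum_comp (e.toPerm _) (fun p : (V → Fin n) × Fin n => F p.1)
  rw [Fintype.sum_prod_type, Fintype.sum_prod_type] at h1
  have h2 : ∑ f : V → Fin n, ∑ x : Fin n, F (Function.update f i x) =
      ∑ f : V → Fin n, ∑ _x : Fin n, F f := h1
  rw [h2]
  simp only [Finset.sum_const, Finset.card_univ, Fintype.card_fin, nsmul_eq_mul]
  rw [Finset.mul_sum]

/-- indicator of two equalities of colours -/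
noncomputable def ind (c : Sym2 (Fin n) → Fin K) (f : V → Fin n) (a b : V × V) (z z' : Fin n) :
    ℝ :=
  if c s(f a.1, z) = c s(f b.1, z') ∧ c s(f a.2, z) = c s(f b.2, z') then 1 else 0

/-- pairs of distinct elements -/
noncomputable def pairs (S : Finset V) : Finset (V × V) := (S ×ˢ S).filter fun a => a.1 ≠ a.2

lemma Kpos {c : Sym2 (Fin n) → Fin K} {ξ : ℝ} (hc : Env c ξ) : 0 < K := by
  have x : Fin n := ⟨0, hc.npos⟩
  exact Fin.pos (c s(x, x))

lemma row {c : Sym2 (Fin n) → Fin K} (hc : Env c (1 / (K : ℝ))) (x : Fin n) (k : Fin K) :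
    (∑ z : Fin n, if c s(x, z) = k then (1 : ℝ) else 0) ≤ 2 * (n : ℝ) / (K : ℝ) := by
  have hK : (1 : ℝ) ≤ K := by exact_mod_cast Kpos hc
  have hn : (0 : ℝ) < n := by exact_mod_cast hc.npos
  have h := hc.up x k
  unfold pr av at h
  rw [Fintype.card_fin, div_le_iff₀ hn] at h
  have h0 : (∑ z : Fin n, if c s(x, z) = k then (1 : ℝ) else 0) ≤
      (1 + 1 / (K : ℝ)) / (K : ℝ) * n := by
    refine le_trans (le_of_eq (Finset.sum_congr rfl fun z _ => ?_)) h
    by_cases hz : c s(x, z) = k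
    · rw [if_pos hz]
      exact (if_pos hz).symm
    · rw [if_neg hz]
      exact (if_neg hz).symm
  refine le_trans h0 ?_
  have h1 : 1 / (K : ℝ) ≤ 1 := by
    rw [div_le_one (by linarith)]
    exact hK
  have h2 : (1 + 1 / (K : ℝ)) / (K : ℝ) ≤ 2 / (K : ℝ) :=
    div_le_div_of_nonneg_right (by linarith) (by linarith)
  calc (1 + 1 / (K : ℝ)) / (K : ℝ) * n ≤ 2 / (K : ℝ) * n :=
        mul_le_mul_of_nonneg_right h2 hn.le
    _ = 2 * (n : ℝ) / (K : ℝ) := by ring

lemma col {c : Sym2 (Fin n) → Fin K} (hc : Env c (1 / (K : ℝ))) (z : Fin n) (k : Fin K) :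
    (∑ x : Fin n, if c s(x, z) = k then (1 : ℝ) else 0) ≤ 2 * (n : ℝ) / (K : ℝ) := by
  refine le_trans (le_of_eq ?_) (row hc z k)
  refine Finset.sum_congr rfl fun x _ => ?_
  rw [Sym2.eq_swap]

lemma ite_mul_aux {A : Prop} [Decidable A] {x y : Fin K} :
    (if A ∧ x = y then (1 : ℝ) else 0) =
      (if A then (1 : ℝ) else 0) * (if y = x then (1 : ℝ) else 0) := by
  by_cases hA : A
  · by_cases hB : x = y
    · simp [hA, hB]
    · have hB' : ¬ y = x := fun h => hB h.symm
      simp [hA, hB, hB']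
  · simp [hA]

/-- Peeling: the vertex `a.1` occurs only once. -/
lemma peel {c : Sym2 (Fin n) → Fin K} (hc : Env c (1 / (K : ℝ))) (a b : V × V)
    (h1 : a.1 ≠ a.2) (h2 : a.1 ≠ b.1) (h3 : a.1 ≠ b.2) :
    ∑ f : V → Fin n, ∑ z : Fin n, ∑ z' : Fin n, ind c f a b z z' ≤
      (2 * (n : ℝ) / (K : ℝ)) ^ 2 * (Fintype.card (V → Fin n) : ℝ) := by
  have hn : (0 : ℝ) < n := by exact_mod_cast hc.npos
  have hK : (0 : ℝ) < K := by exact_mod_cast Kpos hc
  set R : ℝ := 2 * (n : ℝ) / (K : ℝ) with hR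
  have hR0 : 0 ≤ R := by positivity
  have e1 := sum_update (fun f : V → Fin n => ∑ z : Fin n, ∑ z' : Fin n, ind c f a b z z') a.1
  -- the sum over the images of `a.1`
  have e2 : ∀ f : V → Fin n, ∑ x : Fin n, ∑ z : Fin n, ∑ z' : Fin n,
      ind c (Function.update f a.1 x) a b z z' ≤ (n : ℝ) * R ^ 2 := by
    intro f
    have e3 : ∀ x z z' : Fin n, ind c (Function.update f a.1 x) a b z z' =
        (if c s(x, z) = c s(f b.1, z') then (1 : ℝ) else 0) *
          (if c s(f b.2, z') = c s(f a.2, z) then (1 : ℝ) else 0) := by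
      intro x z z'
      unfold ind
      rw [Function.update_self, Function.update_of_ne h1.symm, Function.update_of_ne h2.symm,
        Function.update_of_ne h3.symm]
      exact ite_mul_aux
    calc ∑ x : Fin n, ∑ z : Fin n, ∑ z' : Fin n, ind c (Function.update f a.1 x) a b z z'
        = ∑ z : Fin n, ∑ z' : Fin n, (∑ x : Fin n,
            (if c s(x, z) = c s(f b.1, z') then (1 : ℝ) else 0)) *
            (if c s(f b.2, z') = c s(f a.2, z) then (1 : ℝ) else 0) := by
          rw [Finset.sum_comm]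
          refine Finset.sum_congr rfl fun z _ => ?_
          rw [Finset.sum_comm]
          refine Finset.sum_congr rfl fun z' _ => ?_
          rw [Finset.sum_mul]
          exact Finset.sum_congr rfl fun x _ => e3 x z z'
      _ ≤ ∑ z : Fin n, ∑ z' : Fin n, R *
            (if c s(f b.2, z') = c s(f a.2, z) then (1 : ℝ) else 0) := by
          refine Finset.sum_le_sum fun z _ => Finset.sum_le_sum fun z' _ => ?_
          refine mul_le_mul_of_nonneg_right (col hc z _) ?_
          split_ifs <;> norm_num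
      _ ≤ ∑ _z : Fin n, R * R := by
          refine Finset.sum_le_sum fun z _ => ?_
          rw [← Finset.mul_sum]
          exact mul_le_mul_of_nonneg_left (row hc _ _) hR0
      _ = (n : ℝ) * R ^ 2 := by
          rw [Finset.sum_const, Finset.card_univ, Fintype.card_fin, nsmul_eq_mul]
          ring
  have e4 : (n : ℝ) * ∑ f : V → Fin n, ∑ z : Fin n, ∑ z' : Fin n, ind c f a b z z' ≤
      (n : ℝ) * (R ^ 2 * (Fintype.card (V → Fin n) : ℝ)) := by
    rw [← e1]
    refine le_trans (Finset.sum_le_sum fun f _ => e2 f) (le_of_eq ?_)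
    rw [Finset.sum_const, Finset.card_univ, nsmul_eq_mul]
    ring
  exact le_of_mul_le_mul_left e4 hn

lemma peel' {c : Sym2 (Fin n) → Fin K} (hc : Env c (1 / (K : ℝ))) {S S' : Finset V}
    (hSS : (S ∩ S').card ≤ 1) {a b : V × V} (ha : a ∈ pairs S) (hb : b ∈ pairs S') :
    ∑ f : V → Fin n, ∑ z : Fin n, ∑ z' : Fin n, ind c f a b z z' ≤
      (2 * (n : ℝ) / (K : ℝ)) ^ 2 * (Fintype.card (V → Fin n) : ℝ) := by
  unfold pairs at ha hb
  rw [Finset.mem_filter, Finset.mem_product] at ha hb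
  obtain ⟨⟨a1, a2⟩, a3⟩ := ha
  obtain ⟨⟨b1, b2⟩, b3⟩ := hb
  by_cases h : a.1 ∈ S'
  · have h' : a.2 ∉ S' := by
      intro h'
      exact a3 (Finset.card_le_one.1 hSS _ (Finset.mem_inter.2 ⟨a1, h⟩) _
        (Finset.mem_inter.2 ⟨a2, h'⟩))
    have h1 := peel hc (a.2, a.1) (b.2, b.1) a3.symm (fun e => h' (by
      have e' : a.2 = b.2 := e
      rw [e']
      exact b2)) (fun e => h' (by
      have e' : a.2 = b.1 := e
      rw [e']
      exact b1))
    refine le_trans (le_of_eq ?_) h1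
    refine Finset.sum_congr rfl fun f _ => Finset.sum_congr rfl fun z _ =>
      Finset.sum_congr rfl fun z' _ => ?_
    unfold ind
    exact if_congr and_comm rfl rfl
  · exact peel hc a b a3 (fun e => h (e ▸ b1)) (fun e => h (e ▸ b2))

/-- indicator of two colours -/
noncomputable def mm (c : Sym2 (Fin n) → Fin K) (f : V → Fin n) (k l : Fin K) (z : Fin n)
    (a : V × V) : ℝ :=
  if c s(f a.1, z) = k ∧ c s(f a.2, z) = l then 1 else 0

omit [Fintype V] in
lemma mm_nonneg (c : Sym2 (Fin n) → Fin K) (f : V → Fin n) (k l : Fin K) (z : Fin n)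
    (a : V × V) : 0 ≤ mm c f k l z a := by
  unfold mm
  split_ifs <;> norm_num

omit [Fintype V] in
lemma two_nonneg (c : Sym2 (Fin n) → Fin K) (f : V → Fin n) (S : Finset V) (C : Finset (Fin K))
    (k l : Fin K) : 0 ≤ two c f S C k l := by
  unfold two pr av
  refine div_nonneg (Finset.sum_nonneg fun z _ => ?_) (Nat.cast_nonneg _)
  split_ifs <;> norm_num

omit [Fintype V] in
lemma two_le (c : Sym2 (Fin n) → Fin K) (f : V → Fin n) (S : Finset V) (C : Finset (Fin K))
    {k l : Fin K} (hkl : k ≠ l) :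
    two c f S C k l ≤ (∑ a ∈ pairs S, ∑ z : Fin n, mm c f k l z a) / (n : ℝ) := by
  unfold two pr av
  rw [Fintype.card_fin, Finset.sum_comm]
  refine div_le_div_of_nonneg_right (Finset.sum_le_sum fun z _ => ?_) (Nat.cast_nonneg _)
  split_ifs with h
  · obtain ⟨-, h1, h2⟩ := h
    unfold cols at h1 h2
    rw [Finset.mem_image] at h1 h2
    obtain ⟨i, hi, hi'⟩ := h1
    obtain ⟨p, hp, hp'⟩ := h2
    have hm : (i, p) ∈ pairs S := by
      unfold pairs
      rw [Finset.mem_filter, Finset.mem_product]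
      refine ⟨⟨hi, hp⟩, fun e => hkl ?_⟩
      have e' : i = p := e
      rw [← hi', ← hp', e']
    have h3 : mm c f k l z (i, p) = 1 := by
      unfold mm
      exact if_pos ⟨hi', hp'⟩
    rw [← h3]
    exact Finset.single_le_sum (f := fun a => mm c f k l z a)
      (fun a _ => mm_nonneg c f k l z a) hm
  · exact Finset.sum_nonneg fun a _ => mm_nonneg c f k l z a

omit [Fintype V] in
lemma sum_mm (c : Sym2 (Fin n) → Fin K) (f : V → Fin n) (a b : V × V) (z z' : Fin n) :
    ∑ k : Fin K, ∑ l : Fin K, mm c f k l z a * mm c f k l z' b = ind c f a b z z' := by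
  rw [Finset.sum_eq_single (c s(f a.1, z)), Finset.sum_eq_single (c s(f a.2, z))]
  · unfold mm ind
    rw [if_pos ⟨rfl, rfl⟩, one_mul]
    exact if_congr ⟨fun h => ⟨h.1.symm, h.2.symm⟩, fun h => ⟨h.1.symm, h.2.symm⟩⟩ rfl rfl
  · intro l _ hl
    unfold mm
    rw [if_neg (fun h => hl h.2.symm), zero_mul]
  · intro h
    exact absurd (Finset.mem_univ _) h
  · intro k _ hk
    refine Finset.sum_eq_zero fun l _ => ?_
    unfold mm
    rw [if_neg (fun h => hk h.1.symm), zero_mul]
  · intro h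
    exact absurd (Finset.mem_univ _) h

omit [Fintype V] in
lemma Dp_le (c : Sym2 (Fin n) → Fin K) (f : V → Fin n) (S S' : Finset V) (C : Finset (Fin K)) :
    Dp c f S S' C ≤ (∑ a ∈ pairs S, ∑ b ∈ pairs S', ∑ z : Fin n, ∑ z' : Fin n,
      ind c f a b z z') / (n : ℝ) ^ 2 := by
  have hX : ∀ (S : Finset V) (k l : Fin K),
      0 ≤ (∑ a ∈ pairs S, ∑ z : Fin n, mm c f k l z a) / (n : ℝ) := by
    intro S k l
    exact div_nonneg (Finset.sum_nonneg fun a _ => Finset.sum_nonneg fun z _ =>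
      mm_nonneg c f k l z a) (Nat.cast_nonneg _)
  calc Dp c f S S' C
      ≤ ∑ k : Fin K, ∑ l : Fin K, ((∑ a ∈ pairs S, ∑ z : Fin n, mm c f k l z a) / (n : ℝ)) *
        ((∑ b ∈ pairs S', ∑ z' : Fin n, mm c f k l z' b) / (n : ℝ)) := by
        unfold Dp
        refine Finset.sum_le_sum fun k _ => ?_
        refine le_trans (Finset.sum_le_sum fun l hl => ?_)
          (Finset.sum_le_sum_of_subset_of_nonneg (Finset.erase_subset k univ)
            fun l _ _ => mul_nonneg (hX S k l) (hX S' k l))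
        have hkl : k ≠ l := (Finset.ne_of_mem_erase hl).symm
        exact mul_le_mul (two_le c f S C hkl) (two_le c f S' C hkl) (two_nonneg _ _ _ _ _ _)
          (hX S k l)
    _ = ∑ k : Fin K, ∑ l : Fin K, (∑ a ∈ pairs S, ∑ b ∈ pairs S', ∑ z : Fin n, ∑ z' : Fin n,
          mm c f k l z a * mm c f k l z' b) / (n : ℝ) ^ 2 := by
        refine Finset.sum_congr rfl fun k _ => Finset.sum_congr rfl fun l _ => ?_
        rw [div_mul_div_comm, ← pow_two, Finset.sum_mul_sum]
        congr 1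
        refine Finset.sum_congr rfl fun a _ => Finset.sum_congr rfl fun b _ => ?_
        rw [Finset.sum_mul_sum]
    _ = (∑ a ∈ pairs S, ∑ b ∈ pairs S', ∑ z : Fin n, ∑ z' : Fin n,
          ∑ k : Fin K, ∑ l : Fin K, mm c f k l z a * mm c f k l z' b) / (n : ℝ) ^ 2 := by
        have e1 : ∀ F : Fin K → Fin K → ℝ, ∑ k : Fin K, ∑ l : Fin K, F k l / (n : ℝ) ^ 2 =
            (∑ k : Fin K, ∑ l : Fin K, F k l) / (n : ℝ) ^ 2 := by
          intro F
          rw [Finset.sum_div]
          refine Finset.sum_congr rfl fun k _ => ?_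
          rw [Finset.sum_div]
        rw [e1]
        congr 1
        -- move the sums over the colours inside
        have e2 : ∀ (α : Type) (A : Finset α) (G : Fin K → Fin K → α → ℝ),
            ∑ k : Fin K, ∑ l : Fin K, ∑ a ∈ A, G k l a =
              ∑ a ∈ A, ∑ k : Fin K, ∑ l : Fin K, G k l a := by
          intro α A G
          calc ∑ k : Fin K, ∑ l : Fin K, ∑ a ∈ A, G k l a
              = ∑ k : Fin K, ∑ a ∈ A, ∑ l : Fin K, G k l a :=
                Finset.sum_congr rfl fun k _ => Finset.sum_comm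
            _ = ∑ a ∈ A, ∑ k : Fin K, ∑ l : Fin K, G k l a := Finset.sum_comm
        rw [e2]
        refine Finset.sum_congr rfl fun a _ => ?_
        rw [e2]
        refine Finset.sum_congr rfl fun b _ => ?_
        rw [e2]
        refine Finset.sum_congr rfl fun z _ => ?_
        rw [e2]
    _ = _ := by
        congr 1
        refine Finset.sum_congr rfl fun a _ => Finset.sum_congr rfl fun b _ =>
          Finset.sum_congr rfl fun z _ => Finset.sum_congr rfl fun z' _ => sum_mm c f a b z z'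

omit [Fintype V] in
lemma card_pairs {S : Finset V} {d : ℕ} (h : S.card = d) :
    ((pairs S).card : ℝ) ≤ (d : ℝ) ^ 2 := by
  have h1 : (pairs S).card ≤ d * d := by
    unfold pairs
    refine le_trans (Finset.card_filter_le _ _) ?_
    rw [Finset.card_product, h]
  calc ((pairs S).card : ℝ) ≤ ((d * d : ℕ) : ℝ) := by exact_mod_cast h1
    _ = (d : ℝ) ^ 2 := by push_cast; ring

end E2Aux

open E2Aux in
/-- Module E2. -/
theorem prfE2 : StE2 := by
  intro d
  refine ⟨4 * (d : ℝ) ^ 4, fun n K c hc V _ S S' C hS hS' hSS => ?_⟩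
  have hn : (0 : ℝ) < n := by exact_mod_cast hc.npos
  have hK : (0 : ℝ) < K := by exact_mod_cast Kpos hc
  have hN : (0 : ℝ) < (Fintype.card (V → Fin n) : ℝ) := by
    have : Nonempty (Fin n) := ⟨⟨0, hc.npos⟩⟩
    exact_mod_cast Fintype.card_pos
  set N : ℝ := (Fintype.card (V → Fin n) : ℝ) with hNdef
  unfold av
  rw [← hNdef, div_le_iff₀ hN]
  calc ∑ f : V → Fin n, Dp c f S S' C
      ≤ ∑ f : V → Fin n, (∑ a ∈ pairs S, ∑ b ∈ pairs S', ∑ z : Fin n, ∑ z' : Fin n,
          ind c f a b z z') / (n : ℝ) ^ 2 := Finset.sum_le_sum fun f _ => Dp_le c f S S' C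
    _ = (∑ a ∈ pairs S, ∑ b ∈ pairs S', ∑ f : V → Fin n, ∑ z : Fin n, ∑ z' : Fin n,
          ind c f a b z z') / (n : ℝ) ^ 2 := by
        rw [← Finset.sum_div, Finset.sum_comm]
        congr 1
        refine Finset.sum_congr rfl fun a _ => ?_
        rw [Finset.sum_comm]
    _ ≤ (∑ a ∈ pairs S, ∑ b ∈ pairs S', (2 * (n : ℝ) / (K : ℝ)) ^ 2 * N) / (n : ℝ) ^ 2 := by
        refine div_le_div_of_nonneg_right (Finset.sum_le_sum fun a ha =>
          Finset.sum_le_sum fun b hb => peel' hc hSS ha hb) (by positivity)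
    _ = ((pairs S).card : ℝ) * ((pairs S').card : ℝ) * (4 / (K : ℝ) ^ 2 * N) := by
        simp only [Finset.sum_const, nsmul_eq_mul]
        field_simp
        ring
    _ ≤ ((d : ℝ) ^ 2 * (d : ℝ) ^ 2) * (4 / (K : ℝ) ^ 2 * N) := by
        refine mul_le_mul_of_nonneg_right ?_ (by positivity)
        exact mul_le_mul (card_pairs hS) (card_pairs hS') (Nat.cast_nonneg _) (by positivity)
    _ = 4 * (d : ℝ) ^ 4 / (K : ℝ) ^ 2 * N := by ring

end Pool.Agent.Lib.MP_b1acb3_co.Dgn
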