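import Pool.Agent.Lib.MP_b1acb3_co.Dgn.Stmts

/-!
MP_b1acb3_co, project DGN, module Hyp: the hypotheses of the batch lemma hold.
-/

set_option autoImplicit false

namespace Pool.Agent.Lib.MP_b1acb3_co.Dgn

open Finset Classical

namespace HypAux

section avpr

variable {Ω Ω' ι : Type} [Fintype Ω] [Fintype Ω']

theorem av_nonneg {f : Ω → ℝ} (h : ∀ x, 0 ≤ f x) : 0 ≤ av f :=
  div_nonneg (Finset.sum_nonneg fun x _ => h x) (Nat.cast_nonneg _)

theorem av_mono {f g : Ω → ℝ} (h : ∀ x, f x ≤ g x) : av f ≤ av g :=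
  div_le_div_of_nonneg_right (Finset.sum_le_sum fun x _ => h x) (Nat.cast_nonneg _)

theorem av_sum (S : Finset ι) (f : ι → Ω → ℝ) :
    av (fun x => ∑ i ∈ S, f i x) = ∑ i ∈ S, av (f i) := by
  unfold av
  rw [Finset.sum_comm, Finset.sum_div]

theorem av_const [Nonempty Ω] (a : ℝ) : av (fun _ : Ω => a) = a := by
  unfold av
  have : (Fintype.card Ω : ℝ) ≠ 0 := by exact_mod_cast Fintype.card_ne_zero
  simp [mul_div_cancel_left₀ _ this]

theorem av_const_le (a : ℝ) (ha : 0 ≤ a) : av (fun _ : Ω => a) ≤ a := by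
  by_cases h : Nonempty Ω
  · exact (av_const a).le
  · have : IsEmpty Ω := not_nonempty_iff.1 h
    unfold av
    simpa using ha

theorem av_mul_left (a : ℝ) (f : Ω → ℝ) : av (fun x => a * f x) = a * av f := by
  unfold av
  rw [← Finset.mul_sum, mul_div_assoc]

theorem av_comm (f : Ω → Ω' → ℝ) :
    av (fun x => av (fun y => f x y)) = av fun y => av fun x => f x y := by
  unfold av
  simp only [Finset.sum_div]
  rw [Finset.sum_comm]
  refine Finset.sum_congr rfl fun y _ => Finset.sum_congr rfl fun x _ => ?_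
  rw [div_right_comm]

theorem pr_nonneg (P : Ω → Prop) : 0 ≤ pr P := by
  unfold pr
  exact av_nonneg fun x => by split_ifs <;> norm_num

theorem pr_mono {P Q : Ω → Prop} (h : ∀ x, P x → Q x) : pr P ≤ pr Q := by
  unfold pr
  refine av_mono fun x => ?_
  by_cases h1 : P x
  · simp [h1, h x h1]
  · by_cases h2 : Q x <;> simp [h1, h2]

theorem pr_le_one (P : Ω → Prop) : pr P ≤ 1 := by
  unfold pr
  refine le_trans (av_mono (g := fun _ => (1 : ℝ)) fun x => ?_) (av_const_le 1 zero_le_one)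
  split_ifs <;> norm_num

theorem pr_exists_le (S : Finset ι) (P : ι → Ω → Prop) :
    pr (fun x => ∃ i ∈ S, P i x) ≤ ∑ i ∈ S, pr (P i) := by
  unfold pr
  rw [← av_sum]
  refine av_mono fun x => ?_
  by_cases h : ∃ i ∈ S, P i x
  · rw [if_pos h]
    obtain ⟨i, hi, hP⟩ := h
    refine le_trans ?_ (Finset.single_le_sum (f := fun i => if P i x then (1 : ℝ) else 0)
      (fun j _ => by split_ifs <;> norm_num) hi)
    simp [hP]
  · rw [if_neg h]
    exact Finset.sum_nonneg fun j _ => by split_ifs <;> norm_num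

theorem pr_le_add {P Q R : Ω → Prop} (h : ∀ x, P x → Q x ∨ R x) : pr P ≤ pr Q + pr R := by
  unfold pr
  have : av (fun x => if Q x then (1 : ℝ) else 0) + av (fun x => if R x then (1 : ℝ) else 0) =
      av fun x => (if Q x then (1 : ℝ) else 0) + (if R x then (1 : ℝ) else 0) := by
    unfold av
    rw [← add_div, Finset.sum_add_distrib]
  rw [this]
  refine av_mono fun x => ?_
  by_cases h1 : P x
  · rw [if_pos h1]
    rcases h x h1 with h2 | h2
    · rw [if_pos h2]; split_ifs <;> norm_num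
    · rw [if_pos h2]; split_ifs <;> norm_num
  · rw [if_neg h1]; split_ifs <;> norm_num

theorem pr_markov (f : Ω → ℝ) (hf : ∀ x, 0 ≤ f x) (a : ℝ) (ha : 0 < a) :
    pr (fun x => a < f x) ≤ av f / a := by
  unfold pr
  rw [div_eq_inv_mul, ← av_mul_left]
  refine av_mono fun x => ?_
  split_ifs with h
  · rw [← div_eq_inv_mul, le_div_iff₀ ha]; linarith
  · exact mul_nonneg (inv_nonneg.2 ha.le) (hf x)

end avpr

section colour

variable {V : Type} {n K : ℕ}

theorem pr_sim_le (c : Sym2 (Fin n) → Fin K) (hc : Env c 1) (β : ℝ) (hβ : 0 < β) (x : Fin n) :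
    pr (fun z => β < sim c z x) ≤ 2 / (K : ℝ) / β := by
  refine le_trans (pr_markov (fun z => sim c z x) (fun z => pr_nonneg _) β hβ) ?_
  refine div_le_div_of_nonneg_right ?_ hβ.le
  have h1 : av (fun z : Fin n => sim c z x) =
      av fun y : Fin n => pr fun z : Fin n => c s(y, z) = c s(x, y) := by
    unfold sim pr
    rw [av_comm]
    congr 1
    funext y
    congr 1
    funext z
    have e : s(z, y) = s(y, z) := Sym2.eq_swap
    beta_reduce
    by_cases h : c s(z, y) = c s(x, y)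
    · rw [if_pos h, if_pos (by rw [← e]; exact h)]
    · rw [if_neg h, if_neg (by rw [← e]; exact h)]
  rw [h1]
  refine le_trans (av_mono (g := fun _ => 2 / (K : ℝ)) fun y => ?_) (av_const_le _ (by positivity))
  refine le_trans (hc.up y _) ?_
  norm_num

theorem hit_le (c : Sym2 (Fin n) → Fin K) (hc : Env c 1) (f : V → Fin n) (S : Finset V)
    (k : Fin K) : pr (fun z => k ∈ cols c f S z) ≤ (S.card : ℝ) * (2 / (K : ℝ)) := by
  have h1 : pr (fun z => k ∈ cols c f S z) ≤ pr (fun z => ∃ w ∈ S, c s(f w, z) = k) := by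
    refine pr_mono fun z hz => ?_
    unfold cols at hz
    rw [Finset.mem_image] at hz
    exact hz
  refine le_trans h1 (le_trans (pr_exists_le S _) ?_)
  rw [← nsmul_eq_mul]
  refine Finset.sum_le_card_nsmul _ _ _ fun w _ => ?_
  refine le_trans (hc.up (f w) k) ?_
  norm_num

theorem card_cols_le (c : Sym2 (Fin n) → Fin K) (f : V → Fin n) (S : Finset V) (z : Fin n) :
    (cols c f S z).card ≤ S.card := by
  unfold cols
  exact Finset.card_image_le

theorem sum_hit_le (c : Sym2 (Fin n) → Fin K) (f : V → Fin n) (S : Finset V)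
    (C : Finset (Fin K)) : ∑ k, hit c f S C k ≤ (S.card : ℝ) * tm c f S C := by
  unfold hit tm pr
  rw [← av_sum, ← av_mul_left]
  refine av_mono fun z => ?_
  by_cases h : ok c f S C z
  · simp only [h, true_and, if_true, mul_one]
    rw [← Finset.sum_filter, Finset.sum_const, nsmul_eq_mul, mul_one]
    have : (univ.filter fun k => k ∈ cols c f S z) = cols c f S z := by
      ext k; simp
    rw [this]
    exact_mod_cast card_cols_le c f S z
  · simp [h]

theorem sum_two_le (c : Sym2 (Fin n) → Fin K) (f : V → Fin n) (S : Finset V)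
    (C : Finset (Fin K)) :
    ∑ k, ∑ l, two c f S C k l ≤ (S.card : ℝ) ^ 2 * tm c f S C := by
  unfold two tm pr
  refine le_trans (le_of_eq (Finset.sum_congr rfl fun k _ => (av_sum _ _).symm)) ?_
  rw [← av_sum, ← av_mul_left]
  refine av_mono fun z => ?_
  by_cases h : ok c f S C z
  · simp only [h, true_and, if_true, mul_one]
    have h1 : ∀ k : Fin K, ∑ l : Fin K, (if k ∈ cols c f S z ∧ l ∈ cols c f S z then (1 : ℝ) else 0)
        = if k ∈ cols c f S z then ((cols c f S z).card : ℝ) else 0 := by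
      intro k
      by_cases hk : k ∈ cols c f S z
      · simp only [hk, true_and, if_true]
        rw [← Finset.sum_filter, Finset.sum_const, nsmul_eq_mul, mul_one]
        congr 2
        ext l; simp
      · simp [hk]
    simp_rw [h1]
    rw [← Finset.sum_filter, Finset.sum_const, nsmul_eq_mul]
    have : (univ.filter fun k => k ∈ cols c f S z) = cols c f S z := by
      ext k; simp
    rw [this]
    have h2 : ((cols c f S z).card : ℝ) ≤ (S.card : ℝ) := by exact_mod_cast card_cols_le c f S z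
    have h3 : (0 : ℝ) ≤ ((cols c f S z).card : ℝ) := Nat.cast_nonneg _
    nlinarith
  · simp [h]

theorem Yp_le (c : Sym2 (Fin n) → Fin K) (hc : Env c 1) (f : V → Fin n) (S S' : Finset V)
    (C : Finset (Fin K)) (D : ℝ) (hS : (S.card : ℝ) ≤ D) (hS' : (S'.card : ℝ) ≤ D) :
    Yp c f S S' C ≤ 2 * D ^ 2 / (K : ℝ) := by
  have hD : 0 ≤ D := le_trans (Nat.cast_nonneg _) hS
  have hK : (0 : ℝ) ≤ K := Nat.cast_nonneg _
  unfold Yp
  calc ∑ k, hit c f S C k * hit c f S' C k ≤ ∑ k, hit c f S C k * (D * (2 / (K : ℝ))) := by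
        refine Finset.sum_le_sum fun k _ => mul_le_mul_of_nonneg_left ?_ (pr_nonneg _)
        refine le_trans (pr_mono (Q := fun z => k ∈ cols c f S' z) fun z hz => hz.2) ?_
        refine le_trans (hit_le c hc f S' k) ?_
        exact mul_le_mul_of_nonneg_right hS' (by positivity)
    _ = (∑ k, hit c f S C k) * (D * (2 / (K : ℝ))) := by rw [Finset.sum_mul]
    _ ≤ D * (D * (2 / (K : ℝ))) := by
        refine mul_le_mul_of_nonneg_right ?_ (by positivity)
        refine le_trans (sum_hit_le c f S C) ?_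
        calc (S.card : ℝ) * tm c f S C ≤ D * 1 :=
              mul_le_mul hS (pr_le_one _) (pr_nonneg _) hD
          _ = D := mul_one _
    _ = 2 * D ^ 2 / (K : ℝ) := by ring

theorem Dp_le (c : Sym2 (Fin n) → Fin K) (hc : Env c 1) (f : V → Fin n) (S S' : Finset V)
    (C : Finset (Fin K)) (D : ℝ) (hS : (S.card : ℝ) ≤ D) (hS' : (S'.card : ℝ) ≤ D) :
    Dp c f S S' C ≤ 2 * D ^ 3 / (K : ℝ) := by
  have hD : 0 ≤ D := le_trans (Nat.cast_nonneg _) hS
  have hK : (0 : ℝ) ≤ K := Nat.cast_nonneg _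
  unfold Dp
  calc ∑ k, ∑ l ∈ univ.erase k, two c f S C k l * two c f S' C k l
      ≤ ∑ k, ∑ l, two c f S C k l * (D * (2 / (K : ℝ))) := by
        refine Finset.sum_le_sum fun k _ => ?_
        refine le_trans (Finset.sum_le_sum fun l _ => mul_le_mul_of_nonneg_left ?_ (pr_nonneg _))
          (Finset.sum_le_sum_of_subset_of_nonneg (Finset.subset_univ _) fun l _ _ =>
            mul_nonneg (pr_nonneg _) (by positivity))
        refine le_trans (pr_mono (Q := fun z => k ∈ cols c f S' z) fun z hz => hz.2.1) ?_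
        refine le_trans (hit_le c hc f S' k) ?_
        exact mul_le_mul_of_nonneg_right hS' (by positivity)
    _ = (∑ k, ∑ l, two c f S C k l) * (D * (2 / (K : ℝ))) := by
        rw [Finset.sum_mul]
        refine Finset.sum_congr rfl fun k _ => ?_
        rw [Finset.sum_mul]
    _ ≤ D ^ 2 * (D * (2 / (K : ℝ))) := by
        refine mul_le_mul_of_nonneg_right ?_ (by positivity)
        refine le_trans (sum_two_le c f S C) ?_
        have h1 : (S.card : ℝ) ^ 2 ≤ D ^ 2 := pow_le_pow_left₀ (Nat.cast_nonneg _) hS 2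
        calc (S.card : ℝ) ^ 2 * tm c f S C ≤ D ^ 2 * 1 :=
              mul_le_mul h1 (pr_le_one _) (pr_nonneg _) (by positivity)
          _ = D ^ 2 := mul_one _
    _ = 2 * D ^ 3 / (K : ℝ) := by ring

theorem Dp_nonneg (c : Sym2 (Fin n) → Fin K) (f : V → Fin n) (S S' : Finset V)
    (C : Finset (Fin K)) : 0 ≤ Dp c f S S' C :=
  Finset.sum_nonneg fun _ _ => Finset.sum_nonneg fun _ _ => mul_nonneg (pr_nonneg _) (pr_nonneg _)

end colour

section loc

variable {V : Type} {n K : ℕ}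

theorem ok_congr (c : Sym2 (Fin n) → Fin K) (f f' : V → Fin n) (S : Finset V)
    (C : Finset (Fin K)) (z : Fin n) (h : ∀ v ∈ S, f v = f' v) :
    ok c f S C z = ok c f' S C z := by
  have key : ∀ g g' : V → Fin n, (∀ v ∈ S, g v = g' v) → ok c g S C z → ok c g' S C z := by
    intro g g' hg hok
    refine ⟨fun w hw => ?_, fun w hw w' hw' he => ?_⟩
    · rw [← hg w hw]; exact hok.1 w hw
    · refine hok.2 w hw w' hw' ?_
      rw [hg w hw, hg w' hw']; exact he
  exact propext ⟨key f f' h, key f' f fun v hv => (h v hv).symm⟩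

theorem cols_congr (c : Sym2 (Fin n) → Fin K) (f f' : V → Fin n) (S : Finset V) (z : Fin n)
    (h : ∀ v ∈ S, f v = f' v) : cols c f S z = cols c f' S z := by
  unfold cols
  refine Finset.image_congr ?_
  intro v hv
  simp only
  rw [h v hv]

theorem tm_congr (c : Sym2 (Fin n) → Fin K) (f f' : V → Fin n) (S : Finset V)
    (C : Finset (Fin K)) (h : ∀ v ∈ S, f v = f' v) : tm c f S C = tm c f' S C := by
  unfold tm
  congr 1
  funext z
  exact ok_congr c f f' S C z h

theorem hit_congr (c : Sym2 (Fin n) → Fin K) (f f' : V → Fin n) (S : Finset V)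
    (C : Finset (Fin K)) (k : Fin K) (h : ∀ v ∈ S, f v = f' v) :
    hit c f S C k = hit c f' S C k := by
  unfold hit
  congr 1
  funext z
  rw [ok_congr c f f' S C z h, cols_congr c f f' S z h]

theorem two_congr (c : Sym2 (Fin n) → Fin K) (f f' : V → Fin n) (S : Finset V)
    (C : Finset (Fin K)) (k l : Fin K) (h : ∀ v ∈ S, f v = f' v) :
    two c f S C k l = two c f' S C k l := by
  unfold two
  congr 1
  funext z
  rw [ok_congr c f f' S C z h, cols_congr c f f' S z h]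

variable [Fintype V]

theorem gg_local (c : Sym2 (Fin n) → Fin K) (H : SimpleGraph V) (p : Par) (s : Sch V K) (q : Cst)
    (φ : Fin K → Fin K) (i : Ix V) (f f' : V → Fin n) (h : ∀ v ∈ supp H s i, f v = f' v) :
    gg c H p s q φ i f = gg c H p s q φ i f' := by
  rcases i with u | ⟨u, u'⟩
  · have h' : ∀ v ∈ Nb H s.lev u, f v = f' v := h
    have h1 : NonTwin c H s q f u = NonTwin c H s q f' u := by
      apply propext
      unfold NonTwin
      constructor
      · intro hh w hw w' hw' hne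
        rw [← h' w hw, ← h' w' hw']; exact hh w hw w' hw' hne
      · intro hh w hw w' hw' hne
        rw [h' w hw, h' w' hw']; exact hh w hw w' hw' hne
    have h2 : BadT c H p s q φ f u = BadT c H p s q φ f' u := by
      unfold BadT
      rw [tm_congr c f f' _ _ h', tm_congr c f f' _ _ h']
    simp only [gg]
    rw [h1, h2]
  · simp only [gg]
    by_cases hp : pairOK H s u u'
    · rw [if_pos hp, if_pos hp]
      have h' : ∀ v ∈ Nb H s.lev u ∪ Nb H s.lev u', f v = f' v := by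
        intro v hv
        apply h
        simp only [supp]
        rw [if_pos hp]
        exact hv
      have ha : ∀ v ∈ Nb H s.lev u, f v = f' v := fun v hv => h' v (mem_union_left _ hv)
      have hb : ∀ v ∈ Nb H s.lev u', f v = f' v := fun v hv => h' v (mem_union_right _ hv)
      have e1 : ∀ C, Yp c f (Nb H s.lev u) (Nb H s.lev u') C =
          Yp c f' (Nb H s.lev u) (Nb H s.lev u') C := by
        intro C
        unfold Yp
        refine Finset.sum_congr rfl fun k _ => ?_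
        rw [hit_congr c f f' _ _ _ ha, hit_congr c f f' _ _ _ hb]
      have e2 : ∀ C, Dp c f (Nb H s.lev u) (Nb H s.lev u') C =
          Dp c f' (Nb H s.lev u) (Nb H s.lev u') C := by
        intro C
        unfold Dp
        refine Finset.sum_congr rfl fun k _ => Finset.sum_congr rfl fun l _ => ?_
        rw [two_congr c f f' _ _ _ _ ha, two_congr c f f' _ _ _ _ hb]
      rw [e1, e2]
    · rw [if_neg hp, if_neg hp]

theorem gg_nonneg (c : Sym2 (Fin n) → Fin K) (H : SimpleGraph V) (p : Par) (s : Sch V K) (q : Cst)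
    (φ : Fin K → Fin K) (i : Ix V) (f : V → Fin n) : 0 ≤ gg c H p s q φ i f := by
  rcases i with u | ⟨u, u'⟩
  · simp only [gg]
    split_ifs <;> norm_num
  · simp only [gg]
    split_ifs
    · have := Dp_nonneg c f (Nb H s.lev u) (Nb H s.lev u') (cell φ (s.I (s.lev u)))
      positivity
    · exact le_refl _

/-- the terms with support in `E` are evaluated at `f` -/
theorem term_eq (c : Sym2 (Fin n) → Fin K) (hn : 0 < n) (H : SimpleGraph V) (p : Par) (s : Sch V K)
    (q : Cst) (φ : Fin K → Fin K) (E : Finset V) (i : Ix V) (f : V → Fin n)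
    (h : supp H s i ⊆ E) :
    q.A ^ (supp H s i \ E).card * av (fun f' : V → Fin n => gg c H p s q φ i (mix E f f')) =
      gg c H p s q φ i f := by
  have h1 : (supp H s i \ E).card = 0 := by
    rw [Finset.card_eq_zero, Finset.sdiff_eq_empty_iff_subset]; exact h
  have h2 : (fun f' : V → Fin n => gg c H p s q φ i (mix E f f')) =
      fun _ => gg c H p s q φ i f := by
    funext f'
    apply gg_local
    intro v hv
    unfold mix
    rw [if_pos (h hv)]
  have : Nonempty (Fin n) := ⟨⟨0, hn⟩⟩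
  rw [h1, h2, av_const, pow_zero, one_mul]

theorem term_nonneg (c : Sym2 (Fin n) → Fin K) (H : SimpleGraph V) (p : Par) (s : Sch V K)
    (q : Cst) (hA : 1 ≤ q.A) (φ : Fin K → Fin K) (E : Finset V) (i : Ix V) (f : V → Fin n) :
    0 ≤ q.A ^ (supp H s i \ E).card *
      av (fun f' : V → Fin n => gg c H p s q φ i (mix E f f')) :=
  mul_nonneg (pow_nonneg (le_trans zero_le_one hA) _) (av_nonneg fun _ => gg_nonneg _ _ _ _ _ _ _ _)

theorem single_le_Tot (c : Sym2 (Fin n) → Fin K) (hn : 0 < n) (H : SimpleGraph V) (p : Par)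
    (s : Sch V K) (q : Cst) (hA : 1 ≤ q.A) (φ : Fin K → Fin K) (E : Finset V) (i : Ix V)
    (f : V → Fin n) (h : supp H s i ⊆ E) : gg c H p s q φ i f ≤ Tot c H p s q φ E f := by
  rw [← term_eq c hn H p s q φ E i f h]
  unfold Tot Pot
  exact Finset.single_le_sum (f := fun i => q.A ^ (supp H s i \ E).card *
    av (fun f' : V → Fin n => gg c H p s q φ i (mix E f f')))
    (fun j _ => term_nonneg c H p s q hA φ E j f) (mem_univ i)

theorem pairs_le_Tot (c : Sym2 (Fin n) → Fin K) (hn : 0 < n) (H : SimpleGraph V) (p : Par)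
    (s : Sch V K) (q : Cst) (hA : 1 ≤ q.A) (φ : Fin K → Fin K) (E U : Finset V)
    (f : V → Fin n) (h : ∀ u ∈ U, Nb H s.lev u ⊆ E) :
    ∑ u ∈ U, ∑ u' ∈ U, gg c H p s q φ (Sum.inr (u, u')) f ≤ Tot c H p s q φ E f := by
  have h0 : ∀ u ∈ U, ∀ u' ∈ U, supp H s (Sum.inr (u, u')) ⊆ E := by
    intro u hu u' hu'
    simp only [supp]
    split_ifs
    · exact Finset.union_subset (h u hu) (h u' hu')
    · exact Finset.empty_subset _
  have h1 : ∑ u ∈ U, ∑ u' ∈ U, gg c H p s q φ (Sum.inr (u, u')) f =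
      ∑ i ∈ (U ×ˢ U).map ⟨Sum.inr, Sum.inr_injective⟩, q.A ^ (supp H s i \ E).card *
        av (fun f' : V → Fin n => gg c H p s q φ i (mix E f f')) := by
    rw [Finset.sum_map, Finset.sum_product]
    refine Finset.sum_congr rfl fun u hu => Finset.sum_congr rfl fun u' hu' => ?_
    exact (term_eq c hn H p s q φ E _ f (h0 u hu u' hu')).symm
  rw [h1]
  unfold Tot Pot
  exact Finset.sum_le_sum_of_subset_of_nonneg (Finset.subset_univ _)
    fun j _ _ => term_nonneg c H p s q hA φ E j f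

end loc

/-- summation over good and bad pairs -/
theorem pairs_sum {V : Type} (U : Finset V) (P : V → V → Prop) (F G : V → V → ℝ)
    (a b g N : ℝ) (ha : 0 ≤ a) (hb : 0 ≤ b)
    (h1 : ∀ u ∈ U, ∀ u' ∈ U, P u u' → F u u' ≤ a + G u u')
    (h2 : ∀ u ∈ U, ∀ u' ∈ U, ¬ P u u' → F u u' ≤ b)
    (h3 : ∑ u ∈ U, ∑ u' ∈ U, (if P u u' then G u u' else 0) ≤ g)
    (h4 : ∀ u ∈ U, ((U.filter fun u' => ¬ P u u').card : ℝ) ≤ N) :
    ∑ u ∈ U, ∑ u' ∈ U, F u u' ≤ (U.card : ℝ) ^ 2 * a + g + (U.card : ℝ) * (N * b) := by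
  have h5 : ∀ u ∈ U, ∀ u' ∈ U, F u u' ≤ a + (if P u u' then G u u' else 0) +
      (if ¬ P u u' then b else 0) := by
    intro u hu u' hu'
    by_cases hp : P u u'
    · have := h1 u hu u' hu' hp
      simp only [hp, if_true, not_true, if_false, add_zero]
      exact this
    · have := h2 u hu u' hu' hp
      simp only [hp, if_false, not_false_iff, if_true, add_zero]
      linarith
  have h6 : ∀ u ∈ U, ∑ u' ∈ U, (if ¬ P u u' then b else 0) ≤ N * b := by
    intro u hu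
    rw [← Finset.sum_filter, Finset.sum_const, nsmul_eq_mul]
    exact mul_le_mul_of_nonneg_right (h4 u hu) hb
  calc ∑ u ∈ U, ∑ u' ∈ U, F u u'
      ≤ ∑ u ∈ U, ∑ u' ∈ U, (a + (if P u u' then G u u' else 0) + (if ¬ P u u' then b else 0)) :=
        Finset.sum_le_sum fun u hu => Finset.sum_le_sum fun u' hu' => h5 u hu u' hu'
    _ = (U.card : ℝ) ^ 2 * a + ∑ u ∈ U, ∑ u' ∈ U, (if P u u' then G u u' else 0) +
        ∑ u ∈ U, ∑ u' ∈ U, (if ¬ P u u' then b else 0) := by
        simp only [Finset.sum_add_distrib, Finset.sum_const, nsmul_eq_mul]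
        ring
    _ ≤ (U.card : ℝ) ^ 2 * a + g + (U.card : ℝ) * (N * b) := by
        refine add_le_add (add_le_add le_rfl h3) ?_
        rw [← nsmul_eq_mul]
        exact Finset.sum_le_card_nsmul _ _ _ h6

theorem sq_sum_le {V κ : Type} (T : Finset κ) (U : Finset V) (a b : V → κ → ℝ)
    (h0 : ∀ u ∈ U, ∀ k, 0 ≤ a u k) (h1 : ∀ u ∈ U, ∀ k, a u k ≤ b u k) :
    ∑ k ∈ T, (∑ u ∈ U, a u k) ^ 2 ≤ ∑ u ∈ U, ∑ u' ∈ U, ∑ k ∈ T, b u k * b u' k := by
  have e1 : ∀ k, (∑ u ∈ U, a u k) ^ 2 = ∑ u ∈ U, ∑ u' ∈ U, a u k * a u' k := by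
    intro k
    rw [pow_two, Finset.sum_mul_sum]
  calc ∑ k ∈ T, (∑ u ∈ U, a u k) ^ 2 = ∑ k ∈ T, ∑ u ∈ U, ∑ u' ∈ U, a u k * a u' k :=
        Finset.sum_congr rfl fun k _ => e1 k
    _ = ∑ u ∈ U, ∑ u' ∈ U, ∑ k ∈ T, a u k * a u' k := by
        rw [Finset.sum_comm]
        refine Finset.sum_congr rfl fun u _ => ?_
        rw [Finset.sum_comm]
    _ ≤ ∑ u ∈ U, ∑ u' ∈ U, ∑ k ∈ T, b u k * b u' k := by
        refine Finset.sum_le_sum fun u hu => Finset.sum_le_sum fun u' hu' =>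
          Finset.sum_le_sum fun k _ => ?_
        exact mul_le_mul (h1 u hu k) (h1 u' hu' k) (h0 u' hu' k) (le_trans (h0 u hu k) (h1 u hu k))

theorem consts (Δ : ℕ) (bb δ m : ℝ) :
    ∃ K0 : ℕ, ∀ K : ℕ, K0 ≤ K →
      (1 : ℝ) ≤ K ∧ (Δ : ℝ) / (δ * bb) ≤ K ∧ 2 * (Δ : ℝ) ^ 3 / m ≤ K ∧
      2 * (Δ : ℝ) ^ 2 / (δ * bb ^ (2 * Δ)) ≤ K ∧ 1 / (8 * m ^ 2) ≤ √(K : ℝ) ∧
      1 / (2 * m) ≤ √(K : ℝ) := by
  have t1 : Filter.Tendsto (fun K : ℕ => (K : ℝ)) Filter.atTop Filter.atTop :=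
    tendsto_natCast_atTop_atTop
  have t2 : Filter.Tendsto (fun K : ℕ => √(K : ℝ)) Filter.atTop Filter.atTop :=
    Real.tendsto_sqrt_atTop.comp t1
  have := (t1.eventually_ge_atTop 1).and ((t1.eventually_ge_atTop ((Δ : ℝ) / (δ * bb))).and
    ((t1.eventually_ge_atTop (2 * (Δ : ℝ) ^ 3 / m)).and
    ((t1.eventually_ge_atTop (2 * (Δ : ℝ) ^ 2 / (δ * bb ^ (2 * Δ)))).and
    ((t2.eventually_ge_atTop (1 / (8 * m ^ 2))).and (t2.eventually_ge_atTop (1 / (2 * m)))))))
  exact Filter.eventually_atTop.1 this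

end HypAux

open HypAux

theorem prfHyp : StHyp := by
  intro Δ bb δ hΔ hbb hδ
  refine ⟨δ / 2, by positivity, ?_⟩
  intro β1 hβ1
  have hΔ' : (1 : ℝ) ≤ Δ := by exact_mod_cast hΔ
  have hΔ0 : (0 : ℝ) < Δ := by linarith
  obtain ⟨m, hm⟩ : ∃ m : ℝ, m = δ * bb ^ (2 * Δ + 1) / 8 := ⟨_, rfl⟩
  have hm0 : 0 < m := by rw [hm]; positivity
  refine ⟨δ * bb ^ Δ * β1 / 4, m / (2 * (Δ : ℝ) ^ 3), δ * bb / (2 * (1 + δ)), by positivity,
    by positivity, by positivity, ?_⟩
  obtain ⟨K0, hK0⟩ := consts Δ bb δ m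
  refine ⟨K0, ?_⟩
  intro n K c hK hc V _ H p s q φ ℓ f hG hpΔ hpbb hpκ hpη hA hqβ hqδ hℓ hcell hNT hTot
  obtain ⟨k1, k2, k3, k4, k5, k6⟩ := hK0 K hK
  have hn := hc.npos
  have hK1 : (0 : ℝ) < K := by linarith
  have hsq : √(K : ℝ) * √(K : ℝ) = K := Real.mul_self_sqrt hK1.le
  have hsq0 : 0 < √(K : ℝ) := Real.sqrt_pos.2 hK1
  -- names
  obtain ⟨U, hU⟩ : ∃ U : Finset V, U = univ.filter fun v => s.lev v = ℓ := ⟨_, rfl⟩
  obtain ⟨E, hE⟩ : ∃ E : Finset V, E = univ.filter fun v => s.lev v < ℓ := ⟨_, rfl⟩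
  obtain ⟨C, hC⟩ : ∃ C : Finset (Fin K), C = cell φ (s.I ℓ) := ⟨_, rfl⟩
  obtain ⟨d, hd⟩ : ∃ d : ℕ, d = s.dg ℓ := ⟨_, rfl⟩
  obtain ⟨g, hg⟩ : ∃ g : ℝ, g = gam s ℓ := ⟨_, rfl⟩
  obtain ⟨I, hI⟩ : ∃ I : ℝ, I = ((s.I ℓ).card : ℝ) := ⟨_, rfl⟩
  rw [← hU, ← hE, ← hC, ← hd, ← hg]
  rw [← hE] at hTot
  rw [← hC, ← hI] at hcell
  have hmemU : ∀ u, u ∈ U ↔ s.lev u = ℓ := by intro u; rw [hU]; simp
  have hd1 : 1 ≤ d := by rw [hd]; exact (hG.dpos ℓ hℓ).1
  have hd2 : d ≤ Δ := by rw [hd, ← hpΔ]; exact (hG.dpos ℓ hℓ).2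
  have hd1' : (1 : ℝ) ≤ d := by exact_mod_cast hd1
  have hd2' : (d : ℝ) ≤ Δ := by exact_mod_cast hd2
  have hI1 : I = (d : ℝ) * (U.card : ℝ) := by
    rw [hI, hG.card ℓ hℓ, ← hU, ← hd]; push_cast; ring
  have hI2 : bb * (K : ℝ) ≤ I := by
    have := hG.big ℓ hℓ
    rw [hpbb] at this
    rw [hI]; exact this
  have hI3 : I ≤ (K : ℝ) := by
    rw [hI]
    have := Finset.card_le_univ (s.I ℓ)
    rw [Fintype.card_fin] at this
    exact_mod_cast this
  have hgI : g = I / (K : ℝ) := by rw [hg, hI]; rfl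
  have hgbb : bb ≤ g := by rw [hgI, le_div_iff₀ hK1]; exact hI2
  have hg1 : g ≤ 1 := by rw [hgI, div_le_one hK1]; exact hI3
  have hg0 : 0 < g := lt_of_lt_of_le hbb hgbb
  have hbb1 : bb ≤ 1 := le_trans hgbb hg1
  have hUK : (U.card : ℝ) ≤ K := by
    have h0 : (0 : ℝ) ≤ (U.card : ℝ) := Nat.cast_nonneg _
    nlinarith
  have hU0 : (0 : ℝ) ≤ (U.card : ℝ) := Nat.cast_nonneg _
  have hεbb : δ * bb / (2 * (1 + δ)) ≤ bb / 2 := by
    rw [div_le_div_iff₀ (by positivity) (by norm_num)]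
    nlinarith
  have hεδ : δ * bb / (2 * (1 + δ)) ≤ δ * bb / 2 := by
    apply div_le_div_of_nonneg_left (by positivity) (by norm_num)
    nlinarith
  have hεe : (1 + δ) * (δ * bb / (2 * (1 + δ))) = δ * bb / 2 := by
    field_simp
  have hC1 : I - δ * bb / (2 * (1 + δ)) * (K : ℝ) ≤ (C.card : ℝ) := by
    have := (abs_le.1 hcell).1
    linarith
  have hC2 : bb / 2 * (K : ℝ) ≤ (C.card : ℝ) := by
    have : δ * bb / (2 * (1 + δ)) * (K : ℝ) ≤ bb / 2 * (K : ℝ) :=
      mul_le_mul_of_nonneg_right hεbb hK1.le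
    linarith
  have hgd : bb ^ Δ ≤ g ^ d :=
    le_trans (pow_le_pow_of_le_one hbb.le hbb1 hd2) (pow_le_pow_left₀ hbb.le hgbb d)
  have hgd0 : 0 < g ^ d := pow_pos hg0 d
  have hg2d : bb ^ (2 * Δ) ≤ (g ^ d) ^ 2 := by
    have := pow_le_pow_left₀ (pow_nonneg hbb.le Δ) hgd 2
    rwa [← pow_mul, mul_comm Δ 2] at this
  have h4m : 4 * m * (K : ℝ) = δ * bb ^ (2 * Δ) * (bb / 2 * (K : ℝ)) := by
    rw [hm]; ring
  -- facts about the vertices of the level
  have hNbE : ∀ u ∈ U, Nb H s.lev u ⊆ E := by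
    intro u hu w hw
    rw [hmemU] at hu
    unfold Nb at hw
    rw [hE]
    simp only [mem_filter, mem_univ, true_and] at hw ⊢
    rw [← hu]; exact hw.2
  have hNbc : ∀ u ∈ U, (Nb H s.lev u).card = d := by
    intro u hu
    rw [hmemU] at hu
    rw [hd, ← hu]
    exact hG.deg u (by rw [hu]; exact hℓ)
  have hNbc' : ∀ u ∈ U, ((Nb H s.lev u).card : ℝ) ≤ Δ := by
    intro u hu; rw [hNbc u hu]; exact hd2'
  have htm : ∀ u ∈ U, |tm c f (Nb H s.lev u) C - g ^ d| ≤ δ / 2 * g ^ d := by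
    intro u hu
    have hu' := (hmemU u).1 hu
    have h1 := single_le_Tot c hn H p s q hA φ E (Sum.inl u) f (hNbE u hu)
    have h2 : gg c H p s q φ (Sum.inl u) f ≤ 1 / 2 := le_trans h1 hTot
    have h3 : ¬ (NonTwin c H s q f u ∧ BadT c H p s q φ f u) := by
      intro h
      simp only [gg] at h2
      rw [if_pos h] at h2
      norm_num at h2
    have h4 : ¬ BadT c H p s q φ f u := fun h => h3 ⟨hNT u hu', h⟩
    unfold BadT at h4
    rw [not_or] at h4
    have h5 := h4.2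
    rw [hu', hqδ, ← hg, ← hd, ← hC] at h5
    by_contra h6
    exact h5 ⟨hℓ, lt_of_not_ge h6⟩
  have hOkok : ∀ u ∈ U, ∀ z, OkB c H s q φ E f u z → ok c f (Nb H s.lev u) C z := by
    intro u hu z hz
    have := hz.1
    rwa [(hmemU u).1 hu, ← hC] at this
  have hbad : ∀ u ∈ U, ((U.filter fun u' => ¬ pairOK H s u u').card : ℝ) ≤
      1 + m / (2 * (Δ : ℝ) ^ 3) * (K : ℝ) := by
    intro u hu
    have hu' := (hmemU u).1 hu
    have h1 : (U.filter fun u' => ¬ pairOK H s u u') ⊆ insert u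
        (univ.filter fun u' => s.lev u' = s.lev u ∧ u' ≠ u ∧
          2 ≤ (Nb H s.lev u ∩ Nb H s.lev u').card) := by
      intro v hv
      rw [mem_filter] at hv
      rw [mem_insert]
      by_cases hvu : v = u
      · exact Or.inl hvu
      · right
        rw [mem_filter]
        refine ⟨mem_univ _, ?_, hvu, ?_⟩
        · rw [hu']; exact (hmemU v).1 hv.1
        · by_contra h2
          apply hv.2
          refine ⟨by rw [hu']; exact hℓ, by rw [hu']; exact (hmemU v).1 hv.1, fun h => hvu h.symm,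
            by omega⟩
    have h2 := Finset.card_le_card h1
    have h3 := Finset.card_insert_le u (univ.filter fun u' => s.lev u' = s.lev u ∧ u' ≠ u ∧
          2 ≤ (Nb H s.lev u ∩ Nb H s.lev u').card)
    have h4 := hG.cod u (by rw [hu']; exact hℓ)
    have h5 : ((U.filter fun u' => ¬ pairOK H s u u').card : ℝ) ≤
        ((univ.filter fun u' => s.lev u' = s.lev u ∧ u' ≠ u ∧
          2 ≤ (Nb H s.lev u ∩ Nb H s.lev u').card).card : ℝ) + 1 := by
      exact_mod_cast le_trans h2 h3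
    have h6 : p.η * (K : ℝ) ≤ m / (2 * (Δ : ℝ) ^ 3) * (K : ℝ) :=
      mul_le_mul_of_nonneg_right hpη hK1.le
    linarith
  -- the potential
  obtain ⟨lam, hlam⟩ : ∃ lam : ℝ, lam = (d : ℝ) ^ 2 * g ^ (2 * d - 1) / (K : ℝ) := ⟨_, rfl⟩
  have hlam0 : 0 ≤ lam := by rw [hlam]; positivity
  have hpairs := le_trans (pairs_le_Tot c hn H p s q hA φ E U f hNbE) hTot
  have hggpair : ∀ u ∈ U, ∀ u' ∈ U, gg c H p s q φ (Sum.inr (u, u')) f =
      if pairOK H s u u' then √(K : ℝ) * (Yp c f (Nb H s.lev u) (Nb H s.lev u') C - lam) ^ 2 +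
        Dp c f (Nb H s.lev u) (Nb H s.lev u') C / √(K : ℝ) else 0 := by
    intro u hu u' hu'
    simp only [gg]
    rw [(hmemU u).1 hu, ← hC, ← hd, ← hg, hlam]
  have hpairs2 : ∑ u ∈ U, ∑ u' ∈ U, (if pairOK H s u u' then
      √(K : ℝ) * (Yp c f (Nb H s.lev u) (Nb H s.lev u') C - lam) ^ 2 +
        Dp c f (Nb H s.lev u) (Nb H s.lev u') C / √(K : ℝ) else 0) ≤ 1 / 2 := by
    refine le_trans (le_of_eq ?_) hpairs
    exact Finset.sum_congr rfl fun u hu => Finset.sum_congr rfl fun u' hu' =>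
      (hggpair u hu u' hu').symm
  have hYsum : ∑ u ∈ U, ∑ u' ∈ U, (if pairOK H s u u' then
      (K : ℝ) / (4 * m) * (Yp c f (Nb H s.lev u) (Nb H s.lev u') C - lam) ^ 2 else 0) ≤
        √(K : ℝ) / (8 * m) := by
    calc ∑ u ∈ U, ∑ u' ∈ U, (if pairOK H s u u' then
      (K : ℝ) / (4 * m) * (Yp c f (Nb H s.lev u) (Nb H s.lev u') C - lam) ^ 2 else 0)
        ≤ ∑ u ∈ U, ∑ u' ∈ U, √(K : ℝ) / (4 * m) * (if pairOK H s u u' then
      √(K : ℝ) * (Yp c f (Nb H s.lev u) (Nb H s.lev u') C - lam) ^ 2 +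
        Dp c f (Nb H s.lev u) (Nb H s.lev u') C / √(K : ℝ) else 0) := by
          refine Finset.sum_le_sum fun u _ => Finset.sum_le_sum fun u' _ => ?_
          by_cases hp : pairOK H s u u'
          · rw [if_pos hp, if_pos hp]
            have h1 := Dp_nonneg c f (Nb H s.lev u) (Nb H s.lev u') C
            have h2 : 0 ≤ √(K : ℝ) / (4 * m) *
              (Dp c f (Nb H s.lev u) (Nb H s.lev u') C / √(K : ℝ)) := by positivity
            have h3 : (K : ℝ) / (4 * m) * (Yp c f (Nb H s.lev u) (Nb H s.lev u') C - lam) ^ 2 =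
                √(K : ℝ) / (4 * m) *
                (√(K : ℝ) * (Yp c f (Nb H s.lev u) (Nb H s.lev u') C - lam) ^ 2) := by
              rw [show (K : ℝ) / (4 * m) = √(K : ℝ) * √(K : ℝ) / (4 * m) by rw [hsq]]
              ring
            rw [mul_add]
            linarith
          · rw [if_neg hp, if_neg hp, mul_zero]
      _ = √(K : ℝ) / (4 * m) * ∑ u ∈ U, ∑ u' ∈ U, (if pairOK H s u u' then
      √(K : ℝ) * (Yp c f (Nb H s.lev u) (Nb H s.lev u') C - lam) ^ 2 +
        Dp c f (Nb H s.lev u) (Nb H s.lev u') C / √(K : ℝ) else 0) := by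
          rw [Finset.mul_sum]
          refine Finset.sum_congr rfl fun u _ => ?_
          rw [Finset.mul_sum]
      _ ≤ √(K : ℝ) / (4 * m) * (1 / 2) :=
          mul_le_mul_of_nonneg_left hpairs2 (by positivity)
      _ = √(K : ℝ) / (8 * m) := by ring
  have hDsum : ∑ u ∈ U, ∑ u' ∈ U, (if pairOK H s u u' then
      Dp c f (Nb H s.lev u) (Nb H s.lev u') C else 0) ≤ √(K : ℝ) / 2 := by
    calc ∑ u ∈ U, ∑ u' ∈ U, (if pairOK H s u u' then
      Dp c f (Nb H s.lev u) (Nb H s.lev u') C else 0)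
        ≤ ∑ u ∈ U, ∑ u' ∈ U, √(K : ℝ) * (if pairOK H s u u' then
      √(K : ℝ) * (Yp c f (Nb H s.lev u) (Nb H s.lev u') C - lam) ^ 2 +
        Dp c f (Nb H s.lev u) (Nb H s.lev u') C / √(K : ℝ) else 0) := by
          refine Finset.sum_le_sum fun u _ => Finset.sum_le_sum fun u' _ => ?_
          by_cases hp : pairOK H s u u'
          · rw [if_pos hp, if_pos hp]
            have h2 : 0 ≤ √(K : ℝ) *
              (√(K : ℝ) * (Yp c f (Nb H s.lev u) (Nb H s.lev u') C - lam) ^ 2) := by positivity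
            have h3 : √(K : ℝ) * (Dp c f (Nb H s.lev u) (Nb H s.lev u') C / √(K : ℝ)) =
                Dp c f (Nb H s.lev u) (Nb H s.lev u') C := mul_div_cancel₀ _ hsq0.ne'
            rw [mul_add, h3]
            linarith
          · rw [if_neg hp, if_neg hp, mul_zero]
      _ = √(K : ℝ) * ∑ u ∈ U, ∑ u' ∈ U, (if pairOK H s u u' then
      √(K : ℝ) * (Yp c f (Nb H s.lev u) (Nb H s.lev u') C - lam) ^ 2 +
        Dp c f (Nb H s.lev u) (Nb H s.lev u') C / √(K : ℝ) else 0) := by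
          rw [Finset.mul_sum]
          refine Finset.sum_congr rfl fun u _ => ?_
          rw [Finset.mul_sum]
      _ ≤ √(K : ℝ) * (1 / 2) :=
          mul_le_mul_of_nonneg_left hpairs2 (by positivity)
      _ = √(K : ℝ) / 2 := by ring
  have hΔ3 : 2 * (Δ : ℝ) ^ 3 ≤ m * (K : ℝ) := by
    rw [div_le_iff₀ hm0] at k3; linarith
  have hΔ23 : (Δ : ℝ) ^ 2 ≤ (Δ : ℝ) ^ 3 := pow_le_pow_right₀ hΔ' (by norm_num)
  have hlast : ∀ D : ℝ, 0 ≤ D → D ≤ (Δ : ℝ) ^ 3 →
      (U.card : ℝ) * ((1 + m / (2 * (Δ : ℝ) ^ 3) * (K : ℝ)) * (2 * D / (K : ℝ))) ≤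
        2 * m * (K : ℝ) := by
    intro D hD0 hD
    have hb0 : 0 ≤ (1 + m / (2 * (Δ : ℝ) ^ 3) * (K : ℝ)) * (2 * D / (K : ℝ)) := by positivity
    calc (U.card : ℝ) * ((1 + m / (2 * (Δ : ℝ) ^ 3) * (K : ℝ)) * (2 * D / (K : ℝ)))
        ≤ (K : ℝ) * ((1 + m / (2 * (Δ : ℝ) ^ 3) * (K : ℝ)) * (2 * D / (K : ℝ))) :=
          mul_le_mul_of_nonneg_right hUK hb0
      _ = (1 + m / (2 * (Δ : ℝ) ^ 3) * (K : ℝ)) * (2 * D) := by
          field_simp
      _ ≤ (1 + m / (2 * (Δ : ℝ) ^ 3) * (K : ℝ)) * (2 * (Δ : ℝ) ^ 3) := by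
          refine mul_le_mul_of_nonneg_left ?_ (by positivity)
          linarith
      _ = 2 * (Δ : ℝ) ^ 3 + m * (K : ℝ) := by
          field_simp
      _ ≤ 2 * m * (K : ℝ) := by linarith
  refine ⟨?_, ?_, ?_, ?_, ?_, ?_⟩
  · -- the level is large
    rw [div_le_iff₀ (by positivity)] at k2
    have h1 : bb * (K : ℝ) ≤ (Δ : ℝ) * (U.card : ℝ) := by
      refine le_trans hI2 ?_
      rw [hI1]
      exact mul_le_mul_of_nonneg_right hd2' hU0
    have h2 : (Δ : ℝ) ≤ (Δ : ℝ) * (δ * (U.card : ℝ)) := by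
      calc (Δ : ℝ) ≤ (K : ℝ) * (δ * bb) := k2
        _ = δ * (bb * (K : ℝ)) := by ring
        _ ≤ δ * ((Δ : ℝ) * (U.card : ℝ)) := mul_le_mul_of_nonneg_left h1 hδ.le
        _ = (Δ : ℝ) * (δ * (U.card : ℝ)) := by ring
    have h3 := le_of_mul_le_mul_left (a := (Δ : ℝ)) (b := 1) (c := δ * (U.card : ℝ))
      (by linarith) hΔ0
    exact h3
  · -- the size of the cell
    rw [← hI1]
    refine le_trans hcell ?_
    calc δ * bb / (2 * (1 + δ)) * (K : ℝ) ≤ δ * bb / 2 * (K : ℝ) :=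
          mul_le_mul_of_nonneg_right hεδ hK1.le
      _ = δ * (bb / 2 * (K : ℝ)) := by ring
      _ ≤ δ * (C.card : ℝ) := mul_le_mul_of_nonneg_left hC2 hδ.le
  · -- the number of admissible images
    intro u hu
    have hu' := (hmemU u).1 hu
    have h1 := abs_le.1 (htm u hu)
    have h2 : pr (OkB c H s q φ E f u) ≤ tm c f (Nb H s.lev u) C := pr_mono (hOkok u hu)
    have h3 : tm c f (Nb H s.lev u) C ≤ pr (OkB c H s q φ E f u) +
        pr (fun z => ∃ w ∈ E.filter (fun w => Co H s.lev u w), β1 < sim c z (f w)) := by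
      refine pr_le_add fun z hz => ?_
      by_cases h : ∀ w ∈ E, Co H s.lev u w → sim c z (f w) ≤ q.β1
      · left
        refine ⟨?_, h⟩
        rw [hu', ← hC]; exact hz
      · right
        push Not at h
        obtain ⟨w, hw, hco, hlt⟩ := h
        exact ⟨w, mem_filter.2 ⟨hw, hco⟩, by rw [← hqβ]; exact hlt⟩
    have h4 : pr (fun z => ∃ w ∈ E.filter (fun w => Co H s.lev u w), β1 < sim c z (f w)) ≤
        ((E.filter (fun w => Co H s.lev u w)).card : ℝ) * (2 / (K : ℝ) / β1) := by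
      refine le_trans (pr_exists_le _ _) ?_
      rw [← nsmul_eq_mul]
      exact Finset.sum_le_card_nsmul _ _ _ fun w _ => pr_sim_le c hc β1 hβ1 (f w)
    have h5 : ((E.filter (fun w => Co H s.lev u w)).card : ℝ) ≤
        δ * bb ^ Δ * β1 / 4 * (K : ℝ) := by
      have h6 := hG.co1 u (by rw [hu']; exact hG.late ℓ hℓ)
      have h7 : (E.filter (fun w => Co H s.lev u w)) ⊆
          univ.filter fun w' => Co H s.lev u w' ∧ s.lev w' ≤ s.lev u := by
        intro w hw
        rw [mem_filter, hE, mem_filter] at hw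
        rw [mem_filter]
        refine ⟨mem_univ _, hw.2, ?_⟩
        rw [hu']; exact hw.1.2.le
      have h8 : ((E.filter (fun w => Co H s.lev u w)).card : ℝ) ≤
          ((univ.filter fun w' => Co H s.lev u w' ∧ s.lev w' ≤ s.lev u).card : ℝ) := by
        exact_mod_cast Finset.card_le_card h7
      have h9 : p.κ * (K : ℝ) ≤ δ * bb ^ Δ * β1 / 4 * (K : ℝ) :=
        mul_le_mul_of_nonneg_right hpκ hK1.le
      linarith
    have h10 : ((E.filter (fun w => Co H s.lev u w)).card : ℝ) * (2 / (K : ℝ) / β1) ≤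
        δ / 2 * g ^ d := by
      calc ((E.filter (fun w => Co H s.lev u w)).card : ℝ) * (2 / (K : ℝ) / β1)
          ≤ δ * bb ^ Δ * β1 / 4 * (K : ℝ) * (2 / (K : ℝ) / β1) :=
            mul_le_mul_of_nonneg_right h5 (by positivity)
        _ = δ / 2 * bb ^ Δ := by field_simp; ring
        _ ≤ δ / 2 * g ^ d := mul_le_mul_of_nonneg_left hgd (by positivity)
    rw [abs_le]
    constructor
    · linarith
    · have : 0 ≤ δ / 2 * g ^ d := by positivity
      linarith
  · -- second moment of the degrees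
    have h1 := sq_sum_le (univ : Finset (Fin K)) U
      (fun u k => pr (fun z => OkB c H s q φ E f u z ∧ k ∈ cols c f (Nb H s.lev u) z))
      (fun u k => hit c f (Nb H s.lev u) C k) (fun u _ k => pr_nonneg _)
      (fun u hu k => pr_mono fun z hz => ⟨hOkok u hu z hz.1, hz.2⟩)
    refine le_trans h1 ?_
    have h2 := pairs_sum U (pairOK H s)
      (fun u u' => Yp c f (Nb H s.lev u) (Nb H s.lev u') C)
      (fun u u' => (K : ℝ) / (4 * m) * (Yp c f (Nb H s.lev u) (Nb H s.lev u') C - lam) ^ 2)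
      (lam + m / (K : ℝ)) (2 * (Δ : ℝ) ^ 2 / (K : ℝ)) (√(K : ℝ) / (8 * m))
      (1 + m / (2 * (Δ : ℝ) ^ 3) * (K : ℝ)) (by positivity) (by positivity) ?_ ?_ hYsum hbad
    · refine le_trans h2 ?_
      have e1 : (U.card : ℝ) ^ 2 * lam = (g ^ d) ^ 2 * I := by
        rw [hlam, hI1, hgI, hI1]
        obtain ⟨e, rfl⟩ : ∃ e, d = e + 1 := ⟨d - 1, by omega⟩
        rw [show 2 * (e + 1) - 1 = 2 * e + 1 by omega, ← pow_mul,
          show (e + 1) * 2 = 2 * e + 1 + 1 by ring, pow_succ _ (2 * e + 1)]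
        field_simp
      have e2 : (U.card : ℝ) ^ 2 * (m / (K : ℝ)) ≤ m * (K : ℝ) := by
        calc (U.card : ℝ) ^ 2 * (m / (K : ℝ)) ≤ (K : ℝ) ^ 2 * (m / (K : ℝ)) :=
              mul_le_mul_of_nonneg_right (pow_le_pow_left₀ hU0 hUK 2) (by positivity)
          _ = m * (K : ℝ) := by field_simp
      have e3 : √(K : ℝ) / (8 * m) ≤ m * (K : ℝ) := by
        have h8 : 1 ≤ √(K : ℝ) * (8 * m ^ 2) := by
          rw [div_le_iff₀ (by positivity)] at k5
          exact k5
        rw [div_le_iff₀ (by positivity)]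
        calc √(K : ℝ) = √(K : ℝ) * 1 := (mul_one _).symm
          _ ≤ √(K : ℝ) * (√(K : ℝ) * (8 * m ^ 2)) := mul_le_mul_of_nonneg_left h8 hsq0.le
          _ = (√(K : ℝ) * √(K : ℝ)) * (8 * m ^ 2) := by ring
          _ = m * (K : ℝ) * (8 * m) := by rw [hsq]; ring
      have e4 := hlast ((Δ : ℝ) ^ 2) (by positivity) hΔ23
      have e5 : (g ^ d) ^ 2 * I + 4 * m * (K : ℝ) ≤ (1 + δ) * (g ^ d) ^ 2 * (C.card : ℝ) := by
        have f1 : (1 + δ) * (g ^ d) ^ 2 * (I - δ * bb / (2 * (1 + δ)) * (K : ℝ)) ≤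
            (1 + δ) * (g ^ d) ^ 2 * (C.card : ℝ) :=
          mul_le_mul_of_nonneg_left hC1 (by positivity)
        have f2 : (1 + δ) * (g ^ d) ^ 2 * (I - δ * bb / (2 * (1 + δ)) * (K : ℝ)) =
            (g ^ d) ^ 2 * I + (g ^ d) ^ 2 * (δ * I -
              ((1 + δ) * (δ * bb / (2 * (1 + δ)))) * (K : ℝ)) := by ring
        rw [hεe] at f2
        have f3 : δ * (bb / 2 * (K : ℝ)) ≤ δ * I - δ * bb / 2 * (K : ℝ) := by
          have := mul_le_mul_of_nonneg_left hI2 hδ.le
          linarith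
        have f4 : bb ^ (2 * Δ) * (δ * (bb / 2 * (K : ℝ))) ≤
            (g ^ d) ^ 2 * (δ * I - δ * bb / 2 * (K : ℝ)) :=
          mul_le_mul hg2d f3 (by positivity) (by positivity)
        have f5 : bb ^ (2 * Δ) * (δ * (bb / 2 * (K : ℝ))) = 4 * m * (K : ℝ) := by
          rw [h4m]; ring
        linarith
      rw [mul_add, e1]
      linarith
    · intro u _ u' _ _
      have hx : ∀ x : ℝ, x ≤ m / (K : ℝ) + (K : ℝ) / (4 * m) * x ^ 2 := by
        intro x
        have : 0 ≤ (K : ℝ) / (4 * m) * (x - 2 * m / (K : ℝ)) ^ 2 := by positivity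
        have h9 : (K : ℝ) / (4 * m) * (x - 2 * m / (K : ℝ)) ^ 2 =
            (K : ℝ) / (4 * m) * x ^ 2 - x + m / (K : ℝ) := by
          field_simp
          ring
        linarith
      have := hx (Yp c f (Nb H s.lev u) (Nb H s.lev u') C - lam)
      linarith
    · intro u hu u' hu' _
      exact Yp_le c hc f _ _ C Δ (hNbc' u hu) (hNbc' u' hu')
  · -- second moment of the codegrees
    have h1 : ∀ k : Fin K, ∑ l ∈ univ.erase k, (∑ u ∈ U,
        pr (fun z => OkB c H s q φ E f u z ∧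
          k ∈ cols c f (Nb H s.lev u) z ∧ l ∈ cols c f (Nb H s.lev u) z)) ^ 2 ≤
        ∑ u ∈ U, ∑ u' ∈ U, ∑ l ∈ univ.erase k,
          two c f (Nb H s.lev u) C k l * two c f (Nb H s.lev u') C k l := by
      intro k
      exact sq_sum_le (univ.erase k) U
        (fun u l => pr (fun z => OkB c H s q φ E f u z ∧ k ∈ cols c f (Nb H s.lev u) z ∧
          l ∈ cols c f (Nb H s.lev u) z))
        (fun u l => two c f (Nb H s.lev u) C k l) (fun u _ l => pr_nonneg _)
        (fun u hu l => pr_mono fun z hz => ⟨hOkok u hu z hz.1, hz.2⟩)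
    refine le_trans (Finset.sum_le_sum fun k _ => h1 k) ?_
    have e0 : ∑ k, ∑ u ∈ U, ∑ u' ∈ U, ∑ l ∈ univ.erase k,
          two c f (Nb H s.lev u) C k l * two c f (Nb H s.lev u') C k l =
        ∑ u ∈ U, ∑ u' ∈ U, Dp c f (Nb H s.lev u) (Nb H s.lev u') C := by
      unfold Dp
      rw [Finset.sum_comm]
      refine Finset.sum_congr rfl fun u _ => ?_
      rw [Finset.sum_comm]
    rw [e0]
    have h2 := pairs_sum U (pairOK H s)
      (fun u u' => Dp c f (Nb H s.lev u) (Nb H s.lev u') C)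
      (fun u u' => Dp c f (Nb H s.lev u) (Nb H s.lev u') C)
      0 (2 * (Δ : ℝ) ^ 3 / (K : ℝ)) (√(K : ℝ) / 2)
      (1 + m / (2 * (Δ : ℝ) ^ 3) * (K : ℝ)) le_rfl (by positivity)
      (fun u _ u' _ _ => by simp) (fun u hu u' hu' _ =>
        Dp_le c hc f _ _ C Δ (hNbc' u hu) (hNbc' u' hu')) hDsum hbad
    refine le_trans h2 ?_
    have e4 := hlast ((Δ : ℝ) ^ 3) (by positivity) le_rfl
    have e3 : √(K : ℝ) / 2 ≤ m * (K : ℝ) := by
      have h8 : 1 ≤ √(K : ℝ) * (2 * m) := by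
        rw [div_le_iff₀ (by positivity)] at k6
        exact k6
      rw [div_le_iff₀ (by positivity)]
      calc √(K : ℝ) = √(K : ℝ) * 1 := (mul_one _).symm
        _ ≤ √(K : ℝ) * (√(K : ℝ) * (2 * m)) := mul_le_mul_of_nonneg_left h8 hsq0.le
        _ = (√(K : ℝ) * √(K : ℝ)) * (2 * m) := by ring
        _ = m * (K : ℝ) * 2 := by rw [hsq]; ring
    have e5 : 4 * m * (K : ℝ) ≤ δ * (g ^ d) ^ 2 * (C.card : ℝ) := by
      rw [h4m]
      exact mul_le_mul (mul_le_mul_of_nonneg_left hg2d hδ.le) hC2 (by positivity) (by positivity)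
    have e6 : 0 < m * (K : ℝ) := by positivity
    rw [mul_zero, zero_add]
    linarith
  · -- single vertices
    intro u hu
    have h1 : ∑ k, (pr (fun z => OkB c H s q φ E f u z ∧ k ∈ cols c f (Nb H s.lev u) z)) ^ 2 ≤
        Yp c f (Nb H s.lev u) (Nb H s.lev u) C := by
      unfold Yp
      refine Finset.sum_le_sum fun k _ => ?_
      rw [pow_two]
      have h2 : pr (fun z => OkB c H s q φ E f u z ∧ k ∈ cols c f (Nb H s.lev u) z) ≤
          hit c f (Nb H s.lev u) C k := pr_mono fun z hz => ⟨hOkok u hu z hz.1, hz.2⟩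
      exact mul_le_mul h2 h2 (pr_nonneg _) (le_trans (pr_nonneg _) h2)
    refine le_trans h1 (le_trans (Yp_le c hc f _ _ C Δ (hNbc' u hu) (hNbc' u hu)) ?_)
    rw [div_le_iff₀ (by positivity)] at k4
    rw [div_le_iff₀ hK1]
    have h3 : δ * bb ^ (2 * Δ) * (K : ℝ) ≤ δ * (g ^ d) ^ 2 * (K : ℝ) :=
      mul_le_mul_of_nonneg_right (mul_le_mul_of_nonneg_left hg2d hδ.le) hK1.le
    linarith

end Pool.Agent.Lib.MP_b1acb3_co.Dgn
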