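import Pool.Agent.Lib.MP_b1acb3_co.Dgn.Stmts

/-!
MP_b1acb3_co, project DGN: sparse random graphs have many isolated edges.
-/

set_option autoImplicit false

namespace Pool.Agent.Lib.MP_b1acb3_co.Dgn

open Finset Classical

noncomputable section

namespace IsoR

/-- the index `i` is isolated -/
def Iso {v m : ℕ} (ω : Fin m → Fin v × Fin v) (i : Fin m) : Prop :=
  (ω i).1 ≠ (ω i).2 ∧ ∀ j, j ≠ i →
    (ω j).1 ≠ (ω i).1 ∧ (ω j).1 ≠ (ω i).2 ∧ (ω j).2 ≠ (ω i).1 ∧ (ω j).2 ≠ (ω i).2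

/-- the number of isolated indices -/
def X {v m : ℕ} (ω : Fin m → Fin v × Fin v) : ℝ := ((univ.filter fun i => Iso ω i).card : ℝ)

theorem card_T {v m : ℕ} (ω : Fin m → Fin v × Fin v) (c : Fin v) :
    (univ.filter fun j => Iso ω j ∧ ((ω j).1 = c ∨ (ω j).2 = c)).card ≤ 1 := by
  rw [Finset.card_le_one]
  intro a ha b hb
  rw [mem_filter] at ha hb
  by_contra hab
  obtain ⟨h1, h2, h3, h4⟩ := ha.2.1.2 b (Ne.symm hab)
  rcases ha.2.2 with h | h <;> rcases hb.2.2 with h' | h'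
  · exact h1 (h'.trans h.symm)
  · exact h3 (h'.trans h.symm)
  · exact h2 (h'.trans h.symm)
  · exact h4 (h'.trans h.symm)

theorem X_le {v m : ℕ} {ω ω' : Fin m → Fin v × Fin v} {i : Fin m}
    (h : ∀ j, j ≠ i → ω' j = ω j) : X ω ≤ X ω' + 3 := by
  have hsub : (univ.filter fun j => Iso ω j) ⊆
      (univ.filter fun j => Iso ω' j) ∪ ({i} ∪
        ((univ.filter fun j => Iso ω j ∧ ((ω j).1 = (ω' i).1 ∨ (ω j).2 = (ω' i).1)) ∪
        (univ.filter fun j => Iso ω j ∧ ((ω j).1 = (ω' i).2 ∨ (ω j).2 = (ω' i).2)))) := by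
    intro j hj
    rw [mem_filter] at hj
    by_cases hji : j = i
    · exact mem_union_right _ (mem_union_left _ (mem_singleton.2 hji))
    by_cases ha : (ω j).1 = (ω' i).1 ∨ (ω j).2 = (ω' i).1
    · exact mem_union_right _ (mem_union_right _ (mem_union_left _
        (mem_filter.2 ⟨mem_univ _, hj.2, ha⟩)))
    by_cases hb : (ω j).1 = (ω' i).2 ∨ (ω j).2 = (ω' i).2
    · exact mem_union_right _ (mem_union_right _ (mem_union_right _
        (mem_filter.2 ⟨mem_univ _, hj.2, hb⟩)))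
    push Not at ha hb
    refine mem_union_left _ (mem_filter.2 ⟨mem_univ _, ?_, ?_⟩)
    · rw [h j hji]
      exact hj.2.1
    · intro k hk
      rw [h j hji]
      by_cases hki : k = i
      · subst hki
        exact ⟨ha.1.symm, ha.2.symm, hb.1.symm, hb.2.symm⟩
      · rw [h k hki]
        exact hj.2.2 k hk
  have h1 := card_le_card hsub
  have h2 := card_union_le (univ.filter fun j => Iso ω' j) ({i} ∪
        ((univ.filter fun j => Iso ω j ∧ ((ω j).1 = (ω' i).1 ∨ (ω j).2 = (ω' i).1)) ∪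
        (univ.filter fun j => Iso ω j ∧ ((ω j).1 = (ω' i).2 ∨ (ω j).2 = (ω' i).2))))
  have h3 := card_union_le ({i} : Finset (Fin m))
        ((univ.filter fun j => Iso ω j ∧ ((ω j).1 = (ω' i).1 ∨ (ω j).2 = (ω' i).1)) ∪
        (univ.filter fun j => Iso ω j ∧ ((ω j).1 = (ω' i).2 ∨ (ω j).2 = (ω' i).2)))
  have h4 := card_union_le
        (univ.filter fun j => Iso ω j ∧ ((ω j).1 = (ω' i).1 ∨ (ω j).2 = (ω' i).1))
        (univ.filter fun j => Iso ω j ∧ ((ω j).1 = (ω' i).2 ∨ (ω j).2 = (ω' i).2))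
  have h5 := card_T ω (ω' i).1
  have h6 := card_T ω (ω' i).2
  have h7 : ({i} : Finset (Fin m)).card = 1 := card_singleton i
  have h8 : (univ.filter fun j => Iso ω j).card ≤ (univ.filter fun j => Iso ω' j).card + 3 := by
    omega
  unfold X
  exact_mod_cast h8

theorem X_update {v m : ℕ} (ω : Fin m → Fin v × Fin v) (i : Fin m) (a : Fin v × Fin v) :
    |-X (Function.update ω i a) - -X ω| ≤ 3 := by
  have h1 : X ω ≤ X (Function.update ω i a) + 3 :=
    X_le (i := i) fun j hj => Function.update_of_ne hj _ _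
  have h2 : X (Function.update ω i a) ≤ X ω + 3 :=
    X_le (i := i) fun j hj => (Function.update_of_ne hj _ _).symm
  rw [abs_le]
  constructor <;> linarith

/-! ### The mean -/

/-- the sequences for which `i` is isolated with the pair `q` -/
def Aq {v m : ℕ} (i : Fin m) (q : Fin v × Fin v) : Finset (Fin m → Fin v × Fin v) :=
  Fintype.piFinset fun j => if j = i then {q} else
    ((univ.erase q.1).erase q.2) ×ˢ ((univ.erase q.1).erase q.2)

theorem mem_Aq {v m : ℕ} {i : Fin m} {q : Fin v × Fin v} {ω : Fin m → Fin v × Fin v} :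
    ω ∈ Aq i q ↔ ω i = q ∧ ∀ j, j ≠ i → ((ω j).1 ≠ q.2 ∧ (ω j).1 ≠ q.1) ∧
      ((ω j).2 ≠ q.2 ∧ (ω j).2 ≠ q.1) := by
  unfold Aq
  rw [Fintype.mem_piFinset]
  constructor
  · intro h
    refine ⟨?_, fun j hj => ?_⟩
    · have := h i
      rw [if_pos rfl, mem_singleton] at this
      exact this
    · have := h j
      rw [if_neg hj, mem_product, mem_erase, mem_erase, mem_erase, mem_erase] at this
      exact ⟨⟨this.1.1, this.1.2.1⟩, ⟨this.2.1, this.2.2.1⟩⟩
  · rintro ⟨h1, h2⟩ j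
    by_cases hj : j = i
    · rw [if_pos hj, mem_singleton, hj, h1]
    · rw [if_neg hj, mem_product, mem_erase, mem_erase, mem_erase, mem_erase]
      obtain ⟨⟨h3, h4⟩, h5, h6⟩ := h2 j hj
      exact ⟨⟨h3, h4, mem_univ _⟩, ⟨h5, h6, mem_univ _⟩⟩

theorem card_Aq {v m : ℕ} (i : Fin m) {q : Fin v × Fin v} (hq : q.1 ≠ q.2) :
    (Aq i q).card = ((v - 2) * (v - 2)) ^ (m - 1) := by
  unfold Aq
  rw [Fintype.card_piFinset, ← Finset.mul_prod_erase univ _ (mem_univ i), if_pos rfl,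
    card_singleton, one_mul]
  have : ∀ j ∈ univ.erase i, (if j = i then ({q} : Finset (Fin v × Fin v)) else
      ((univ.erase q.1).erase q.2) ×ˢ ((univ.erase q.1).erase q.2)).card =
        (v - 2) * (v - 2) := by
    intro j hj
    rw [if_neg (mem_erase.1 hj).1, card_product, card_erase_of_mem
      (mem_erase.2 ⟨hq.symm, mem_univ _⟩), card_erase_of_mem (mem_univ _), card_univ,
      Fintype.card_fin]
    rfl
  rw [prod_congr rfl this, prod_const, card_erase_of_mem (mem_univ _), card_univ,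
    Fintype.card_fin]

theorem card_iso {v m : ℕ} (i : Fin m) :
    v * (v - 1) * ((v - 2) * (v - 2)) ^ (m - 1) ≤
      (univ.filter fun ω : Fin m → Fin v × Fin v => Iso ω i).card := by
  have hsub : (univ.filter fun q : Fin v × Fin v => q.1 ≠ q.2).biUnion (fun q => Aq i q) ⊆
      univ.filter fun ω : Fin m → Fin v × Fin v => Iso ω i := by
    intro ω hω
    rw [mem_biUnion] at hω
    obtain ⟨q, hq, hω⟩ := hω
    rw [mem_filter] at hq
    rw [mem_Aq] at hω
    obtain ⟨h1, h2⟩ := hω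
    rw [mem_filter]
    refine ⟨mem_univ _, ?_, fun j hj => ?_⟩
    · rw [h1]
      exact hq.2
    · obtain ⟨⟨h3, h4⟩, h5, h6⟩ := h2 j hj
      rw [h1]
      exact ⟨h4, h3, h6, h5⟩
  refine le_trans ?_ (card_le_card hsub)
  rw [card_biUnion]
  · have : ∀ q ∈ univ.filter (fun q : Fin v × Fin v => q.1 ≠ q.2), (Aq (m := m) i q).card =
        ((v - 2) * (v - 2)) ^ (m - 1) := fun q hq => card_Aq i (mem_filter.1 hq).2
    rw [sum_congr rfl this, sum_const, smul_eq_mul]
    have h2 : (univ.filter fun q : Fin v × Fin v => q.1 ≠ q.2).card = v * (v - 1) := by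
      have h3 : (univ.filter fun q : Fin v × Fin v => q.1 ≠ q.2) =
          (univ : Finset (Fin v)).offDiag := by
        ext q
        simp
      rw [h3, offDiag_card, card_univ, Fintype.card_fin, Nat.mul_sub, mul_one]
    rw [h2]
  · intro q _ q' _ hqq
    change Disjoint (Aq i q) (Aq i q')
    rw [Finset.disjoint_left]
    intro ω h1 h2
    exact hqq ((mem_Aq.1 h1).1.symm.trans (mem_Aq.1 h2).1)

theorem mean {v m : ℕ} {ε : ℝ} (hε : 0 < ε) (hv : 4 ≤ v) (hm : ε * (m : ℝ) ≤ (v : ℝ))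
    (hm1 : 1 ≤ m) :
    2 * (Real.exp (-(8 / ε)) / 4) * (m : ℝ) ≤ av (X (v := v) (m := m)) := by
  have hv0 : (0 : ℝ) < v := by
    have : 0 < v := by omega
    exact_mod_cast this
  have hv4 : (4 : ℝ) ≤ v := by exact_mod_cast hv
  have hsum : ∑ ω : Fin m → Fin v × Fin v, X ω =
      ∑ i : Fin m, ((univ.filter fun ω : Fin m → Fin v × Fin v => Iso ω i).card : ℝ) := by
    unfold X
    have h1 : ∀ ω : Fin m → Fin v × Fin v, ((univ.filter fun i => Iso ω i).card : ℝ) =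
        ∑ i : Fin m, if Iso ω i then (1 : ℝ) else 0 := fun ω => by
      rw [Finset.card_filter]
      push_cast
      rfl
    have h2 : ∀ i : Fin m, ((univ.filter fun ω : Fin m → Fin v × Fin v => Iso ω i).card : ℝ) =
        ∑ ω : Fin m → Fin v × Fin v, if Iso ω i then (1 : ℝ) else 0 := fun i => by
      rw [Finset.card_filter]
      push_cast
      rfl
    rw [sum_congr rfl fun ω _ => h1 ω, sum_congr rfl fun i _ => h2 i, sum_comm]
  have hcard : (Fintype.card (Fin m → Fin v × Fin v) : ℝ) = ((v : ℝ) * v) ^ m := by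
    rw [Fintype.card_fun, Fintype.card_prod, Fintype.card_fin, Fintype.card_fin]
    push_cast
    rfl
  unfold av
  rw [hsum, hcard, le_div_iff₀ (by positivity)]
  have h1 : ∀ i : Fin m, (v : ℝ) * (v - 1) * (((v : ℝ) - 2) * (v - 2)) ^ (m - 1) ≤
      ((univ.filter fun ω : Fin m → Fin v × Fin v => Iso ω i).card : ℝ) := fun i => by
    have := card_iso (v := v) i
    have h2 : ((v * (v - 1) * ((v - 2) * (v - 2)) ^ (m - 1) : ℕ) : ℝ) =
        (v : ℝ) * (v - 1) * (((v : ℝ) - 2) * (v - 2)) ^ (m - 1) := by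
      push_cast [Nat.cast_sub (show 1 ≤ v by omega), Nat.cast_sub (show 2 ≤ v by omega)]
      rfl
    rw [← h2]
    exact_mod_cast this
  refine le_trans ?_ (sum_le_sum fun i _ => h1 i)
  rw [sum_const, card_univ, Fintype.card_fin, nsmul_eq_mul]
  -- the main inequality
  have hexp : Real.exp (-(4 / (v : ℝ))) * v ≤ v - 2 := by
    have h3 : 2 / ((v : ℝ) - 2) + 1 ≤ Real.exp (2 / ((v : ℝ) - 2)) := Real.add_one_le_exp _
    have h4 : Real.exp (2 / ((v : ℝ) - 2)) ≤ Real.exp (4 / (v : ℝ)) := by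
      apply Real.exp_le_exp.2
      rw [div_le_div_iff₀ (by linarith) hv0]
      linarith
    have h5 : (v : ℝ) ≤ Real.exp (4 / (v : ℝ)) * (v - 2) := by
      have h6 : (v : ℝ) = (2 / ((v : ℝ) - 2) + 1) * (v - 2) := by
        have : (v : ℝ) - 2 ≠ 0 := by linarith
        field_simp
        ring
      calc (v : ℝ) = (2 / ((v : ℝ) - 2) + 1) * (v - 2) := h6
        _ ≤ Real.exp (4 / (v : ℝ)) * (v - 2) :=
          mul_le_mul_of_nonneg_right (h3.trans h4) (by linarith)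
    calc Real.exp (-(4 / (v : ℝ))) * v ≤
        Real.exp (-(4 / (v : ℝ))) * (Real.exp (4 / (v : ℝ)) * (v - 2)) :=
          mul_le_mul_of_nonneg_left h5 (Real.exp_pos _).le
      _ = v - 2 := by
        rw [← mul_assoc, ← Real.exp_add, neg_add_cancel, Real.exp_zero, one_mul]
  have hpow : (Real.exp (-(4 / (v : ℝ))) * v * (Real.exp (-(4 / (v : ℝ))) * v)) ^ (m - 1) ≤
      (((v : ℝ) - 2) * (v - 2)) ^ (m - 1) := by
    apply pow_le_pow_left₀ (by positivity)
    exact mul_le_mul hexp hexp (by positivity) (by linarith)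
  have hpow2 : Real.exp (-(8 / ε)) * ((v : ℝ) * v) ^ (m - 1) ≤
      (Real.exp (-(4 / (v : ℝ))) * v * (Real.exp (-(4 / (v : ℝ))) * v)) ^ (m - 1) := by
    have e1 : (Real.exp (-(4 / (v : ℝ))) * v * (Real.exp (-(4 / (v : ℝ))) * v)) ^ (m - 1) =
        Real.exp (((m - 1 : ℕ) : ℝ) * (-(8 / (v : ℝ)))) * ((v : ℝ) * v) ^ (m - 1) := by
      rw [Real.exp_nat_mul, ← mul_pow]
      congr 1
      have : -(8 / (v : ℝ)) = -(4 / (v : ℝ)) + -(4 / (v : ℝ)) := by ring
      rw [this, Real.exp_add]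
      ring
    rw [e1]
    refine mul_le_mul_of_nonneg_right (Real.exp_le_exp.2 ?_) (by positivity)
    have h7 : ((m - 1 : ℕ) : ℝ) ≤ m := by exact_mod_cast Nat.sub_le m 1
    have h8 : (m : ℝ) * (8 / v) ≤ 8 / ε := by
      rw [mul_div_assoc', div_le_div_iff₀ hv0 hε]
      nlinarith
    have h9 : ((m - 1 : ℕ) : ℝ) * (8 / (v : ℝ)) ≤ m * (8 / v) :=
      mul_le_mul_of_nonneg_right h7 (by positivity)
    have e2 : ((m - 1 : ℕ) : ℝ) * (-(8 / (v : ℝ))) = -(((m - 1 : ℕ) : ℝ) * (8 / (v : ℝ))) := by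
      ring
    rw [e2]
    linarith
  have hsplit : ((v : ℝ) * v) ^ m = ((v : ℝ) * v) ^ (m - 1) * (v * v) := by
    rw [← pow_succ]
    congr 1
    omega
  rw [hsplit]
  have hP : (0 : ℝ) ≤ ((v : ℝ) * v) ^ (m - 1) := by positivity
  have hfin : Real.exp (-(8 / ε)) * ((v : ℝ) * v) ^ (m - 1) * ((v : ℝ) * (v - 1)) ≤
      (((v : ℝ) - 2) * (v - 2)) ^ (m - 1) * ((v : ℝ) * (v - 1)) :=
    mul_le_mul_of_nonneg_right (hpow2.trans hpow) (mul_nonneg hv0.le (by linarith))
  have hhalf : (v : ℝ) * v / 2 ≤ v * (v - 1) := by nlinarith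
  have hE : 0 ≤ Real.exp (-(8 / ε)) * ((v : ℝ) * v) ^ (m - 1) := by positivity
  have h10 := mul_le_mul_of_nonneg_left hhalf hE
  have h11 : (m : ℝ) * (Real.exp (-(8 / ε)) * ((v : ℝ) * v) ^ (m - 1) * ((v : ℝ) * v / 2)) ≤
      m * ((((v : ℝ) - 2) * (v - 2)) ^ (m - 1) * ((v : ℝ) * (v - 1))) :=
    mul_le_mul_of_nonneg_left (h10.trans hfin) (Nat.cast_nonneg m)
  calc 2 * (Real.exp (-(8 / ε)) / 4) * (m : ℝ) * (((v : ℝ) * v) ^ (m - 1) * (v * v)) =
      (m : ℝ) * (Real.exp (-(8 / ε)) * ((v : ℝ) * v) ^ (m - 1) * ((v : ℝ) * v / 2)) := by ring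
    _ ≤ _ := h11
    _ = _ := by ring

end IsoR

open IsoR in
theorem prfIsoR (h : StMcD) : StIsoR := by
  intro ε hε
  refine ⟨Real.exp (-(8 / ε)) / 4, by positivity, fun ε' hε' => ?_⟩
  obtain ⟨δ, hδ⟩ : ∃ δ, δ = Real.exp (-(8 / ε)) / 4 := ⟨_, rfl⟩
  have hδ0 : 0 < δ := by
    rw [hδ]
    positivity
  rw [← hδ]
  obtain ⟨L, hL⟩ : ∃ L : ℝ, L = 18 * |Real.log ε'| / δ ^ 2 + 1 := ⟨_, rfl⟩
  have hL1 : 1 ≤ L := by
    rw [hL]
    have : 0 ≤ 18 * |Real.log ε'| / δ ^ 2 := by positivity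
    linarith
  refine ⟨max 4 ⌈L / ε⌉₊, fun v m hv h1 h2 => ?_⟩
  have hv4 : 4 ≤ v := le_trans (le_max_left _ _) hv
  have hvL : L / ε ≤ v := (Nat.le_ceil _).trans (by exact_mod_cast le_trans (le_max_right _ _) hv)
  have hmL : L ≤ m := by
    rw [div_le_iff₀ hε] at hvL
    linarith
  have hm1 : 1 ≤ m := by
    have : (1 : ℝ) ≤ m := hL1.trans hmL
    exact_mod_cast this
  have hm0 : (0 : ℝ) < m := by
    have : (1 : ℝ) ≤ m := hL1.trans hmL
    linarith
  have hne : Nonempty (Fin v × Fin v) := ⟨(⟨0, by omega⟩, ⟨0, by omega⟩)⟩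
  have hmean := mean hε hv4 h2 hm1
  rw [← hδ] at hmean
  have hs : (0 : ℝ) < ∑ _i : Fin m, (3 : ℝ) ^ 2 := by
    rw [sum_const, card_univ, Fintype.card_fin, nsmul_eq_mul]
    positivity
  have key := h m (Fin v × Fin v) (fun ω => -X ω) (fun _ => 3) (δ * m) (by positivity)
    (fun i x a => X_update x i a) hs
  have hav : av (fun ω : Fin m → Fin v × Fin v => -X ω) = -av (X (v := v) (m := m)) := by
    unfold av
    rw [sum_neg_distrib, neg_div]
  have hmono : pr (fun ω : Fin m → Fin v × Fin v =>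
      (((univ.filter fun i : Fin m => (ω i).1 ≠ (ω i).2 ∧ ∀ j, j ≠ i →
        (ω j).1 ≠ (ω i).1 ∧ (ω j).1 ≠ (ω i).2 ∧ (ω j).2 ≠ (ω i).1 ∧ (ω j).2 ≠ (ω i).2).card
          : ℕ) : ℝ) < δ * (m : ℝ)) ≤
      pr (fun x : Fin m → Fin v × Fin v =>
        δ * m ≤ -X x - av (fun ω : Fin m → Fin v × Fin v => -X ω)) := by
    unfold pr av
    refine div_le_div_of_nonneg_right (sum_le_sum fun ω _ => ?_) (Nat.cast_nonneg _)
    split_ifs with h3 h4
    · exact le_rfl
    · exfalso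
      apply h4
      have h5 : X ω < δ * m := by
        refine lt_of_le_of_lt (le_of_eq ?_) h3
        unfold X Iso
        congr 2
        ext i
        simp only [mem_filter]
      have h6 := hav
      unfold av at h6 hmean
      rw [h6]
      linarith
    · exact zero_le_one
    · exact le_rfl
  refine hmono.trans (key.trans ?_)
  rw [sum_const, card_univ, Fintype.card_fin, nsmul_eq_mul]
  have e1 : -((δ * (m : ℝ)) ^ 2) / (2 * ((m : ℝ) * 3 ^ 2)) = -(δ ^ 2 * m / 18) := by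
    field_simp
    ring
  rw [e1]
  have h7 : |Real.log ε'| ≤ δ ^ 2 * m / 18 := by
    have h8 : 18 * |Real.log ε'| / δ ^ 2 ≤ m := by linarith
    rw [div_le_iff₀ (by positivity)] at h8
    linarith
  calc Real.exp (-(δ ^ 2 * m / 18)) ≤ Real.exp (Real.log ε') := by
        apply Real.exp_le_exp.2
        have := neg_abs_le (Real.log ε')
        linarith
    _ = ε' := Real.exp_log hε'

end

end Pool.Agent.Lib.MP_b1acb3_co.Dgn
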