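import Pool.Agent.Lib.MP_b1acb3_co.Dgn.Stmts

/-!
MP_b1acb3_co, project DGN: layers of a degenerate graph (module Layer).
-/

set_option autoImplicit false

namespace Pool.Agent.Lib.MP_b1acb3_co.Dgn

open Finset Classical

noncomputable section

namespace LayerAux

section graph

variable {V : Type} [Fintype V]

/-- neighbours of `v` in `X` -/
def dI (H : SimpleGraph V) (X : Finset V) (v : V) : ℕ := (X.filter fun u => H.Adj v u).card

/-- twice the number of edges in `X` -/
def e2 (H : SimpleGraph V) (X : Finset V) : ℕ := ∑ v ∈ X, dI H X v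

lemma dI_mono (H : SimpleGraph V) {X Y : Finset V} (h : X ⊆ Y) (v : V) : dI H X v ≤ dI H Y v :=
  card_le_card (filter_subset_filter _ h)

/-- a degenerate graph has few edges in every set -/
lemma e2_le (H : SimpleGraph V) (r : V → ℕ) (hr : Function.Injective r) (D : ℕ)
    (hD : ∀ v, (univ.filter fun u => H.Adj v u ∧ r u < r v).card ≤ D) (X : Finset V) :
    e2 H X ≤ 2 * D * X.card := by
  have h1 : ∀ v ∈ X, dI H X v = (X.filter fun u => H.Adj v u ∧ r u < r v).card +
      (X.filter fun u => H.Adj v u ∧ r v < r u).card := by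
    intro v _
    rw [dI, ← card_union_of_disjoint]
    · congr 1
      ext u
      simp only [mem_filter, mem_union]
      constructor
      · rintro ⟨h2, h3⟩
        rcases lt_trichotomy (r u) (r v) with h | h | h
        · exact Or.inl ⟨h2, h3, h⟩
        · exact absurd (hr h) h3.ne'
        · exact Or.inr ⟨h2, h3, h⟩
      · rintro (h | h)
        · exact ⟨h.1, h.2.1⟩
        · exact ⟨h.1, h.2.1⟩
    · rw [disjoint_left]
      intro u h2 h3
      rw [mem_filter] at h2 h3
      exact lt_asymm h2.2.2 h3.2.2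
  have h2 : ∑ v ∈ X, (X.filter fun u => H.Adj v u ∧ r v < r u).card =
      ∑ v ∈ X, (X.filter fun u => H.Adj v u ∧ r u < r v).card := by
    simp only [card_filter]
    rw [sum_comm]
    refine sum_congr rfl fun v _ => sum_congr rfl fun u _ => ?_
    simp only [H.adj_comm]
  have h3 : ∑ v ∈ X, (X.filter fun u => H.Adj v u ∧ r u < r v).card ≤ D * X.card := by
    calc ∑ v ∈ X, (X.filter fun u => H.Adj v u ∧ r u < r v).card ≤ ∑ v ∈ X, D :=
          sum_le_sum fun v _ => (card_le_card (filter_subset_filter _ (subset_univ X))).trans (hD v)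
      _ = D * X.card := by rw [sum_const, smul_eq_mul, mul_comm]
  rw [e2, sum_congr rfl h1, sum_add_distrib, h2]
  linarith [h3, mul_assoc 2 D X.card]

/-- the sum of the degrees -/
lemma e2_univ (H : SimpleGraph V) : e2 H univ = 2 * numEdges H := by
  rw [numEdges, Set.ncard_eq_toFinset_card' H.edgeSet]
  have h := H.sum_degrees_eq_twice_card_edges
  rw [SimpleGraph.edgeFinset] at h
  rw [← h, e2]
  refine sum_congr rfl fun v _ => ?_
  rw [dI, SimpleGraph.degree, SimpleGraph.neighborFinset_eq_filter]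

/-- adding a vertex -/
lemma e2_insert (H : SimpleGraph V) (X : Finset V) (v : V) (hv : v ∉ X) :
    e2 H X + 2 * dI H X v ≤ e2 H (insert v X) := by
  rw [e2, e2, sum_insert hv]
  have h1 : dI H X v ≤ dI H (insert v X) v := dI_mono H (subset_insert _ _) v
  have h2 : ∑ w ∈ X, dI H X w + dI H X v ≤ ∑ w ∈ X, dI H (insert v X) w := by
    have h3 : dI H X v = ∑ w ∈ X, if H.Adj v w then 1 else 0 := by
      rw [dI, card_filter]
    rw [h3, ← sum_add_distrib]
    refine sum_le_sum fun w hw => ?_
    split_ifs with h4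
    · rw [dI, dI, filter_insert, if_pos h4.symm, card_insert_of_notMem]
      intro h5
      exact hv (mem_filter.mp h5).1
    · rw [add_zero]
      exact dI_mono H (subset_insert _ _) w
  omega

/-- closure under adding vertices with many neighbours -/
lemma exists_closure (H : SimpleGraph V) (r : V → ℕ) (hr : Function.Injective r) (D : ℕ)
    (hD : ∀ v, (univ.filter fun u => H.Adj v u ∧ r u < r v).card ≤ D) (H0 : Finset V) :
    ∃ S : Finset V, H0 ⊆ S ∧ S.card ≤ 2 * H0.card ∧ ∀ v, v ∉ S → dI H S v ≤ 2 * D := by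
  set F : Finset (Finset V) := univ.filter fun X => H0 ⊆ X ∧
    2 * (2 * D + 1) * X.card ≤ e2 H X + 2 * (2 * D + 1) * H0.card with hF
  have hne : F.Nonempty := ⟨H0, by
    rw [hF, mem_filter]
    exact ⟨mem_univ _, Subset.refl _, Nat.le_add_left _ _⟩⟩
  obtain ⟨S, hS, hmax⟩ := exists_max_image F card hne
  rw [hF, mem_filter] at hS
  obtain ⟨-, hS0, hS1⟩ := hS
  refine ⟨S, hS0, ?_, fun v hv => ?_⟩
  · have h1 := e2_le H r hr D hD S
    have h2 : (2 * D + 2) * S.card ≤ (2 * D + 2) * (2 * H0.card) := by nlinarith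
    exact Nat.le_of_mul_le_mul_left h2 (by omega)
  · by_contra hlt
    push Not at hlt
    have h1 := e2_insert H S v hv
    have h2 : insert v S ∈ F := by
      rw [hF, mem_filter]
      refine ⟨mem_univ _, hS0.trans (subset_insert _ _), ?_⟩
      rw [card_insert_of_notMem hv]
      nlinarith
    have h3 := hmax _ h2
    rw [card_insert_of_notMem hv] at h3
    omega

/-- greedy colouring -/
lemma exists_col (R : V → V → Prop) (hs : ∀ u v, R u v → R v u) (hi : ∀ v, ¬ R v v) (k : ℕ)
    (hk : ∀ v, (univ.filter fun u => R v u).card ≤ k) :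
    ∃ col : V → ℕ, (∀ v, col v ≤ k) ∧ ∀ u v, R u v → col u ≠ col v := by
  have key : ∀ X : Finset V, ∃ col : V → ℕ, (∀ v, col v ≤ k) ∧
      ∀ u ∈ X, ∀ v ∈ X, R u v → col u ≠ col v := by
    intro X
    induction X using Finset.induction_on with
    | empty => exact ⟨fun _ => 0, fun _ => Nat.zero_le _, by simp⟩
    | insert x X hx ih =>
      obtain ⟨col, h1, h2⟩ := ih
      obtain ⟨c, hc, hc'⟩ : ∃ c ∈ range (k + 1), c ∉ (univ.filter fun u => R x u).image col := by
        by_contra hcon
        push Not at hcon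
        have h3 : range (k + 1) ⊆ (univ.filter fun u => R x u).image col := fun c hc => hcon c hc
        have h4 := (card_le_card h3).trans (card_image_le.trans (hk x))
        rw [card_range] at h4
        omega
      refine ⟨Function.update col x c, fun v => ?_, ?_⟩
      · by_cases hv : v = x
        · subst hv
          rw [Function.update_self]
          exact Nat.lt_succ_iff.mp (mem_range.mp hc)
        · rw [Function.update_of_ne hv]
          exact h1 v
      · have h5 : ∀ u, R x u → c ≠ col u := by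
          intro u hu he
          exact hc' (mem_image.mpr ⟨u, mem_filter.mpr ⟨mem_univ _, hu⟩, he.symm⟩)
        intro u hu v hv huv
        by_cases hux : u = x
        · have hvx : v ≠ x := by
            rintro rfl
            subst hux
            exact hi _ huv
          subst hux
          rw [Function.update_self, Function.update_of_ne hvx]
          exact h5 v huv
        · by_cases hvx : v = x
          · subst hvx
            rw [Function.update_self, Function.update_of_ne hux]
            exact (h5 u (hs _ _ huv)).symm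
          · rw [Function.update_of_ne hux, Function.update_of_ne hvx]
            exact h2 u ((mem_insert.mp hu).resolve_left hux) v
              ((mem_insert.mp hv).resolve_left hvx) huv
  obtain ⟨col, h1, h2⟩ := key univ
  exact ⟨col, h1, fun u v => h2 u (mem_univ _) v (mem_univ _)⟩

/-- the decreasing sequence of sets -/
def U (H : SimpleGraph V) (D : ℕ) (U0 : Finset V) : ℕ → Finset V
  | 0 => U0
  | j + 1 => (U H D U0 j).filter fun v => 4 * D < dI H (U H D U0 j) v

lemma U_succ_sub (H : SimpleGraph V) (D : ℕ) (U0 : Finset V) (j : ℕ) :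
    U H D U0 (j + 1) ⊆ U H D U0 j := filter_subset _ _

lemma U_anti (H : SimpleGraph V) (D : ℕ) (U0 : Finset V) {i j : ℕ} (h : i ≤ j) :
    U H D U0 j ⊆ U H D U0 i := by
  induction h with
  | refl => exact Subset.refl _
  | step _ ih => exact (U_succ_sub _ _ _ _).trans ih

lemma U_card (H : SimpleGraph V) (r : V → ℕ) (hr : Function.Injective r) (D : ℕ)
    (hD : ∀ v, (univ.filter fun u => H.Adj v u ∧ r u < r v).card ≤ D) (U0 : Finset V) (j : ℕ) :
    2 ^ j * (U H D U0 j).card ≤ U0.card := by
  induction j with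
  | zero => simp [U]
  | succ j ih =>
    have h1 := e2_le H r hr D hD (U H D U0 j)
    have h2 : (4 * D + 1) * (U H D U0 (j + 1)).card ≤ e2 H (U H D U0 j) := by
      calc (4 * D + 1) * (U H D U0 (j + 1)).card = ∑ v ∈ U H D U0 (j + 1), (4 * D + 1) := by
            rw [sum_const, smul_eq_mul, mul_comm]
        _ ≤ ∑ v ∈ U H D U0 (j + 1), dI H (U H D U0 j) v :=
            sum_le_sum fun v hv => (mem_filter.mp hv).2
        _ ≤ e2 H (U H D U0 j) := sum_le_sum_of_subset (U_succ_sub _ _ _ _)
    have h3 : (4 * D + 1) * (2 * (U H D U0 (j + 1)).card) ≤ (4 * D + 1) * (U H D U0 j).card := by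
      nlinarith
    have h4 := Nat.le_of_mul_le_mul_left h3 (by omega)
    calc 2 ^ (j + 1) * (U H D U0 (j + 1)).card = 2 ^ j * (2 * (U H D U0 (j + 1)).card) := by ring
      _ ≤ 2 ^ j * (U H D U0 j).card := Nat.mul_le_mul_left _ h4
      _ ≤ U0.card := ih

end graph

end LayerAux

open LayerAux in
/-- **Module Layer.** -/
theorem prfLayer : StLayer := by
  intro D θ hθ
  obtain ⟨J, hJ⟩ : ∃ J : ℕ, 12 * (D : ℝ) ≤ θ * 2 ^ J := by
    obtain ⟨J, hJ⟩ := pow_unbounded_of_one_lt (12 * (D : ℝ) / θ) (one_lt_two)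
    exact ⟨J, by
      rw [div_lt_iff₀ hθ] at hJ
      linarith⟩
  refine ⟨2 + (J * (4 * D + 1) * (6 * D + 1) + 6 * D), fun κ hκ => ⟨⌈4 / κ⌉₊, ?_⟩⟩
  intro K V _ H r hK hr hD hE
  -- degrees
  have hsum : ∀ X : Finset V, ∑ v ∈ X, dI H univ v ≤ 2 * K := by
    intro X
    calc ∑ v ∈ X, dI H univ v ≤ e2 H univ := sum_le_sum_of_subset (subset_univ _)
      _ = 2 * numEdges H := e2_univ H
      _ ≤ 2 * K := Nat.mul_le_mul_left _ hE
  set H0 : Finset V := univ.filter fun v => κ * (K : ℝ) < (dI H univ v : ℝ) with hH0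
  obtain ⟨S, hS0, hS1, hS2⟩ := exists_closure H r hr D hD H0
  have hKpos : (0 : ℝ) < K := by exact_mod_cast hK
  have hH0card : (H0.card : ℝ) * κ ≤ 2 := by
    have h1 : (H0.card : ℝ) * (κ * K) ≤ 2 * K := by
      calc (H0.card : ℝ) * (κ * K) = ∑ v ∈ H0, κ * (K : ℝ) := by
            rw [sum_const, nsmul_eq_mul]
        _ ≤ ∑ v ∈ H0, (dI H univ v : ℝ) :=
            sum_le_sum fun v hv => (mem_filter.mp hv).2.le
        _ ≤ 2 * K := by exact_mod_cast hsum H0
    nlinarith
  have hScard : S.card ≤ ⌈4 / κ⌉₊ := by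
    have h1 : (S.card : ℝ) ≤ 4 / κ := by
      rw [le_div_iff₀ hκ]
      have h2 : (S.card : ℝ) ≤ 2 * H0.card := by exact_mod_cast hS1
      nlinarith
    exact_mod_cast h1.trans (Nat.le_ceil _)
  -- the sets `U j`
  set U0 : Finset V := univ.filter fun v => v ∉ S ∧ 1 ≤ dI H univ v with hU0
  have hU0card : U0.card ≤ 2 * K := by
    calc U0.card = ∑ v ∈ U0, 1 := by simp
      _ ≤ ∑ v ∈ U0, dI H univ v := sum_le_sum fun v hv => (mem_filter.mp hv).2.2
      _ ≤ 2 * K := hsum U0
  set W : Finset V := U H D U0 J with hW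
  have hWU : W ⊆ U0 := U_anti H D U0 (Nat.zero_le J)
  have hWcard : 6 * (D : ℝ) * (W.card : ℝ) ≤ θ * (K : ℝ) := by
    have h1 : 2 ^ J * W.card ≤ 2 * K := (U_card H r hr D hD U0 J).trans hU0card
    have h2 : (2 : ℝ) ^ J * (W.card : ℝ) ≤ 2 * K := by exact_mod_cast h1
    have h3 : (12 * (D : ℝ)) * W.card ≤ (θ * 2 ^ J) * W.card :=
      mul_le_mul_of_nonneg_right hJ (Nat.cast_nonneg _)
    nlinarith
  -- the index of a vertex
  set M : Finset V := U0 \ W with hM
  have hadjU : ∀ u v, H.Adj u v → v ∉ S → v ∈ U0 := by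
    intro u v huv hv
    rw [hU0, mem_filter]
    refine ⟨mem_univ _, hv, ?_⟩
    rw [dI]
    exact card_pos.mpr ⟨u, mem_filter.mpr ⟨mem_univ _, huv.symm⟩⟩
  obtain ⟨idx, hidx⟩ : ∃ idx : V → ℕ, ∀ v ∈ M, idx v < J ∧ v ∈ U H D U0 (idx v) ∧
      v ∉ U H D U0 (idx v + 1) := by
    have h1 : ∀ v ∈ M, ∃ j, j < J ∧ v ∈ U H D U0 j ∧ v ∉ U H D U0 (j + 1) := by
      intro v hv
      rw [hM, mem_sdiff] at hv
      obtain ⟨hv1, hv2⟩ := hv
      have hex : ∃ j, v ∉ U H D U0 j := ⟨J, hv2⟩
      have hfind := Nat.find_spec hex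
      have hne : Nat.find hex ≠ 0 := by
        intro h0
        rw [h0] at hfind
        exact hfind hv1
      obtain ⟨j, hj⟩ := Nat.exists_eq_succ_of_ne_zero hne
      refine ⟨j, ?_, ?_, ?_⟩
      · have := Nat.find_min' hex hv2
        omega
      · by_contra h2
        have := Nat.find_min' hex h2
        omega
      · have := hfind
        rwa [hj] at this
    choose! idx hidx using h1
    exact ⟨idx, hidx⟩
  have hdeg : ∀ v ∈ M, dI H (U H D U0 (idx v)) v ≤ 4 * D := by
    intro v hv
    obtain ⟨h1, h2, h3⟩ := hidx v hv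
    by_contra h4
    push Not at h4
    exact h3 (mem_filter.mpr ⟨h2, h4⟩)
  -- colouring
  obtain ⟨col, hcol1, hcol2⟩ := exists_col
    (fun u v => H.Adj u v ∧ idx u = idx v ∧ u ∈ M ∧ v ∈ M)
    (fun u v h => ⟨h.1.symm, h.2.1.symm, h.2.2.2, h.2.2.1⟩) (fun v h => H.loopless.irrefl v h.1)
    (4 * D) (by
      intro v
      by_cases hv : v ∈ M
      · refine (card_le_card ?_).trans (hdeg v hv)
        intro u hu
        simp only [mem_filter, mem_univ, true_and] at hu
        refine mem_filter.mpr ⟨?_, hu.1⟩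
        rw [hu.2.1]
        exact (hidx u hu.2.2.2).2.1
      · refine le_trans (le_of_eq (card_eq_zero.mpr ?_)) (Nat.zero_le _)
        refine eq_empty_of_forall_notMem fun u hu => ?_
        simp only [mem_filter, mem_univ, true_and] at hu
        exact hv hu.2.2.1)
  -- the rank
  set q : V → ℕ := fun v => if v ∈ U0 then (J - 1 - idx v) * (4 * D + 1) + col v
    else J * (4 * D + 1) with hq
  have hqM : ∀ v ∈ M, q v = (J - 1 - idx v) * (4 * D + 1) + col v := by
    intro v hv
    rw [hq]
    exact if_pos (mem_sdiff.mp hv).1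
  have hqlt : ∀ u ∈ M, ∀ v ∈ M, q u < q v → idx v ≤ idx u := by
    intro u hu v hv h
    rw [hqM u hu, hqM v hv] at h
    by_contra hlt
    push Not at hlt
    have h1 := (hidx u hu).1
    have h2 := (hidx v hv).1
    have h3 : J - 1 - idx v + 1 ≤ J - 1 - idx u := by omega
    have h4 : (J - 1 - idx v + 1) * (4 * D + 1) ≤ (J - 1 - idx u) * (4 * D + 1) :=
      Nat.mul_le_mul_right _ h3
    have h5 := hcol1 v
    rw [add_mul, one_mul] at h4
    omega
  have hqne : ∀ u ∈ M, ∀ v ∈ M, H.Adj u v → q u ≠ q v := by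
    intro u hu v hv huv h
    rw [hqM u hu, hqM v hv] at h
    have h1 := (hidx u hu).1
    have h2 := (hidx v hv).1
    have h5 := hcol1 v
    have h6 := hcol1 u
    have h7 : J - 1 - idx u = J - 1 - idx v := by
      rcases lt_trichotomy (J - 1 - idx u) (J - 1 - idx v) with h8 | h8 | h8
      · have h9 : (J - 1 - idx u + 1) * (4 * D + 1) ≤ (J - 1 - idx v) * (4 * D + 1) :=
          Nat.mul_le_mul_right _ h8
        rw [add_mul, one_mul] at h9
        omega
      · exact h8
      · have h9 : (J - 1 - idx v + 1) * (4 * D + 1) ≤ (J - 1 - idx u) * (4 * D + 1) :=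
          Nat.mul_le_mul_right _ h8
        rw [add_mul, one_mul] at h9
        omega
    rw [h7] at h
    have h8 : col u = col v := by omega
    exact hcol2 u v ⟨huv, by omega, hu, hv⟩ h8
  have hqle : ∀ v, v ∉ W → q v ≤ J * (4 * D + 1) := by
    intro v hv
    by_cases h0 : v ∈ U0
    · have hvM : v ∈ M := mem_sdiff.mpr ⟨h0, hv⟩
      rw [hqM v hvM]
      have h1 := (hidx v hvM).1
      have h5 := hcol1 v
      have h3 : J - 1 - idx v + 1 ≤ J := by omega
      have h4 : (J - 1 - idx v + 1) * (4 * D + 1) ≤ J * (4 * D + 1) := Nat.mul_le_mul_right _ h3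
      rw [add_mul, one_mul] at h4
      omega
    · rw [hq]
      simp only [if_neg h0, le_refl]
  -- the number of earlier neighbours
  set nb : V → ℕ := fun v =>
    (univ.filter fun u => H.Adj v u ∧ (u ∈ S ∨ u ∈ W ∨ q u < q v)).card with hnb
  have hnble : ∀ v, v ∉ S → v ∉ W → nb v ≤ 6 * D := by
    intro v hvS hvW
    by_cases h0 : v ∈ U0
    · have hvM : v ∈ M := mem_sdiff.mpr ⟨h0, hvW⟩
      have h1 : (univ.filter fun u => H.Adj v u ∧ (u ∈ S ∨ u ∈ W ∨ q u < q v)) ⊆
          (S.filter fun u => H.Adj v u) ∪ ((U H D U0 (idx v)).filter fun u => H.Adj v u) := by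
        intro u hu
        rw [mem_filter] at hu
        obtain ⟨-, huv, hu⟩ := hu
        rw [mem_union, mem_filter, mem_filter]
        by_cases huS : u ∈ S
        · exact Or.inl ⟨huS, huv⟩
        · refine Or.inr ⟨?_, huv⟩
          by_cases huW : u ∈ W
          · exact U_anti H D U0 (hidx v hvM).1.le huW
          · have huM : u ∈ M := mem_sdiff.mpr ⟨hadjU v u huv huS, huW⟩
            have hlt := (hu.resolve_left huS).resolve_left huW
            exact U_anti H D U0 (hqlt u huM v hvM hlt) (hidx u huM).2.1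
      calc nb v ≤ _ := card_le_card h1
        _ ≤ _ := card_union_le _ _
        _ ≤ 2 * D + 4 * D := Nat.add_le_add (hS2 v hvS) (hdeg v hvM)
        _ = 6 * D := by ring
    · have h1 : nb v = 0 := by
        rw [hnb]
        simp only
        rw [card_eq_zero, filter_eq_empty_iff]
        intro u _ h
        exact h0 (hadjU u v h.1.symm hvS)
      rw [h1]
      exact Nat.zero_le _
  -- the levels
  set t : V → ℕ := fun v => if v ∈ S then 0 else if v ∈ W then 1 else
    2 + (q v * (6 * D + 1) + nb v) with ht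
  have ht0 : ∀ v, t v = 0 ↔ v ∈ S := by
    intro v
    rw [ht]
    simp only
    split_ifs with h1 h2
    · simp [h1]
    · simp [h1]
    · simp [h1]
  have htS : ∀ v, v ∈ S → t v = 0 := fun v hv => (ht0 v).mpr hv
  have hWS : ∀ v ∈ W, v ∉ S := fun v hv => (mem_filter.mp (hWU hv)).2.1
  have htW : ∀ v, v ∈ W → t v = 1 := by
    intro v hv
    rw [ht]
    simp only [if_neg (hWS v hv), if_pos hv]
  have htR : ∀ v, v ∉ S → v ∉ W → t v = 2 + (q v * (6 * D + 1) + nb v) := by
    intro v h1 h2
    rw [ht]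
    simp only [if_neg h1, if_neg h2]
  have ht1 : ∀ v, t v = 1 → v ∈ W := by
    intro v hv
    by_contra h2
    by_cases h1 : v ∈ S
    · rw [htS v h1] at hv
      omega
    · rw [htR v h1 h2] at hv
      omega
  have ht2 : ∀ v, 2 ≤ t v → v ∉ S ∧ v ∉ W := by
    intro v hv
    constructor
    · intro h
      rw [htS v h] at hv
      omega
    · intro h
      rw [htW v h] at hv
      omega
  have hadjM : ∀ u v, H.Adj u v → u ∉ S → u ∉ W → u ∈ M := fun u v huv h1 h2 =>
    mem_sdiff.mpr ⟨hadjU v u huv.symm h1, h2⟩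
  refine ⟨t, fun x => (x - 2) % (6 * D + 1), ?_, ?_, ?_, ?_, ?_, ?_, ?_⟩
  · intro v
    by_cases h1 : v ∈ S
    · rw [htS v h1]
      exact Nat.zero_le _
    by_cases h2 : v ∈ W
    · rw [htW v h2]
      omega
    rw [htR v h1 h2]
    have h3 := Nat.mul_le_mul_right (6 * D + 1) (hqle v h2)
    have h4 := hnble v h1 h2
    omega
  · refine le_trans (le_of_eq ?_) hScard
    congr 1
    ext v
    simp [ht0]
  · intro v hv
    have h1 : v ∉ S := by
      intro h
      rw [htS v h] at hv
      omega
    have h2 : v ∉ H0 := fun h => h1 (hS0 h)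
    rw [hH0, mem_filter] at h2
    push Not at h2
    exact h2 (mem_univ _)
  · intro u v huv h
    by_contra h1
    push Not at h1
    have h2 := ht2 u h1
    have h3 := ht2 v (h ▸ h1)
    have hu := hadjM u v huv h2.1 h2.2
    have hv := hadjM v u huv.symm h3.1 h3.2
    rw [htR u h2.1 h2.2, htR v h3.1 h3.2] at h
    have h4 := hnble u h2.1 h2.2
    have h5 := hnble v h3.1 h3.2
    apply hqne u hu v hv huv
    rcases lt_trichotomy (q u) (q v) with h8 | h8 | h8
    · have h9 : (q u + 1) * (6 * D + 1) ≤ q v * (6 * D + 1) := Nat.mul_le_mul_right _ h8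
      rw [add_mul, one_mul] at h9
      omega
    · exact h8
    · have h9 : (q v + 1) * (6 * D + 1) ≤ q u * (6 * D + 1) := Nat.mul_le_mul_right _ h8
      rw [add_mul, one_mul] at h9
      omega
  · intro v hv
    have hvW := ht1 v hv
    have h1 : (univ.filter fun u => H.Adj v u ∧ (t u < t v ∨ (t u = t v ∧ r u < r v))) ⊆
        (S.filter fun u => H.Adj v u) ∪ (univ.filter fun u => H.Adj v u ∧ r u < r v) := by
      intro u hu
      rw [mem_filter] at hu
      obtain ⟨-, huv, hu⟩ := hu
      rw [mem_union, mem_filter, mem_filter]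
      rcases hu with hu | hu
      · left
        refine ⟨(ht0 u).mp ?_, huv⟩
        rw [hv] at hu
        omega
      · exact Or.inr ⟨mem_univ _, huv, hu.2⟩
    calc _ ≤ _ := card_le_card h1
      _ ≤ _ := card_union_le _ _
      _ ≤ 2 * D + D := Nat.add_le_add (hS2 v (hWS v hvW)) (hD v)
      _ ≤ 6 * D := by omega
  · intro v hv
    obtain ⟨h1, h2⟩ := ht2 v hv
    have h3 := hnble v h1 h2
    have h4 : (t v - 2) % (6 * D + 1) = nb v := by
      rw [htR v h1 h2, Nat.add_sub_cancel_left, Nat.mul_comm, Nat.mul_add_mod,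
        Nat.mod_eq_of_lt (by omega)]
    refine ⟨?_, ?_⟩
    · show _ = (t v - 2) % (6 * D + 1)
      rw [h4, hnb]
      simp only
      congr 1
      ext u
      simp only [mem_filter, mem_univ, true_and]
      constructor
      · rintro ⟨huv, hlt⟩
        refine ⟨huv, ?_⟩
        by_cases h5 : u ∈ S
        · exact Or.inl h5
        by_cases h6 : u ∈ W
        · exact Or.inr (Or.inl h6)
        refine Or.inr (Or.inr ?_)
        rw [htR v h1 h2, htR u h5 h6] at hlt
        have hne := hqne u (hadjM u v huv.symm h5 h6) v (hadjM v u huv h1 h2) huv.symm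
        have h7 := hnble u h5 h6
        by_contra h8
        have h9 : q v < q u := by omega
        have h10 : (q v + 1) * (6 * D + 1) ≤ q u * (6 * D + 1) := Nat.mul_le_mul_right _ h9
        rw [add_mul, one_mul] at h10
        omega
      · rintro ⟨huv, h5⟩
        refine ⟨huv, ?_⟩
        by_cases h6 : u ∈ S
        · rw [htS u h6]
          omega
        by_cases h7 : u ∈ W
        · rw [htW u h7]
          omega
        have h8 := (h5.resolve_left h6).resolve_left h7
        rw [htR v h1 h2, htR u h6 h7]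
        have h9 : (q u + 1) * (6 * D + 1) ≤ q v * (6 * D + 1) := Nat.mul_le_mul_right _ h8
        have h10 := hnble u h6 h7
        rw [add_mul, one_mul] at h9
        omega
    · show (t v - 2) % (6 * D + 1) ≤ 6 * D
      rw [h4]
      exact h3
  · have h1 : (univ.filter fun v => t v = 1) = W := by
      ext v
      simp only [mem_filter, mem_univ, true_and]
      exact ⟨ht1 v, htW v⟩
    rw [h1]
    exact hWcard

end

end Pool.Agent.Lib.MP_b1acb3_co.Dgn
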