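import Pool.Agent.Lib.MP_b1acb3_co.Dgn.Stmts

/-!
MP_b1acb3_co, project DGN: the embedding of a graph with a good schedule, level by level.
-/

set_option autoImplicit false

namespace Pool.Agent.Lib.MP_b1acb3_co.Dgn

open Finset Classical

namespace MainAux

theorem env_one {n K : ℕ} {c : Sym2 (Fin n) → Fin K} (h : Env c (1 / (K : ℝ))) (hK : 1 ≤ K) :
    Env c 1 := by
  have hK' : (1 : ℝ) ≤ K := by exact_mod_cast hK
  have h1 : 1 / (K : ℝ) ≤ 1 := by
    rw [div_le_one (by linarith)]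
    exact hK'
  refine ⟨h.npos, fun x k => (h.up x k).trans ?_, fun x k => le_trans ?_ (h.lo x k)⟩
  · gcongr
  · gcongr

variable {V : Type} [Fintype V] {K : ℕ} {H : SimpleGraph V} {p : Par} {s : Sch V K}

theorem sum_I (hG : Good H p s) : ∑ ℓ ∈ s.B, (s.I ℓ).card ≤ K := by
  rw [← Finset.card_biUnion fun x hx y hy => hG.disj x hx y hy]
  calc (s.B.biUnion s.I).card ≤ (univ : Finset (Fin K)).card := card_le_card (subset_univ _)
    _ = K := by simp

theorem sum_Q0 (hG : Good H p s) (Q : Finset V) (hQ : ∀ v ∈ Q, s.lev v ≤ s.t0) :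
    (∑ v ∈ Q, (Nb H s.lev v).card) ≤ p.a0 * p.a0 := by
  calc (∑ v ∈ Q, (Nb H s.lev v).card) ≤ ∑ v ∈ Q, p.a0 := by
        apply sum_le_sum
        intro v hv
        refine (card_le_card ?_).trans hG.card0
        intro w hw
        rw [Nb, mem_filter] at hw
        rw [mem_filter]
        exact ⟨mem_univ _, hw.2.2.le.trans (hQ v hv)⟩
    _ = Q.card * p.a0 := by simp
    _ ≤ p.a0 * p.a0 := by
        apply Nat.mul_le_mul_right
        refine (card_le_card ?_).trans hG.card0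
        intro w hw
        rw [mem_filter]
        exact ⟨mem_univ _, hQ w hw⟩

theorem sum_Q (hG : Good H p s) {γ X : ℝ} (hγ : 0 ≤ γ) (hX : 0 ≤ X) (Q : Finset V)
    (hQ : ∀ ℓ ∈ s.B, ((Q.filter fun v => s.lev v = ℓ).card : ℝ) ≤
      γ * ((univ.filter fun v => s.lev v = ℓ).card : ℝ) + X) :
    ((∑ v ∈ Q, (Nb H s.lev v).card : ℕ) : ℝ) ≤
      p.θ * (K : ℝ) + γ * (K : ℝ) + (p.sB : ℝ) * (p.Δ : ℝ) * X := by
  have h1 : (∑ v ∈ Q, (Nb H s.lev v).card) =
      (∑ v ∈ Q.filter (fun v => s.lev v ∉ s.B), (Nb H s.lev v).card) +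
      ∑ v ∈ Q.filter (fun v => ¬ s.lev v ∉ s.B), (Nb H s.lev v).card :=
    (sum_filter_add_sum_filter_not _ _ _).symm
  have h2 : (∑ v ∈ Q.filter (fun v => s.lev v ∉ s.B), (Nb H s.lev v).card) ≤
      ∑ v ∈ univ.filter (fun v => s.lev v ∉ s.B), (Nb H s.lev v).card :=
    sum_le_sum_of_subset (filter_subset_filter _ (subset_univ _))
  have h3 : ∑ v ∈ Q.filter (fun v => ¬ s.lev v ∉ s.B), (Nb H s.lev v).card =
      ∑ ℓ ∈ s.B, (Q.filter fun v => s.lev v = ℓ).card * s.dg ℓ := by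
    rw [← sum_fiberwise_of_maps_to (t := s.B) (g := s.lev)
      (fun v hv => not_not.1 (mem_filter.1 hv).2)]
    apply sum_congr rfl
    intro ℓ hℓ
    have h4 : (Q.filter (fun v => ¬ s.lev v ∉ s.B)).filter (fun v => s.lev v = ℓ) =
        Q.filter fun v => s.lev v = ℓ := by
      ext v
      simp only [mem_filter]
      constructor
      · rintro ⟨⟨h5, -⟩, h6⟩
        exact ⟨h5, h6⟩
      · rintro ⟨h5, h6⟩
        refine ⟨⟨h5, ?_⟩, h6⟩
        rw [h6, not_not]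
        exact hℓ
    rw [h4, sum_congr rfl (g := fun _ => s.dg ℓ), sum_const, smul_eq_mul]
    intro v hv
    rw [mem_filter] at hv
    have h5 := hG.deg v (by rw [hv.2]; exact hℓ)
    rw [h5, hv.2]
  have h5 := hG.sum2
  have h6 : ((∑ ℓ ∈ s.B, (Q.filter fun v => s.lev v = ℓ).card * s.dg ℓ : ℕ) : ℝ) ≤
      γ * (K : ℝ) + (p.sB : ℝ) * (p.Δ : ℝ) * X := by
    push_cast
    calc ∑ ℓ ∈ s.B, ((Q.filter fun v => s.lev v = ℓ).card : ℝ) * (s.dg ℓ : ℝ)
        ≤ ∑ ℓ ∈ s.B, (γ * ((s.I ℓ).card : ℝ) + (p.Δ : ℝ) * X) := by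
          apply sum_le_sum
          intro ℓ hℓ
          have h7 := mul_le_mul_of_nonneg_right (hQ ℓ hℓ) (Nat.cast_nonneg (α := ℝ) (s.dg ℓ))
          have h8 : ((s.I ℓ).card : ℝ) =
              (s.dg ℓ : ℝ) * ((univ.filter fun v => s.lev v = ℓ).card : ℝ) := by
            exact_mod_cast hG.card ℓ hℓ
          have h9 : (s.dg ℓ : ℝ) ≤ p.Δ := by exact_mod_cast (hG.dpos ℓ hℓ).2
          have h10 := mul_le_mul_of_nonneg_right h9 hX
          rw [h8]
          linarith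
      _ = γ * ∑ ℓ ∈ s.B, ((s.I ℓ).card : ℝ) + (s.B.card : ℝ) * ((p.Δ : ℝ) * X) := by
          rw [sum_add_distrib, ← mul_sum, sum_const, nsmul_eq_mul]
      _ ≤ γ * (K : ℝ) + (p.sB : ℝ) * (p.Δ : ℝ) * X := by
          have h7 : ∑ ℓ ∈ s.B, ((s.I ℓ).card : ℝ) ≤ K := by exact_mod_cast sum_I hG
          have h8 : (s.B.card : ℝ) ≤ p.sB := by exact_mod_cast hG.nB
          have h9 : 0 ≤ (p.Δ : ℝ) * X := by positivity
          have h10 := mul_le_mul_of_nonneg_right h8 h9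
          have h11 := mul_le_mul_of_nonneg_left h7 hγ
          linarith
  rw [h1, h3]
  push_cast at h5 h6 ⊢
  have h7 : (∑ v ∈ Q.filter (fun v => s.lev v ∉ s.B), ((Nb H s.lev v).card : ℝ)) ≤
      ∑ v ∈ univ.filter (fun v => s.lev v ∉ s.B), ((Nb H s.lev v).card : ℝ) := by
    exact_mod_cast h2
  linarith

section steps

variable {n : ℕ} {c : Sym2 (Fin n) → Fin K} {q : Cst} {φ : Fin K → Fin K} {θ1 : ℝ}

/-- numerical conditions -/
structure Num (V : Type) [Fintype V] (p : Par) (q : Cst) (n K : ℕ) (θ1 : ℝ) : Prop where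
  hK : 1 ≤ K
  hA : 1 ≤ q.A
  h0 : 0 < q.β0
  h01 : q.β0 ≤ q.β1
  hρ : 0 < p.ρ
  hρ1 : p.ρ ≤ 1
  hθ : 0 ≤ θ1
  hθ1 : 2 * (p.Δ : ℝ) * θ1 ≤ p.ρ ^ p.Δ / 8
  hκ : 2 * p.κ / q.β1 ≤ p.ρ ^ p.Δ / 8
  hn : (Fintype.card V : ℝ) / (n : ℝ) ≤ p.ρ ^ (p.a0 + p.Δ) / 8
  hA8 : 8 ≤ q.A * p.ρ ^ (p.a0 + p.Δ)
  hK0 : 2 * (p.a0 : ℝ) * ((p.a0 : ℝ) * (p.a0 : ℝ) / (K : ℝ)) +
    2 * ((p.a0 : ℝ) / (K : ℝ)) / q.β0 ≤ p.ρ ^ p.a0 / 4

theorem step (hR : StRes) (hc : Env c 1) (hG : Good H p s) (hN : Num V p q n K θ1)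
    {E Q : Finset V} {f : V → Fin n} {u : V} (hI : Inv c H s q φ E Q f) (hu : u ∉ E)
    (hE : ∀ v, s.lev v < s.lev u → v ∈ E) (hE' : ∀ v ∈ E, s.lev v ≤ s.lev u)
    (hQ : ((∑ v ∈ Q, (Nb H s.lev v).card : ℕ) : ℝ) ≤ θ1 * (K : ℝ))
    (hT : Tot c H p s q φ E f < 1) :
    ∃ z, Inv c H s q φ (insert u E) (insert u Q) (Function.update f u z) ∧
      Tot c H p s q φ (insert u E) (Function.update f u z) ≤ Tot c H p s q φ E f := by
  have hNb : Nb H s.lev u ⊆ E := by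
    intro w hw
    rw [Nb, mem_filter] at hw
    exact hE w hw.2.2
  have hKpos : (0 : ℝ) < K := by exact_mod_cast hN.hK
  have hEn : (E.card : ℝ) / (n : ℝ) ≤ p.ρ ^ (p.a0 + p.Δ) / 8 := by
    refine le_trans ?_ hN.hn
    gcongr
    exact card_le_univ E
  have hρ := hN.hρ
  have hρ1 := hN.hρ1
  have hA0 : 0 ≤ q.A := le_trans zero_le_one hN.hA
  by_cases ht : s.lev u ≤ s.t0
  · have ha : (Nb H s.lev u).card ≤ p.a0 := by
      refine (card_le_card ?_).trans hG.card0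
      intro w hw
      rw [Nb, mem_filter] at hw
      rw [mem_filter]
      exact ⟨mem_univ _, hw.2.2.le.trans ht⟩
    have hp1 : p.ρ ^ p.a0 ≤ p.ρ ^ (Nb H s.lev u).card := pow_le_pow_of_le_one hρ.le hρ1 ha
    have hp2 : p.ρ ^ (p.a0 + p.Δ) ≤ p.ρ ^ (Nb H s.lev u).card :=
      pow_le_pow_of_le_one hρ.le hρ1 (by omega)
    apply hR V n K c H p s q φ E Q f u q.β0 ((p.a0 : ℝ) / (K : ℝ))
      ((p.a0 : ℝ) * (p.a0 : ℝ) / (K : ℝ)) hc hN.hA hN.h0 hN.h01 hρ hρ1 hI hu hNb hE' hG.adj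
      (by rw [if_pos ht]) _ _ _ _ hT
    · rw [div_mul_cancel₀ _ hKpos.ne']
      have h1 : (E.filter fun w => Co H s.lev u w).card ≤ p.a0 := by
        refine (card_le_card ?_).trans hG.card0
        intro w hw
        rw [mem_filter] at hw ⊢
        exact ⟨mem_univ _, (hE' w hw.1).trans ht⟩
      exact_mod_cast h1
    · rw [div_mul_cancel₀ _ hKpos.ne']
      exact_mod_cast sum_Q0 hG Q fun v hv => (hE' v (hI.sub hv)).trans ht
    · have h1 := hN.hK0
      have h2 : 2 * ((Nb H s.lev u).card : ℝ) * ((p.a0 : ℝ) * (p.a0 : ℝ) / (K : ℝ)) ≤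
          2 * (p.a0 : ℝ) * ((p.a0 : ℝ) * (p.a0 : ℝ) / (K : ℝ)) := by
        gcongr
      linarith
    · exact hN.hA8.trans (mul_le_mul_of_nonneg_left hp2 hA0)
  · have ha : (Nb H s.lev u).card ≤ p.Δ := hG.deg1 u (not_le.1 ht)
    have hp1 : p.ρ ^ p.Δ ≤ p.ρ ^ (Nb H s.lev u).card := pow_le_pow_of_le_one hρ.le hρ1 ha
    have hp2 : p.ρ ^ (p.a0 + p.Δ) ≤ p.ρ ^ (Nb H s.lev u).card :=
      pow_le_pow_of_le_one hρ.le hρ1 (by omega)
    apply hR V n K c H p s q φ E Q f u q.β1 p.κ θ1 hc hN.hA hN.h0 hN.h01 hρ hρ1 hI hu hNb hE'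
      hG.adj (by rw [if_neg ht]) _ hQ _ _ hT
    · refine le_trans ?_ (hG.co1 u (not_le.1 ht))
      have h1 : (E.filter fun w => Co H s.lev u w).card ≤
          (univ.filter fun w' => Co H s.lev u w' ∧ s.lev w' ≤ s.lev u).card := by
        apply card_le_card
        intro w hw
        rw [mem_filter] at hw ⊢
        exact ⟨mem_univ _, hw.2, hE' w hw.1⟩
      exact_mod_cast h1
    · have h1 := hN.hθ1
      have h2 := hN.hκ
      have h4 := hN.hθ
      have h3 : 2 * ((Nb H s.lev u).card : ℝ) * θ1 ≤ 2 * (p.Δ : ℝ) * θ1 := by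
        gcongr
      linarith
    · exact hN.hA8.trans (mul_le_mul_of_nonneg_left hp2 hA0)

theorem addR (hR : StRes) (hc : Env c 1) (hG : Good H p s) (hN : Num V p q n K θ1)
    {E Q : Finset V} {f : V → Fin n} {t : ℕ} (hI : Inv c H s q φ E Q f)
    (hE : ∀ v, s.lev v < t → v ∈ E) (hE' : ∀ v ∈ E, s.lev v ≤ t)
    (hT : Tot c H p s q φ E f < 1) (R : Finset V) (hRt : ∀ v ∈ R, s.lev v = t)
    (hRE : ∀ v ∈ R, v ∉ E)
    (hQ : ((∑ v ∈ Q ∪ R, (Nb H s.lev v).card : ℕ) : ℝ) ≤ θ1 * (K : ℝ)) :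
    ∃ f' : V → Fin n, Inv c H s q φ (E ∪ R) (Q ∪ R) f' ∧
      Tot c H p s q φ (E ∪ R) f' ≤ Tot c H p s q φ E f := by
  induction R using Finset.induction_on with
  | empty =>
    refine ⟨f, ?_, ?_⟩
    · rw [union_empty, union_empty]
      exact hI
    · rw [union_empty]
  | insert u R huR ih =>
    have hsub : Q ∪ R ⊆ Q ∪ insert u R := union_subset_union_right (subset_insert _ _)
    have hQ' : ((∑ v ∈ Q ∪ R, (Nb H s.lev v).card : ℕ) : ℝ) ≤ θ1 * (K : ℝ) := by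
      refine le_trans ?_ hQ
      exact_mod_cast sum_le_sum_of_subset hsub
    obtain ⟨f1, hI1, hT1⟩ := ih (fun v hv => hRt v (mem_insert_of_mem hv))
      (fun v hv => hRE v (mem_insert_of_mem hv)) hQ'
    have hut : s.lev u = t := hRt u (mem_insert_self _ _)
    obtain ⟨z, hz, hz'⟩ := step hR hc hG hN hI1 (u := u)
      (by
        rw [mem_union, not_or]
        exact ⟨hRE u (mem_insert_self _ _), huR⟩)
      (fun v hv => mem_union_left _ (hE v (by rw [← hut]; exact hv)))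
      (fun v hv => by
        rw [hut]
        rcases mem_union.1 hv with h | h
        · exact hE' v h
        · exact (hRt v (mem_insert_of_mem h)).le)
      hQ' (lt_of_le_of_lt hT1 hT)
    refine ⟨Function.update f1 u z, ?_, ?_⟩
    · rw [union_insert, union_insert]
      exact hz
    · rw [union_insert]
      exact hz'.trans hT1

theorem filter_union (Q R : Finset V) {t : ℕ} (hRt : ∀ v ∈ R, s.lev v = t)
    (hQt : ∀ v ∈ Q, s.lev v < t) (ℓ : ℕ) :
    ((Q ∪ R).filter fun v => s.lev v = ℓ) = if ℓ = t then R else Q.filter fun v => s.lev v = ℓ := by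
  split_ifs with h
  · subst h
    ext v
    rw [mem_filter, mem_union]
    constructor
    · rintro ⟨h1 | h1, h2⟩
      · exact absurd h2 (hQt v h1).ne
      · exact h1
    · intro h1
      exact ⟨Or.inr h1, hRt v h1⟩
  · ext v
    rw [mem_filter, mem_union, mem_filter]
    constructor
    · rintro ⟨h1 | h1, h2⟩
      · exact ⟨h1, h2⟩
      · exact absurd (h2.symm.trans (hRt v h1)) h
    · rintro ⟨h1, h2⟩
      exact ⟨Or.inl h1, h2⟩

end steps

end MainAux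

open MainAux in
theorem prfMain (hP : StPart) (hR : StRes) (hB : StBat) : StMain := by
  intro Δ ρ hΔ hρ hρ1
  have hΔ' : (1 : ℝ) ≤ Δ := by exact_mod_cast hΔ
  have hρΔ : 0 < ρ ^ Δ := pow_pos hρ Δ
  obtain ⟨θ1, hθ1⟩ : ∃ θ1 : ℝ, θ1 = ρ ^ Δ / (16 * (Δ : ℝ)) := ⟨_, rfl⟩
  have hθ1pos : 0 < θ1 := by
    rw [hθ1]
    positivity
  refine ⟨θ1 / 4, by positivity, ?_⟩
  intro bb hbb
  obtain ⟨δ1, hδ1, hB1⟩ := hB Δ bb (θ1 / 4) hΔ hbb (by positivity)
  obtain ⟨β1, hβ1, hP1⟩ := hP Δ ρ bb δ1 hΔ hρ hρ1 hbb hδ1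
  obtain ⟨κB, ηB, εB, X0, M, hκB, hηB, hεB, hB2⟩ := hB1 β1 hβ1
  refine ⟨min κB (β1 * ρ ^ Δ / 16), ηB, lt_min hκB (by positivity), hηB, ?_⟩
  intro a0 sB
  obtain ⟨βa, hβa, hP2⟩ := hP1 β1 hβ1 le_rfl a0
  obtain ⟨X, hX, hX0⟩ : ∃ X : ℝ, 0 ≤ X ∧ X0 ≤ X := ⟨max X0 0, le_max_right _ _, le_max_left _ _⟩
  obtain ⟨β0, hβ0, hβ01, hβ0a⟩ : ∃ β0 : ℝ, 0 < β0 ∧ β0 ≤ β1 ∧ β0 ≤ βa :=
    ⟨min β1 βa, lt_min hβ1 hβa, min_le_left _ _, min_le_right _ _⟩
  obtain ⟨A, hA1, hAM, hA8⟩ : ∃ A : ℝ, 1 ≤ A ∧ (M : ℝ) ≤ A ∧ 8 / ρ ^ (a0 + Δ) ≤ A :=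
    ⟨max (max 1 (M : ℝ)) (8 / ρ ^ (a0 + Δ)), (le_max_left _ _).trans (le_max_left _ _),
      (le_max_right _ _).trans (le_max_left _ _), le_max_right _ _⟩
  obtain ⟨C, hC⟩ : ∃ C : ℝ, C = 2 ^ (a0 + 2 * Δ + 3) := ⟨_, rfl⟩
  have hC1 : 1 ≤ C := by
    rw [hC]
    exact one_le_pow₀ (by norm_num)
  obtain ⟨ε, hε, hεB', hεC⟩ : ∃ ε : ℝ, 0 < ε ∧ ε ≤ εB ∧ ε * C ^ sB ≤ 1 / 4 := by
    have hCp : 0 < C ^ sB := by positivity
    refine ⟨min εB (1 / (4 * C ^ sB)), lt_min hεB (by positivity), min_le_left _ _, ?_⟩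
    calc min εB (1 / (4 * C ^ sB)) * C ^ sB ≤ 1 / (4 * C ^ sB) * C ^ sB :=
          mul_le_mul_of_nonneg_right (min_le_right _ _) hCp.le
      _ = 1 / 4 := by
          field_simp
  obtain ⟨K1, hK1⟩ := hP2 β0 A ε sB hβ0 hβ0a hA1 hε
  obtain ⟨K2, hK2⟩ := hB2 a0 A hA1 hAM
  obtain ⟨K3, hK3⟩ := exists_nat_ge (((sB : ℝ) * (Δ : ℝ) * X) / (θ1 / 2))
  obtain ⟨K4, hK4⟩ := exists_nat_ge
    ((2 * (a0 : ℝ) * ((a0 : ℝ) * (a0 : ℝ)) + 2 * (a0 : ℝ) / β0) / (ρ ^ a0 / 4))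
  refine ⟨K1 + K2 + K3 + K4 + 1, ?_⟩
  intro K hK m
  have hKpos : (0 : ℝ) < K := by
    have : 1 ≤ K := by omega
    exact_mod_cast this
  have hK3' : (sB : ℝ) * (Δ : ℝ) * X ≤ θ1 / 2 * (K : ℝ) := by
    rw [div_le_iff₀ (by positivity)] at hK3
    refine hK3.trans ?_
    rw [mul_comm]
    have : (K3 : ℝ) ≤ K := by exact_mod_cast (by omega : K3 ≤ K)
    gcongr
  have hK4' : 2 * (a0 : ℝ) * ((a0 : ℝ) * (a0 : ℝ)) + 2 * (a0 : ℝ) / β0 ≤
      ρ ^ a0 / 4 * (K : ℝ) := by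
    rw [div_le_iff₀ (by positivity)] at hK4
    refine hK4.trans ?_
    rw [mul_comm]
    have : (K4 : ℝ) ≤ K := by exact_mod_cast (by omega : K4 ≤ K)
    gcongr
  obtain ⟨n1, hn1⟩ := exists_nat_ge (64 * ((m : ℝ) * ((M : ℝ) + 1)) ^ 2)
  obtain ⟨n2, hn2⟩ := exists_nat_ge ((m : ℝ) / (ρ ^ (a0 + Δ) / 8))
  refine ⟨n1 + n2, ?_⟩
  intro n hn c hc V _ H s hVm hG
  have hVm' : (Fintype.card V : ℝ) ≤ m := by exact_mod_cast hVm
  have hc1 := env_one hc (by omega : 1 ≤ K)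
  have hnpos : (0 : ℝ) < n := by exact_mod_cast hc.npos
  obtain ⟨φ, hφ1, hφ2⟩ := hK1 n K c (by omega) hc V H _ s hG rfl rfl rfl rfl rfl
  have hN : Num V ⟨Δ, a0, sB, ρ, bb, min κB (β1 * ρ ^ Δ / 16), θ1 / 4, ηB⟩ ⟨A, β0, β1, δ1⟩ n K
      θ1 := by
    refine ⟨by omega, hA1, hβ0, hβ01, hρ, hρ1, hθ1pos.le, ?_, ?_, ?_, ?_, ?_⟩
    · change 2 * (Δ : ℝ) * θ1 ≤ ρ ^ Δ / 8
      rw [hθ1]
      apply le_of_eq
      field_simp
      ring
    · change 2 * min κB (β1 * ρ ^ Δ / 16) / β1 ≤ ρ ^ Δ / 8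
      rw [div_le_iff₀ hβ1]
      have h1 := min_le_right κB (β1 * ρ ^ Δ / 16)
      linarith
    · change (Fintype.card V : ℝ) / (n : ℝ) ≤ ρ ^ (a0 + Δ) / 8
      rw [div_le_iff₀ hnpos]
      rw [div_le_iff₀ (by positivity)] at hn2
      have h1 : (n2 : ℝ) ≤ n := by exact_mod_cast (by omega : n2 ≤ n)
      have h2 : (n2 : ℝ) * (ρ ^ (a0 + Δ) / 8) ≤ n * (ρ ^ (a0 + Δ) / 8) := by gcongr
      linarith
    · change 8 ≤ A * ρ ^ (a0 + Δ)
      rwa [div_le_iff₀ (by positivity)] at hA8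
    · change 2 * (a0 : ℝ) * ((a0 : ℝ) * (a0 : ℝ) / (K : ℝ)) +
        2 * ((a0 : ℝ) / (K : ℝ)) / β0 ≤ ρ ^ a0 / 4
      have h1 : 2 * (a0 : ℝ) * ((a0 : ℝ) * (a0 : ℝ) / (K : ℝ)) + 2 * ((a0 : ℝ) / (K : ℝ)) / β0 =
          (2 * (a0 : ℝ) * ((a0 : ℝ) * (a0 : ℝ)) + 2 * (a0 : ℝ) / β0) / (K : ℝ) := by
        field_simp
      rw [h1, div_le_iff₀ hKpos]
      exact hK4'
  have hsum : ∀ Q : Finset V, (∀ ℓ ∈ s.B, ((Q.filter fun v => s.lev v = ℓ).card : ℝ) ≤
      θ1 / 4 * ((univ.filter fun v => s.lev v = ℓ).card : ℝ) + X) →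
      ((∑ v ∈ Q, (Nb H s.lev v).card : ℕ) : ℝ) ≤ θ1 * (K : ℝ) := by
    intro Q hQ
    refine (sum_Q hG (by positivity) hX Q hQ).trans ?_
    change θ1 / 4 * (K : ℝ) + θ1 / 4 * (K : ℝ) + (sB : ℝ) * (Δ : ℝ) * X ≤ θ1 * (K : ℝ)
    linarith
  have hn64 : 64 * ((Fintype.card V : ℝ) * ((M : ℝ) + 1)) ^ 2 ≤ (n : ℝ) := by
    have h1 : (n1 : ℝ) ≤ n := by exact_mod_cast (by omega : n1 ≤ n)
    refine le_trans ?_ (hn1.trans h1)
    gcongr
  have hcardB : ∀ t : ℕ, (s.B.filter fun ℓ => ℓ < t).card ≤ sB := fun t =>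
    (card_le_card (filter_subset _ _)).trans hG.nB
  have hpow : ∀ j : ℕ, j ≤ sB → ε * C ^ j ≤ 1 / 4 := by
    intro j hj
    refine le_trans ?_ hεC
    apply mul_le_mul_of_nonneg_left _ hε.le
    exact pow_le_pow_right₀ hC1 hj
  have main : ∀ t : ℕ, ∃ (Q : Finset V) (f : V → Fin n),
      Inv c H s ⟨A, β0, β1, δ1⟩ φ (univ.filter fun v => s.lev v < t) Q f ∧
      Tot c H ⟨Δ, a0, sB, ρ, bb, min κB (β1 * ρ ^ Δ / 16), θ1 / 4, ηB⟩ s ⟨A, β0, β1, δ1⟩ φ
        (univ.filter fun v => s.lev v < t) f ≤ ε * C ^ (s.B.filter fun ℓ => ℓ < t).card ∧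
      (∀ ℓ ∈ s.B, ((Q.filter fun v => s.lev v = ℓ).card : ℝ) ≤
        θ1 / 4 * ((univ.filter fun v => s.lev v = ℓ).card : ℝ) + X) := by
    intro t
    induction t with
    | zero =>
      have h0 : (univ.filter fun v => s.lev v < 0) = (∅ : Finset V) := by
        ext v
        simp
      have h0' : (s.B.filter fun ℓ => ℓ < 0) = ∅ := by
        ext v
        simp
      rw [h0, h0']
      refine ⟨∅, fun _ => ⟨0, hc.npos⟩, ⟨Subset.refl _, ?_, ?_, ?_, ?_, ?_, ?_, ?_⟩, ?_, ?_⟩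
      · intro x hx
        simp at hx
      · intro e he
        exfalso
        induction e with
        | _ x y =>
          have h1 := he.2 x (Sym2.mem_mk_left x y)
          simp at h1
      · intro u hu
        simp at hu
      · intro u hu
        simp at hu
      · intro u hu
        simp at hu
      · intro u hu
        simp at hu
      · intro u hu
        simp at hu
      · rw [card_empty, pow_zero, mul_one]
        exact hφ1 _
      · intro ℓ _
        rw [filter_empty, card_empty, Nat.cast_zero]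
        positivity
    | succ t ih =>
      obtain ⟨Q, f, hI, hT, hQ⟩ := ih
      have hQt : ∀ v ∈ Q, s.lev v < t := fun v hv => (mem_filter.1 (hI.sub hv)).2
      by_cases htB : t ∈ s.B
      · have hfB : (s.B.filter fun ℓ => ℓ < t + 1).card = (s.B.filter fun ℓ => ℓ < t).card + 1 := by
          have h1 : (s.B.filter fun ℓ => ℓ < t + 1) = insert t (s.B.filter fun ℓ => ℓ < t) := by
            ext ℓ
            rw [mem_filter, mem_insert, mem_filter]
            constructor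
            · rintro ⟨h2, h3⟩
              rcases Nat.lt_succ_iff_lt_or_eq.1 h3 with h4 | h4
              · exact Or.inr ⟨h2, h4⟩
              · exact Or.inl h4
            · rintro (h2 | ⟨h2, h3⟩)
              · subst h2
                exact ⟨htB, Nat.lt_succ_self _⟩
              · exact ⟨h2, h3.trans (Nat.lt_succ_self _)⟩
          rw [h1, card_insert_of_notMem]
          rw [mem_filter]
          rintro ⟨-, h2⟩
          exact lt_irrefl _ h2
        obtain ⟨B', f1, hB', hI1, hT1, hR1⟩ := hK2 n K c (by omega) hc1 V H _ s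
          ⟨A, β0, β1, δ1⟩ φ hG rfl rfl rfl (min_le_left _ _) le_rfl rfl hβ0 hβ01 rfl rfl hn64 t htB
          ((hφ2 t htB).trans (by gcongr)) Q f _ hI hT (by positivity)
          ((hpow _ (hcardB t)).trans (by norm_num))
        rw [← hC] at hT1
        have hT2 : Tot c H ⟨Δ, a0, sB, ρ, bb, min κB (β1 * ρ ^ Δ / 16), θ1 / 4, ηB⟩ s
            ⟨A, β0, β1, δ1⟩ φ ((univ.filter fun v => s.lev v < t) ∪ B') f1 ≤
            ε * C ^ (s.B.filter fun ℓ => ℓ < t + 1).card := by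
          refine hT1.trans (le_of_eq ?_)
          rw [hfB, pow_succ]
          ring
        have hRt : ∀ v ∈ univ.filter (fun v => s.lev v = t ∧ v ∉ B'), s.lev v = t :=
          fun v hv => (mem_filter.1 hv).2.1
        have hQ' : ∀ ℓ ∈ s.B,
            (((Q ∪ univ.filter (fun v => s.lev v = t ∧ v ∉ B')).filter
              fun v => s.lev v = ℓ).card : ℝ) ≤
            θ1 / 4 * ((univ.filter fun v => s.lev v = ℓ).card : ℝ) + X := by
          intro ℓ hℓ
          rw [MainAux.filter_union Q _ hRt hQt]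
          split_ifs with h1
          · rw [h1]
            exact hR1.trans (by linarith)
          · exact hQ ℓ hℓ
        obtain ⟨f2, hI2, hT3⟩ := addR hR hc1 hG hN hI1 (t := t)
          (fun v hv => mem_union_left _ (mem_filter.2 ⟨mem_univ _, hv⟩))
          (fun v hv => by
            rcases mem_union.1 hv with h | h
            · exact (mem_filter.1 h).2.le
            · exact (hB' v h).le)
          (lt_of_le_of_lt (hT2.trans (hpow _ (hcardB (t + 1)))) (by norm_num))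
          (univ.filter fun v => s.lev v = t ∧ v ∉ B') hRt
          (fun v hv h => by
            rw [mem_filter] at hv
            rcases mem_union.1 h with h | h
            · exact absurd hv.2.1 (mem_filter.1 h).2.ne
            · exact hv.2.2 h)
          (hsum _ hQ')
        have hE : (univ.filter fun v => s.lev v < t) ∪ B' ∪
            (univ.filter fun v => s.lev v = t ∧ v ∉ B') = univ.filter fun v => s.lev v < t + 1 := by
          ext v
          simp only [mem_union, mem_filter, mem_univ, true_and]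
          constructor
          · rintro ((h | h) | h)
            · omega
            · have := hB' v h
              omega
            · have := h.1
              omega
          · intro h
            by_cases hv : v ∈ B'
            · exact Or.inl (Or.inr hv)
            · rcases Nat.lt_succ_iff_lt_or_eq.1 h with h4 | h4
              · exact Or.inl (Or.inl h4)
              · exact Or.inr ⟨h4, hv⟩
        rw [hE] at hI2 hT3
        exact ⟨_, f2, hI2, hT3.trans hT2, hQ'⟩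
      · have hfB : (s.B.filter fun ℓ => ℓ < t + 1) = s.B.filter fun ℓ => ℓ < t := by
          ext ℓ
          rw [mem_filter, mem_filter]
          constructor
          · rintro ⟨h2, h3⟩
            rcases Nat.lt_succ_iff_lt_or_eq.1 h3 with h4 | h4
            · exact ⟨h2, h4⟩
            · exact absurd (h4 ▸ h2) htB
          · rintro ⟨h2, h3⟩
            exact ⟨h2, h3.trans (Nat.lt_succ_self _)⟩
        have hRt : ∀ v ∈ univ.filter (fun v => s.lev v = t), s.lev v = t :=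
          fun v hv => (mem_filter.1 hv).2
        have hQ' : ∀ ℓ ∈ s.B,
            (((Q ∪ univ.filter (fun v => s.lev v = t)).filter
              fun v => s.lev v = ℓ).card : ℝ) ≤
            θ1 / 4 * ((univ.filter fun v => s.lev v = ℓ).card : ℝ) + X := by
          intro ℓ hℓ
          rw [MainAux.filter_union Q _ hRt hQt, if_neg]
          · exact hQ ℓ hℓ
          · intro h
            exact htB (h ▸ hℓ)
        obtain ⟨f2, hI2, hT3⟩ := addR hR hc1 hG hN hI (t := t)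
          (fun v hv => mem_filter.2 ⟨mem_univ _, hv⟩)
          (fun v hv => (mem_filter.1 hv).2.le)
          (lt_of_le_of_lt (hT.trans (hpow _ (hcardB t))) (by norm_num))
          (univ.filter fun v => s.lev v = t) hRt
          (fun v hv h => by
            rw [mem_filter] at hv
            exact absurd hv.2 (mem_filter.1 h).2.ne)
          (hsum _ hQ')
        have hE : (univ.filter fun v => s.lev v < t) ∪
            (univ.filter fun v => s.lev v = t) = univ.filter fun v => s.lev v < t + 1 := by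
          ext v
          simp only [mem_union, mem_filter, mem_univ, true_and]
          omega
        rw [hE] at hI2 hT3
        rw [hfB]
        exact ⟨_, f2, hI2, hT3.trans hT, hQ'⟩
  obtain ⟨t, ht⟩ : ∃ t : ℕ, ∀ v : V, s.lev v < t :=
    ⟨(univ.sup s.lev) + 1, fun v => Nat.lt_succ_of_le (le_sup (f := s.lev) (mem_univ v))⟩
  obtain ⟨Q, f, hI, -, -⟩ := main t
  have hE : (univ.filter fun v => s.lev v < t) = (univ : Finset V) := by
    ext v
    simp [ht v]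
  rw [hE] at hI
  refine ⟨f, ?_, ?_⟩
  · intro x y hxy
    exact hI.inj (by simp) (by simp) hxy
  · intro e he e' he' h
    exact hI.rain ⟨he, fun x _ => mem_univ x⟩ ⟨he', fun x _ => mem_univ x⟩ h

end Pool.Agent.Lib.MP_b1acb3_co.Dgn
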