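import Pool.Agent.Lib.MP_b1acb3_co.Dgn.Stmts

/-!
MP_b1acb3_co, project DGN: sparse random graphs have small degrees.
-/

set_option autoImplicit false

namespace Pool.Agent.Lib.MP_b1acb3_co.Dgn

open Finset Classical

noncomputable section

namespace MaxR

/-- pairs that contain `a` -/
def S {v : ℕ} (a : Fin v) : Finset (Fin v × Fin v) := univ.filter fun p => p.1 = a ∨ p.2 = a

theorem card_S {v : ℕ} (a : Fin v) : (S a).card ≤ 2 * v := by
  have h1 : S a ⊆ ((univ : Finset (Fin v)).image fun x => (a, x)) ∪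
      ((univ : Finset (Fin v)).image fun x => (x, a)) := by
    rintro ⟨x, y⟩ hp
    rw [S, mem_filter] at hp
    rw [mem_union, mem_image, mem_image]
    rcases hp.2 with h | h
    · left
      exact ⟨y, mem_univ _, by simp only at h; rw [h]⟩
    · right
      exact ⟨x, mem_univ _, by simp only at h; rw [h]⟩
  have h2 := card_le_card h1
  have h3 := card_union_le ((univ : Finset (Fin v)).image fun x => (a, x))
    ((univ : Finset (Fin v)).image fun x => (x, a))
  have h4 : ((univ : Finset (Fin v)).image fun x => (a, x)).card ≤ v := by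
    refine card_image_le.trans ?_
    rw [card_univ, Fintype.card_fin]
  have h5 : ((univ : Finset (Fin v)).image fun x => (x, a)).card ≤ v := by
    refine card_image_le.trans ?_
    rw [card_univ, Fintype.card_fin]
  omega

theorem deg_le {v m : ℕ} (ω : Fin m → Fin v × Fin v) (a : Fin v) :
    {u | (grOf ω).Adj a u}.ncard ≤ (univ.filter fun i => ω i ∈ S a).card := by
  have h1 : {u | (grOf ω).Adj a u} ⊆ (((univ.filter fun i => ω i ∈ S a).image
      fun i => if (ω i).1 = a then (ω i).2 else (ω i).1 : Finset (Fin v)) : Set (Fin v)) := by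
    rintro u ⟨hne, i, hi⟩
    rw [mem_coe, mem_image]
    rw [Sym2.eq_iff] at hi
    rcases hi with ⟨h1, h2⟩ | ⟨h1, h2⟩
    · refine ⟨i, mem_filter.2 ⟨mem_univ _, mem_filter.2 ⟨mem_univ _, Or.inl h1⟩⟩, ?_⟩
      rw [if_pos h1, h2]
    · refine ⟨i, mem_filter.2 ⟨mem_univ _, mem_filter.2 ⟨mem_univ _, Or.inr h2⟩⟩, ?_⟩
      rw [if_neg (by rw [h1]; exact hne.symm), h1]
  refine (Set.ncard_le_ncard h1 (Set.toFinite _)).trans ?_
  rw [Set.ncard_coe_finset]
  exact card_image_le

theorem pr_two {v m : ℕ} (hv : 0 < v) (T : Finset (Fin v × Fin v)) (i j : Fin m) (hij : i ≠ j) :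
    av (fun ω : Fin m → Fin v × Fin v => if ω i ∈ T ∧ ω j ∈ T then (1 : ℝ) else 0) =
      ((T.card : ℝ) / ((v : ℝ) * v)) ^ 2 := by
  have hvR : (0 : ℝ) < v := by exact_mod_cast hv
  unfold av
  have h1 : (∑ ω : Fin m → Fin v × Fin v, if ω i ∈ T ∧ ω j ∈ T then (1 : ℝ) else 0) =
      (((univ.filter fun ω : Fin m → Fin v × Fin v => ω i ∈ T ∧ ω j ∈ T).card : ℕ) : ℝ) := by
    rw [card_filter]
    push_cast
    rfl
  have h2 : (univ.filter fun ω : Fin m → Fin v × Fin v => ω i ∈ T ∧ ω j ∈ T) =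
      Fintype.piFinset (fun k : Fin m => if k = i ∨ k = j then T else univ) := by
    ext ω
    rw [mem_filter, Fintype.mem_piFinset]
    constructor
    · rintro ⟨_, h3, h4⟩ k
      by_cases hk : k = i ∨ k = j
      · rw [if_pos hk]
        rcases hk with rfl | rfl
        · exact h3
        · exact h4
      · rw [if_neg hk]
        exact mem_univ _
    · intro h3
      refine ⟨mem_univ _, ?_, ?_⟩
      · have := h3 i
        rwa [if_pos (Or.inl rfl)] at this
      · have := h3 j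
        rwa [if_pos (Or.inr rfl)] at this
  have h5 : (((Fintype.piFinset (fun k : Fin m => if k = i ∨ k = j then T else univ)).card
      : ℕ) : ℝ) = ∏ k : Fin m, (if k = i ∨ k = j then (T.card : ℝ) else (v : ℝ) * v) := by
    rw [Fintype.card_piFinset]
    push_cast
    refine prod_congr rfl fun k _ => ?_
    by_cases hk : k = i ∨ k = j
    · rw [if_pos hk, if_pos hk]
    · rw [if_neg hk, if_neg hk, card_univ, Fintype.card_prod, Fintype.card_fin]
      push_cast
      rfl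
  have h6 : ((Fintype.card (Fin m → Fin v × Fin v) : ℕ) : ℝ) =
      ∏ _k : Fin m, ((v : ℝ) * v) := by
    rw [Fintype.card_fun, Fintype.card_prod, Fintype.card_fin, Fintype.card_fin, prod_const,
      card_univ, Fintype.card_fin]
    push_cast
    rfl
  rw [h1, h2, h5, h6, ← prod_div_distrib]
  have h7 : ∀ k ∈ (univ : Finset (Fin m)),
      (if k = i ∨ k = j then (T.card : ℝ) else (v : ℝ) * v) / ((v : ℝ) * v) =
      (if k = i ∨ k = j then (T.card : ℝ) / ((v : ℝ) * v) else 1) := by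
    intro k _
    by_cases hk : k = i ∨ k = j
    · rw [if_pos hk, if_pos hk]
    · rw [if_neg hk, if_neg hk]
      exact div_self (by positivity)
  rw [prod_congr rfl h7, ← prod_filter, prod_const]
  congr 1
  have h8 : (univ.filter fun k : Fin m => k = i ∨ k = j) = {i, j} := by
    ext k
    rw [mem_filter, mem_insert, mem_singleton]
    exact ⟨fun h => h.2, fun h => ⟨mem_univ _, h⟩⟩
  rw [h8, card_pair hij]

theorem low_count {v m : ℕ} (ω : Fin m → Fin v × Fin v) (a : Fin v) (x : ℝ) (hx : 2 ≤ x)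
    (h : x < (((univ.filter fun i => ω i ∈ S a).card : ℕ) : ℝ)) :
    x ^ 2 / 2 ≤ ∑ i : Fin m, ∑ j ∈ univ.erase i, (if ω i ∈ S a ∧ ω j ∈ S a then (1 : ℝ) else 0) := by
  set F := univ.filter fun i => ω i ∈ S a with hF
  have h1 : ∑ i ∈ F, ∑ j ∈ F.erase i, (1 : ℝ) ≤
      ∑ i : Fin m, ∑ j ∈ univ.erase i, (if ω i ∈ S a ∧ ω j ∈ S a then (1 : ℝ) else 0) := by
    have h2 : ∑ i ∈ F, ∑ j ∈ F.erase i, (1 : ℝ) ≤ ∑ i ∈ F, ∑ j ∈ univ.erase i,
        (if ω i ∈ S a ∧ ω j ∈ S a then (1 : ℝ) else 0) := by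
      refine sum_le_sum fun i hi => ?_
      have h3 : ∑ j ∈ F.erase i, (1 : ℝ) = ∑ j ∈ F.erase i,
          (if ω i ∈ S a ∧ ω j ∈ S a then (1 : ℝ) else 0) := by
        refine sum_congr rfl fun j hj => ?_
        rw [if_pos ⟨(mem_filter.1 hi).2, (mem_filter.1 (mem_of_mem_erase hj)).2⟩]
      rw [h3]
      refine sum_le_sum_of_subset_of_nonneg (erase_subset_erase i (subset_univ F)) ?_
      intro j _ _
      split_ifs <;> norm_num
    refine h2.trans ?_
    refine sum_le_sum_of_subset_of_nonneg (subset_univ F) ?_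
    intro i _ _
    refine sum_nonneg fun j _ => ?_
    split_ifs <;> norm_num
  refine le_trans ?_ h1
  have h4 : ∑ i ∈ F, ∑ j ∈ F.erase i, (1 : ℝ) = (F.card : ℝ) * ((F.card : ℝ) - 1) := by
    have h5 : ∀ i ∈ F, ∑ j ∈ F.erase i, (1 : ℝ) = (F.card : ℝ) - 1 := by
      intro i hi
      rw [sum_const, nsmul_eq_mul, mul_one, card_erase_of_mem hi,
        Nat.cast_sub (card_pos.2 ⟨i, hi⟩)]
      norm_num
    rw [sum_congr rfl h5, sum_const, nsmul_eq_mul]
  rw [h4]
  nlinarith

end MaxR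

open MaxR in
/-- Sparse random graphs have small degrees. -/
theorem prfMaxR : StMaxR := by
  intro ε η ε' hε hη hε'
  obtain ⟨v0, hv0⟩ := exists_nat_gt (8 / (η ^ 2 * ε') + 2 / (ε * η))
  refine ⟨v0 + 1, ?_⟩
  intro v m hv h1 _
  have hvpos : 0 < v := by omega
  have hvR : (0 : ℝ) < v := by exact_mod_cast hvpos
  have hv1 : (v0 : ℝ) ≤ v := by exact_mod_cast (by omega : v0 ≤ v)
  have hA : 8 / (η ^ 2 * ε') < v := by
    have : 0 < 2 / (ε * η) := by positivity
    linarith
  have hB : 2 / (ε * η) < v := by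
    have : 0 < 8 / (η ^ 2 * ε') := by positivity
    linarith
  have hx : 2 ≤ η * (m : ℝ) := by
    rw [div_lt_iff₀ (by positivity)] at hB
    have : η * (ε * (v : ℝ)) ≤ η * (m : ℝ) := mul_le_mul_of_nonneg_left h1 hη.le
    nlinarith
  have hm : (0 : ℝ) < m := by
    by_contra hc
    push Not at hc
    nlinarith
  set cc : ℝ := (η * (m : ℝ)) ^ 2 / 2 with hcc
  have hcpos : 0 < cc := by positivity
  -- pointwise bound
  have hpt : ∀ ω : Fin m → Fin v × Fin v,
      (if ∃ a, η * (m : ℝ) < (({u | (grOf ω).Adj a u}.ncard : ℕ) : ℝ) then (1 : ℝ) else 0) ≤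
      (∑ a : Fin v, ∑ i : Fin m, ∑ j ∈ univ.erase i,
        (if ω i ∈ S a ∧ ω j ∈ S a then (1 : ℝ) else 0)) / cc := by
    intro ω
    have hnn : ∀ a : Fin v, 0 ≤ ∑ i : Fin m, ∑ j ∈ univ.erase i,
        (if ω i ∈ S a ∧ ω j ∈ S a then (1 : ℝ) else 0) := by
      intro a
      refine sum_nonneg fun i _ => sum_nonneg fun j _ => ?_
      split_ifs <;> norm_num
    by_cases hω : ∃ a, η * (m : ℝ) < (({u | (grOf ω).Adj a u}.ncard : ℕ) : ℝ)
    · rw [if_pos hω, le_div_iff₀ hcpos, one_mul]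
      obtain ⟨a, ha⟩ := hω
      have h2 : (({u | (grOf ω).Adj a u}.ncard : ℕ) : ℝ) ≤
          (((univ.filter fun i => ω i ∈ S a).card : ℕ) : ℝ) := by exact_mod_cast deg_le ω a
      refine (low_count ω a _ hx (lt_of_lt_of_le ha h2)).trans ?_
      exact single_le_sum (f := fun a : Fin v => ∑ i : Fin m, ∑ j ∈ univ.erase i,
        (if ω i ∈ S a ∧ ω j ∈ S a then (1 : ℝ) else 0)) (fun a _ => hnn a) (mem_univ a)
    · rw [if_neg hω]
      exact div_nonneg (sum_nonneg fun a _ => hnn a) hcpos.le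
  have hN : (0 : ℝ) ≤ ((Fintype.card (Fin m → Fin v × Fin v) : ℕ) : ℝ) := Nat.cast_nonneg _
  have hstep : pr (fun ω : Fin m → Fin v × Fin v =>
      ∃ a, η * (m : ℝ) < (({u | (grOf ω).Adj a u}.ncard : ℕ) : ℝ)) ≤
      (∑ a : Fin v, ∑ i : Fin m, ∑ j ∈ univ.erase i,
        av (fun ω : Fin m → Fin v × Fin v =>
          if ω i ∈ S a ∧ ω j ∈ S a then (1 : ℝ) else 0)) / cc := by
    have h3 : pr (fun ω : Fin m → Fin v × Fin v =>
        ∃ a, η * (m : ℝ) < (({u | (grOf ω).Adj a u}.ncard : ℕ) : ℝ)) ≤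
        (∑ ω : Fin m → Fin v × Fin v, (∑ a : Fin v, ∑ i : Fin m, ∑ j ∈ univ.erase i,
        (if ω i ∈ S a ∧ ω j ∈ S a then (1 : ℝ) else 0)) / cc) /
          ((Fintype.card (Fin m → Fin v × Fin v) : ℕ) : ℝ) := by
      unfold pr av
      apply div_le_div_of_nonneg_right _ hN
      refine sum_le_sum fun ω _ => ?_
      refine le_trans (le_of_eq ?_) (hpt ω)
      by_cases hω : ∃ a, η * (m : ℝ) < (({u | (grOf ω).Adj a u}.ncard : ℕ) : ℝ)
      · rw [if_pos hω, if_pos hω]
      · rw [if_neg hω, if_neg hω]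
    refine h3.trans (le_of_eq ?_)
    rw [← sum_div, div_right_comm]
    congr 1
    unfold av
    rw [sum_comm, sum_div]
    refine sum_congr rfl fun a _ => ?_
    rw [sum_comm, sum_div]
    refine sum_congr rfl fun i _ => ?_
    rw [sum_comm, sum_div]
  refine hstep.trans ?_
  rw [div_le_iff₀ hcpos]
  have h4 : ∀ a : Fin v, ∑ i : Fin m, ∑ j ∈ univ.erase i,
      av (fun ω : Fin m → Fin v × Fin v => if ω i ∈ S a ∧ ω j ∈ S a then (1 : ℝ) else 0) ≤
      (m : ℝ) * ((m : ℝ) * (2 / (v : ℝ)) ^ 2) := by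
    intro a
    have h5 : ∀ i ∈ (univ : Finset (Fin m)), ∑ j ∈ univ.erase i,
        av (fun ω : Fin m → Fin v × Fin v => if ω i ∈ S a ∧ ω j ∈ S a then (1 : ℝ) else 0) ≤
        (m : ℝ) * (2 / (v : ℝ)) ^ 2 := by
      intro i _
      have h6 : ∀ j ∈ univ.erase i,
          av (fun ω : Fin m → Fin v × Fin v => if ω i ∈ S a ∧ ω j ∈ S a then (1 : ℝ) else 0) ≤
          (2 / (v : ℝ)) ^ 2 := by
        intro j hj
        rw [pr_two hvpos (S a) i j (ne_of_mem_erase hj).symm]
        apply pow_le_pow_left₀ (by positivity)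
        have h7 : ((S a).card : ℝ) ≤ 2 * (v : ℝ) := by exact_mod_cast card_S a
        calc ((S a).card : ℝ) / ((v : ℝ) * v) ≤ (2 * (v : ℝ)) / ((v : ℝ) * v) :=
              div_le_div_of_nonneg_right h7 (by positivity)
          _ = 2 / (v : ℝ) := by field_simp
      refine (sum_le_sum h6).trans ?_
      rw [sum_const, nsmul_eq_mul]
      apply mul_le_mul_of_nonneg_right _ (by positivity)
      have h8 : (univ.erase i).card ≤ m := by
        rw [card_erase_of_mem (mem_univ _), card_univ, Fintype.card_fin]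
        omega
      exact_mod_cast h8
    refine (sum_le_sum h5).trans ?_
    rw [sum_const, nsmul_eq_mul, card_univ, Fintype.card_fin]
  refine (sum_le_sum (fun a _ => h4 a)).trans ?_
  rw [sum_const, nsmul_eq_mul, card_univ, Fintype.card_fin, hcc]
  have h9 : (v : ℝ) * ((m : ℝ) * ((m : ℝ) * (2 / (v : ℝ)) ^ 2)) = 4 * (m : ℝ) ^ 2 / v := by
    field_simp
    ring
  rw [h9, div_le_iff₀ hvR]
  have h10 : 8 < v * (η ^ 2 * ε') := by
    rwa [div_lt_iff₀ (by positivity)] at hA
  have h11 : 0 ≤ (v * (η ^ 2 * ε') - 8) * (m : ℝ) ^ 2 := mul_nonneg (by linarith) (by positivity)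
  nlinarith

end

end Pool.Agent.Lib.MP_b1acb3_co.Dgn
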