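import Pool.Agent.Lib.MP_b1acb3_co.Dgn.Stmts

/-!
Bounded differences inequality (upper tail).
-/

set_option autoImplicit false

namespace Pool.Agent.Lib.MP_b1acb3_co.Dgn

open Finset Classical

noncomputable section

namespace McDAux

theorem av_mono {Ω : Type} [Fintype Ω] {f g : Ω → ℝ} (h : ∀ x, f x ≤ g x) : av f ≤ av g := by
  unfold av
  exact div_le_div_of_nonneg_right (Finset.sum_le_sum fun x _ => h x) (Nat.cast_nonneg _)

theorem av_const {Ω : Type} [Fintype Ω] [Nonempty Ω] (c : ℝ) : av (fun _ : Ω => c) = c := by
  have h : (Fintype.card Ω : ℝ) ≠ 0 := by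
    exact_mod_cast Fintype.card_ne_zero
  unfold av
  rw [Finset.sum_const, Finset.card_univ, nsmul_eq_mul]
  field_simp

theorem av_mul {Ω : Type} [Fintype Ω] (c : ℝ) (f : Ω → ℝ) :
    av (fun x => c * f x) = c * av f := by
  unfold av
  rw [← Finset.mul_sum, mul_div_assoc]

theorem av_add {Ω : Type} [Fintype Ω] (f g : Ω → ℝ) :
    av (fun x => f x + g x) = av f + av g := by
  unfold av
  rw [Finset.sum_add_distrib, add_div]

theorem av_sub {Ω : Type} [Fintype Ω] (f g : Ω → ℝ) :
    av (fun x => f x - g x) = av f - av g := by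
  unfold av
  rw [Finset.sum_sub_distrib, sub_div]

theorem av_comm {α β : Type} [Fintype α] [Fintype β] (f : α → β → ℝ) :
    av (fun a => av (f a)) = av (fun b => av (fun a => f a b)) := by
  unfold av
  rw [← Finset.sum_div, ← Finset.sum_div, Finset.sum_comm, div_div, div_div, mul_comm]

theorem av_cons {N : ℕ} {α : Type} [Fintype α] (F : (Fin (N + 1) → α) → ℝ) :
    av F = av fun x : Fin N → α => av fun a : α => F (Fin.cons a x) := by
  unfold av
  rw [← Finset.sum_div, div_div]
  congr 1
  · rw [Finset.sum_comm, ← (Fin.consEquiv (fun _ : Fin (N + 1) => α)).sum_comp,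
      Fintype.sum_prod_type]
    rfl
  · rw [Fintype.card_fun, Fintype.card_fun, Fintype.card_fin, Fintype.card_fin, pow_succ]
    push_cast
    ring

/-- Jensen -/
theorem exp_av {Ω : Type} [Fintype Ω] [Nonempty Ω] (g : Ω → ℝ) :
    Real.exp (av g) ≤ av fun b => Real.exp (g b) := by
  have h1 : (av fun b => Real.exp (av g) * (1 + (g b - av g))) = Real.exp (av g) := by
    rw [av_mul, av_add, av_sub, av_const, av_const]
    ring
  rw [← h1]
  refine av_mono fun b => ?_
  have h2 : Real.exp (g b) = Real.exp (av g) * Real.exp (g b - av g) := by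
    rw [← Real.exp_add]
    congr 1
    ring
  rw [h2]
  refine mul_le_mul_of_nonneg_left ?_ (Real.exp_pos _).le
  have := Real.add_one_le_exp (g b - av g)
  linarith

theorem sym {α : Type} [Fintype α] [Nonempty α] (G : α → ℝ) (s l : ℝ)
    (h : ∀ a b, |G a - G b| ≤ s) :
    (av fun a => Real.exp (l * (G a - av G))) ≤ Real.exp (l ^ 2 * s ^ 2 / 2) := by
  have h1 : ∀ a, Real.exp (l * (G a - av G)) ≤ av fun b => Real.exp (l * (G a - G b)) := by
    intro a
    have h2 : l * (G a - av G) = av fun b => l * (G a - G b) := by
      rw [av_mul, av_sub, av_const]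
    rw [h2]
    exact exp_av _
  have h2 : (av fun a => av fun b => Real.exp (l * (G a - G b))) =
      av fun a => av fun b => Real.cosh (l * (G a - G b)) := by
    have h3 : (av fun a => av fun b => Real.exp (l * (G a - G b))) =
        av fun a => av fun b => Real.exp (-(l * (G a - G b))) := by
      rw [av_comm]
      congr 1
      funext b
      congr 1
      funext a
      congr 1
      ring
    have h4 : (av fun a => av fun b => Real.cosh (l * (G a - G b))) =
        (1 / 2) * ((av fun a => av fun b => Real.exp (l * (G a - G b))) +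
          av fun a => av fun b => Real.exp (-(l * (G a - G b)))) := by
      rw [← av_add, ← av_mul]
      congr 1
      funext a
      rw [← av_add, ← av_mul]
      congr 1
      funext b
      rw [Real.cosh_eq]
      ring
    rw [h4, ← h3]
    ring
  refine (av_mono h1).trans ?_
  rw [h2]
  have h5 : ∀ a b, Real.cosh (l * (G a - G b)) ≤ Real.exp (l ^ 2 * s ^ 2 / 2) := by
    intro a b
    refine (Real.cosh_le_exp_half_sq _).trans ?_
    rw [Real.exp_le_exp, mul_pow]
    have h6 : (G a - G b) ^ 2 ≤ s ^ 2 := by
      rw [← sq_abs (G a - G b)]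
      exact pow_le_pow_left₀ (abs_nonneg _) (h a b) 2
    have h7 := mul_le_mul_of_nonneg_left h6 (sq_nonneg l)
    linarith
  calc (av fun a => av fun b => Real.cosh (l * (G a - G b)))
      ≤ av fun _ : α => av fun _ : α => Real.exp (l ^ 2 * s ^ 2 / 2) :=
        av_mono fun a => av_mono fun b => h5 a b
    _ = Real.exp (l ^ 2 * s ^ 2 / 2) := by rw [av_const, av_const]

theorem mgf (α : Type) [Fintype α] [Nonempty α] (l : ℝ) : ∀ (N : ℕ) (F : (Fin N → α) → ℝ)
    (s : Fin N → ℝ), (∀ i x a, |F (Function.update x i a) - F x| ≤ s i) →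
    (av fun x => Real.exp (l * (F x - av F))) ≤ Real.exp (l ^ 2 * (∑ i, s i ^ 2) / 2) := by
  intro N
  induction N with
  | zero =>
    intro F s _
    have h1 : ∀ x, F x = av F := by
      intro x
      have h2 : F = fun _ => F x := by
        funext y
        rw [Subsingleton.elim y x]
      conv_rhs => rw [h2]
      rw [av_const]
    have h3 : (fun x => Real.exp (l * (F x - av F))) = fun _ => (1 : ℝ) := by
      funext x
      rw [h1 x, sub_self, mul_zero, Real.exp_zero]
    rw [h3, av_const]
    simp
  | succ N ih =>
    intro F s h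
    obtain ⟨F', hF'⟩ : ∃ F' : (Fin N → α) → ℝ, F' = fun x => av fun a : α => F (Fin.cons a x) :=
      ⟨_, rfl⟩
    have h1 : av F = av F' := by
      rw [av_cons, hF']
    have h2 : ∀ i x a, |F' (Function.update x i a) - F' x| ≤ s i.succ := by
      intro i x a
      rw [hF']
      have h3 : ∀ b : α, |F (Fin.cons b (Function.update x i a)) - F (Fin.cons b x)| ≤
          s i.succ := by
        intro b
        have := h i.succ (Fin.cons b x) a
        rw [← Fin.cons_update] at this
        exact this
      show |(av fun b : α => F (Fin.cons b (Function.update x i a))) -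
        av fun b : α => F (Fin.cons b x)| ≤ s i.succ
      rw [← av_sub, abs_le]
      constructor
      · calc -s i.succ = av fun _ : α => - s i.succ := (av_const _).symm
          _ ≤ _ := av_mono fun b => (abs_le.mp (h3 b)).1
      · calc _ ≤ av fun _ : α => s i.succ := av_mono fun b => (abs_le.mp (h3 b)).2
          _ = s i.succ := av_const _
    have h3 := ih F' (fun i => s i.succ) h2
    have h4 : ∀ x : Fin N → α, (av fun a : α => Real.exp (l * (F (Fin.cons a x) - F' x))) ≤
        Real.exp (l ^ 2 * s 0 ^ 2 / 2) := by
      intro x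
      have h5 := sym (fun a : α => F (Fin.cons a x)) (s 0) l ?_
      · rw [hF']
        exact h5
      · intro a b
        have := h 0 (Fin.cons b x) a
        rw [Fin.update_cons_zero] at this
        exact this
    rw [av_cons, h1]
    have h5 : ∀ x : Fin N → α, (av fun a : α => Real.exp (l * (F (Fin.cons a x) - av F'))) ≤
        Real.exp (l ^ 2 * s 0 ^ 2 / 2) * Real.exp (l * (F' x - av F')) := by
      intro x
      have h6 : (av fun a : α => Real.exp (l * (F (Fin.cons a x) - av F'))) =
          Real.exp (l * (F' x - av F')) *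
            av fun a : α => Real.exp (l * (F (Fin.cons a x) - F' x)) := by
        rw [← av_mul]
        congr 1
        funext a
        rw [← Real.exp_add]
        congr 1
        ring
      rw [h6, mul_comm]
      exact mul_le_mul_of_nonneg_right (h4 x) (Real.exp_pos _).le
    refine (av_mono h5).trans ?_
    rw [av_mul]
    refine (mul_le_mul_of_nonneg_left h3 (Real.exp_pos _).le).trans ?_
    rw [← Real.exp_add, Fin.sum_univ_succ]
    apply le_of_eq
    congr 1
    ring

end McDAux

/-- Bounded differences inequality (upper tail). -/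
theorem prfMcD : StMcD := by
  intro N α _ _ F s t ht h hs
  obtain ⟨S, hS⟩ : ∃ S : ℝ, S = ∑ i, s i ^ 2 := ⟨_, rfl⟩
  rw [← hS] at hs ⊢
  have h1 := McDAux.mgf α (t / S) N F s h
  rw [← hS] at h1
  have h2 : pr (fun x => t ≤ F x - av F) ≤
      av fun x => Real.exp (-(t / S * t)) * Real.exp (t / S * (F x - av F)) := by
    unfold pr
    refine McDAux.av_mono fun x => ?_
    rw [← Real.exp_add]
    split_ifs with h3
    · have h4 : 0 ≤ -(t / S * t) + t / S * (F x - av F) := by
        have h5 : 0 ≤ t / S := div_nonneg ht hs.le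
        have h6 := mul_le_mul_of_nonneg_left h3 h5
        linarith
      have h7 := Real.add_one_le_exp (-(t / S * t) + t / S * (F x - av F))
      linarith
    · exact (Real.exp_pos _).le
  refine h2.trans ?_
  rw [McDAux.av_mul]
  refine (mul_le_mul_of_nonneg_left h1 (Real.exp_pos _).le).trans ?_
  rw [← Real.exp_add]
  apply le_of_eq
  congr 1
  field_simp
  ring

end

end Pool.Agent.Lib.MP_b1acb3_co.Dgn
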