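import Pool.Agent.Lib.MP_b1acb3_co.Dgn.Stmts

/-!
MP_b1acb3_co, project DGN: the robust weighted nibble from the weighted nibble.
-/

set_option autoImplicit false
set_option linter.unusedSectionVars false

namespace Pool.Agent.Lib.MP_b1acb3_co.Dgn

open Finset Classical

namespace NibRAux

open Pool.Agent.Nibble (deg cod)

lemma card_fun_one {r q : ℕ} (l : Fin r) (j : Fin q) :
    (univ.filter fun g : Fin r → Fin q => g l = j).card = q ^ (r - 1) := by
  have h1 : (univ.filter fun g : Fin r → Fin q => g l = j) =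
      Fintype.piFinset (fun m => if m = l then {j} else (univ : Finset (Fin q))) := by
    ext g
    simp only [mem_filter, mem_univ, true_and, Fintype.mem_piFinset]
    constructor
    · intro h m
      by_cases hm : m = l
      · subst hm; simp [h]
      · simp [hm]
    · intro h
      have := h l
      simpa using this
  rw [h1, Fintype.card_piFinset]
  have h2 : ∀ m : Fin r, (if m = l then ({j} : Finset (Fin q)) else univ).card =
      if m = l then 1 else q := by
    intro m
    split_ifs <;> simp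
  rw [Finset.prod_congr rfl fun m _ => h2 m, Finset.prod_ite]
  simp [Finset.filter_ne', Finset.card_erase_of_mem]

lemma card_fun_two {r q : ℕ} {l l' : Fin r} (hl : l ≠ l') (j j' : Fin q) :
    (univ.filter fun g : Fin r → Fin q => g l = j ∧ g l' = j').card = q ^ (r - 2) := by
  have h1 : (univ.filter fun g : Fin r → Fin q => g l = j ∧ g l' = j') =
      Fintype.piFinset (fun m => if m = l then {j} else if m = l' then {j'}
        else (univ : Finset (Fin q))) := by
    ext g
    simp only [mem_filter, mem_univ, true_and, Fintype.mem_piFinset]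
    constructor
    · intro h m
      by_cases hm : m = l
      · subst hm; simp [h.1]
      · by_cases hm' : m = l'
        · subst hm'; simp [h.2, hm]
        · simp [hm, hm']
    · intro h
      have h1 := h l
      have h2 := h l'
      simp only [if_true, mem_singleton, hl.symm, if_false] at h1 h2
      exact ⟨h1, h2⟩
  rw [h1, Fintype.card_piFinset]
  have h2 : ∀ m : Fin r, (if m = l then ({j} : Finset (Fin q)) else if m = l' then {j'}
      else univ).card = if m ≠ l ∧ m ≠ l' then q else 1 := by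
    intro m
    by_cases h1 : m = l
    · simp [h1]
    · by_cases h2 : m = l'
      · subst h2
        simp [hl.symm]
      · simp [h1, h2]
  rw [Finset.prod_congr rfl fun m _ => h2 m, Finset.prod_ite]
  simp only [Finset.prod_const, one_pow, mul_one]
  congr 1
  have h3 : (univ.filter fun m : Fin r => m ≠ l ∧ m ≠ l') = (univ.erase l).erase l' := by
    ext m
    simp only [mem_filter, mem_univ, true_and, mem_erase, and_true]
    tauto
  rw [h3, Finset.card_erase_of_mem, Finset.card_erase_of_mem (mem_univ _)]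
  · simp; omega
  · simp [hl.symm]

/-- vertices of the enlarged hypergraph -/
abbrev NV (k q : ℕ) (V : Type) : Type := V ⊕ (Fin (k + 2) × Fin q)

/-- edges of the enlarged hypergraph -/
abbrev NE (k q : ℕ) (V ι : Type) (w : ι → ℝ) : Type :=
  {i : ι // w i ≠ 0} ⊕ ((V × Fin q) ⊕ (Fin (k + 2) → Fin q))

section

variable {k q : ℕ} {V ι : Type} [Fintype V] [Fintype ι]

/-- edge sets -/
noncomputable def ed (e : ι → Finset V) (w : ι → ℝ) : NE k q V ι w → Finset (NV k q V)
  | Sum.inl i => (e i.1).map ⟨Sum.inl, Sum.inl_injective⟩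
  | Sum.inr (Sum.inl vj) => insert (Sum.inl vj.1)
      ((univ : Finset (Fin (k + 1))).image fun l => Sum.inr (l.castSucc, vj.2))
  | Sum.inr (Sum.inr g) => (univ : Finset (Fin (k + 2))).image fun l => Sum.inr (l, g l)

/-- weights -/
noncomputable def wt (w : ι → ℝ) (s : V → ℝ) (S : ℝ) : NE k q V ι w → ℝ
  | Sum.inl i => w i.1
  | Sum.inr (Sum.inl vj) => s vj.1 / q
  | Sum.inr (Sum.inr _) => (1 - S / q) / (q : ℝ) ^ (k + 1)

variable (e : ι → Finset V) (w : ι → ℝ)

lemma mem_ll (v : V) (i : {i : ι // w i ≠ 0}) :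
    (Sum.inl v : NV k q V) ∈ ed e w (Sum.inl i : NE k q V ι w) ↔ v ∈ e i.1 := by
  simp [ed]

lemma mem_rl (p : Fin (k + 2) × Fin q) (i : {i : ι // w i ≠ 0}) :
    (Sum.inr p : NV k q V) ∈ ed e w (Sum.inl i : NE k q V ι w) ↔ False := by
  simp [ed]

lemma mem_lm (v : V) (vj : V × Fin q) :
    (Sum.inl v : NV k q V) ∈ ed e w (Sum.inr (Sum.inl vj) : NE k q V ι w) ↔ v = vj.1 := by
  simp [ed]

lemma mem_rm (p : Fin (k + 2) × Fin q) (vj : V × Fin q) :
    (Sum.inr p : NV k q V) ∈ ed e w (Sum.inr (Sum.inl vj) : NE k q V ι w) ↔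
      p.1 ≠ Fin.last (k + 1) ∧ p.2 = vj.2 := by
  obtain ⟨l, j⟩ := p
  simp only [ed, mem_insert, reduceCtorEq, mem_image, mem_univ, true_and, Sum.inr.injEq,
    Prod.mk.injEq, false_or]
  constructor
  · rintro ⟨a, rfl, rfl⟩
    exact ⟨(Fin.castSucc_lt_last a).ne, rfl⟩
  · rintro ⟨h, rfl⟩
    obtain ⟨a, ha⟩ := Fin.exists_castSucc_eq.mpr h
    exact ⟨a, ha, rfl⟩

lemma mem_lg (v : V) (g : Fin (k + 2) → Fin q) :
    (Sum.inl v : NV k q V) ∈ ed e w (Sum.inr (Sum.inr g) : NE k q V ι w) ↔ False := by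
  simp [ed]

lemma mem_rg (p : Fin (k + 2) × Fin q) (g : Fin (k + 2) → Fin q) :
    (Sum.inr p : NV k q V) ∈ ed e w (Sum.inr (Sum.inr g) : NE k q V ι w) ↔ g p.1 = p.2 := by
  obtain ⟨l, j⟩ := p
  simp only [ed, mem_image, mem_univ, true_and, Sum.inr.injEq, Prod.mk.injEq]
  constructor
  · rintro ⟨a, rfl, rfl⟩
    rfl
  · intro h
    exact ⟨l, rfl, h⟩

lemma card_ed (hcard : ∀ i, w i ≠ 0 → (e i).card = k + 2) (x : NE k q V ι w) :
    (ed e w x).card = k + 2 := by
  rcases x with i | vj | g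
  · simp only [ed, card_map]
    exact hcard i.1 i.2
  · simp only [ed]
    rw [card_insert_of_notMem (by simp), card_image_of_injective]
    · simp
    · intro a b hab
      simp only [Sum.inr.injEq, Prod.mk.injEq, and_true] at hab
      exact Fin.castSucc_injective _ hab
  · simp only [ed]
    rw [card_image_of_injective]
    · simp
    · intro a b hab
      simp only [Sum.inr.injEq, Prod.mk.injEq] at hab
      exact hab.1

/-- sum over the enlarged edge set -/
lemma sum_ed (s : V → ℝ) (S : ℝ) (P : NE k q V ι w → Prop) [DecidablePred P] :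
    (∑ x, if P x then wt w s S x else 0) =
      (∑ i : {i : ι // w i ≠ 0}, if P (Sum.inl i) then w i.1 else 0) +
      ((∑ v : V, ∑ j : Fin q, if P (Sum.inr (Sum.inl (v, j))) then s v / q else 0) +
        (∑ g : Fin (k + 2) → Fin q, if P (Sum.inr (Sum.inr g)) then
          (1 - S / q) / (q : ℝ) ^ (k + 1) else 0)) := by
  rw [Fintype.sum_sum_type, Fintype.sum_sum_type, Fintype.sum_prod_type]
  rfl

lemma sum_sub (Q : ι → Prop) [DecidablePred Q] :
    (∑ i : {i : ι // w i ≠ 0}, if Q i.1 then w i.1 else 0) = ∑ i, if Q i then w i else 0 := by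
  have h1 : (∑ i : {i : ι // w i ≠ 0}, if Q i.1 then w i.1 else 0) =
      ∑ i ∈ univ.filter (fun i => w i ≠ 0), if Q i then w i else 0 :=
    (Finset.sum_subtype (univ.filter fun i => w i ≠ 0) (by simp)
      (fun i => if Q i then w i else 0)).symm
  rw [h1, Finset.sum_filter]
  refine Finset.sum_congr rfl fun i _ => ?_
  by_cases h : w i = 0
  · simp [h]
  · simp [h]

variable (s : V → ℝ) (S : ℝ)

lemma deg_l (hq : 0 < q) (v : V) :
    (∑ x, if (Sum.inl v : NV k q V) ∈ ed e w x then wt w s S x else 0) =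
      (∑ i, if v ∈ e i then w i else 0) + s v := by
  rw [sum_ed w s S (fun x => (Sum.inl v : NV k q V) ∈ ed e w x)]
  simp only [mem_ll, mem_lm, mem_lg, if_false, sum_const_zero, add_zero]
  rw [sum_sub w (fun i => v ∈ e i)]
  congr 1
  rw [Finset.sum_eq_single v]
  · simp only [if_true, sum_const, card_univ, Fintype.card_fin, nsmul_eq_mul]
    have : (q : ℝ) ≠ 0 := by positivity
    field_simp
  · intro b _ hb
    simp [hb.symm]
  · simp

lemma deg_r (hq : 0 < q) (p : Fin (k + 2) × Fin q) (hS : S = ∑ v, s v) :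
    (∑ x, if (Sum.inr p : NV k q V) ∈ ed e w x then wt w s S x else 0) =
      (if p.1 ≠ Fin.last (k + 1) then S / q else 0) + (1 - S / q) := by
  rw [sum_ed w s S (fun x => (Sum.inr p : NV k q V) ∈ ed e w x)]
  simp only [mem_rl, mem_rm, mem_rg, if_false, sum_const_zero, zero_add]
  have hq' : (q : ℝ) ≠ 0 := by positivity
  congr 1
  · by_cases h : p.1 ≠ Fin.last (k + 1)
    · simp only [h, ne_eq, not_false_eq_true, true_and, if_true, sum_ite_eq, mem_univ]
      rw [hS, Finset.sum_div]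
    · simp only [h, false_and, if_false, sum_const_zero]
  · rw [← Finset.sum_filter, Finset.sum_const, card_fun_one, nsmul_eq_mul]
    have : k + 2 - 1 = k + 1 := by omega
    rw [this]
    push_cast
    field_simp

lemma cod_ll {u v : V} (huv : u ≠ v) :
    (∑ x, if (Sum.inl u : NV k q V) ∈ ed e w x ∧ (Sum.inl v : NV k q V) ∈ ed e w x then
      wt w s S x else 0) = ∑ i, if u ∈ e i ∧ v ∈ e i then w i else 0 := by
  rw [sum_ed w s S (fun x => (Sum.inl u : NV k q V) ∈ ed e w x ∧
    (Sum.inl v : NV k q V) ∈ ed e w x)]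
  simp only [mem_ll, mem_lm, mem_lg, if_false, sum_const_zero, add_zero, false_and]
  rw [sum_sub w (fun i => u ∈ e i ∧ v ∈ e i)]
  have h : ∀ a : V, ¬ (u = a ∧ v = a) := by
    rintro a ⟨rfl, rfl⟩
    exact huv rfl
  simp [h]

lemma cod_lr (hq : 0 < q) (hs0 : ∀ v, 0 ≤ s v) (hs1 : ∀ v, s v ≤ 1)
    (v : V) (p : Fin (k + 2) × Fin q) :
    (∑ x, if (Sum.inl v : NV k q V) ∈ ed e w x ∧ (Sum.inr p : NV k q V) ∈ ed e w x then
      wt w s S x else 0) ≤ 1 / q := by
  rw [sum_ed w s S (fun x => (Sum.inl v : NV k q V) ∈ ed e w x ∧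
    (Sum.inr p : NV k q V) ∈ ed e w x)]
  simp only [mem_ll, mem_lm, mem_lg, mem_rl, mem_rm, mem_rg, if_false, sum_const_zero, add_zero,
    false_and, and_false, zero_add]
  have hq' : (0 : ℝ) < q := by positivity
  calc (∑ a : V, ∑ j : Fin q, if v = a ∧ p.1 ≠ Fin.last (k + 1) ∧ p.2 = j then s a / q else 0)
      ≤ ∑ a : V, ∑ j : Fin q, if v = a ∧ p.2 = j then s a / (q : ℝ) else 0 := by
        refine sum_le_sum fun a _ => sum_le_sum fun j _ => ?_
        have : 0 ≤ s a / q := div_nonneg (hs0 a) hq'.le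
        by_cases h1 : v = a ∧ p.2 = j
        · rw [if_pos h1]
          split_ifs
          · exact le_rfl
          · exact this
        · rw [if_neg h1, if_neg (fun h => h1 ⟨h.1, h.2.2⟩)]
    _ = s v / q := by
        rw [Finset.sum_eq_single v]
        · simp
        · intro b _ hb
          simp [hb.symm]
        · simp
    _ ≤ 1 / q := by
        gcongr
        exact hs1 v

lemma cod_rr (hq : 0 < q) (hs0 : ∀ v, 0 ≤ s v) (hS : S = ∑ v, s v) (hS0 : 0 ≤ S) (hSq : S ≤ q)
    {p p' : Fin (k + 2) × Fin q} (hp : p ≠ p') :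
    (∑ x, if (Sum.inr p : NV k q V) ∈ ed e w x ∧ (Sum.inr p' : NV k q V) ∈ ed e w x then
      wt w s S x else 0) ≤ S / q + 1 / q := by
  rw [sum_ed w s S (fun x => (Sum.inr p : NV k q V) ∈ ed e w x ∧
    (Sum.inr p' : NV k q V) ∈ ed e w x)]
  simp only [mem_rl, mem_rm, mem_rg, if_false, sum_const_zero, false_and, zero_add]
  have hq' : (0 : ℝ) < q := by positivity
  have hq1 : (1 : ℝ) ≤ q := by exact_mod_cast hq
  refine add_le_add ?_ ?_
  · calc (∑ a : V, ∑ j : Fin q, if (p.1 ≠ Fin.last (k + 1) ∧ p.2 = j) ∧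
          p'.1 ≠ Fin.last (k + 1) ∧ p'.2 = j then s a / q else 0)
        ≤ ∑ a : V, ∑ j : Fin q, if p.2 = j then s a / (q : ℝ) else 0 := by
          refine sum_le_sum fun a _ => sum_le_sum fun j _ => ?_
          have : 0 ≤ s a / q := div_nonneg (hs0 a) hq'.le
          by_cases h1 : p.2 = j
          · rw [if_pos h1]
            split_ifs
            · exact le_rfl
            · exact this
          · rw [if_neg h1, if_neg (fun h => h1 h.1.2)]
      _ = S / q := by
          simp only [sum_ite_eq, mem_univ, if_true]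
          rw [hS, Finset.sum_div]
  · have hc0 : 0 ≤ (1 - S / q) / (q : ℝ) ^ (k + 1) := by
      apply div_nonneg _ (by positivity)
      rw [sub_nonneg, div_le_one hq']
      exact hSq
    have hc1 : (1 - S / q) / (q : ℝ) ^ (k + 1) ≤ 1 / (q : ℝ) ^ (k + 1) := by
      gcongr
      have : 0 ≤ S / q := div_nonneg hS0 hq'.le
      linarith
    rw [← Finset.sum_filter, Finset.sum_const, nsmul_eq_mul]
    by_cases hl : p.1 = p'.1
    · have hj : p.2 ≠ p'.2 := fun h => hp (Prod.ext hl h)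
      have h0 : (univ.filter fun g : Fin (k + 2) → Fin q => g p.1 = p.2 ∧ g p'.1 = p'.2) = ∅ := by
        rw [Finset.filter_eq_empty_iff]
        rintro g _ ⟨h1, h2⟩
        rw [hl] at h1
        exact hj (h1.symm.trans h2)
      rw [h0]
      simp
    · rw [card_fun_two hl]
      have : k + 2 - 2 = k := by omega
      rw [this]
      push_cast
      calc (q : ℝ) ^ k * ((1 - S / q) / (q : ℝ) ^ (k + 1))
          ≤ (q : ℝ) ^ k * (1 / (q : ℝ) ^ (k + 1)) := by gcongr
        _ = 1 / q := by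
          rw [pow_succ]
          field_simp

end

theorem completion (k : ℕ) (γ d0 : ℝ)
    (hN : ∀ (V ι : Type) [Fintype V] [DecidableEq V] [Fintype ι] [DecidableEq ι]
      (e : ι → Finset V) (w : ι → ℝ),
      (∀ i, 0 ≤ w i) → (∀ i, (e i).card = k + 2) →
      (∀ v, |(∑ i, if v ∈ e i then w i else 0) - 1| ≤ d0) →
      (∀ u v, u ≠ v → (∑ i, if u ∈ e i ∧ v ∈ e i then w i else 0) ≤ d0) →
      ∃ M : Finset ι, (∀ i ∈ M, ∀ j ∈ M, i ≠ j → Disjoint (e i) (e j)) ∧
        (((univ.filter fun v => ∀ i ∈ M, v ∉ e i).card : ℝ) ≤ γ * (Fintype.card V : ℝ)))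
    (V ι : Type) [Fintype V] [Fintype ι]
    (e : ι → Finset V) (w : ι → ℝ) (hw0 : ∀ i, 0 ≤ w i) (hcard : ∀ i, w i ≠ 0 → (e i).card = k + 2)
    (hdeg : ∀ v, (∑ i, if v ∈ e i then w i else 0) ≤ 1)
    (hcod : ∀ u v, u ≠ v → (∑ i, if u ∈ e i ∧ v ∈ e i then w i else 0) ≤ d0)
    (S : ℝ) (hS : S = ∑ v, (1 - ∑ i, if v ∈ e i then w i else 0)) (q : ℕ) (hq : 0 < q)
    (hSq : S ≤ q) (hd0 : S / q + 1 / q ≤ d0) :
    ∃ M : Finset ι, (∀ i ∈ M, w i ≠ 0) ∧
        (∀ i ∈ M, ∀ j ∈ M, i ≠ j → Disjoint (e i) (e j)) ∧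
        (((univ.filter fun v => ∀ i ∈ M, v ∉ e i).card : ℝ) ≤
          γ * ((Fintype.card V : ℝ) + (k + 2) * q) + q) := by
  have hq' : (0 : ℝ) < q := by positivity
  have hd : ∀ v, 0 ≤ ∑ i, if v ∈ e i then w i else 0 := by
    intro v
    refine sum_nonneg fun i _ => ?_
    split_ifs
    · exact hw0 i
    · exact le_rfl
  set s : V → ℝ := fun v => 1 - ∑ i, if v ∈ e i then w i else 0 with hsdef
  have hs0 : ∀ v, 0 ≤ s v := fun v => by simp only [hsdef]; linarith [hdeg v]
  have hs1 : ∀ v, s v ≤ 1 := fun v => by simp only [hsdef]; linarith [hd v]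
  have hS0 : 0 ≤ S := by rw [hS]; exact sum_nonneg fun v _ => hs0 v
  have hSq0 : 0 ≤ S / q := div_nonneg hS0 hq'.le
  have hq1 : 0 ≤ 1 / (q : ℝ) := by positivity
  have hSq1 : S / q ≤ 1 := by rw [div_le_one hq']; exact hSq
  have hdpos : 0 ≤ d0 := by linarith
  obtain ⟨M', hdis, hcov⟩ := hN (NV k q V) (NE k q V ι w) (ed e w) (wt w s S) (by
    rintro (i | vj | g)
    · exact hw0 i.1
    · exact div_nonneg (hs0 _) hq'.le
    · simp only [wt]
      exact div_nonneg (by linarith) (by positivity)) (card_ed e w hcard) (by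
    rintro (v | p)
    · rw [deg_l e w s S hq v]
      simp only [hsdef]
      rw [show (∑ i, if v ∈ e i then w i else 0) + (1 - ∑ i, if v ∈ e i then w i else 0) - 1 = 0
        by ring, abs_zero]
      exact hdpos
    · rw [deg_r e w s S hq p hS]
      split_ifs with h
      · rw [show S / q + (1 - S / q) - 1 = 0 by ring, abs_zero]
        exact hdpos
      · rw [show (0 : ℝ) + (1 - S / q) - 1 = - (S / q) by ring, abs_neg, abs_of_nonneg hSq0]
        linarith) (by
    rintro (u | p) (v | p') h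
    · rw [cod_ll e w s S (fun h' => h (by rw [h']))]
      exact hcod u v (fun h' => h (by rw [h']))
    · exact (cod_lr e w s S hq hs0 hs1 u p').trans (by linarith)
    · have := cod_lr e w s S hq hs0 hs1 v p
      simp only [and_comm] at this ⊢
      exact this.trans (by linarith)
    · exact (cod_rr e w s S hq hs0 hS hS0 hSq (fun h' => h (by rw [h']))).trans hd0)
  refine ⟨univ.filter fun i => ∃ h : w i ≠ 0, (Sum.inl ⟨i, h⟩ : NE k q V ι w) ∈ M', ?_, ?_, ?_⟩
  · intro i hi
    rw [mem_filter] at hi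
    exact hi.2.1
  · intro i hi j hj hij
    rw [mem_filter] at hi hj
    obtain ⟨-, h1, h1'⟩ := hi
    obtain ⟨-, h2, h2'⟩ := hj
    have := hdis _ h1' _ h2' (by simpa using hij)
    rw [Finset.disjoint_left] at this ⊢
    intro v hv hv'
    exact this ((mem_ll e w v ⟨i, h1⟩).2 hv) ((mem_ll e w v ⟨j, h2⟩).2 hv')
  · set U : Finset V := univ.filter fun v => ∀ i ∈ univ.filter
      (fun i => ∃ h : w i ≠ 0, (Sum.inl ⟨i, h⟩ : NE k q V ι w) ∈ M'), v ∉ e i with hU
    set B : Finset V := univ.filter fun v => ∃ j : Fin q,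
      (Sum.inr (Sum.inl (v, j)) : NE k q V ι w) ∈ M' with hB
    set U' : Finset (NV k q V) := univ.filter fun v => ∀ i ∈ M', v ∉ ed e w i with hU'
    have h1 : U.card ≤ U'.card + B.card := by
      have h2 : U ⊆ (U.filter fun v => (Sum.inl v : NV k q V) ∈ U') ∪ B := by
        intro v hv
        rw [mem_union, mem_filter]
        by_cases hvB : v ∈ B
        · exact Or.inr hvB
        · left
          refine ⟨hv, ?_⟩
          rw [hU', mem_filter]
          refine ⟨mem_univ _, ?_⟩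
          rintro (i | vj | g) hi hmem
          · rw [mem_ll] at hmem
            rw [hU, mem_filter] at hv
            refine hv.2 i.1 ?_ hmem
            rw [mem_filter]
            exact ⟨mem_univ _, i.2, hi⟩
          · rw [mem_lm] at hmem
            apply hvB
            rw [hB, mem_filter]
            refine ⟨mem_univ _, vj.2, ?_⟩
            rw [hmem]
            exact hi
          · rw [mem_lg] at hmem
            exact hmem
      refine (card_le_card h2).trans ((card_union_le _ _).trans ?_)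
      refine Nat.add_le_add_right ?_ _
      refine Finset.card_le_card_of_injOn (fun v => (Sum.inl v : NV k q V)) ?_ ?_
      · intro v hv
        rw [mem_coe, mem_filter] at hv
        exact hv.2
      · intro a _ b _ hab
        exact Sum.inl_injective hab
    have h2 : B.card ≤ q := by
      have h3 : ∀ v ∈ B, ∃ j : Fin q, (Sum.inr (Sum.inl (v, j)) : NE k q V ι w) ∈ M' := by
        intro v hv
        rw [hB, mem_filter] at hv
        exact hv.2
      have : Nonempty (Fin q) := ⟨⟨0, hq⟩⟩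
      choose! jj hjj using h3
      by_cases hne : B.Nonempty
      · have := Finset.card_le_card_of_injOn (s := B) (t := (univ : Finset (Fin q))) jj
          (fun _ _ => mem_coe.2 (mem_univ _)) ?_
        · simpa using this
        · intro a ha b hb hab
          by_contra hne
          have h4 := hdis _ (hjj a ha) _ (hjj b hb) (by
            intro h5
            simp only [Sum.inr.injEq, Sum.inl.injEq, Prod.mk.injEq] at h5
            exact hne h5.1)
          rw [Finset.disjoint_left] at h4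
          refine h4 (a := Sum.inr ((0 : Fin (k + 1)).castSucc, jj a)) ?_ ?_
          · rw [mem_rm]
            exact ⟨(Fin.castSucc_lt_last _).ne, rfl⟩
          · rw [mem_rm]
            exact ⟨(Fin.castSucc_lt_last _).ne, hab⟩
      · rw [Finset.not_nonempty_iff_eq_empty] at hne
        rw [hne]
        simp
    have h3 : (Fintype.card (NV k q V) : ℝ) = (Fintype.card V : ℝ) + (k + 2) * q := by
      simp [NV]
    rw [h3] at hcov
    have h4 : (U.card : ℝ) ≤ (U'.card : ℝ) + (B.card : ℝ) := by exact_mod_cast h1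
    have h5 : (B.card : ℝ) ≤ q := by exact_mod_cast h2
    have h6 : (U'.card : ℝ) ≤ γ * ((Fintype.card V : ℝ) + (k + 2) * q) := by
      rw [hU']
      convert hcov
    linarith

lemma one_sub_sum_le {α : Type} (s : Finset α) (a : α → ℝ) (h0 : ∀ x ∈ s, 0 ≤ a x)
    (h1 : ∀ x ∈ s, a x ≤ 1) : 1 - ∏ x ∈ s, a x ≤ ∑ x ∈ s, (1 - a x) := by
  induction s using Finset.induction_on with
  | empty => simp
  | insert x s hx ih =>
    rw [Finset.prod_insert hx, Finset.sum_insert hx]
    have h2 := ih (fun y hy => h0 y (mem_insert_of_mem hy)) (fun y hy => h1 y (mem_insert_of_mem hy))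
    have h3 : 0 ≤ ∏ y ∈ s, a y := prod_nonneg fun y hy => h0 y (mem_insert_of_mem hy)
    have h4 : ∏ y ∈ s, a y ≤ 1 := prod_le_one (fun y hy => h0 y (mem_insert_of_mem hy))
      (fun y hy => h1 y (mem_insert_of_mem hy))
    have h5 := h0 x (mem_insert_self x s)
    have h6 := h1 x (mem_insert_self x s)
    nlinarith

lemma prod_le_single {α : Type} (s : Finset α) (a : α → ℝ) (h0 : ∀ x ∈ s, 0 ≤ a x)
    (h1 : ∀ x ∈ s, a x ≤ 1) {x : α} (hx : x ∈ s) : ∏ x ∈ s, a x ≤ a x := by
  rw [← Finset.mul_prod_erase s a hx]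
  have : ∏ y ∈ s.erase x, a y ≤ 1 := prod_le_one (fun y hy => h0 y (mem_of_mem_erase hy))
      (fun y hy => h1 y (mem_of_mem_erase hy))
  nlinarith [h0 x hx]

lemma swap_sum {V ι : Type} [Fintype V] [Fintype ι] (e : ι → Finset V) (f : ι → ℝ) :
    (∑ v, ∑ i, if v ∈ e i then f i else 0) = ∑ i, ((e i).card : ℝ) * f i := by
  rw [Finset.sum_comm]
  refine Finset.sum_congr rfl fun i _ => ?_
  rw [← Finset.sum_filter, Finset.sum_const, nsmul_eq_mul]
  congr 3
  ext v
  simp

lemma swap_sum' {V ι : Type} [Fintype V] [Fintype ι] (e : ι → Finset V) (f : ι → ℝ)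
    (g : V → ℝ) :
    (∑ i, f i * ∑ v ∈ e i, g v) = ∑ v, g v * ∑ i, (if v ∈ e i then f i else 0) := by
  simp_rw [Finset.mul_sum]
  rw [Finset.sum_comm' (t' := univ) (s' := fun v => univ.filter fun i => v ∈ e i)]
  · refine Finset.sum_congr rfl fun v _ => ?_
    rw [Finset.sum_filter]
    refine Finset.sum_congr rfl fun i _ => ?_
    split_ifs
    · ring
    · simp
  · intro i v
    simp

/-- normalisation -/
theorem normal (k : ℕ) (δ A : ℝ) (V ι : Type) [Fintype V] [Fintype ι]
    (e : ι → Finset V) (w : ι → ℝ) (hw0 : ∀ i, 0 ≤ w i) (hcard : ∀ i, w i ≠ 0 → (e i).card = k + 2)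
    (hδ : 0 ≤ δ)
    (h1 : ∑ v, |(∑ i, if v ∈ e i then w i else 0) - 1| ≤ A)
    (h2 : ∑ i, (if ∃ u ∈ e i, ∃ v ∈ e i, u ≠ v ∧ δ < ∑ i, (if u ∈ e i ∧ v ∈ e i then w i else 0)
      then w i else 0) ≤ A) :
    ∃ w2 : ι → ℝ, (∀ i, 0 ≤ w2 i) ∧ (∀ i, w2 i ≠ 0 → w i ≠ 0) ∧
      (∀ v, (∑ i, if v ∈ e i then w2 i else 0) ≤ 1) ∧
      (∀ u v, u ≠ v → (∑ i, if u ∈ e i ∧ v ∈ e i then w2 i else 0) ≤ δ) ∧
      (∑ v, (1 - ∑ i, if v ∈ e i then w2 i else 0)) ≤ (k + 3) ^ 2 * A := by
  set bad : ι → Prop := fun i => ∃ u ∈ e i, ∃ v ∈ e i, u ≠ v ∧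
    δ < ∑ i, (if u ∈ e i ∧ v ∈ e i then w i else 0) with hbad
  set w1 : ι → ℝ := fun i => if bad i then 0 else w i with hw1
  set D : V → ℝ := fun v => ∑ i, if v ∈ e i then w1 i else 0 with hD
  set m : V → ℝ := fun v => (max 1 (D v))⁻¹ with hm
  have hw10 : ∀ i, 0 ≤ w1 i := fun i => by
    simp only [hw1]
    split_ifs
    · exact le_rfl
    · exact hw0 i
  have hw1w : ∀ i, w1 i ≤ w i := fun i => by
    simp only [hw1]
    split_ifs
    · exact hw0 i
    · exact le_rfl
  have hw1ne : ∀ i, w1 i ≠ 0 → w i ≠ 0 := fun i hi h => hi (by simp only [hw1, h, ite_self])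
  have hm0 : ∀ v, 0 < m v := fun v => inv_pos.2 (lt_of_lt_of_le one_pos (le_max_left _ _))
  have hm1 : ∀ v, m v ≤ 1 := fun v => inv_le_one_of_one_le₀ (le_max_left _ _)
  have hP0 : ∀ i, 0 ≤ ∏ v ∈ e i, m v := fun i => prod_nonneg fun v _ => (hm0 v).le
  have hP1 : ∀ i, ∏ v ∈ e i, m v ≤ 1 := fun i => prod_le_one (fun v _ => (hm0 v).le)
    (fun v _ => hm1 v)
  have hD0 : ∀ v, 0 ≤ D v := fun v => sum_nonneg fun i _ => by
    split_ifs
    · exact hw10 i
    · exact le_rfl
  have hA : 0 ≤ A := le_trans (sum_nonneg fun v _ => abs_nonneg _) h1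
  -- the first bound
  have hF1 : ∑ v, |D v - 1| ≤ (k + 3) * A := by
    have hb : ∑ v, ((∑ i, if v ∈ e i then w i else 0) - D v) ≤ (k + 2) * A := by
      have : ∀ v, (∑ i, if v ∈ e i then w i else 0) - D v =
          ∑ i, if v ∈ e i then (if bad i then w i else 0) else 0 := by
        intro v
        simp only [hD]
        rw [← Finset.sum_sub_distrib]
        refine Finset.sum_congr rfl fun i _ => ?_
        simp only [hw1]
        split_ifs <;> simp
      simp_rw [this]
      rw [swap_sum]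
      calc ∑ i, ((e i).card : ℝ) * (if bad i then w i else 0)
          = (k + 2) * ∑ i, (if bad i then w i else 0) := by
            rw [Finset.mul_sum]
            refine Finset.sum_congr rfl fun i _ => ?_
            by_cases hi : w i = 0
            · simp [hi]
            · rw [hcard i hi]
              push_cast
              ring
        _ ≤ (k + 2) * A := by
            refine mul_le_mul_of_nonneg_left ?_ (by positivity)
            convert h2
    calc ∑ v, |D v - 1| ≤ ∑ v, (|(∑ i, if v ∈ e i then w i else 0) - 1| +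
          ((∑ i, if v ∈ e i then w i else 0) - D v)) := by
          refine sum_le_sum fun v _ => ?_
          have h3 : D v ≤ ∑ i, if v ∈ e i then w i else 0 := by
            refine sum_le_sum fun i _ => ?_
            split_ifs
            · exact hw1w i
            · exact le_rfl
          rw [abs_le]
          constructor
          · have := neg_abs_le ((∑ i, if v ∈ e i then w i else 0) - 1)
            linarith [abs_nonneg ((∑ i, if v ∈ e i then w i else 0) - 1)]
          · have := le_abs_self ((∑ i, if v ∈ e i then w i else 0) - 1)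
            linarith
      _ ≤ A + (k + 2) * A := by
          rw [Finset.sum_add_distrib]
          exact add_le_add h1 hb
      _ = (k + 3) * A := by ring
  refine ⟨fun i => w1 i * ∏ v ∈ e i, m v, fun i => mul_nonneg (hw10 i) (hP0 i), ?_, ?_, ?_, ?_⟩
  · intro i hi
    exact hw1ne i (left_ne_zero_of_mul hi)
  · intro v
    calc (∑ i, if v ∈ e i then w1 i * ∏ v ∈ e i, m v else 0)
        ≤ ∑ i, m v * (if v ∈ e i then w1 i else 0) := by
          refine sum_le_sum fun i _ => ?_
          split_ifs with hv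
          · have := prod_le_single (e i) m (fun x _ => (hm0 x).le) (fun x _ => hm1 x) hv
            nlinarith [hw10 i]
          · simp
      _ = m v * D v := by rw [← Finset.mul_sum]
      _ ≤ 1 := by
          simp only [hm]
          rw [inv_mul_le_iff₀ (lt_of_lt_of_le one_pos (le_max_left _ _)), mul_one]
          exact le_max_right _ _
  · intro u v huv
    by_cases hc : δ < ∑ i, (if u ∈ e i ∧ v ∈ e i then w i else 0)
    · refine le_trans (le_of_eq ?_) hδ
      refine Finset.sum_eq_zero fun i _ => ?_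
      split_ifs with hi
      · have : bad i := ⟨u, hi.1, v, hi.2, huv, hc⟩
        simp only [hw1, this, if_true, zero_mul]
      · rfl
    · rw [not_lt] at hc
      refine le_trans (sum_le_sum fun i _ => ?_) hc
      split_ifs with hi
      · calc w1 i * ∏ v ∈ e i, m v ≤ w1 i * 1 := mul_le_mul_of_nonneg_left (hP1 i) (hw10 i)
          _ ≤ w i := by rw [mul_one]; exact hw1w i
      · exact le_rfl
  · have e1 : ∀ v, 1 - (∑ i, if v ∈ e i then w1 i * ∏ v ∈ e i, m v else 0) =
        (1 - D v) + ∑ i, if v ∈ e i then w1 i * (1 - ∏ v ∈ e i, m v) else 0 := by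
      intro v
      have : D v = (∑ i, if v ∈ e i then w1 i * ∏ v ∈ e i, m v else 0) +
          ∑ i, if v ∈ e i then w1 i * (1 - ∏ v ∈ e i, m v) else 0 := by
        rw [← Finset.sum_add_distrib]
        refine Finset.sum_congr rfl fun i _ => ?_
        split_ifs
        · ring
        · simp
      rw [this]
      ring
    simp_rw [e1]
    rw [Finset.sum_add_distrib, swap_sum]
    have e2 : ∑ v, (1 - D v) ≤ ∑ v, |D v - 1| := by
      refine sum_le_sum fun v _ => ?_
      have := neg_abs_le (D v - 1)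
      linarith
    have e3 : ∑ i, ((e i).card : ℝ) * (w1 i * (1 - ∏ v ∈ e i, m v)) ≤
        (k + 2) * ∑ v, |D v - 1| := by
      calc ∑ i, ((e i).card : ℝ) * (w1 i * (1 - ∏ v ∈ e i, m v))
          ≤ (k + 2) * ∑ i, w1 i * ∑ v ∈ e i, (1 - m v) := by
            rw [Finset.mul_sum]
            refine sum_le_sum fun i _ => ?_
            by_cases hi : w1 i = 0
            · simp [hi]
            · rw [hcard i (hw1ne i hi)]
              have := one_sub_sum_le (e i) m (fun x _ => (hm0 x).le) (fun x _ => hm1 x)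
              push_cast
              refine mul_le_mul_of_nonneg_left ?_ (by positivity)
              exact mul_le_mul_of_nonneg_left this (hw10 i)
        _ = (k + 2) * ∑ v, (1 - m v) * D v := by rw [swap_sum']
        _ ≤ (k + 2) * ∑ v, |D v - 1| := by
            refine mul_le_mul_of_nonneg_left (sum_le_sum fun v _ => ?_) (by positivity)
            rcases le_total (D v) 1 with h | h
            · have : m v = 1 := by simp only [hm, max_eq_left h, inv_one]
              rw [this]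
              simp
            · have h3 : m v = (D v)⁻¹ := by simp only [hm, max_eq_right h]
              have h4 : D v ≠ 0 := by linarith
              rw [h3, sub_mul, one_mul, inv_mul_cancel₀ h4]
              exact le_abs_self _
    calc ∑ v, (1 - D v) + ∑ i, ((e i).card : ℝ) * (w1 i * (1 - ∏ v ∈ e i, m v))
        ≤ ∑ v, |D v - 1| + (k + 2) * ∑ v, |D v - 1| := add_le_add e2 e3
      _ = (k + 3) * ∑ v, |D v - 1| := by ring
      _ ≤ (k + 3) * ((k + 3) * A) := mul_le_mul_of_nonneg_left hF1 (by positivity)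
      _ = (k + 3) ^ 2 * A := by ring

/-- the last step -/
theorem last (k : ℕ) (g d0 d1 C δ : ℝ) (hg0 : 0 < g) (hg1 : g ≤ 1)
    (hN : ∀ (V ι : Type) [Fintype V] [DecidableEq V] [Fintype ι] [DecidableEq ι]
      (e : ι → Finset V) (w : ι → ℝ),
      (∀ i, 0 ≤ w i) → (∀ i, (e i).card = k + 2) →
      (∀ v, |(∑ i, if v ∈ e i then w i else 0) - 1| ≤ d0) →
      (∀ u v, u ≠ v → (∑ i, if u ∈ e i ∧ v ∈ e i then w i else 0) ≤ d0) →
      ∃ M : Finset ι, (∀ i ∈ M, ∀ j ∈ M, i ≠ j → Disjoint (e i) (e j)) ∧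
        (((univ.filter fun v => ∀ i ∈ M, v ∉ e i).card : ℝ) ≤ g / 2 * (Fintype.card V : ℝ)))
    (hd10 : 0 < d1) (hd11 : d1 ≤ 1) (hd1d : d1 ≤ d0)
    (hC : C = (k + 2) * (3 / d1 * ((k + 3) ^ 2 + 1) + 1)) (hδ0 : 0 < δ) (hδd : δ ≤ d0)
    (hδC : C * δ ≤ g / 4)
    (V ι : Type) [Fintype V] [Fintype ι]
    (e : ι → Finset V) (w : ι → ℝ) (hw0 : ∀ i, 0 ≤ w i) (hcard : ∀ i, w i ≠ 0 → (e i).card = k + 2)
    (h1 : ∑ v, |(∑ i, if v ∈ e i then w i else 0) - 1| ≤ δ * (Fintype.card V : ℝ))
    (h2 : ∑ i, (if ∃ u ∈ e i, ∃ v ∈ e i, u ≠ v ∧ δ < ∑ i, (if u ∈ e i ∧ v ∈ e i then w i else 0)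
      then w i else 0) ≤ δ * (Fintype.card V : ℝ))
    (h3 : 1 ≤ δ * (Fintype.card V : ℝ)) :
    ∃ M : Finset ι, (∀ i ∈ M, w i ≠ 0) ∧
        (∀ i ∈ M, ∀ j ∈ M, i ≠ j → Disjoint (e i) (e j)) ∧
        (((univ.filter fun v => ∀ i ∈ M, v ∉ e i).card : ℝ) ≤ g * (Fintype.card V : ℝ)) := by
  obtain ⟨w2, p1, p2, p3, p4, p5⟩ :=
    normal k δ (δ * (Fintype.card V : ℝ)) V ι e w hw0 hcard hδ0.le h1 h2
  have hN0 : (0 : ℝ) ≤ (Fintype.card V : ℝ) := by positivity
  obtain ⟨S, hS⟩ : ∃ S : ℝ, S = ∑ v, (1 - ∑ i, if v ∈ e i then w2 i else 0) := ⟨_, rfl⟩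
  have hS0 : 0 ≤ S := by rw [hS]; exact sum_nonneg fun v _ => sub_nonneg.2 (p3 v)
  rw [← hS] at p5
  obtain ⟨q, hq⟩ : ∃ q : ℕ, q = ⌈3 / d1 * ((k + 3) ^ 2 * (δ * (Fintype.card V : ℝ)) + 1)⌉₊ :=
    ⟨_, rfl⟩
  have hqle : 3 / d1 * ((k + 3) ^ 2 * (δ * (Fintype.card V : ℝ)) + 1) ≤ q := by
    rw [hq]; exact Nat.le_ceil _
  have hqpos : 0 < 3 / d1 * ((k + 3) ^ 2 * (δ * (Fintype.card V : ℝ)) + 1) := by positivity
  have hq0' : (0 : ℝ) < q := lt_of_lt_of_le hqpos hqle
  have hq0 : 0 < q := by exact_mod_cast hq0'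
  have hqlt : (q : ℝ) ≤ 3 / d1 * ((k + 3) ^ 2 * (δ * (Fintype.card V : ℝ)) + 1) + 1 := by
    rw [hq]; exact (Nat.ceil_lt_add_one hqpos.le).le
  have h3d : 3 ≤ 3 / d1 := by
    rw [le_div_iff₀ hd10]
    linarith
  have hSq3 : 3 / d1 * (S + 1) ≤ q := by
    refine le_trans (mul_le_mul_of_nonneg_left ?_ (by positivity)) hqle
    linarith
  have hSq : S ≤ q := by
    have : 3 * (S + 1) ≤ 3 / d1 * (S + 1) := mul_le_mul_of_nonneg_right h3d (by linarith)
    linarith
  have hSd : S / q + 1 / q ≤ d0 := by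
    rw [← add_div, div_le_iff₀ hq0']
    have h4 : (S + 1) ≤ d1 / 3 * q := by
      have := mul_le_mul_of_nonneg_left hSq3 (show 0 ≤ d1 / 3 by positivity)
      rw [← mul_assoc, show d1 / 3 * (3 / d1) = 1 by field_simp, one_mul] at this
      exact this
    have h5 : d1 / 3 * q ≤ d0 * q := mul_le_mul_of_nonneg_right (by linarith) hq0'.le
    linarith
  have hqN : (k + 2) * (q : ℝ) ≤ g / 4 * (Fintype.card V : ℝ) := by
    have h5 : (q : ℝ) ≤ (3 / d1 * ((k + 3) ^ 2 + 1) + 1) * (δ * (Fintype.card V : ℝ)) := by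
      calc (q : ℝ) ≤ 3 / d1 * ((k + 3) ^ 2 * (δ * (Fintype.card V : ℝ)) + 1) + 1 := hqlt
        _ ≤ 3 / d1 * ((k + 3) ^ 2 * (δ * (Fintype.card V : ℝ)) + δ * (Fintype.card V : ℝ)) +
            δ * (Fintype.card V : ℝ) := by gcongr
        _ = _ := by ring
    calc (k + 2) * (q : ℝ)
        ≤ (k + 2) * ((3 / d1 * ((k + 3) ^ 2 + 1) + 1) * (δ * (Fintype.card V : ℝ))) := by
          gcongr
      _ = C * δ * (Fintype.card V : ℝ) := by rw [hC]; ring
      _ ≤ g / 4 * (Fintype.card V : ℝ) := mul_le_mul_of_nonneg_right hδC hN0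
  obtain ⟨M, m1, m2, m3⟩ := completion k (g / 2) d0 hN V ι e w2 p1
    (fun i hi => hcard i (p2 i hi)) p3 (fun u v huv => (p4 u v huv).trans hδd) S hS q hq0 hSq hSd
  refine ⟨M, fun i hi => p2 i (m1 i hi), m2, ?_⟩
  refine m3.trans ?_
  have h7 : (q : ℝ) ≤ (k + 2) * q := by
    have : (1 : ℝ) * q ≤ (k + 2) * q := by
      refine mul_le_mul_of_nonneg_right ?_ hq0'.le
      have : (0 : ℝ) ≤ k := by positivity
      linarith
    linarith
  have h8 : g / 2 * ((k + 2) * (q : ℝ)) ≤ g / 8 * (Fintype.card V : ℝ) := by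
    calc g / 2 * ((k + 2) * (q : ℝ)) ≤ g / 2 * (g / 4 * (Fintype.card V : ℝ)) := by gcongr
      _ = g * (g * (Fintype.card V : ℝ)) / 8 := by ring
      _ ≤ g * (1 * (Fintype.card V : ℝ)) / 8 := by gcongr
      _ = g / 8 * (Fintype.card V : ℝ) := by ring
  have h10 : 0 ≤ g * (Fintype.card V : ℝ) := by positivity
  have h11 : g / 2 * ((Fintype.card V : ℝ) + (k + 2) * q) + q =
      g / 2 * (Fintype.card V : ℝ) + g / 2 * ((k + 2) * (q : ℝ)) + q := by ring
  rw [h11]
  linarith

end NibRAux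

open NibRAux in
/-- Robust weighted nibble from the weighted nibble. -/
theorem prfNibR (h : Pool.Agent.Nibble.StNibble) : StNibR := by
  intro r hr γ hγ
  obtain ⟨k, rfl⟩ : ∃ k, r = k + 2 := ⟨r - 2, by omega⟩
  obtain ⟨g, hg⟩ : ∃ g : ℝ, g = min γ 1 := ⟨_, rfl⟩
  have hg0 : 0 < g := hg ▸ lt_min hγ one_pos
  have hg1 : g ≤ 1 := hg ▸ min_le_right _ _
  have hgγ : g ≤ γ := hg ▸ min_le_left _ _
  obtain ⟨d0, hd0, hN⟩ := h (k + 2) hr (g / 2) (by positivity)
  obtain ⟨d1, hd1⟩ : ∃ d1 : ℝ, d1 = min d0 1 := ⟨_, rfl⟩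
  have hd10 : 0 < d1 := hd1 ▸ lt_min hd0 one_pos
  have hd11 : d1 ≤ 1 := hd1 ▸ min_le_right _ _
  have hd1d : d1 ≤ d0 := hd1 ▸ min_le_left _ _
  obtain ⟨C, hC⟩ : ∃ C : ℝ, C = (k + 2) * (3 / d1 * ((k + 3) ^ 2 + 1) + 1) := ⟨_, rfl⟩
  have hC0 : 0 < C := by rw [hC]; positivity
  obtain ⟨δ, hδdef⟩ : ∃ δ : ℝ, δ = min d1 (g / (4 * C)) := ⟨_, rfl⟩
  have hδ0 : 0 < δ := hδdef ▸ lt_min hd10 (by positivity)
  have hδd : δ ≤ d0 := (hδdef ▸ min_le_left _ _ : δ ≤ d1).trans hd1d
  have hδC : C * δ ≤ g / 4 := by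
    have : δ ≤ g / (4 * C) := hδdef ▸ min_le_right _ _
    calc C * δ ≤ C * (g / (4 * C)) := mul_le_mul_of_nonneg_left this hC0.le
      _ = g / 4 := by field_simp
  refine ⟨δ, hδ0, ?_⟩
  intro V ι _ _ _ _ e w hw0 hcard h1 h2 h3
  have hdg : ∀ v, Pool.Agent.Nibble.deg e w v =
      @Finset.sum ι ℝ _ univ fun i => @ite ℝ (v ∈ e i) (Classical.propDecidable _) (w i) 0 := by
    intro v
    unfold Pool.Agent.Nibble.deg
    refine Finset.sum_congr rfl fun i _ => ?_
    congr
  have hcd : ∀ u v, Pool.Agent.Nibble.cod e w u v =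
      @Finset.sum ι ℝ _ univ fun i => @ite ℝ (u ∈ e i ∧ v ∈ e i) (Classical.propDecidable _)
        (w i) 0 := by
    intro u v
    unfold Pool.Agent.Nibble.cod
    refine Finset.sum_congr rfl fun i _ => ?_
    congr
  simp only [hdg] at h1
  simp only [hcd] at h2
  obtain ⟨M, m1, m2, m3⟩ := last k g d0 d1 C δ hg0 hg1 hN hd10 hd11 hd1d hC hδ0 hδd hδC V ι e w
    hw0 hcard (by convert h1) (by convert h2) h3
  refine ⟨M, m1, m2, ?_⟩
  have h9 : g * (Fintype.card V : ℝ) ≤ γ * (Fintype.card V : ℝ) := by gcongr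
  refine le_trans (le_trans (le_of_eq ?_) m3) h9
  congr

end Pool.Agent.Lib.MP_b1acb3_co.Dgn
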