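import Pool.Agent.Lib.MP_b1acb3_co.Dgn.Stmts

/-!
MP_b1acb3_co, project DGN, module Part: choice of the colour partition.
-/

set_option autoImplicit false

namespace Pool.Agent.Lib.MP_b1acb3_co.Dgn

open Finset Classical

namespace PartAux

section av

variable {Ω Ω' : Type} [Fintype Ω] [Fintype Ω']

theorem av_add (f g : Ω → ℝ) : av (fun x => f x + g x) = av f + av g := by
  unfold av; rw [Finset.sum_add_distrib, add_div]

theorem av_mul (a : ℝ) (f : Ω → ℝ) : av (fun x => a * f x) = a * av f := by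
  unfold av; rw [← Finset.mul_sum, mul_div_assoc]

theorem av_sum {ι : Type} (s : Finset ι) (f : ι → Ω → ℝ) :
    av (fun x => ∑ i ∈ s, f i x) = ∑ i ∈ s, av (f i) := by
  unfold av; rw [Finset.sum_comm, Finset.sum_div]

theorem av_le {f g : Ω → ℝ} (h : ∀ x, f x ≤ g x) : av f ≤ av g := by
  unfold av
  exact div_le_div_of_nonneg_right (Finset.sum_le_sum fun x _ => h x) (Nat.cast_nonneg _)

theorem av_nonneg {f : Ω → ℝ} (h : ∀ x, 0 ≤ f x) : 0 ≤ av f := by
  unfold av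
  exact div_nonneg (Finset.sum_nonneg fun x _ => h x) (Nat.cast_nonneg _)

theorem av_le_const {f : Ω → ℝ} {a : ℝ} (ha : 0 ≤ a) (h : ∀ x, f x ≤ a) : av f ≤ a := by
  unfold av
  by_cases hc : Fintype.card Ω = 0
  · rw [hc, Nat.cast_zero, div_zero]; exact ha
  · have hc' : (0 : ℝ) < Fintype.card Ω := Nat.cast_pos.mpr (Nat.pos_of_ne_zero hc)
    rw [div_le_iff₀ hc']
    refine (Finset.sum_le_sum fun x _ => h x).trans ?_
    rw [Finset.sum_const, nsmul_eq_mul, Finset.card_univ, mul_comm]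

theorem av_comm (f : Ω → Ω' → ℝ) :
    av (fun x => av fun y => f x y) = av fun y => av fun x => f x y := by
  unfold av
  rw [← Finset.sum_div, ← Finset.sum_div, Finset.sum_comm, div_div, div_div, mul_comm]

theorem exists_le [Nonempty Ω] (f : Ω → ℝ) : ∃ x, f x ≤ av f := by
  by_contra h
  push Not at h
  have hc' : (0 : ℝ) < Fintype.card Ω := Nat.cast_pos.mpr Fintype.card_pos
  have h1 : ∑ _x : Ω, av f < ∑ x : Ω, f x :=
    Finset.sum_lt_sum_of_nonempty Finset.univ_nonempty fun x _ => h x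
  rw [Finset.sum_const, nsmul_eq_mul, Finset.card_univ] at h1
  have h2 : av f = (∑ x : Ω, f x) / (Fintype.card Ω : ℝ) := rfl
  rw [h2, mul_div_cancel₀ _ hc'.ne'] at h1
  exact lt_irrefl _ h1

theorem pr_le_add {P Q R : Ω → Prop} (h : ∀ x, P x → Q x ∨ R x) : pr P ≤ pr Q + pr R := by
  unfold pr
  rw [← av_add]
  refine av_le fun x => ?_
  by_cases hP : P x
  · rcases h x hP with hq | hr
    · rw [if_pos hP, if_pos hq]; split_ifs <;> norm_num
    · rw [if_pos hP, if_pos hr]; split_ifs <;> norm_num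
  · rw [if_neg hP]; split_ifs <;> norm_num

theorem pr_mono {P Q : Ω → Prop} (h : ∀ x, P x → Q x) : pr P ≤ pr Q := by
  unfold pr
  refine av_le fun x => ?_
  by_cases hP : P x
  · rw [if_pos hP, if_pos (h x hP)]
  · rw [if_neg hP]; split_ifs <;> norm_num

theorem pr_zero {P : Ω → Prop} (h : ∀ x, ¬ P x) : pr P ≤ 0 := by
  unfold pr
  refine av_le_const le_rfl fun x => ?_
  rw [if_neg (h x)]

end av

section var

variable {K : ℕ}

theorem sum_update {α : Type} [Fintype α] [DecidableEq α] {ι : Type} [Fintype ι] [DecidableEq ι]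
    (l : ι) (f : (ι → α) → ℝ) :
    ∑ φ : ι → α, ∑ x : α, f (Function.update φ l x) = (Fintype.card α : ℝ) * ∑ φ : ι → α, f φ := by
  rw [← Fintype.sum_prod_type']
  have hinv : Function.Involutive
      (fun q : (ι → α) × α => ((Function.update q.1 l q.2, q.1 l) : (ι → α) × α)) := by
    rintro ⟨φ, x⟩
    simp
  have h := (Equiv.sum_comp (Function.Involutive.toPerm _ hinv)
    (fun q : (ι → α) × α => f q.1))
  simp only [Function.Involutive.coe_toPerm] at h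
  rw [h, Fintype.sum_prod_type]
  simp only [Finset.sum_const, Finset.card_univ, nsmul_eq_mul]
  rw [Finset.mul_sum]

theorem cell_card (φ : Fin K → Fin K) (I : Finset (Fin K)) :
    ((cell φ I).card : ℝ) = ∑ k, if φ k ∈ I then (1 : ℝ) else 0 := by
  unfold cell
  rw [Finset.sum_boole]

theorem var_cell (hK : 0 < K) (I : Finset (Fin K)) :
    av (fun φ : Fin K → Fin K => (((cell φ I).card : ℝ) - (I.card : ℝ)) ^ 2) ≤ (K : ℝ) := by
  have hK' : (0 : ℝ) < (K : ℝ) := Nat.cast_pos.mpr hK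
  set γ : ℝ := (I.card : ℝ) / (K : ℝ) with hγ
  have hIK : (I.card : ℝ) ≤ (K : ℝ) := by
    have := Finset.card_le_univ I
    rw [Fintype.card_fin] at this
    exact_mod_cast this
  have hγ0 : 0 ≤ γ := div_nonneg (Nat.cast_nonneg _) hK'.le
  have hγ1 : γ ≤ 1 := (div_le_one hK').mpr hIK
  let X : Fin K → (Fin K → Fin K) → ℝ := fun k φ => (if φ k ∈ I then (1 : ℝ) else 0) - γ
  have hX : ∀ φ : Fin K → Fin K, ((cell φ I).card : ℝ) - (I.card : ℝ) = ∑ k, X k φ := by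
    intro φ
    rw [cell_card, Finset.sum_sub_distrib]
    congr 1
    rw [Finset.sum_const, nsmul_eq_mul, Finset.card_univ, Fintype.card_fin, hγ]
    field_simp
  have hmean : ∑ x : Fin K, ((if x ∈ I then (1 : ℝ) else 0) - γ) = 0 := by
    rw [Finset.sum_sub_distrib, Finset.sum_const, nsmul_eq_mul, Finset.card_univ,
      Fintype.card_fin, Finset.sum_boole, hγ]
    rw [Finset.filter_mem_eq_inter, Finset.univ_inter]
    field_simp
    ring
  have hcross : ∀ k l : Fin K, k ≠ l → av (fun φ : Fin K → Fin K => X k φ * X l φ) = 0 := by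
    intro k l hkl
    have h1 := sum_update (α := Fin K) l (fun φ : Fin K → Fin K => X k φ * X l φ)
    have h2 : ∑ φ : Fin K → Fin K, ∑ x : Fin K,
        (X k (Function.update φ l x) * X l (Function.update φ l x)) = 0 := by
      refine Finset.sum_eq_zero fun φ _ => ?_
      have h3 : ∀ x : Fin K, X k (Function.update φ l x) * X l (Function.update φ l x) =
          X k φ * ((if x ∈ I then (1 : ℝ) else 0) - γ) := by
        intro x
        simp only [X, Function.update_self, Function.update_of_ne hkl]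
      rw [Finset.sum_congr rfl fun x _ => h3 x, ← Finset.mul_sum, hmean, mul_zero]
    rw [h2, Fintype.card_fin] at h1
    have h4 : ∑ φ : Fin K → Fin K, X k φ * X l φ = 0 := by
      rcases mul_eq_zero.mp h1.symm with h | h
      · exact absurd h hK'.ne'
      · exact h
    unfold av
    rw [h4, zero_div]
  have hsq : ∀ φ : Fin K → Fin K, (((cell φ I).card : ℝ) - (I.card : ℝ)) ^ 2 =
      ∑ k, ∑ l, X k φ * X l φ := by
    intro φ
    rw [hX, sq, Finset.sum_mul_sum]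
  have h5 : av (fun φ : Fin K → Fin K => (((cell φ I).card : ℝ) - (I.card : ℝ)) ^ 2) =
      ∑ k : Fin K, ∑ l : Fin K, av (fun φ : Fin K → Fin K => X k φ * X l φ) := by
    rw [show (fun φ : Fin K → Fin K => (((cell φ I).card : ℝ) - (I.card : ℝ)) ^ 2) =
      fun φ => ∑ k, ∑ l, X k φ * X l φ from funext hsq, av_sum]
    refine Finset.sum_congr rfl fun k _ => ?_
    rw [av_sum]
  rw [h5]
  have h6 : ∀ k : Fin K, ∑ l : Fin K, av (fun φ : Fin K → Fin K => X k φ * X l φ) ≤ 1 := by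
    intro k
    rw [Finset.sum_eq_single k (fun l _ hl => hcross k l (Ne.symm hl))
      (fun h => absurd (Finset.mem_univ k) h)]
    refine av_le_const zero_le_one fun φ => ?_
    have : |X k φ| ≤ 1 := by
      simp only [X]
      split_ifs
      · rw [abs_le]; constructor <;> linarith
      · rw [abs_le]; constructor <;> linarith
    have h7 := abs_mul_abs_self (X k φ)
    nlinarith [abs_nonneg (X k φ)]
  refine (Finset.sum_le_sum fun k _ => h6 k).trans ?_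
  rw [Finset.sum_const, nsmul_eq_mul, Finset.card_univ, Fintype.card_fin, mul_one]

end var

section inl

variable {V : Type} {n K : ℕ}

theorem tm_empty {c : Sym2 (Fin n) → Fin K} (hn : 0 < n) (f : V → Fin n) (C : Finset (Fin K)) :
    tm c f ∅ C = 1 := by
  have h : ∀ z : Fin n, ok c f ∅ C z := fun z =>
    ⟨fun w hw => absurd hw (Finset.notMem_empty w), fun w hw => absurd hw (Finset.notMem_empty w)⟩
  have hn' : (0 : ℝ) < (n : ℝ) := Nat.cast_pos.mpr hn
  unfold tm pr av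
  rw [Finset.sum_congr rfl fun z _ => if_pos (h z), Finset.sum_const, nsmul_eq_mul,
    Finset.card_univ, Fintype.card_fin, mul_one, div_self hn'.ne']

variable [Fintype V]

theorem not_bad_of_empty {c : Sym2 (Fin n) → Fin K} (hn : 0 < n)
    {H : SimpleGraph V} {p : Par} {s : Sch V K} (hG : Good H p s) (q : Cst)
    (φ : Fin K → Fin K) (f : V → Fin n) (u : V) (hne : ¬ (Nb H s.lev u).Nonempty) :
    ¬ BadT c H p s q φ f u := by
  intro h
  rw [Finset.not_nonempty_iff_eq_empty] at hne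
  rcases h with h3 | h3
  · rw [hne, tm_empty hn, Finset.card_empty, pow_zero] at h3
    norm_num at h3
  · have h4 := (hG.dpos _ h3.1).1
    have h5 := hG.deg u h3.1
    rw [hne, Finset.card_empty] at h5
    omega

theorem inl_bound (hT : StT) {c : Sym2 (Fin n) → Fin K} (hc : Env c 1) (hK : 0 < K)
    {H : SimpleGraph V} {p : Par} {s : Sch V K} (hG : Good H p s) (q : Cst) (t bq : ℝ)
    (hρ : 0 < p.ρ) (hρ1 : p.ρ ≤ 1) (hβ0 : 0 ≤ q.β0) (hβ1 : 0 ≤ q.β1) (hδ : 0 < q.δ1)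
    (ht : 0 < t) (hb : 0 < bq) (hbq : bq ≤ p.bb) (hbq1 : bq ≤ 1)
    (ht1 : t ≤ p.ρ ^ (p.a0 + p.Δ) / 4) (ht2 : t ≤ q.δ1 * bq ^ p.Δ / 2)
    (h0 : (p.a0 : ℝ) ^ 2 * q.β0 ≤ p.ρ ^ p.a0 / 4) (h1 : (p.Δ : ℝ) ^ 2 * q.β1 ≤ p.ρ ^ p.Δ / 4)
    (h2 : (p.Δ : ℝ) ^ 2 * q.β1 ≤ q.δ1 * bq ^ p.Δ / 2)
    (f : V → Fin n) (u : V) :
    pr (fun φ : Fin K → Fin K => NonTwin c H s q f u ∧ BadT c H p s q φ f u) ≤
      4 * Real.exp (-(t ^ 2 / (8 * ((p.a0 : ℝ) + (p.Δ : ℝ)) ^ 2) * (K : ℝ))) := by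
  have hK' : (0 : ℝ) < (K : ℝ) := Nat.cast_pos.mpr hK
  have hpos : 0 ≤ 4 * Real.exp (-(t ^ 2 / (8 * ((p.a0 : ℝ) + (p.Δ : ℝ)) ^ 2) * (K : ℝ))) := by
    positivity
  by_cases hNT : NonTwin c H s q f u
  swap
  · exact (pr_zero fun φ h => hNT h.1).trans hpos
  by_cases hne : (Nb H s.lev u).Nonempty
  swap
  · exact (pr_zero fun φ h => not_bad_of_empty hc.npos hG q φ f u hne h.2).trans hpos
  -- the number of lower neighbours
  set a : ℕ := (Nb H s.lev u).card with ha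
  have ha1 : 1 ≤ a := Finset.card_pos.mpr hne
  have hcase : (s.lev u ≤ s.t0 ∧ a ≤ p.a0) ∨ (s.t0 < s.lev u ∧ a ≤ p.Δ) := by
    rcases le_or_gt (s.lev u) s.t0 with h | h
    · refine Or.inl ⟨h, le_trans (Finset.card_le_card ?_) hG.card0⟩
      intro w hw
      unfold Nb at hw
      rw [Finset.mem_filter] at hw ⊢
      exact ⟨Finset.mem_univ _, le_of_lt (lt_of_lt_of_le hw.2.2 h)⟩
    · exact Or.inr ⟨h, hG.deg1 u h⟩
  have haa : a ≤ p.a0 + p.Δ := by
    rcases hcase with h | h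
    · exact h.2.trans (Nat.le_add_right _ _)
    · exact h.2.trans (Nat.le_add_left _ _)
  set β : ℝ := if s.lev u ≤ s.t0 then q.β0 else q.β1 with hβ
  have hβn : 0 ≤ β := by rw [hβ]; split_ifs <;> assumption
  have hρa : ∀ m : ℕ, a ≤ m → p.ρ ^ m ≤ p.ρ ^ a := fun m hm =>
    pow_le_pow_of_le_one hρ.le hρ1 hm
  have haβ : (a : ℝ) ^ 2 * β ≤ p.ρ ^ a / 4 := by
    rcases hcase with ⟨h, h'⟩ | ⟨h, h'⟩
    · rw [hβ, if_pos h]
      have h3 : (a : ℝ) ^ 2 ≤ (p.a0 : ℝ) ^ 2 := by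
        have : (a : ℝ) ≤ (p.a0 : ℝ) := by exact_mod_cast h'
        exact pow_le_pow_left₀ (Nat.cast_nonneg _) this 2
      calc (a : ℝ) ^ 2 * q.β0 ≤ (p.a0 : ℝ) ^ 2 * q.β0 := mul_le_mul_of_nonneg_right h3 hβ0
        _ ≤ p.ρ ^ p.a0 / 4 := h0
        _ ≤ p.ρ ^ a / 4 := by linarith [hρa _ h']
    · rw [hβ, if_neg (not_le.mpr h)]
      have h3 : (a : ℝ) ^ 2 ≤ (p.Δ : ℝ) ^ 2 := by
        have : (a : ℝ) ≤ (p.Δ : ℝ) := by exact_mod_cast h'
        exact pow_le_pow_left₀ (Nat.cast_nonneg _) this 2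
      calc (a : ℝ) ^ 2 * q.β1 ≤ (p.Δ : ℝ) ^ 2 * q.β1 := mul_le_mul_of_nonneg_right h3 hβ1
        _ ≤ p.ρ ^ p.Δ / 4 := h1
        _ ≤ p.ρ ^ a / 4 := by linarith [hρa _ h']
  have hta : t + (a : ℝ) ^ 2 * β ≤ p.ρ ^ a / 2 := by
    have := hρa _ haa
    linarith
  have key : ∀ I : Finset (Fin K), pr (fun φ : Fin K → Fin K =>
      t + (a : ℝ) ^ 2 * β < |tm c f (Nb H s.lev u) (cell φ I) -
        ((I.card : ℝ) / (K : ℝ)) ^ a|) ≤
      2 * Real.exp (-(t ^ 2 / (8 * ((p.a0 : ℝ) + (p.Δ : ℝ)) ^ 2) * (K : ℝ))) := by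
    intro I
    refine (hT n K c hc V f (Nb H s.lev u) I β t hne hβn ht hNT).trans ?_
    have ha' : (0 : ℝ) < (a : ℝ) := by exact_mod_cast ha1
    have haa' : (a : ℝ) ≤ (p.a0 : ℝ) + (p.Δ : ℝ) := by exact_mod_cast haa
    have h3 : (a : ℝ) ^ 2 ≤ ((p.a0 : ℝ) + (p.Δ : ℝ)) ^ 2 :=
      pow_le_pow_left₀ ha'.le haa' 2
    have h4 : t ^ 2 / (8 * ((p.a0 : ℝ) + (p.Δ : ℝ)) ^ 2) * (K : ℝ) ≤
        t ^ 2 * (K : ℝ) / (8 * (a : ℝ) ^ 2) := by
      rw [div_mul_eq_mul_div]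
      refine div_le_div_of_nonneg_left (by positivity) (by positivity) ?_
      linarith
    have h5 : -(t ^ 2) * (K : ℝ) / (8 * (a : ℝ) ^ 2) =
        -(t ^ 2 * (K : ℝ) / (8 * (a : ℝ) ^ 2)) := by ring
    have h6 : Real.exp (-(t ^ 2) * (K : ℝ) / (8 * (a : ℝ) ^ 2)) ≤
        Real.exp (-(t ^ 2 / (8 * ((p.a0 : ℝ) + (p.Δ : ℝ)) ^ 2) * (K : ℝ))) := by
      rw [h5]
      exact Real.exp_le_exp.mpr (neg_le_neg h4)
    have h7 : Real.exp (-(t ^ 2 * (K : ℝ)) / (8 * (a : ℝ) ^ 2)) =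
        Real.exp (-(t ^ 2) * (K : ℝ) / (8 * (a : ℝ) ^ 2)) := by
      congr 1
      ring
    rw [← ha, h7]
    linarith
  have hmain : pr (fun φ : Fin K → Fin K => NonTwin c H s q f u ∧ BadT c H p s q φ f u) ≤
      pr (fun φ : Fin K → Fin K =>
        t + (a : ℝ) ^ 2 * β < |tm c f (Nb H s.lev u) (cell φ (resI s)) -
          (((resI s).card : ℝ) / (K : ℝ)) ^ a|) +
      pr (fun φ : Fin K → Fin K =>
        t + (a : ℝ) ^ 2 * β < |tm c f (Nb H s.lev u) (cell φ (s.I (s.lev u))) -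
          (((s.I (s.lev u)).card : ℝ) / (K : ℝ)) ^ a|) := by
    refine pr_le_add fun φ hφ => ?_
    rcases hφ.2 with h3 | ⟨hB, h3⟩
    · refine Or.inl ?_
      have h4 : p.ρ ≤ ((resI s).card : ℝ) / (K : ℝ) := by
        rw [le_div_iff₀ hK']; exact hG.res
      have h5 : p.ρ ^ a ≤ (((resI s).card : ℝ) / (K : ℝ)) ^ a := pow_le_pow_left₀ hρ.le h4 a
      rw [abs_sub_comm]
      refine lt_of_lt_of_le ?_ (le_abs_self _)
      rw [← ha] at h3
      linarith
    · refine Or.inr ?_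
      have hd : s.dg (s.lev u) = a := by rw [ha]; exact (hG.deg u hB).symm
      have hΔa : a ≤ p.Δ := by rw [← hd]; exact (hG.dpos _ hB).2
      have hlate := hG.late _ hB
      have hββ : β = q.β1 := by rw [hβ, if_neg (not_le.mpr hlate)]
      have hgam : bq ≤ gam s (s.lev u) := by
        refine hbq.trans ?_
        unfold gam
        rw [le_div_iff₀ hK']
        exact hG.big _ hB
      have h6 : bq ^ p.Δ ≤ gam s (s.lev u) ^ a :=
        (pow_le_pow_of_le_one hb.le hbq1 hΔa).trans (pow_le_pow_left₀ hb.le hgam a)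
      have h7 : (a : ℝ) ^ 2 ≤ (p.Δ : ℝ) ^ 2 := by
        have : (a : ℝ) ≤ (p.Δ : ℝ) := by exact_mod_cast hΔa
        exact pow_le_pow_left₀ (Nat.cast_nonneg _) this 2
      have h8 : (a : ℝ) ^ 2 * q.β1 ≤ (p.Δ : ℝ) ^ 2 * q.β1 := mul_le_mul_of_nonneg_right h7 hβ1
      rw [hd] at h3
      have h9 : gam s (s.lev u) = ((s.I (s.lev u)).card : ℝ) / (K : ℝ) := rfl
      rw [← h9, hββ]
      refine lt_of_le_of_lt ?_ h3
      have h10 : q.δ1 * bq ^ p.Δ ≤ q.δ1 * gam s (s.lev u) ^ a :=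
        mul_le_mul_of_nonneg_left h6 hδ.le
      linarith
  refine hmain.trans ?_
  have h11 := key (resI s)
  have h12 := key (s.I (s.lev u))
  linarith

end inl

section inr

variable {V : Type} [Fintype V] {n K : ℕ}

/-- the bound of the pair terms -/
theorem inr_bound (C1 C2 : ℝ) (A : ℝ) (hA : 1 ≤ A) {c : Sym2 (Fin n) → Fin K} (hK : 0 < K)
    {H : SimpleGraph V} {p : Par} {s : Sch V K} (hG : Good H p s) (q : Cst)
    (h1 : ∀ d ≤ p.Δ, ∀ (S S' : Finset V) (I : Finset (Fin K)),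
      S.card = d → S'.card = d → (S ∩ S').card ≤ 1 →
      av (fun φ : Fin K → Fin K => av fun f : V → Fin n =>
        (Yp c f S S' (cell φ I) -
          (d : ℝ) ^ 2 * ((I.card : ℝ) / (K : ℝ)) ^ (2 * d - 1) / (K : ℝ)) ^ 2)
        ≤ C1 / (K : ℝ) ^ 3)
    (h2 : ∀ d ≤ p.Δ, ∀ (S S' : Finset V) (C : Finset (Fin K)),
      S.card = d → S'.card = d → (S ∩ S').card ≤ 1 →
      av (fun f : V → Fin n => Dp c f S S' C) ≤ C2 / (K : ℝ) ^ 2)
    (hC1 : 0 ≤ C1) (hC2 : 0 ≤ C2) (u u' : V) (hp : pairOK H s u u') :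
    av (fun φ : Fin K → Fin K => A ^ (supp H s (Sum.inr (u, u'))).card *
      av fun f : V → Fin n => gg c H p s q φ (Sum.inr (u, u')) f) ≤
      A ^ (2 * p.Δ) * ((C1 + C2) / ((K : ℝ) ^ 2 * √(K : ℝ))) := by
  have hK' : (0 : ℝ) < (K : ℝ) := Nat.cast_pos.mpr hK
  have hsK : 0 < √(K : ℝ) := Real.sqrt_pos.mpr hK'
  have hd1 : (Nb H s.lev u).card = s.dg (s.lev u) := hG.deg u hp.1
  have hp1 : s.lev u' ∈ s.B := by rw [hp.2.1]; exact hp.1
  have hd2 : (Nb H s.lev u').card = s.dg (s.lev u) := by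
    rw [hG.deg u' hp1, hp.2.1]
  have hdΔ : s.dg (s.lev u) ≤ p.Δ := (hG.dpos _ hp.1).2
  have hsupp : (supp H s (Sum.inr (u, u'))).card ≤ 2 * p.Δ := by
    show (if pairOK H s u u' then Nb H s.lev u ∪ Nb H s.lev u' else ∅).card ≤ 2 * p.Δ
    rw [if_pos hp]
    refine (Finset.card_union_le _ _).trans ?_
    omega
  have hgg : ∀ φ : Fin K → Fin K, (av fun f : V → Fin n => gg c H p s q φ (Sum.inr (u, u')) f) =
      √(K : ℝ) * (av fun f : V → Fin n =>
        (Yp c f (Nb H s.lev u) (Nb H s.lev u') (cell φ (s.I (s.lev u))) -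
        ((s.dg (s.lev u) : ℕ) : ℝ) ^ 2 * (((s.I (s.lev u)).card : ℝ) / (K : ℝ)) ^
          (2 * s.dg (s.lev u) - 1) / (K : ℝ)) ^ 2) +
      (1 / √(K : ℝ)) * (av fun f : V → Fin n =>
        Dp c f (Nb H s.lev u) (Nb H s.lev u') (cell φ (s.I (s.lev u)))) := by
    intro φ
    rw [← av_mul, ← av_mul, ← av_add]
    congr 1
    funext f
    show (if pairOK H s u u' then _ else _) = _
    rw [if_pos hp]
    unfold gam
    ring
  have e1 := h1 _ hdΔ (Nb H s.lev u) (Nb H s.lev u') (s.I (s.lev u)) hd1 hd2 hp.2.2.2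
  have e2 : ∀ φ : Fin K → Fin K, (av fun f : V → Fin n =>
        Dp c f (Nb H s.lev u) (Nb H s.lev u') (cell φ (s.I (s.lev u)))) ≤ C2 / (K : ℝ) ^ 2 :=
    fun φ => h2 _ hdΔ (Nb H s.lev u) (Nb H s.lev u') _ hd1 hd2 hp.2.2.2
  rw [av_mul]
  have hin : av (fun φ : Fin K → Fin K =>
      av fun f : V → Fin n => gg c H p s q φ (Sum.inr (u, u')) f) ≤
      (C1 + C2) / ((K : ℝ) ^ 2 * √(K : ℝ)) := by
    rw [show (fun φ : Fin K → Fin K =>
      av fun f : V → Fin n => gg c H p s q φ (Sum.inr (u, u')) f) = _ from funext hgg]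
    rw [av_add, av_mul, av_mul]
    have e3 : av (fun φ : Fin K → Fin K => av fun f : V → Fin n =>
        Dp c f (Nb H s.lev u) (Nb H s.lev u') (cell φ (s.I (s.lev u)))) ≤ C2 / (K : ℝ) ^ 2 :=
      av_le_const (by positivity) e2
    have e4 := mul_le_mul_of_nonneg_left e1 hsK.le
    have e5 := mul_le_mul_of_nonneg_left e3 (by positivity : (0 : ℝ) ≤ 1 / √(K : ℝ))
    refine (add_le_add e4 e5).trans (le_of_eq ?_)
    have hs2 : √(K : ℝ) * √(K : ℝ) = (K : ℝ) := Real.mul_self_sqrt hK'.le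
    have hs3 : √(K : ℝ) * (C1 / (K : ℝ) ^ 3) = C1 / ((K : ℝ) ^ 2 * √(K : ℝ)) := by
      rw [eq_div_iff (by positivity)]
      calc √(K : ℝ) * (C1 / (K : ℝ) ^ 3) * ((K : ℝ) ^ 2 * √(K : ℝ))
          = (√(K : ℝ) * √(K : ℝ)) * (K : ℝ) ^ 2 * C1 / (K : ℝ) ^ 3 := by ring
        _ = C1 := by rw [hs2]; field_simp
    rw [hs3]
    field_simp
  have hAp : A ^ (supp H s (Sum.inr (u, u'))).card ≤ A ^ (2 * p.Δ) :=
    pow_le_pow_right₀ hA hsupp
  have hin0 : 0 ≤ (C1 + C2) / ((K : ℝ) ^ 2 * √(K : ℝ)) := by positivity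
  calc A ^ (supp H s (Sum.inr (u, u'))).card * av (fun φ : Fin K → Fin K =>
      av fun f : V → Fin n => gg c H p s q φ (Sum.inr (u, u')) f)
      ≤ A ^ (supp H s (Sum.inr (u, u'))).card * ((C1 + C2) / ((K : ℝ) ^ 2 * √(K : ℝ))) :=
        mul_le_mul_of_nonneg_left hin (by positivity)
    _ ≤ _ := mul_le_mul_of_nonneg_right hAp hin0

end inr

section tot

variable {V : Type} [Fintype V] {n K : ℕ}

theorem tot_empty (c : Sym2 (Fin n) → Fin K) (H : SimpleGraph V) (p : Par) (s : Sch V K)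
    (q : Cst) (φ : Fin K → Fin K) (f : V → Fin n) :
    Tot c H p s q φ ∅ f = ∑ i : Ix V, q.A ^ (supp H s i).card *
      av fun f' : V → Fin n => gg c H p s q φ i f' := by
  unfold Tot Pot
  refine Finset.sum_congr rfl fun i _ => ?_
  have h : ∀ f' : V → Fin n, mix ∅ f f' = f' := by
    intro f'
    funext v
    show (if v ∈ (∅ : Finset V) then f v else f' v) = f' v
    rw [if_neg (Finset.notMem_empty v)]
  rw [Finset.sdiff_empty]
  simp only [h]

theorem pr_nonneg {Ω : Type} [Fintype Ω] (P : Ω → Prop) : 0 ≤ pr P := by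
  unfold pr
  refine av_nonneg fun x => ?_
  split_ifs <;> norm_num

theorem gg_nonneg (c : Sym2 (Fin n) → Fin K) (H : SimpleGraph V) (p : Par) (s : Sch V K)
    (q : Cst) (φ : Fin K → Fin K) (i : Ix V) (f : V → Fin n) : 0 ≤ gg c H p s q φ i f := by
  rcases i with u | ⟨u, u'⟩
  · show 0 ≤ (if NonTwin c H s q f u ∧ BadT c H p s q φ f u then (1 : ℝ) else 0)
    split_ifs <;> norm_num
  · show 0 ≤ (if pairOK H s u u' then
      √(K : ℝ) * (Yp c f (Nb H s.lev u) (Nb H s.lev u') (cell φ (s.I (s.lev u))) -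
        (s.dg (s.lev u) : ℝ) ^ 2 * gam s (s.lev u) ^ (2 * s.dg (s.lev u) - 1) / (K : ℝ)) ^ 2
      + Dp c f (Nb H s.lev u) (Nb H s.lev u') (cell φ (s.I (s.lev u))) / √(K : ℝ) else 0)
    split_ifs
    · have h1 : 0 ≤ Dp c f (Nb H s.lev u) (Nb H s.lev u') (cell φ (s.I (s.lev u))) := by
        unfold Dp
        exact Finset.sum_nonneg fun k _ => Finset.sum_nonneg fun l _ =>
          mul_nonneg (pr_nonneg _) (pr_nonneg _)
      positivity
    · exact le_rfl

theorem card_nb (H : SimpleGraph V) {p : Par} {s : Sch V K} (hG : Good H p s) (u : V) :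
    (Nb H s.lev u).card ≤ p.a0 + p.Δ := by
  rcases le_or_gt (s.lev u) s.t0 with h | h
  · refine le_trans (Finset.card_le_card ?_) (hG.card0.trans (Nat.le_add_right _ _))
    intro w hw
    unfold Nb at hw
    rw [Finset.mem_filter] at hw ⊢
    exact ⟨Finset.mem_univ _, le_of_lt (lt_of_lt_of_le hw.2.2 h)⟩
  · exact (hG.deg1 u h).trans (Nat.le_add_left _ _)

end tot

end PartAux

open PartAux

/-- Module Part: choice of the colour partition. -/
theorem prfPart (hE1 : StE1) (hE2 : StE2) (hT : StT) : StPart := by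
  intro Δ ρ bb δ1 hΔ hρ hρ1 hbb hδ1
  choose C1 hC1 using hE1
  choose C2 hC2 using hE2
  obtain ⟨D1, hD1⟩ : ∃ D1 : ℝ, D1 = ∑ d ∈ Finset.range (Δ + 1), |C1 d| := ⟨_, rfl⟩
  obtain ⟨D2, hD2⟩ : ∃ D2 : ℝ, D2 = ∑ d ∈ Finset.range (Δ + 1), |C2 d| := ⟨_, rfl⟩
  obtain ⟨bq, hbq⟩ : ∃ bq : ℝ, bq = min bb 1 := ⟨_, rfl⟩
  have hbq0 : 0 < bq := by rw [hbq]; exact lt_min hbb one_pos
  have hbqb : bq ≤ bb := by rw [hbq]; exact min_le_left _ _
  have hbq1 : bq ≤ 1 := by rw [hbq]; exact min_le_right _ _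
  have hD10 : 0 ≤ D1 := by rw [hD1]; exact Finset.sum_nonneg fun d _ => abs_nonneg _
  have hD20 : 0 ≤ D2 := by rw [hD2]; exact Finset.sum_nonneg fun d _ => abs_nonneg _
  have hCD1 : ∀ d ≤ Δ, C1 d ≤ D1 := by
    intro d hd
    rw [hD1]
    exact (le_abs_self _).trans (Finset.single_le_sum (f := fun d => |C1 d|)
      (fun d _ => abs_nonneg _) (Finset.mem_range.mpr (Nat.lt_succ_of_le hd)))
  have hCD2 : ∀ d ≤ Δ, C2 d ≤ D2 := by
    intro d hd
    rw [hD2]
    exact (le_abs_self _).trans (Finset.single_le_sum (f := fun d => |C2 d|)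
      (fun d _ => abs_nonneg _) (Finset.mem_range.mpr (Nat.lt_succ_of_le hd)))
  have hΔ' : (0 : ℝ) < (Δ : ℝ) := Nat.cast_pos.mpr (Nat.pos_of_ne_zero (by omega))
  refine ⟨min (ρ ^ Δ / (4 * (Δ : ℝ) ^ 2)) (δ1 * bq ^ Δ / (2 * (Δ : ℝ) ^ 2)),
    lt_min (by positivity) (by positivity), fun β1 hβ1 hβ1' a0 => ?_⟩
  refine ⟨ρ ^ a0 / (4 * ((a0 : ℝ) ^ 2 + 1)), by positivity, fun β0 A ε sB hβ0 hβ0' hA hε => ?_⟩
  obtain ⟨t, ht⟩ : ∃ t : ℝ, t = min (ρ ^ (a0 + Δ) / 4) (δ1 * bq ^ Δ / 2) := ⟨_, rfl⟩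
  have ht0 : 0 < t := by rw [ht]; exact lt_min (by positivity) (by positivity)
  obtain ⟨cc, hcc⟩ : ∃ cc : ℝ, cc = t ^ 2 / (8 * ((a0 : ℝ) + (Δ : ℝ)) ^ 2) := ⟨_, rfl⟩
  have hcc0 : 0 < cc := by rw [hcc]; positivity
  obtain ⟨D, hD⟩ : ∃ D : ℝ, D = (1 / ε) * (8 * A ^ (a0 + Δ) / cc ^ 2 +
    A ^ (2 * Δ) * (D1 + D2)) + (sB : ℝ) / ε ^ 2 := ⟨_, rfl⟩
  have hA0 : 0 < A := lt_of_lt_of_le one_pos hA
  have hD0 : 0 ≤ D := by rw [hD]; positivity
  refine ⟨Nat.ceil (D ^ 2) + 1, fun n K c hK hEnv V _ H p s hG hpΔ hpρ hpbb hpa0 hpsB => ?_⟩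
  have hK1 : 1 ≤ K := le_trans (Nat.le_add_left 1 _) hK
  have hK0 : 0 < K := hK1
  have hK' : (0 : ℝ) < (K : ℝ) := Nat.cast_pos.mpr hK0
  have hK1' : (1 : ℝ) ≤ (K : ℝ) := by exact_mod_cast hK1
  have hsK : 0 < √(K : ℝ) := Real.sqrt_pos.mpr hK'
  have hDK : D ^ 2 ≤ (K : ℝ) := by
    have h1 : D ^ 2 ≤ (Nat.ceil (D ^ 2) : ℝ) := Nat.le_ceil _
    have h2 : ((Nat.ceil (D ^ 2) + 1 : ℕ) : ℝ) ≤ (K : ℝ) := by exact_mod_cast hK
    rw [Nat.cast_add, Nat.cast_one] at h2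
    linarith
  have hDs : D ≤ √(K : ℝ) := Real.le_sqrt_of_sq_le hDK
  have henv1 : Env c 1 := by
    refine ⟨hEnv.npos, fun x k => (hEnv.up x k).trans ?_, fun x k => ?_⟩
    · refine div_le_div_of_nonneg_right ?_ hK'.le
      have : 1 / (K : ℝ) ≤ 1 := by rw [div_le_one hK']; exact hK1'
      linarith
    · rw [sub_self, zero_div]; exact pr_nonneg _
  have : Nonempty (Fin K) := ⟨⟨0, hK0⟩⟩
  set q : Cst := ⟨A, β0, β1, δ1⟩ with hq
  have hs2 : √(K : ℝ) * √(K : ℝ) = (K : ℝ) := Real.mul_self_sqrt hK'.le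
  have hs1 : 1 ≤ √(K : ℝ) := Real.one_le_sqrt.mpr hK1'
  -- the bound of the terms of the first kind
  have hX : ∀ u : V, av (fun φ : Fin K → Fin K => A ^ (supp H s (Sum.inl u)).card *
      av fun f : V → Fin n => gg c H p s q φ (Sum.inl u) f) ≤
      if (Nb H s.lev u).Nonempty then A ^ (a0 + Δ) * (4 * Real.exp (-(cc * (K : ℝ)))) else 0 := by
    intro u
    rw [av_mul, av_comm]
    by_cases hne : (Nb H s.lev u).Nonempty
    · rw [if_pos hne]
      have h1 : av (fun f : V → Fin n => av fun φ : Fin K → Fin K =>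
          gg c H p s q φ (Sum.inl u) f) ≤ 4 * Real.exp (-(cc * (K : ℝ))) := by
        refine av_le_const (by positivity) fun f => ?_
        have h2 := inl_bound hT henv1 hK0 hG q t bq (by rw [hpρ]; exact hρ)
          (by rw [hpρ]; exact hρ1) hβ0.le hβ1.le hδ1 ht0 hbq0 (by rw [hpbb]; exact hbqb) hbq1
          (by rw [hpρ, hpa0, hpΔ, ht]; exact min_le_left _ _)
          (by rw [hpΔ, ht]; exact min_le_right _ _)
          (by
            rw [hpa0, hpρ]
            have h3 : β0 ≤ ρ ^ a0 / (4 * ((a0 : ℝ) ^ 2 + 1)) := hβ0'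
            have h4 : (a0 : ℝ) ^ 2 * β0 ≤ (a0 : ℝ) ^ 2 * (ρ ^ a0 / (4 * ((a0 : ℝ) ^ 2 + 1))) :=
              mul_le_mul_of_nonneg_left h3 (by positivity)
            refine h4.trans ?_
            rw [mul_div_assoc', div_le_div_iff₀ (by positivity) (by norm_num)]
            have h5 : 0 < ρ ^ a0 := by positivity
            nlinarith)
          (by
            rw [hpΔ, hpρ]
            have h3 : β1 ≤ ρ ^ Δ / (4 * (Δ : ℝ) ^ 2) := hβ1'.trans (min_le_left _ _)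
            have h4 := mul_le_mul_of_nonneg_left h3 (by positivity : (0 : ℝ) ≤ (Δ : ℝ) ^ 2)
            refine h4.trans (le_of_eq ?_)
            field_simp)
          (by
            rw [hpΔ]
            have h3 : β1 ≤ δ1 * bq ^ Δ / (2 * (Δ : ℝ) ^ 2) := hβ1'.trans (min_le_right _ _)
            have h4 := mul_le_mul_of_nonneg_left h3 (by positivity : (0 : ℝ) ≤ (Δ : ℝ) ^ 2)
            refine h4.trans (le_of_eq ?_)
            show _ = δ1 * bq ^ Δ / 2
            field_simp)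
          f u
        rw [hpa0, hpΔ, ← hcc] at h2
        have h2' : (av fun φ : Fin K → Fin K => gg c H p s q φ (Sum.inl u) f) =
            pr (fun φ : Fin K → Fin K => NonTwin c H s q f u ∧ BadT c H p s q φ f u) := by
          unfold pr
          congr 1
          funext φ
          show (if NonTwin c H s q f u ∧ BadT c H p s q φ f u then (1 : ℝ) else 0) = _
          by_cases h : NonTwin c H s q f u ∧ BadT c H p s q φ f u
          · rw [if_pos h, if_pos h]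
          · rw [if_neg h, if_neg h]
        rw [h2']
        exact h2
      have h3 : A ^ (supp H s (Sum.inl u)).card ≤ A ^ (a0 + Δ) := by
        refine pow_le_pow_right₀ hA ?_
        have := card_nb H hG u
        rw [hpa0, hpΔ] at this
        exact this
      refine (mul_le_mul_of_nonneg_left h1 (by positivity)).trans ?_
      exact mul_le_mul_of_nonneg_right h3 (by positivity)
    · rw [if_neg hne]
      have h1 : av (fun f : V → Fin n => av fun φ : Fin K → Fin K =>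
          gg c H p s q φ (Sum.inl u) f) ≤ 0 := by
        refine av_le_const le_rfl fun f => av_le_const le_rfl fun φ => ?_
        show (if NonTwin c H s q f u ∧ BadT c H p s q φ f u then (1 : ℝ) else 0) ≤ 0
        rw [if_neg fun h => not_bad_of_empty hEnv.npos hG q φ f u hne h.2]
      exact mul_nonpos_of_nonneg_of_nonpos (by positivity) h1
  -- the bound of the pair terms
  have hY : ∀ w : V × V, av (fun φ : Fin K → Fin K => A ^ (supp H s (Sum.inr w)).card *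
      av fun f : V → Fin n => gg c H p s q φ (Sum.inr w) f) ≤
      if (Nb H s.lev w.1).Nonempty ∧ (Nb H s.lev w.2).Nonempty then
        A ^ (2 * Δ) * ((D1 + D2) / ((K : ℝ) ^ 2 * √(K : ℝ))) else 0 := by
    rintro ⟨u, u'⟩
    have hin0 : 0 ≤ A ^ (2 * Δ) * ((D1 + D2) / ((K : ℝ) ^ 2 * √(K : ℝ))) := by positivity
    by_cases hp : pairOK H s u u'
    · have h1 : (Nb H s.lev u).Nonempty := by
        rw [← Finset.card_pos, hG.deg u hp.1]
        exact (hG.dpos _ hp.1).1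
      have hp1 : s.lev u' ∈ s.B := by rw [hp.2.1]; exact hp.1
      have h2 : (Nb H s.lev u').Nonempty := by
        rw [← Finset.card_pos, hG.deg u' hp1]
        exact (hG.dpos _ hp1).1
      rw [if_pos ⟨h1, h2⟩]
      have h3 := inr_bound D1 D2 A hA (c := c) hK0 hG q
        (by
          intro d hd S S' I e1 e2 e3
          rw [hpΔ] at hd
          refine (hC1 d n K c hEnv V S S' I e1 e2 e3).trans ?_
          exact div_le_div_of_nonneg_right (hCD1 d hd) (by positivity))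
        (by
          intro d hd S S' C e1 e2 e3
          rw [hpΔ] at hd
          refine (hC2 d n K c hEnv V S S' C e1 e2 e3).trans ?_
          exact div_le_div_of_nonneg_right (hCD2 d hd) (by positivity))
        hD10 hD20 u u' hp
      rw [hpΔ] at h3
      exact h3
    · have h1 : av (fun φ : Fin K → Fin K => A ^ (supp H s (Sum.inr (u, u'))).card *
          av fun f : V → Fin n => gg c H p s q φ (Sum.inr (u, u')) f) ≤ 0 := by
        refine av_le_const le_rfl fun φ => ?_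
        refine mul_nonpos_of_nonneg_of_nonpos (by positivity) (av_le_const le_rfl fun f => ?_)
        show (if pairOK H s u u' then _ else (0 : ℝ)) ≤ 0
        rw [if_neg hp]
      refine h1.trans ?_
      split_ifs
      · exact hin0
      · exact le_rfl
  -- the number of vertices with lower neighbours
  set N : Finset V := univ.filter fun u => (Nb H s.lev u).Nonempty with hN
  have hNK : (N.card : ℝ) ≤ (K : ℝ) := by exact_mod_cast hG.nV
  let f0 : V → Fin n := fun _ => ⟨0, hEnv.npos⟩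
  have hTot : av (fun φ : Fin K → Fin K => Tot c H p s q φ ∅ f0) ≤
      (K : ℝ) * (A ^ (a0 + Δ) * (4 * Real.exp (-(cc * (K : ℝ))))) +
      (K : ℝ) ^ 2 * (A ^ (2 * Δ) * ((D1 + D2) / ((K : ℝ) ^ 2 * √(K : ℝ)))) := by
    simp only [tot_empty]
    rw [av_sum, Fintype.sum_sum_type]
    refine add_le_add ?_ ?_
    · refine (Finset.sum_le_sum fun u _ => hX u).trans ?_
      rw [← Finset.sum_filter, Finset.sum_const, nsmul_eq_mul]
      exact mul_le_mul_of_nonneg_right hNK (by positivity)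
    · refine (Finset.sum_le_sum fun w _ => hY w).trans ?_
      rw [← Finset.sum_filter, Finset.sum_const, nsmul_eq_mul]
      refine mul_le_mul_of_nonneg_right ?_ (by positivity)
      have h1 : (univ.filter fun w : V × V =>
          (Nb H s.lev w.1).Nonempty ∧ (Nb H s.lev w.2).Nonempty) ⊆ N ×ˢ N := by
        intro w hw
        rw [Finset.mem_filter] at hw
        rw [Finset.mem_product, hN, Finset.mem_filter, Finset.mem_filter]
        exact ⟨⟨Finset.mem_univ _, hw.2.1⟩, ⟨Finset.mem_univ _, hw.2.2⟩⟩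
      have h2 := Finset.card_le_card h1
      rw [Finset.card_product] at h2
      have h3 : ((univ.filter fun w : V × V =>
          (Nb H s.lev w.1).Nonempty ∧ (Nb H s.lev w.2).Nonempty).card : ℝ) ≤
          (N.card : ℝ) * (N.card : ℝ) := by exact_mod_cast h2
      refine h3.trans ?_
      rw [sq]
      exact mul_le_mul hNK hNK (Nat.cast_nonneg _) hK'.le
  have hexp : (K : ℝ) * (A ^ (a0 + Δ) * (4 * Real.exp (-(cc * (K : ℝ))))) ≤
      (8 * A ^ (a0 + Δ) / cc ^ 2) / √(K : ℝ) := by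
    have h1 : 0 ≤ cc * (K : ℝ) := by positivity
    have h2 := Real.quadratic_le_exp_of_nonneg h1
    have h3 : (cc * (K : ℝ)) ^ 2 / 2 ≤ Real.exp (cc * (K : ℝ)) := by linarith
    have h4 : Real.exp (-(cc * (K : ℝ))) ≤ 2 / (cc * (K : ℝ)) ^ 2 := by
      rw [Real.exp_neg, inv_eq_one_div, div_le_div_iff₀ (Real.exp_pos _) (by positivity)]
      linarith
    calc (K : ℝ) * (A ^ (a0 + Δ) * (4 * Real.exp (-(cc * (K : ℝ)))))
        ≤ (K : ℝ) * (A ^ (a0 + Δ) * (4 * (2 / (cc * (K : ℝ)) ^ 2))) := by gcongr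
      _ = (8 * A ^ (a0 + Δ) / cc ^ 2) / (K : ℝ) := by field_simp; ring
      _ ≤ (8 * A ^ (a0 + Δ) / cc ^ 2) / √(K : ℝ) := by
          refine div_le_div_of_nonneg_left (by positivity) hsK ?_
          nlinarith
  have hpair : (K : ℝ) ^ 2 * (A ^ (2 * Δ) * ((D1 + D2) / ((K : ℝ) ^ 2 * √(K : ℝ)))) =
      (A ^ (2 * Δ) * (D1 + D2)) / √(K : ℝ) := by field_simp
  have hTot' : av (fun φ : Fin K → Fin K => Tot c H p s q φ ∅ f0) ≤
      (8 * A ^ (a0 + Δ) / cc ^ 2 + A ^ (2 * Δ) * (D1 + D2)) / √(K : ℝ) := by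
    rw [hpair] at hTot
    rw [add_div]
    linarith
  -- the variance of the cells
  have hcell : av (fun φ : Fin K → Fin K => ∑ ℓ ∈ s.B,
      (1 / (ε ^ 2 * (K : ℝ) ^ 2)) * (((cell φ (s.I ℓ)).card : ℝ) - ((s.I ℓ).card : ℝ)) ^ 2) ≤
      ((sB : ℝ) / ε ^ 2) / √(K : ℝ) := by
    rw [av_sum]
    have h1 : ∀ ℓ ∈ s.B, av (fun φ : Fin K → Fin K => (1 / (ε ^ 2 * (K : ℝ) ^ 2)) *
        (((cell φ (s.I ℓ)).card : ℝ) - ((s.I ℓ).card : ℝ)) ^ 2) ≤ (1 / ε ^ 2) / √(K : ℝ) := by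
      intro ℓ _
      rw [av_mul]
      refine (mul_le_mul_of_nonneg_left (var_cell hK0 (s.I ℓ)) (by positivity)).trans ?_
      have h2 : 1 / (ε ^ 2 * (K : ℝ) ^ 2) * (K : ℝ) = (1 / ε ^ 2) / (K : ℝ) := by
        field_simp
      rw [h2]
      refine div_le_div_of_nonneg_left (by positivity) hsK ?_
      nlinarith
    refine (Finset.sum_le_sum h1).trans ?_
    rw [Finset.sum_const, nsmul_eq_mul]
    have h3 : (s.B.card : ℝ) ≤ (sB : ℝ) := by
      have := hG.nB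
      rw [hpsB] at this
      exact_mod_cast this
    calc (s.B.card : ℝ) * (1 / ε ^ 2 / √(K : ℝ)) ≤ (sB : ℝ) * (1 / ε ^ 2 / √(K : ℝ)) :=
          mul_le_mul_of_nonneg_right h3 (by positivity)
      _ = _ := by ring
  obtain ⟨φ, hφ⟩ := exists_le (fun φ : Fin K → Fin K => (1 / ε) * Tot c H p s q φ ∅ f0 +
    ∑ ℓ ∈ s.B, (1 / (ε ^ 2 * (K : ℝ) ^ 2)) *
      (((cell φ (s.I ℓ)).card : ℝ) - ((s.I ℓ).card : ℝ)) ^ 2)
  have hle1 : (1 / ε) * Tot c H p s q φ ∅ f0 + ∑ ℓ ∈ s.B, (1 / (ε ^ 2 * (K : ℝ) ^ 2)) *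
      (((cell φ (s.I ℓ)).card : ℝ) - ((s.I ℓ).card : ℝ)) ^ 2 ≤ 1 := by
    refine hφ.trans ?_
    rw [av_add, av_mul]
    have h1 : (1 / ε) * av (fun φ : Fin K → Fin K => Tot c H p s q φ ∅ f0) ≤
        (1 / ε) * ((8 * A ^ (a0 + Δ) / cc ^ 2 + A ^ (2 * Δ) * (D1 + D2)) / √(K : ℝ)) :=
      mul_le_mul_of_nonneg_left hTot' (by positivity)
    refine (add_le_add h1 hcell).trans ?_
    have h2 : (1 / ε) * ((8 * A ^ (a0 + Δ) / cc ^ 2 + A ^ (2 * Δ) * (D1 + D2)) / √(K : ℝ)) +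
        ((sB : ℝ) / ε ^ 2) / √(K : ℝ) = D / √(K : ℝ) := by
      rw [hD]
      ring
    rw [h2, div_le_one hsK]
    exact hDs
  have hTn : 0 ≤ Tot c H p s q φ ∅ f0 := by
    rw [tot_empty]
    exact Finset.sum_nonneg fun i _ => mul_nonneg (by positivity)
      (av_nonneg fun f => gg_nonneg c H p s q φ i f)
  have hSn : ∀ ℓ ∈ s.B, 0 ≤ (1 / (ε ^ 2 * (K : ℝ) ^ 2)) *
      (((cell φ (s.I ℓ)).card : ℝ) - ((s.I ℓ).card : ℝ)) ^ 2 := fun ℓ _ => by positivity
  refine ⟨φ, fun f => ?_, fun ℓ hℓ => ?_⟩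
  · have h1 : Tot c H p s q φ ∅ f = Tot c H p s q φ ∅ f0 := by rw [tot_empty, tot_empty]
    rw [h1]
    have h2 := Finset.sum_nonneg hSn
    have h3 : (1 / ε) * Tot c H p s q φ ∅ f0 ≤ 1 := by linarith
    rw [one_div, inv_mul_le_iff₀ hε, mul_one] at h3
    exact h3
  · have h2 := Finset.single_le_sum hSn hℓ
    have h3 : 0 ≤ (1 / ε) * Tot c H p s q φ ∅ f0 := by positivity
    have h4 : (1 / (ε ^ 2 * (K : ℝ) ^ 2)) *
      (((cell φ (s.I ℓ)).card : ℝ) - ((s.I ℓ).card : ℝ)) ^ 2 ≤ 1 := by linarith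
    rw [one_div, inv_mul_le_iff₀ (by positivity), mul_one] at h4
    refine abs_le_of_sq_le_sq ?_ (by positivity)
    rw [mul_pow]
    exact h4

end Pool.Agent.Lib.MP_b1acb3_co.Dgn
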