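import Pool.Agent.Lib.MP_b1acb3_co.Dgn.Stmts
import Pool.Agent.Lib.MP_b1acb3_co.Pos

/-!
MP_b1acb3_co, project DGN: Theorem A from the core statement and the greedy extension lemma.
-/

set_option autoImplicit false

namespace Pool.Agent.Lib.MP_b1acb3_co.Dgn

open Finset Classical

/-- the graph `G` restricted to `W`, as a graph on all vertices -/
def rst {V : Type} (G : SimpleGraph V) (W : Finset V) : SimpleGraph V where
  Adj x y := G.Adj x y ∧ x ∈ W ∧ y ∈ W
  symm := by
    refine ⟨?_⟩
    rintro x y ⟨h, hx, hy⟩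
    exact ⟨h.symm, hy, hx⟩
  loopless := ⟨fun x h => (G.ne_of_adj h.1) rfl⟩

theorem rst_adj {V : Type} (G : SimpleGraph V) (W : Finset V) (x y : V) :
    (rst G W).Adj x y ↔ G.Adj x y ∧ x ∈ W ∧ y ∈ W := Iff.rfl

theorem mem_rst_edgeSet {V : Type} (G : SimpleGraph V) (W : Finset V) (e : Sym2 V) :
    e ∈ (rst G W).edgeSet ↔ e ∈ G.edgeSet ∧ ∀ x ∈ e, x ∈ W := by
  induction e using Sym2.ind with
  | _ a b =>
    rw [SimpleGraph.mem_edgeSet, SimpleGraph.mem_edgeSet, rst_adj]
    constructor
    · rintro ⟨h, ha, hb⟩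
      refine ⟨h, fun x hx => ?_⟩
      rw [Sym2.mem_iff] at hx
      rcases hx with rfl | rfl
      · exact ha
      · exact hb
    · rintro ⟨h, hx⟩
      exact ⟨h, hx a (Sym2.mem_mk_left a b), hx b (Sym2.mem_mk_right a b)⟩

theorem numEdges_rst {V : Type} (G : SimpleGraph V) (W : Finset V) :
    numEdges (rst G W) = numEdgesIn G W := by
  unfold numEdges numEdgesIn
  congr 1
  ext e
  exact mem_rst_edgeSet G W e

/-- an injective rank on `W` extends to an injective rank on all vertices -/
theorem exists_rank {V : Type} [Fintype V] (W : Finset V) (r : V → ℕ)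
    (hr : Set.InjOn r (W : Set V)) :
    ∃ r' : V → ℕ, Function.Injective r' ∧ ∀ v ∈ W, r' v = r v := by
  refine ⟨fun v => if v ∈ W then r v else (W.sup r) + 1 + (Fintype.equivFin V v : ℕ), ?_, ?_⟩
  · intro a b hab
    simp only at hab
    by_cases ha : a ∈ W
    · by_cases hb : b ∈ W
      · rw [if_pos ha, if_pos hb] at hab
        exact hr ha hb hab
      · rw [if_pos ha, if_neg hb] at hab
        have := Finset.le_sup (f := r) ha
        omega
    · by_cases hb : b ∈ W
      · rw [if_neg ha, if_pos hb] at hab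
        have := Finset.le_sup (f := r) hb
        omega
      · rw [if_neg ha, if_neg hb] at hab
        have h1 : (Fintype.equivFin V a : ℕ) = (Fintype.equivFin V b : ℕ) := by omega
        exact (Fintype.equivFin V).injective (Fin.ext h1)
  · intro v hv
    simp only
    rw [if_pos hv]

theorem pr_eq_card {Ω : Type} [Fintype Ω] (P : Ω → Prop) [DecidablePred P] :
    pr P = ((univ.filter P).card : ℝ) / (Fintype.card Ω : ℝ) := by
  unfold pr av
  rw [card_filter]
  push_cast
  congr 1
  apply sum_congr rfl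
  intro x _
  by_cases hx : P x
  · rw [if_pos hx, if_pos hx]
  · rw [if_neg hx, if_neg hx]

/-- a balanced colouring satisfies `Env` -/
theorem env_of_balanced {n K : ℕ} (hK : 0 < K) (hn : 0 < n) (ε : ℝ)
    (hε : ε * (K : ℝ) ≤ 1 / (K : ℝ)) (hε0 : 0 ≤ ε) (c : Sym2 (Fin n) → Fin K)
    (hc : IsBalanced ε c) : Env c (1 / (K : ℝ)) := by
  have hKR : (0 : ℝ) < K := by exact_mod_cast hK
  have hK1 : (1 : ℝ) ≤ K := by exact_mod_cast hK
  have hnR : (0 : ℝ) < n := by exact_mod_cast hn
  have hε1 : ε ≤ 1 / (K : ℝ) := by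
    have : ε * 1 ≤ ε * (K : ℝ) := mul_le_mul_of_nonneg_left hK1 hε0
    linarith
  refine ⟨hn, ?_, ?_⟩
  · intro x k
    rw [pr_eq_card, Fintype.card_fin, div_le_iff₀ hnR]
    have h1 : (univ.filter fun z : Fin n => c s(x, z) = k) ⊆
        insert x (univ.filter fun j : Fin n => j ≠ x ∧ c s(x, j) = k) := by
      intro z hz
      rw [mem_filter] at hz
      rw [mem_insert, mem_filter]
      by_cases hzx : z = x
      · exact Or.inl hzx
      · exact Or.inr ⟨mem_univ _, hzx, hz.2⟩
    have h2 : (univ.filter fun z : Fin n => c s(x, z) = k).card ≤ colourDegree c x k + 1 :=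
      (card_le_card h1).trans (card_insert_le _ _)
    have h3 := colourDegree_le hK ε c hc x k
    have h4 : (((univ.filter fun z : Fin n => c s(x, z) = k).card : ℕ) : ℝ) ≤
        (colourDegree c x k : ℝ) + 1 := by exact_mod_cast h2
    refine (h4.trans h3).trans ?_
    have h5 : (n : ℝ) - ((K : ℝ) - 1) * ((1 - ε) * n / K) =
        (1 + ε * ((K : ℝ) - 1)) / K * n := by
      field_simp
      ring
    rw [h5]
    apply mul_le_mul_of_nonneg_right _ hnR.le
    apply div_le_div_of_nonneg_right _ hKR.le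
    have : ε * ((K : ℝ) - 1) ≤ ε * (K : ℝ) := mul_le_mul_of_nonneg_left (by linarith) hε0
    linarith
  · intro x k
    rw [pr_eq_card, Fintype.card_fin, le_div_iff₀ hnR]
    have h1 : (univ.filter fun j : Fin n => j ≠ x ∧ c s(x, j) = k) ⊆
        (univ.filter fun z : Fin n => c s(x, z) = k) := by
      intro z hz
      rw [mem_filter] at hz ⊢
      exact ⟨mem_univ _, hz.2.2⟩
    have h2 : colourDegree c x k ≤ (univ.filter fun z : Fin n => c s(x, z) = k).card :=
      card_le_card h1
    have h4 : (colourDegree c x k : ℝ) ≤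
        (((univ.filter fun z : Fin n => c s(x, z) = k).card : ℕ) : ℝ) := by exact_mod_cast h2
    refine le_trans ?_ ((hc x k).trans h4)
    have h5 : (1 - 1 / (K : ℝ)) / (K : ℝ) * (n : ℝ) = (1 - 1 / (K : ℝ)) * n / K := by ring
    rw [h5]
    apply div_le_div_of_nonneg_right _ hKR.le
    apply mul_le_mul_of_nonneg_right _ hnR.le
    linarith

/-- **Theorem A.** -/
theorem prfPos (h : StCore) : StPos := by
  intro D δ hδ
  obtain ⟨η, K0, hη, hcore⟩ := h D δ hδ
  refine ⟨η, K0, hη, ?_⟩
  intro V _ G W hW hdeg hE hcnt hcod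
  obtain ⟨r, hr, hd⟩ := hdeg
  obtain ⟨r', hr', hrr⟩ := exists_rank W r hr
  obtain ⟨n0, hn0⟩ := hcore (numEdges G + 1) (by omega) (Fintype.card V)
  set e := numEdges G with he
  set K : ℝ := (e : ℝ) + 1 with hK
  have hK1 : 1 ≤ K := by
    have : (0 : ℝ) ≤ e := Nat.cast_nonneg _
    linarith
  have hKcast : (((e + 1 : ℕ)) : ℝ) = K := by
    rw [hK]
    push_cast
    ring
  obtain ⟨N, hN⟩ := exists_nat_gt (2 * K * Fintype.card V)
  refine ⟨1 / (4 * K ^ 2), by positivity, N + n0 + 1, ?_⟩
  intro n hn c hc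
  have hnpos : 0 < n := by omega
  have hnR : (0 : ℝ) < n := by exact_mod_cast hnpos
  have hn2 : 2 * K * Fintype.card V < n := by
    have : (N : ℝ) ≤ n := by exact_mod_cast (by omega : N ≤ n)
    linarith
  have hlow : ∀ i k, Fintype.card V < colourDegree c i k := by
    intro i k
    have h1 := hc i k
    rw [hKcast] at h1
    have h2 : (n : ℝ) / (2 * K) ≤ (1 - 1 / (4 * K ^ 2)) * n / K := by
      have hK0 : 0 < K := by linarith
      rw [div_le_div_iff₀ (by positivity) hK0]
      have h3 : (1 : ℝ) / 2 ≤ 1 - 1 / (4 * K ^ 2) := by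
        have : 1 / (4 * K ^ 2) ≤ 1 / 4 := by
          apply div_le_div_of_nonneg_left (by norm_num) (by norm_num)
          nlinarith
        linarith
      nlinarith [mul_pos hnR hK0]
    have h4 : (Fintype.card V : ℝ) < n / (2 * K) := by
      rw [lt_div_iff₀ (by positivity)]
      linarith
    have h5 : (Fintype.card V : ℝ) < colourDegree c i k := by linarith
    exact_mod_cast h5
  have henv : Env c (1 / ((e + 1 : ℕ) : ℝ)) := by
    apply env_of_balanced (Nat.succ_pos _) hnpos (1 / (4 * K ^ 2)) _ (by positivity) c hc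
    rw [hKcast]
    have hK0 : 0 < K := by linarith
    rw [div_mul_eq_mul_div, div_le_div_iff₀ (by positivity) hK0]
    nlinarith
  obtain ⟨f₀, hf₀, hf₀'⟩ := hn0 n (by omega) c henv V (rst G W) r' le_rfl hr' (by
      intro v
      by_cases hv : v ∈ W
      · refine le_trans ?_ (hd v hv)
        rw [← Set.ncard_coe_finset]
        apply Set.ncard_le_ncard _ (Set.toFinite _)
        intro u hu
        rw [mem_coe, mem_filter, rst_adj] at hu
        obtain ⟨_, ⟨h1, _, h2⟩, h3⟩ := hu
        refine ⟨h2, h1, ?_⟩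
        rw [← hrr u h2, ← hrr v hv]
        exact h3
      · have : (univ.filter fun u => (rst G W).Adj v u ∧ r' u < r' v) = ∅ := by
          rw [filter_eq_empty_iff]
          intro u _ hu
          exact hv hu.1.2.1
        rw [this, card_empty]
        exact Nat.zero_le _) (by
      rw [numEdges_rst, hKcast]
      linarith) (by
      intro a b hab
      rw [hKcast]
      have hηK : 0 ≤ η * K := by positivity
      by_cases ha : a ∈ W
      · by_cases hb : b ∈ W
        · have h1 := hcod a ha b hb hab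
          have h2 : ((univ.filter fun u => (rst G W).Adj a u ∧ (rst G W).Adj b u).card) ≤
              {u | u ∈ W ∧ G.Adj a u ∧ G.Adj b u}.ncard := by
            rw [← Set.ncard_coe_finset]
            apply Set.ncard_le_ncard _ (Set.toFinite _)
            intro u hu
            rw [mem_coe, mem_filter, rst_adj, rst_adj] at hu
            exact ⟨hu.2.1.2.2, hu.2.1.1, hu.2.2.1⟩
          have h3 : (((univ.filter fun u => (rst G W).Adj a u ∧ (rst G W).Adj b u).card : ℕ) : ℝ)
              ≤ (({u | u ∈ W ∧ G.Adj a u ∧ G.Adj b u}.ncard : ℕ) : ℝ) := by exact_mod_cast h2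
          have h4 : η * (e : ℝ) ≤ η * K := mul_le_mul_of_nonneg_left (by linarith) hη.le
          exact (h3.trans h1).trans h4
        · have : (univ.filter fun u => (rst G W).Adj a u ∧ (rst G W).Adj b u) = ∅ := by
            rw [filter_eq_empty_iff]
            intro u _ hu
            exact hb hu.2.2.1
          rw [this, card_empty, Nat.cast_zero]
          exact hηK
      · have : (univ.filter fun u => (rst G W).Adj a u ∧ (rst G W).Adj b u) = ∅ := by
          rw [filter_eq_empty_iff]
          intro u _ hu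
          exact ha hu.1.2.1
        rw [this, card_empty, Nat.cast_zero]
        exact hηK)
  have hf₀'' : Set.InjOn (fun e : Sym2 V => c (e.map f₀)) (edgesIn G W : Set (Sym2 V)) := by
    intro a ha b hb hab
    exact hf₀' ((mem_rst_edgeSet G W a).2 ((mem_edgesIn G W a).1 ha))
      ((mem_rst_edgeSet G W b).2 ((mem_edgesIn G W b).1 hb)) hab
  obtain ⟨g, hg1, hg2⟩ := extend G W hW c hlow f₀ hf₀ hf₀''
    ((univ : Finset V).card - W.card) univ (subset_univ _)
    (by have := card_le_card (subset_univ W); omega)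
  refine ⟨g, hg1, ?_⟩
  intro a ha b hb hab
  exact hg2 ((mem_edgesIn G univ a).2 ⟨ha, fun _ _ => mem_univ _⟩)
    ((mem_edgesIn G univ b).2 ⟨hb, fun _ _ => mem_univ _⟩) hab

end Pool.Agent.Lib.MP_b1acb3_co.Dgn
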