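import Pool.Agent.Lib.MP_b1acb3_co.Dgn.Stmts

/-!
MP_b1acb3_co, project DGN: the potential after an arbitrary choice from random lists.
-/

set_option autoImplicit false

namespace Pool.Agent.Lib.MP_b1acb3_co.Dgn

open Finset Classical

namespace Pot2Aux

theorem av_nonneg {Ω : Type} [Fintype Ω] {f : Ω → ℝ} (h : ∀ x, 0 ≤ f x) : 0 ≤ av f :=
  div_nonneg (Finset.sum_nonneg fun x _ => h x) (Nat.cast_nonneg _)

theorem av_sum {Ω κ : Type} [Fintype Ω] (s : Finset κ) (F : κ → Ω → ℝ) :
    av (fun x => ∑ k ∈ s, F k x) = ∑ k ∈ s, av (F k) := by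
  unfold av
  rw [Finset.sum_comm, Finset.sum_div]

theorem av_mul {Ω : Type} [Fintype Ω] (a : ℝ) (F : Ω → ℝ) :
    av (fun x => a * F x) = a * av F := by
  unfold av
  rw [← Finset.mul_sum, mul_div_assoc]

/-- exchange of the list entries and the images on `T` -/
noncomputable def sw {V : Type} {n M : ℕ} (T : Finset V) (μ : V → Fin M)
    (x : (V → Fin M → Fin n) × (V → Fin n)) : (V → Fin M → Fin n) × (V → Fin n) :=
  (fun v => if v ∈ T then Function.update (x.1 v) (μ v) (x.2 v) else x.1 v,
   fun v => if v ∈ T then x.1 v (μ v) else x.2 v)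

theorem sw_sw {V : Type} {n M : ℕ} (T : Finset V) (μ : V → Fin M)
    (x : (V → Fin M → Fin n) × (V → Fin n)) : sw T μ (sw T μ x) = x := by
  obtain ⟨a, b⟩ := x
  refine Prod.ext ?_ ?_
  · funext v
    by_cases h : v ∈ T
    · simp [sw, h]
    · simp [sw, h]
  · funext v
    by_cases h : v ∈ T
    · simp [sw, h]
    · simp [sw, h]

theorem av_sw {V : Type} [Fintype V] {n M : ℕ} (hn : 0 < n) (T : Finset V) (μ : V → Fin M)
    (G : (V → Fin n) → ℝ) :
    av (fun Λ : V → Fin M → Fin n => av fun f' : V → Fin n =>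
      G (fun v => if v ∈ T then Λ v (μ v) else f' v)) = av G := by
  have key : ∑ Λ : V → Fin M → Fin n, ∑ f' : V → Fin n,
      G (fun v => if v ∈ T then Λ v (μ v) else f' v)
      = ∑ Λ : V → Fin M → Fin n, ∑ f' : V → Fin n, G f' := by
    rw [← Fintype.sum_prod_type', ← Fintype.sum_prod_type']
    exact Equiv.sum_comp (Function.Involutive.toPerm (sw T μ) (sw_sw T μ))
      (fun x : (V → Fin M → Fin n) × (V → Fin n) => G x.2)
  haveI : Nonempty (Fin n) := ⟨⟨0, hn⟩⟩
  have hC : (Fintype.card (V → Fin M → Fin n) : ℝ) ≠ 0 :=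
    Nat.cast_ne_zero.mpr Fintype.card_ne_zero
  unfold av
  rw [← Finset.sum_div, key, Finset.sum_const, Finset.card_univ, nsmul_eq_mul]
  field_simp

/-- extension of a function on `T` -/
noncomputable def ext {V : Type} {M : ℕ} (hM : 0 < M) (T : Finset V) (μ : T → Fin M) (v : V) :
    Fin M := if h : v ∈ T then μ ⟨v, h⟩ else ⟨0, hM⟩

end Pot2Aux

open Pot2Aux

theorem prfPot2 : StPot2 := by
  intro V ι _ _ n M s A S g hn hM hA hMA hg0 hloc hs E B f hEB
  have hA0 : (0 : ℝ) ≤ A := le_trans zero_le_one hA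
  let tr : ι → (T : Finset V) → (T → Fin M) → (V → Fin M → Fin n) → ℝ := fun i T μ Λ =>
    av fun f' : V → Fin n =>
      g i (mix (E ∪ T) (fun v => if v ∈ T then Λ v (ext hM T μ v) else f v) f')
  have htr0 : ∀ i T μ Λ, 0 ≤ tr i T μ Λ := fun i T μ Λ => av_nonneg fun f' => hg0 i _
  have havtr : ∀ i T μ, Disjoint E T → av (tr i T μ) = av fun f' : V → Fin n =>
      g i (mix E f f') := by
    intro i T μ hET
    rw [← av_sw hn T (ext hM T μ) (fun f' => g i (mix E f f'))]
    congr 1
    funext Λ
    change av _ = av _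
    congr 1
    funext f'
    congr 1
    funext v
    unfold mix
    by_cases hE : v ∈ E
    · have hT : v ∉ T := Finset.disjoint_left.mp hET hE
      simp [hE, hT]
    · by_cases hT : v ∈ T
      · simp [hE, hT]
      · simp [hE, hT]
  refine ⟨fun Λ => ∑ i, ∑ T ∈ (S i ∩ B).powerset, A ^ ((S i \ E).card - T.card) *
    ∑ μ : T → Fin M, tr i T μ Λ, ?_, ?_, ?_⟩
  · intro Λ
    exact Finset.sum_nonneg fun i _ => Finset.sum_nonneg fun T _ =>
      mul_nonneg (pow_nonneg hA0 _) (Finset.sum_nonneg fun μ _ => htr0 i T μ Λ)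
  · rw [av_sum]
    unfold Pot
    rw [Finset.mul_sum]
    refine Finset.sum_le_sum fun i _ => ?_
    rw [av_sum]
    have h1 : ∀ T ∈ (S i ∩ B).powerset,
        av (fun Λ => A ^ ((S i \ E).card - T.card) * ∑ μ : T → Fin M, tr i T μ Λ)
          ≤ A ^ (S i \ E).card * av fun f' : V → Fin n => g i (mix E f f') := by
      intro T hT
      rw [Finset.mem_powerset] at hT
      have hET : Disjoint E T :=
        Finset.disjoint_of_subset_right (hT.trans Finset.inter_subset_right) hEB
      have hle : T.card ≤ (S i \ E).card := by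
        refine Finset.card_le_card fun v hv => ?_
        rw [Finset.mem_sdiff]
        exact ⟨(Finset.mem_inter.mp (hT hv)).1, fun h => Finset.disjoint_left.mp hET h hv⟩
      rw [av_mul, av_sum]
      have h2 : ∑ μ : T → Fin M, av (tr i T μ)
          = (M : ℝ) ^ T.card * av fun f' : V → Fin n => g i (mix E f f') := by
        rw [Finset.sum_congr rfl fun μ _ => havtr i T μ hET, Finset.sum_const, nsmul_eq_mul]
        congr 1
        rw [Finset.card_univ, Fintype.card_fun]
        simp
      rw [h2, ← mul_assoc]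
      refine mul_le_mul_of_nonneg_right ?_ (av_nonneg fun f' => hg0 i _)
      calc A ^ ((S i \ E).card - T.card) * (M : ℝ) ^ T.card
          ≤ A ^ ((S i \ E).card - T.card) * A ^ T.card :=
            mul_le_mul_of_nonneg_left (pow_le_pow_left₀ (Nat.cast_nonneg _) hMA _)
              (pow_nonneg hA0 _)
        _ = A ^ (S i \ E).card := by rw [← pow_add, Nat.sub_add_cancel hle]
    refine (Finset.sum_le_sum h1).trans ?_
    rw [Finset.sum_const, nsmul_eq_mul]
    refine mul_le_mul_of_nonneg_right ?_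
      (mul_nonneg (pow_nonneg hA0 _) (av_nonneg fun f' => hg0 i _))
    rw [Finset.card_powerset]
    push_cast
    exact pow_le_pow_right₀ one_le_two
      ((Finset.card_le_card Finset.inter_subset_left).trans (hs i))
  · intro Λ B' m hB
    unfold Pot
    refine Finset.sum_le_sum fun i _ => ?_
    have hEB' : Disjoint E B' := Finset.disjoint_of_subset_right hB hEB
    have hT : S i ∩ B' ∈ (S i ∩ B).powerset := by
      rw [Finset.mem_powerset]
      exact Finset.inter_subset_inter_left hB
    have hnn : ∀ T ∈ (S i ∩ B).powerset, 0 ≤ A ^ ((S i \ E).card - T.card) *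
        ∑ μ : T → Fin M, tr i T μ Λ := fun T _ =>
      mul_nonneg (pow_nonneg hA0 _) (Finset.sum_nonneg fun μ _ => htr0 i T μ Λ)
    refine le_trans ?_ (Finset.single_le_sum hnn hT)
    have hcard : (S i \ (E ∪ B')).card = (S i \ E).card - (S i ∩ B').card := by
      have h3 : S i \ (E ∪ B') = (S i \ E) \ (S i ∩ B') := by
        ext v
        simp only [Finset.mem_sdiff, Finset.mem_union, Finset.mem_inter]
        tauto
      rw [h3, Finset.card_sdiff_of_subset]
      intro v hv
      rw [Finset.mem_inter] at hv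
      rw [Finset.mem_sdiff]
      exact ⟨hv.1, fun h => Finset.disjoint_left.mp hEB' h hv.2⟩
    rw [hcard]
    refine mul_le_mul_of_nonneg_left ?_ (pow_nonneg hA0 _)
    have hμ : (av fun f' : V → Fin n => g i (mix (E ∪ B')
        (fun v => if v ∈ B' then Λ v (m v) else f v) f'))
        = tr i (S i ∩ B') (fun v => m v) Λ := by
      change av _ = av _
      congr 1
      funext f'
      refine hloc i _ _ fun v hv => ?_
      unfold mix
      by_cases hE : v ∈ E
      · have hB' : v ∉ B' := Finset.disjoint_left.mp hEB' hE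
        simp [hE, hB']
      · by_cases hB' : v ∈ B'
        · simp [hB', hv, Pot2Aux.ext]
        · simp [hE, hB']
    rw [hμ]
    exact Finset.single_le_sum (f := fun μ : (S i ∩ B' : Finset V) → Fin M =>
      tr i (S i ∩ B') μ Λ) (fun μ _ => htr0 i _ μ Λ) (Finset.mem_univ _)

end Pool.Agent.Lib.MP_b1acb3_co.Dgn
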