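import Pool.Agent.Lib.MP_b1acb3_co.Dgn.Stmts

/-!
Embedding one vertex with reserve colours.
-/

set_option autoImplicit false

namespace Pool.Agent.Lib.MP_b1acb3_co.Dgn

open Finset Classical

noncomputable section

namespace ResAux

section basic

variable {Ω : Type} [Fintype Ω]

theorem av_mono {f g : Ω → ℝ} (h : ∀ x, f x ≤ g x) : av f ≤ av g := by
  unfold av
  exact div_le_div_of_nonneg_right (Finset.sum_le_sum fun x _ => h x) (Nat.cast_nonneg _)

theorem av_nonneg {f : Ω → ℝ} (h : ∀ x, 0 ≤ f x) : 0 ≤ av f := by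
  unfold av
  exact div_nonneg (Finset.sum_nonneg fun x _ => h x) (Nat.cast_nonneg _)

theorem av_const [Nonempty Ω] (c : ℝ) : av (fun _ : Ω => c) = c := by
  have h : (Fintype.card Ω : ℝ) ≠ 0 := by
    exact_mod_cast Fintype.card_ne_zero
  unfold av
  rw [Finset.sum_const, Finset.card_univ, nsmul_eq_mul]
  field_simp

theorem av_add (f g : Ω → ℝ) : av (fun x => f x + g x) = av f + av g := by
  unfold av
  rw [Finset.sum_add_distrib, add_div]

theorem av_div (f : Ω → ℝ) (b : ℝ) : av (fun x => f x / b) = av f / b := by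
  unfold av
  rw [← Finset.sum_div, div_right_comm]

theorem av_sum {ι : Type} (s : Finset ι) (f : ι → Ω → ℝ) :
    av (fun x => ∑ i ∈ s, f i x) = ∑ i ∈ s, av (f i) := by
  unfold av
  rw [Finset.sum_comm, Finset.sum_div]

theorem av_comm {α β : Type} [Fintype α] [Fintype β] (f : α → β → ℝ) :
    av (fun a => av (f a)) = av (fun b => av (fun a => f a b)) := by
  unfold av
  rw [← Finset.sum_div, ← Finset.sum_div, Finset.sum_comm, div_div, div_div, mul_comm]

theorem pr_comm {α β : Type} [Fintype α] [Fintype β] (P : α → β → Prop) :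
    av (fun a => pr (P a)) = av (fun b => pr (fun a => P a b)) := by
  unfold pr
  exact av_comm _

theorem pr_nonneg (P : Ω → Prop) : 0 ≤ pr P := by
  unfold pr
  refine av_nonneg fun x => ?_
  split_ifs
  · exact zero_le_one
  · exact le_refl _

theorem pr_mono {P Q : Ω → Prop} (h : ∀ x, P x → Q x) : pr P ≤ pr Q := by
  unfold pr
  refine av_mono fun x => ?_
  by_cases hP : P x
  · rw [if_pos hP, if_pos (h x hP)]
  · rw [if_neg hP]
    split_ifs
    · exact zero_le_one
    · exact le_refl _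

theorem pr_or (P Q : Ω → Prop) : pr (fun x => P x ∨ Q x) ≤ pr P + pr Q := by
  unfold pr
  rw [← av_add]
  refine av_mono fun x => ?_
  by_cases hP : P x <;> by_cases hQ : Q x <;> simp [hP, hQ]

theorem pr_exists {ι : Type} (s : Finset ι) (P : ι → Ω → Prop) :
    pr (fun x => ∃ i ∈ s, P i x) ≤ ∑ i ∈ s, pr (P i) := by
  unfold pr
  rw [← av_sum]
  refine av_mono fun x => ?_
  by_cases h : ∃ i ∈ s, P i x
  · obtain ⟨i, hi, hP⟩ := h
    rw [if_pos ⟨i, hi, hP⟩]
    have h1 : (if P i x then (1 : ℝ) else 0) ≤ ∑ i ∈ s, if P i x then (1 : ℝ) else 0 := by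
      refine Finset.single_le_sum (f := fun i => if P i x then (1 : ℝ) else 0) (fun j _ => ?_) hi
      show 0 ≤ if P j x then (1 : ℝ) else 0
      split_ifs
      · exact zero_le_one
      · exact le_refl _
    rw [if_pos hP] at h1
    exact h1
  · rw [if_neg h]
    refine Finset.sum_nonneg fun j _ => ?_
    split_ifs
    · exact zero_le_one
    · exact le_refl _

theorem markov (f : Ω → ℝ) (hf : ∀ x, 0 ≤ f x) (b : ℝ) (hb : 0 < b) :
    pr (fun x => b < f x) ≤ av f / b := by
  unfold pr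
  rw [← av_div]
  refine av_mono fun x => ?_
  split_ifs with h
  · rw [le_div_iff₀ hb]
    linarith
  · exact div_nonneg (hf x) hb.le

theorem pr_card (P : Ω → Prop) :
    pr P = ((univ.filter P).card : ℝ) / (Fintype.card Ω : ℝ) := by
  unfold pr av
  congr 1
  rw [Finset.sum_boole]

theorem pr_single {n : ℕ} (x : Fin n) : pr (fun z : Fin n => z = x) = 1 / (n : ℝ) := by
  rw [pr_card, Fintype.card_fin]
  congr 1
  norm_cast
  rw [Finset.card_eq_one]
  exact ⟨x, by ext z; simp⟩

end basic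

section loc

variable {V : Type} {n K : ℕ}

theorem ok_congr {c : Sym2 (Fin n) → Fin K} {f f' : V → Fin n} {S : Finset V}
    (h : ∀ v ∈ S, f v = f' v) (C : Finset (Fin K)) (z : Fin n) :
    ok c f S C z ↔ ok c f' S C z := by
  unfold ok
  constructor
  · rintro ⟨h1, h2⟩
    refine ⟨fun w hw => ?_, fun w hw w' hw' e => ?_⟩
    · rw [← h w hw]
      exact h1 w hw
    · rw [← h w hw, ← h w' hw'] at e
      exact h2 w hw w' hw' e
  · rintro ⟨h1, h2⟩
    refine ⟨fun w hw => ?_, fun w hw w' hw' e => ?_⟩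
    · rw [h w hw]
      exact h1 w hw
    · rw [h w hw, h w' hw'] at e
      exact h2 w hw w' hw' e

theorem cols_congr {c : Sym2 (Fin n) → Fin K} {f f' : V → Fin n} {S : Finset V}
    (h : ∀ v ∈ S, f v = f' v) (z : Fin n) : cols c f S z = cols c f' S z := by
  unfold cols
  refine Finset.image_congr fun w hw => ?_
  show c s(f w, z) = c s(f' w, z)
  rw [h w hw]

theorem tm_congr {c : Sym2 (Fin n) → Fin K} {f f' : V → Fin n} {S : Finset V}
    (h : ∀ v ∈ S, f v = f' v) (C : Finset (Fin K)) : tm c f S C = tm c f' S C := by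
  unfold tm
  congr 1
  funext z
  exact propext (ok_congr h C z)

theorem hit_congr {c : Sym2 (Fin n) → Fin K} {f f' : V → Fin n} {S : Finset V}
    (h : ∀ v ∈ S, f v = f' v) (C : Finset (Fin K)) (k : Fin K) :
    hit c f S C k = hit c f' S C k := by
  unfold hit
  congr 1
  funext z
  rw [cols_congr h, propext (ok_congr h C z)]

theorem two_congr {c : Sym2 (Fin n) → Fin K} {f f' : V → Fin n} {S : Finset V}
    (h : ∀ v ∈ S, f v = f' v) (C : Finset (Fin K)) (k l : Fin K) :
    two c f S C k l = two c f' S C k l := by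
  unfold two
  congr 1
  funext z
  rw [cols_congr h, propext (ok_congr h C z)]

theorem two_nonneg (c : Sym2 (Fin n) → Fin K) (f : V → Fin n) (S : Finset V)
    (C : Finset (Fin K)) (k l : Fin K) : 0 ≤ two c f S C k l := pr_nonneg _

theorem gg_loc {V : Type} [Fintype V] (c : Sym2 (Fin n) → Fin K) (H : SimpleGraph V) (p : Par)
    (s : Sch V K) (q : Cst) (φ : Fin K → Fin K) (i : Ix V) (f f' : V → Fin n)
    (h : ∀ v ∈ supp H s i, f v = f' v) : gg c H p s q φ i f = gg c H p s q φ i f' := by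
  rcases i with u | ⟨u, u'⟩
  · have h1 : ∀ v ∈ Nb H s.lev u, f v = f' v := h
    have h2 : NonTwin c H s q f u ↔ NonTwin c H s q f' u := by
      unfold NonTwin
      constructor
      · intro h3 w hw w' hw' hne
        rw [← h1 w hw, ← h1 w' hw']
        exact h3 w hw w' hw' hne
      · intro h3 w hw w' hw' hne
        rw [h1 w hw, h1 w' hw']
        exact h3 w hw w' hw' hne
    have h3 : BadT c H p s q φ f u ↔ BadT c H p s q φ f' u := by
      unfold BadT
      rw [tm_congr h1, tm_congr h1]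
    show (if NonTwin c H s q f u ∧ BadT c H p s q φ f u then (1 : ℝ) else 0) =
      if NonTwin c H s q f' u ∧ BadT c H p s q φ f' u then (1 : ℝ) else 0
    rw [propext h2, propext h3]
  · by_cases hp : pairOK H s u u'
    · have h1 : ∀ v ∈ Nb H s.lev u ∪ Nb H s.lev u', f v = f' v := by
        have h2 : supp H s (Sum.inr (u, u')) = Nb H s.lev u ∪ Nb H s.lev u' := by
          show (if pairOK H s u u' then Nb H s.lev u ∪ Nb H s.lev u' else ∅) = _
          rw [if_pos hp]
        rw [h2] at h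
        exact h
      have h2 : ∀ v ∈ Nb H s.lev u, f v = f' v := fun v hv => h1 v (Finset.mem_union_left _ hv)
      have h3 : ∀ v ∈ Nb H s.lev u', f v = f' v := fun v hv => h1 v (Finset.mem_union_right _ hv)
      have h4 : ∀ C, Yp c f (Nb H s.lev u) (Nb H s.lev u') C =
          Yp c f' (Nb H s.lev u) (Nb H s.lev u') C := by
        intro C
        unfold Yp
        refine Finset.sum_congr rfl fun k _ => ?_
        rw [hit_congr h2, hit_congr h3]
      have h5 : ∀ C, Dp c f (Nb H s.lev u) (Nb H s.lev u') C =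
          Dp c f' (Nb H s.lev u) (Nb H s.lev u') C := by
        intro C
        unfold Dp
        refine Finset.sum_congr rfl fun k _ => Finset.sum_congr rfl fun l _ => ?_
        rw [two_congr h2, two_congr h3]
      simp only [gg]
      rw [h4, h5]
    · simp only [gg]
      rw [if_neg hp, if_neg hp]

theorem gg_nonneg {V : Type} [Fintype V] (c : Sym2 (Fin n) → Fin K) (H : SimpleGraph V)
    (p : Par) (s : Sch V K) (q : Cst) (φ : Fin K → Fin K) (i : Ix V) (f : V → Fin n) :
    0 ≤ gg c H p s q φ i f := by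
  rcases i with u | ⟨u, u'⟩
  · show 0 ≤ (if NonTwin c H s q f u ∧ BadT c H p s q φ f u then (1 : ℝ) else 0)
    split_ifs
    · exact zero_le_one
    · exact le_refl _
  · simp only [gg]
    split_ifs
    · refine add_nonneg (mul_nonneg (Real.sqrt_nonneg _) (sq_nonneg _))
        (div_nonneg ?_ (Real.sqrt_nonneg _))
      unfold Dp
      refine Finset.sum_nonneg fun k _ => Finset.sum_nonneg fun l _ => ?_
      exact mul_nonneg (two_nonneg _ _ _ _ _ _) (two_nonneg _ _ _ _ _ _)
    · exact le_refl _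

end loc

section step

variable {V : Type} [Fintype V] {n K : ℕ} {c : Sym2 (Fin n) → Fin K} {H : SimpleGraph V}
  {p : Par} {s : Sch V K} {q : Cst} {φ : Fin K → Fin K} {E Q : Finset V} {f : V → Fin n} {u : V}

theorem sim_comm (c : Sym2 (Fin n) → Fin K) (x y : Fin n) : sim c x y = sim c y x := by
  unfold sim
  congr 1
  funext z
  exact propext eq_comm

theorem nontwin (hI : Inv c H s q φ E Q f) (hN : Nb H s.lev u ⊆ E) (hβ : q.β0 ≤ q.β1) :
    NonTwin c H s q f u := by
  intro w hw w' hw' hne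
  have h1 := hI.ntw w (hN hw) w' (hN hw') ⟨hne, u, hw, hw'⟩
  have h2 : s.lev w < s.lev u := by
    unfold Nb at hw
    exact (Finset.mem_filter.mp hw).2.2
  have h3 : s.lev w' < s.lev u := by
    unfold Nb at hw'
    exact (Finset.mem_filter.mp hw').2.2
  by_cases h4 : s.lev u ≤ s.t0
  · rw [if_pos h4]
    rw [if_pos ⟨by omega, by omega⟩] at h1
    exact h1
  · rw [if_neg h4]
    split_ifs at h1
    · exact h1.trans hβ
    · exact h1

theorem tot_ge (hA : 1 ≤ q.A) (hn : 0 < n) (hN : Nb H s.lev u ⊆ E)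
    (hT : Tot c H p s q φ E f < 1) (h : NonTwin c H s q f u) :
    ¬ BadT c H p s q φ f u := by
  intro hB
  have : Nonempty (Fin n) := ⟨⟨0, hn⟩⟩
  have h1 : q.A ^ (supp H s (Sum.inl u) \ E).card *
      (av fun f' : V → Fin n => gg c H p s q φ (Sum.inl u) (mix E f f')) ≤
      Tot c H p s q φ E f := by
    unfold Tot Pot
    refine Finset.single_le_sum (f := fun i => q.A ^ (supp H s i \ E).card *
      av fun f' : V → Fin n => gg c H p s q φ i (mix E f f')) (fun i _ => ?_)
      (Finset.mem_univ (Sum.inl u))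
    exact mul_nonneg (pow_nonneg (by linarith) _) (av_nonneg fun f' => gg_nonneg _ _ _ _ _ _ _ _)
  have h2 : supp H s (Sum.inl u) \ E = ∅ := Finset.sdiff_eq_empty_iff_subset.mpr hN
  have h3 : (fun f' : V → Fin n => gg c H p s q φ (Sum.inl u) (mix E f f')) = fun _ => 1 := by
    funext f'
    have h4 : gg c H p s q φ (Sum.inl u) (mix E f f') = gg c H p s q φ (Sum.inl u) f := by
      refine gg_loc _ _ _ _ _ _ _ _ _ fun v hv => ?_
      unfold mix
      rw [if_pos (hN hv)]
    rw [h4]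
    show (if NonTwin c H s q f u ∧ BadT c H p s q φ f u then (1 : ℝ) else 0) = 1
    rw [if_pos ⟨h, hB⟩]
  rw [h2, h3, av_const, Finset.card_empty, pow_zero, one_mul] at h1
  linarith

theorem edge (hI : Inv c H s q φ E Q f) (hN : Nb H s.lev u ⊆ E)
    (hadj : ∀ x y, H.Adj x y → s.lev x ≠ s.lev y) (e : Sym2 V) (he : e ∈ eIn H (insert u E)) :
    ∃ x y, e = s(x, y) ∧ x ∈ Nb H s.lev y ∧ x ∈ E ∧ (y = u ∨ y ∈ E) := by
  have key : ∀ x y, y ∈ insert u E → x ∈ Nb H s.lev y → x ∈ E ∧ (y = u ∨ y ∈ E) := by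
    intro x y hy hx
    rcases Finset.mem_insert.mp hy with h | h
    · rw [h] at hx
      exact ⟨hN hx, Or.inl h⟩
    · exact ⟨hI.back y h hx, Or.inr h⟩
  obtain ⟨h1, h2⟩ := he
  induction e using Sym2.ind with
  | h x y =>
    have h3 : H.Adj x y := h1
    have hx := h2 x (Sym2.mem_mk_left x y)
    have hy := h2 y (Sym2.mem_mk_right x y)
    rcases lt_or_gt_of_ne (hadj x y h3) with h4 | h4
    · have h5 : x ∈ Nb H s.lev y := by
        unfold Nb
        exact Finset.mem_filter.mpr ⟨Finset.mem_univ _, h3.symm, h4⟩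
      exact ⟨x, y, rfl, h5, key x y hy h5⟩
    · have h5 : y ∈ Nb H s.lev x := by
        unfold Nb
        exact Finset.mem_filter.mpr ⟨Finset.mem_univ _, h3, h4⟩
      exact ⟨y, x, Sym2.eq_swap, h5, key y x hx h5⟩

theorem inv_step (hI : Inv c H s q φ E Q f) (hu : u ∉ E) (hN : Nb H s.lev u ⊆ E)
    (hl : ∀ v ∈ E, s.lev v ≤ s.lev u) (hadj : ∀ x y, H.Adj x y → s.lev x ≠ s.lev y) (z : Fin n)
    (hok : ok c f (Nb H s.lev u) (cell φ (resI s)) z)
    (hb : ∀ v ∈ Q, ∀ w' ∈ Nb H s.lev v, ∀ w ∈ Nb H s.lev u, c s(f w, z) ≠ c s(f w', f v))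
    (hc : ∀ w ∈ E, Co H s.lev u w → sim c z (f w) ≤ if s.lev u ≤ s.t0 then q.β0 else q.β1)
    (hd : ∀ v ∈ E, z ≠ f v) :
    Inv c H s q φ (insert u E) (insert u Q) (Function.update f u z) := by
  obtain ⟨g, hg⟩ : ∃ g, g = Function.update f u z := ⟨_, rfl⟩
  have gu : g u = z := by
    rw [hg, Function.update_self]
  have gE : ∀ v ∈ E, g v = f v := by
    intro v hv
    rw [hg, Function.update_of_ne]
    rintro rfl
    exact hu hv
  rw [← hg]
  have sep : ∀ x ∈ Nb H s.lev u, ∀ y ∈ E, ∀ x' ∈ Nb H s.lev y, c s(f x, z) ≠ c s(f x', f y) := by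
    intro x hx y hy x' hx' heq
    by_cases hyQ : y ∈ Q
    · exact hb y hyQ x' hx' x hx heq
    · have h1 := hok.1 x hx
      have h2 := hI.colB y hy hyQ x' hx'
      have h3 := hI.lvB y hy hyQ
      rw [← heq] at h2
      unfold cell at h1 h2
      have h4 := (Finset.mem_filter.mp h1).2
      have h5 := (Finset.mem_filter.mp h2).2
      unfold resI at h4
      exact (Finset.mem_filter.mp h4).2 _ h3 h5
  have simu : ∀ w ∈ E, Co H s.lev u w →
      sim c z (f w) ≤ if s.lev u ≤ s.t0 ∧ s.lev w ≤ s.t0 then q.β0 else q.β1 := by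
    intro w hw hco
    have h1 := hc w hw hco
    have h2 := hl w hw
    split_ifs at h1 ⊢ with h3 h4 h5
    · exact h1
    · exfalso
      apply h4
      omega
    · exfalso
      apply h3
      omega
    · exact h1
  have cosymm : ∀ w w', Co H s.lev w w' → Co H s.lev w' w := by
    rintro w w' ⟨h1, x, h2, h3⟩
    exact ⟨h1.symm, x, h3, h2⟩
  constructor
  · exact Finset.insert_subset_insert u hI.sub
  · intro x hx y hy hxy
    rw [Finset.mem_coe, Finset.mem_insert] at hx hy
    rcases hx with hx | hx <;> rcases hy with hy | hy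
    · rw [hx, hy]
    · rw [hx, gu, gE y hy] at hxy
      exact absurd hxy (hd y hy)
    · rw [hy, gu, gE x hx] at hxy
      exact absurd hxy.symm (hd x hx)
    · rw [gE x hx, gE y hy] at hxy
      exact hI.inj hx hy hxy
  · intro e he e' he' heq
    obtain ⟨x, y, rfl, hxy, hx, hy⟩ := edge hI hN hadj e he
    obtain ⟨x', y', rfl, hxy', hx', hy'⟩ := edge hI hN hadj e' he'
    have heq' : c s(g x, g y) = c s(g x', g y') := heq
    rw [gE x hx, gE x' hx'] at heq'
    rcases hy with hy | hy <;> rcases hy' with hy' | hy'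
    · rw [hy] at heq' hxy ⊢
      rw [hy'] at heq' hxy' ⊢
      rw [gu] at heq'
      rw [hok.2 x hxy x' hxy' heq']
    · rw [hy, gu, gE y' hy'] at heq'
      rw [hy] at hxy
      exact absurd heq' (sep x hxy y' hy' x' hxy')
    · rw [hy', gu, gE y hy] at heq'
      rw [hy'] at hxy'
      exact absurd heq'.symm (sep x' hxy' y hy x hxy)
    · rw [gE y hy, gE y' hy'] at heq'
      refine hI.rain ?_ ?_ heq'
      · refine ⟨he.1, fun v hv => ?_⟩
        rcases Sym2.mem_iff.mp hv with h | h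
        · rw [h]; exact hx
        · rw [h]; exact hy
      · refine ⟨he'.1, fun v hv => ?_⟩
        rcases Sym2.mem_iff.mp hv with h | h
        · rw [h]; exact hx'
        · rw [h]; exact hy'
  · intro v hv
    rcases Finset.mem_insert.mp hv with h | h
    · rw [h]
      exact hN.trans (Finset.subset_insert _ _)
    · exact (hI.back v h).trans (Finset.subset_insert _ _)
  · intro v hv hvQ
    rcases Finset.mem_insert.mp hv with h | h
    · exact absurd (Finset.mem_insert.mpr (Or.inl h)) hvQ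
    · exact hI.lvB v h fun h' => hvQ (Finset.mem_insert.mpr (Or.inr h'))
  · intro v hv hvQ w hw
    rcases Finset.mem_insert.mp hv with h | h
    · exact absurd (Finset.mem_insert.mpr (Or.inl h)) hvQ
    · rw [gE v h, gE w (hI.back v h hw)]
      exact hI.colB v h (fun h' => hvQ (Finset.mem_insert.mpr (Or.inr h'))) w hw
  · intro v hv w hw
    rcases Finset.mem_insert.mp hv with h | h
    · rw [h] at hw ⊢
      rw [gu, gE w (hN hw)]
      exact hok.1 w hw
    · have hE := hI.sub h
      rw [gE v hE, gE w (hI.back v hE hw)]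
      exact hI.colR v h w hw
  · intro w hw w' hw' hco
    rcases Finset.mem_insert.mp hw with h | h <;> rcases Finset.mem_insert.mp hw' with h' | h'
    · exfalso
      apply hco.1
      rw [h, h']
    · rw [h] at hco ⊢
      rw [gu, gE w' h']
      exact simu w' h' hco
    · rw [h'] at hco ⊢
      rw [gu, gE w h, sim_comm]
      have := simu w h (cosymm _ _ hco)
      split_ifs at this ⊢ with h1 h2 h3
      · exact this
      · exact absurd ⟨h1.2, h1.1⟩ h2
      · exact absurd ⟨h3.2, h3.1⟩ h1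
      · exact this
    · rw [gE w h, gE w' h']
      exact hI.ntw w h w' h' hco

theorem sim_av (hE : Env c 1) (x : Fin n) : (av fun z => sim c z x) ≤ 2 / (K : ℝ) := by
  have hn : Nonempty (Fin n) := ⟨x⟩
  have h1 : (av fun z => sim c z x) = av fun y => pr fun z => c s(y, z) = c s(x, y) := by
    rw [← pr_comm fun z y : Fin n => c s(y, z) = c s(x, y)]
    unfold sim
    congr 1
    funext z
    congr 1
    funext y
    rw [Sym2.eq_swap (a := z) (b := y)]
  rw [h1]
  calc (av fun y => pr fun z => c s(y, z) = c s(x, y))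
      ≤ av fun _ : Fin n => 2 / (K : ℝ) := by
        refine av_mono fun y => ?_
        have := hE.up y (c s(x, y))
        have h2 : (1 + 1 : ℝ) = 2 := by norm_num
        rw [h2] at this
        exact this
    _ = 2 / (K : ℝ) := av_const _

end step

end ResAux

/-- Embedding one vertex with reserve colours. -/
theorem prfRes (h : StPot1) : StRes := by
  intro V _ n K c H p s q φ E Q f u β κ θ hE hA hβ0 hβ1 hρ hρ1 hI hu hN hl hadj hβ hκ hθ hsum hAρ hT
  have hn : 0 < n := hE.npos
  have hK : 0 < K := by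
    have := (c s(⟨0, hn⟩, ⟨0, hn⟩)).2
    omega
  have hK' : (0 : ℝ) < K := by exact_mod_cast hK
  have hn' : (0 : ℝ) < n := by exact_mod_cast hn
  have hβpos : 0 < β := by
    rw [hβ]
    split_ifs
    · exact hβ0
    · linarith
  have h1 := ResAux.nontwin (u := u) hI hN hβ1
  have h2 := ResAux.tot_ge hA hn hN hT h1
  have h3 : p.ρ ^ (Nb H s.lev u).card / 2 ≤ pr (ok c f (Nb H s.lev u) (cell φ (resI s))) := by
    by_contra h3
    push Not at h3
    exact h2 (Or.inl h3)
  have hup : ∀ (x : Fin n) (k : Fin K), pr (fun z : Fin n => c s(x, z) = k) ≤ 2 / (K : ℝ) := by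
    intro x k
    have := hE.up x k
    have h4 : (1 + 1 : ℝ) = 2 := by norm_num
    rw [h4] at this
    exact this
  -- the bad events
  obtain ⟨B1, hB1⟩ : ∃ B1 : Fin n → Prop, B1 = fun z => ∃ v ∈ Q, ∃ w' ∈ Nb H s.lev v,
    ∃ w ∈ Nb H s.lev u, c s(f w, z) = c s(f w', f v) := ⟨_, rfl⟩
  obtain ⟨B2, hB2⟩ : ∃ B2 : Fin n → Prop, B2 = fun z => ∃ w ∈ E.filter (fun w => Co H s.lev u w),
    β < sim c z (f w) := ⟨_, rfl⟩
  obtain ⟨B3, hB3⟩ : ∃ B3 : Fin n → Prop, B3 = fun z => ∃ v ∈ E, z = f v := ⟨_, rfl⟩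
  have p1 : pr B1 ≤ 2 * ((Nb H s.lev u).card : ℝ) * θ := by
    rw [hB1]
    calc pr (fun z => ∃ v ∈ Q, ∃ w' ∈ Nb H s.lev v, ∃ w ∈ Nb H s.lev u,
          c s(f w, z) = c s(f w', f v))
        ≤ ∑ v ∈ Q, pr (fun z => ∃ w' ∈ Nb H s.lev v, ∃ w ∈ Nb H s.lev u,
          c s(f w, z) = c s(f w', f v)) := ResAux.pr_exists _ _
      _ ≤ ∑ v ∈ Q, ∑ w' ∈ Nb H s.lev v, pr (fun z => ∃ w ∈ Nb H s.lev u,
          c s(f w, z) = c s(f w', f v)) :=
          Finset.sum_le_sum fun v _ => ResAux.pr_exists _ _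
      _ ≤ ∑ v ∈ Q, ∑ w' ∈ Nb H s.lev v, ∑ w ∈ Nb H s.lev u, pr (fun z =>
          c s(f w, z) = c s(f w', f v)) :=
          Finset.sum_le_sum fun v _ => Finset.sum_le_sum fun w' _ => ResAux.pr_exists _ _
      _ ≤ ∑ v ∈ Q, ∑ w' ∈ Nb H s.lev v, ∑ w ∈ Nb H s.lev u, 2 / (K : ℝ) :=
          Finset.sum_le_sum fun v _ => Finset.sum_le_sum fun w' _ =>
            Finset.sum_le_sum fun w _ => hup _ _
      _ = (2 / (K : ℝ)) * ((Nb H s.lev u).card : ℝ) *
          ((∑ v ∈ Q, (Nb H s.lev v).card : ℕ) : ℝ) := by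
          simp only [Finset.sum_const, nsmul_eq_mul]
          push_cast
          rw [← Finset.sum_mul]
          ring
      _ ≤ (2 / (K : ℝ)) * ((Nb H s.lev u).card : ℝ) * (θ * (K : ℝ)) := by
          refine mul_le_mul_of_nonneg_left hθ ?_
          positivity
      _ = 2 * ((Nb H s.lev u).card : ℝ) * θ := by
          field_simp
  have p2 : pr B2 ≤ 2 * κ / β := by
    rw [hB2]
    calc pr (fun z => ∃ w ∈ E.filter (fun w => Co H s.lev u w), β < sim c z (f w))
        ≤ ∑ w ∈ E.filter (fun w => Co H s.lev u w), pr (fun z => β < sim c z (f w)) :=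
          ResAux.pr_exists _ _
      _ ≤ ∑ w ∈ E.filter (fun w => Co H s.lev u w), (2 / (K : ℝ)) / β := by
          refine Finset.sum_le_sum fun w _ => ?_
          refine (ResAux.markov _ (fun z => ResAux.pr_nonneg _) β hβpos).trans ?_
          exact div_le_div_of_nonneg_right (ResAux.sim_av hE _) hβpos.le
      _ = ((E.filter fun w => Co H s.lev u w).card : ℝ) * ((2 / (K : ℝ)) / β) := by
          rw [Finset.sum_const, nsmul_eq_mul]
      _ ≤ (κ * (K : ℝ)) * ((2 / (K : ℝ)) / β) := by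
          refine mul_le_mul_of_nonneg_right hκ ?_
          positivity
      _ = 2 * κ / β := by
          field_simp
  have p3 : pr B3 ≤ (E.card : ℝ) / (n : ℝ) := by
    rw [hB3]
    calc pr (fun z => ∃ v ∈ E, z = f v)
        ≤ ∑ v ∈ E, pr (fun z => z = f v) := ResAux.pr_exists _ _
      _ = ∑ v ∈ E, 1 / (n : ℝ) := by
          refine Finset.sum_congr rfl fun v _ => ?_
          exact ResAux.pr_single (f v)
      _ = (E.card : ℝ) / (n : ℝ) := by
          rw [Finset.sum_const, nsmul_eq_mul]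
          ring
  obtain ⟨G, hG⟩ : ∃ G : Fin n → Prop, G = fun z =>
    ok c f (Nb H s.lev u) (cell φ (resI s)) z ∧ ¬ B1 z ∧ ¬ B2 z ∧ ¬ B3 z := ⟨_, rfl⟩
  obtain ⟨Z, hZ⟩ : ∃ Z : Finset (Fin n), Z = univ.filter G := ⟨_, rfl⟩
  have p4 : pr (ok c f (Nb H s.lev u) (cell φ (resI s))) ≤ (Z.card : ℝ) / (n : ℝ) +
      (pr B1 + (pr B2 + pr B3)) := by
    have h4 : (Z.card : ℝ) / (n : ℝ) = pr G := by
      rw [ResAux.pr_card, Fintype.card_fin, hZ]
    rw [h4, hG]
    calc pr (ok c f (Nb H s.lev u) (cell φ (resI s)))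
        ≤ pr (fun z => (ok c f (Nb H s.lev u) (cell φ (resI s)) z ∧ ¬ B1 z ∧ ¬ B2 z ∧ ¬ B3 z) ∨
            (B1 z ∨ (B2 z ∨ B3 z))) := by
          refine ResAux.pr_mono fun z hz => ?_
          by_cases a1 : B1 z
          · exact Or.inr (Or.inl a1)
          · by_cases a2 : B2 z
            · exact Or.inr (Or.inr (Or.inl a2))
            · by_cases a3 : B3 z
              · exact Or.inr (Or.inr (Or.inr a3))
              · exact Or.inl ⟨hz, a1, a2, a3⟩
      _ ≤ _ := ResAux.pr_or _ _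
      _ ≤ _ := by
          refine add_le_add_right ?_ _
          refine (ResAux.pr_or _ _).trans ?_
          refine add_le_add_right ?_ _
          exact ResAux.pr_or _ _
  have p5 : p.ρ ^ (Nb H s.lev u).card / 8 ≤ (Z.card : ℝ) / (n : ℝ) := by
    linarith
  have p6 : (n : ℝ) ≤ q.A * (Z.card : ℝ) := by
    rw [le_div_iff₀ hn'] at p5
    have h5 : q.A * (p.ρ ^ (Nb H s.lev u).card / 8 * (n : ℝ)) ≤ q.A * (Z.card : ℝ) :=
      mul_le_mul_of_nonneg_left p5 (by linarith)
    have h6 : 8 * (n : ℝ) ≤ q.A * p.ρ ^ (Nb H s.lev u).card * (n : ℝ) :=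
      mul_le_mul_of_nonneg_right hAρ hn'.le
    linarith
  obtain ⟨z, hz, hpot⟩ := h V (Ix V) n q.A (supp H s) (gg c H p s q φ) hn hA
    (fun i f => ResAux.gg_nonneg _ _ _ _ _ _ _ _)
    (fun i f f' hff => ResAux.gg_loc _ _ _ _ _ _ _ _ _ hff) E f u Z hu p6
  rw [hZ, Finset.mem_filter, hG] at hz
  obtain ⟨_, z1, z2, z3, z4⟩ := hz
  rw [hB1] at z2
  rw [hB2] at z3
  rw [hB3] at z4
  refine ⟨z, ResAux.inv_step hI hu hN hl hadj z z1 ?_ ?_ ?_, hpot⟩
  · intro v hv w' hw' w hw heq
    exact z2 ⟨v, hv, w', hw', w, hw, heq⟩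
  · intro w hw hco
    by_contra h5
    push Not at h5
    rw [← hβ] at h5
    exact z3 ⟨w, Finset.mem_filter.mpr ⟨hw, hco⟩, h5⟩
  · intro v hv heq
    exact z4 ⟨v, hv, heq⟩

end

end Pool.Agent.Lib.MP_b1acb3_co.Dgn
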