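import Pool.Agent.Lib.MP_b1acb3_co.Dgn.Stmts

/-!
MP_b1acb3_co, project DGN: almost all sparse graphs have the property (Theorem C).
-/

set_option autoImplicit false

namespace Pool.Agent.Lib.MP_b1acb3_co.Dgn

open Finset Classical

namespace RndAux

theorem pr_union {Ω : Type} [Fintype Ω] (P A B C : Ω → Prop)
    (h : ∀ x, P x → A x ∨ B x ∨ C x) : pr P ≤ pr A + pr B + pr C := by
  unfold pr av
  rw [← add_div, ← add_div, ← sum_add_distrib, ← sum_add_distrib]
  apply div_le_div_of_nonneg_right _ (Nat.cast_nonneg _)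
  refine sum_le_sum fun x _ => ?_
  have hx := h x
  by_cases hA : A x
  · simp only [hA, if_true]
    have h1 : (if P x then (1 : ℝ) else 0) ≤ 1 := by split_ifs <;> norm_num
    have h2 : (0 : ℝ) ≤ if B x then (1 : ℝ) else 0 := by split_ifs <;> norm_num
    have h3 : (0 : ℝ) ≤ if C x then (1 : ℝ) else 0 := by split_ifs <;> norm_num
    linarith
  · by_cases hB : B x
    · simp only [hB, if_true]
      have h1 : (if P x then (1 : ℝ) else 0) ≤ 1 := by split_ifs <;> norm_num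
      have h2 : (0 : ℝ) ≤ if A x then (1 : ℝ) else 0 := by split_ifs <;> norm_num
      have h3 : (0 : ℝ) ≤ if C x then (1 : ℝ) else 0 := by split_ifs <;> norm_num
      linarith
    · by_cases hC : C x
      · simp only [hC, if_true]
        have h1 : (if P x then (1 : ℝ) else 0) ≤ 1 := by split_ifs <;> norm_num
        have h2 : (0 : ℝ) ≤ if A x then (1 : ℝ) else 0 := by split_ifs <;> norm_num
        have h3 : (0 : ℝ) ≤ if B x then (1 : ℝ) else 0 := by split_ifs <;> norm_num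
        linarith
      · have hP : ¬ P x := fun hp => by
          rcases hx hp with h | h | h
          · exact hA h
          · exact hB h
          · exact hC h
        simp [hA, hB, hC, hP]

/-- the index `i` gives an isolated edge -/
def IsoI {v m : ℕ} (ω : Fin m → Fin v × Fin v) (i : Fin m) : Prop :=
  (ω i).1 ≠ (ω i).2 ∧ ∀ j, j ≠ i →
    (ω j).1 ≠ (ω i).1 ∧ (ω j).1 ≠ (ω i).2 ∧ (ω j).2 ≠ (ω i).1 ∧ (ω j).2 ≠ (ω i).2

/-- the vertices which are not on isolated edges -/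
noncomputable def WW {v m : ℕ} (ω : Fin m → Fin v × Fin v) : Finset (Fin v) :=
  univ.filter fun x => ∀ i, IsoI ω i → x ≠ (ω i).1 ∧ x ≠ (ω i).2

theorem tree {v m : ℕ} (ω : Fin m → Fin v × Fin v) : TreeLikeOutside (grOf ω) (WW ω) := by
  intro X hX
  obtain ⟨x, hx, hxW⟩ := Finset.exists_of_ssubset hX
  refine ⟨x, hx, hxW, ?_⟩
  have h1 : ∃ i, IsoI ω i ∧ (x = (ω i).1 ∨ x = (ω i).2) := by
    by_contra hcon
    apply hxW
    rw [WW, mem_filter]
    refine ⟨mem_univ _, fun i hi => ?_⟩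
    constructor
    · intro h; exact hcon ⟨i, hi, Or.inl h⟩
    · intro h; exact hcon ⟨i, hi, Or.inr h⟩
  obtain ⟨i, hi, hxi⟩ := h1
  rw [Set.ncard_le_one_iff]
  have key : ∀ y, (grOf ω).Adj x y → s((ω i).1, (ω i).2) = s(x, y) := by
    rintro y ⟨-, j, hj⟩
    by_cases hji : j = i
    · rw [← hji]; exact hj
    · exfalso
      obtain ⟨h1, h2, h3, h4⟩ := hi.2 j hji
      have hm : x ∈ s((ω j).1, (ω j).2) := by rw [hj]; exact Sym2.mem_mk_left _ _
      rw [Sym2.mem_iff] at hm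
      rcases hxi with rfl | rfl <;> rcases hm with h | h
      · exact h1 h.symm
      · exact h3 h.symm
      · exact h2 h.symm
      · exact h4 h.symm
  intro a b ha hb
  have h2 := (key a ha.2).symm.trans (key b hb.2)
  rcases Sym2.eq_iff.1 h2 with ⟨-, h⟩ | ⟨h, h'⟩
  · exact h
  · rw [h'] at *
    exact h

theorem edges_in {v m : ℕ} (ω : Fin m → Fin v × Fin v) :
    numEdgesIn (grOf ω) (WW ω) + (univ.filter fun i => IsoI ω i).card ≤ m := by
  have h1 : {e ∈ (grOf ω).edgeSet | ∀ x ∈ e, x ∈ WW ω} ⊆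
      (((univ.filter fun i => ¬ IsoI ω i).image fun i => s((ω i).1, (ω i).2) :
        Finset (Sym2 (Fin v))) : Set (Sym2 (Fin v))) := by
    rintro e ⟨he, hW⟩
    induction e using Sym2.ind with
    | _ x y =>
      rw [SimpleGraph.mem_edgeSet] at he
      obtain ⟨-, i, hi⟩ := he
      rw [coe_image]
      refine ⟨i, ?_, hi⟩
      rw [mem_coe, mem_filter]
      refine ⟨mem_univ _, fun hiso => ?_⟩
      have h3 : (ω i).1 ∈ s(x, y) := by rw [← hi]; exact Sym2.mem_mk_left _ _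
      have h4 := hW _ h3
      rw [WW, mem_filter] at h4
      exact (h4.2 i hiso).1 rfl
  have h2 : numEdgesIn (grOf ω) (WW ω) ≤ (univ.filter fun i => ¬ IsoI ω i).card := by
    unfold numEdgesIn
    refine (Set.ncard_le_ncard h1 (Finset.finite_toSet _)).trans ?_
    rw [Set.ncard_coe_finset]
    exact card_image_le
  have h3 := card_filter_add_card_filter_not (s := (univ : Finset (Fin m))) (fun i => IsoI ω i)
  rw [card_univ, Fintype.card_fin] at h3
  omega

end RndAux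

open RndAux in
theorem prfRnd (hPos : StPos) (hS : StSeq) (hD : StDegR) (hM : StMaxR) (hI : StIsoR) : StRnd := by
  intro ε hε
  obtain ⟨D, hD⟩ := hD ε hε
  obtain ⟨δ, hδ, hI⟩ := hI ε hε
  obtain ⟨η, E0, hη, hPos⟩ := hPos D δ hδ
  obtain ⟨a, v1, ha, hS⟩ := hS ε hε
  have hε' : 0 < ε * a / 3 := by positivity
  obtain ⟨v2, hD⟩ := hD _ hε'
  obtain ⟨v3, hI⟩ := hI _ hε'
  obtain ⟨v4, hM⟩ := hM ε η _ hε hη hε'
  obtain ⟨v5, hv5⟩ := exists_nat_ge ((E0 : ℝ) / ε)
  refine ⟨v1 + v2 + v3 + v4 + v5, fun v m hv h1 h2 => ?_⟩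
  have hS := hS v m (by omega) h2 (fun G => numEdges G = m ∧ ¬ ForcesRainbow G)
  have hD := hD v m (by omega) h2
  have hI := hI v m (by omega) h1 h2
  have hM := hM v m (by omega) h1 h2
  have hE0 : E0 ≤ m := by
    have h3 : (v5 : ℝ) ≤ v := by exact_mod_cast (by omega : v5 ≤ v)
    have h4 : (E0 : ℝ) ≤ ε * v := by
      rw [div_le_iff₀ hε] at hv5
      nlinarith
    exact_mod_cast h4.trans h1
  have hset : {G : SimpleGraph (Fin v) | numEdges G = m ∧ numEdges G = m ∧ ¬ ForcesRainbow G} =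
      {G : SimpleGraph (Fin v) | numEdges G = m ∧ ¬ ForcesRainbow G} := by
    ext G
    simp only [Set.mem_ofPred_eq]
    tauto
  rw [hset] at hS
  have hpr : pr (fun ω : Fin m → Fin v × Fin v =>
      numEdges (grOf ω) = m ∧ ¬ ForcesRainbow (grOf ω)) ≤ ε * a / 3 + ε * a / 3 + ε * a / 3 := by
    refine (pr_union _ (fun ω => ¬ DegenerateIn (grOf ω) univ D)
      (fun ω => ∃ a, η * (m : ℝ) < (({u | (grOf ω).Adj a u}.ncard : ℕ) : ℝ))
      (fun ω => (((univ.filter fun i : Fin m => (ω i).1 ≠ (ω i).2 ∧ ∀ j, j ≠ i →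
        (ω j).1 ≠ (ω i).1 ∧ (ω j).1 ≠ (ω i).2 ∧ (ω j).2 ≠ (ω i).1 ∧ (ω j).2 ≠ (ω i).2).card
          : ℕ) : ℝ) < δ * (m : ℝ)) ?_).trans (add_le_add (add_le_add hD hM) hI)
    rintro ω ⟨hm, hF⟩
    by_contra hcon
    push Not at hcon
    obtain ⟨c1, c2, c3⟩ := hcon
    apply hF
    refine hPos (Fin v) (grOf ω) (WW ω) (tree ω) ?_ (by rw [hm]; exact hE0) ?_ ?_
    · obtain ⟨r, hr, hr'⟩ := c1
      refine ⟨r, hr.mono (by intro x _; simp), fun x _ => ?_⟩
      refine (Set.ncard_le_ncard ?_ (Set.toFinite _)).trans (hr' x (mem_univ _))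
      rintro u ⟨-, hu⟩
      exact ⟨mem_univ _, hu⟩
    · have h3 := edges_in ω
      have h4 : ((numEdgesIn (grOf ω) (WW ω) : ℕ) : ℝ) +
          (((univ.filter fun i => IsoI ω i).card : ℕ) : ℝ) ≤ m := by exact_mod_cast h3
      have h5 : δ * (m : ℝ) ≤ (((univ.filter fun i => IsoI ω i).card : ℕ) : ℝ) := by
        have e : (univ.filter fun i => IsoI ω i) = univ.filter fun i : Fin m =>
            (ω i).1 ≠ (ω i).2 ∧ ∀ j, j ≠ i → (ω j).1 ≠ (ω i).1 ∧ (ω j).1 ≠ (ω i).2 ∧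
              (ω j).2 ≠ (ω i).1 ∧ (ω j).2 ≠ (ω i).2 := by
          ext i
          simp only [mem_filter, IsoI]
        rw [e]
        exact c3
      have h6 : ((numEdgesIn (grOf ω) (WW ω) : ℕ) : ℝ) ≤ m - δ * m := by linarith
      rw [hm]
      have h7 : (0 : ℝ) ≤ m := Nat.cast_nonneg _
      nlinarith [mul_le_mul_of_nonneg_left h6 (by linarith : (0 : ℝ) ≤ 1 + δ),
        mul_nonneg (mul_nonneg hδ.le hδ.le) h7]
    · intro x _ y _ _
      rw [hm]
      refine le_trans ?_ (c2 x)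
      have : {u | u ∈ WW ω ∧ (grOf ω).Adj x u ∧ (grOf ω).Adj y u}.ncard ≤
          {u | (grOf ω).Adj x u}.ncard := by
        refine Set.ncard_le_ncard ?_ (Set.toFinite _)
        rintro u ⟨-, hu, -⟩
        exact hu
      exact_mod_cast this
  have hN : (0 : ℝ) ≤ (({G : SimpleGraph (Fin v) | numEdges G = m}.ncard : ℕ) : ℝ) :=
    Nat.cast_nonneg _
  have h8 := hS.trans (mul_le_mul_of_nonneg_right hpr hN)
  have h9 : a * (({G : SimpleGraph (Fin v) | numEdges G = m ∧ ¬ ForcesRainbow G}.ncard : ℕ) : ℝ)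
      ≤ a * (ε * (({G : SimpleGraph (Fin v) | numEdges G = m}.ncard : ℕ) : ℝ)) := by
    refine h8.trans (le_of_eq ?_)
    ring
  exact le_of_mul_le_mul_left h9 ha

end Pool.Agent.Lib.MP_b1acb3_co.Dgn
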