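import Pool.Agent.Lib.MP_b1acb3_co.Dgn.Stmts

/-!
MP_b1acb3_co, project DGN, module Sched: existence of good schedules.
-/

set_option autoImplicit false

namespace Pool.Agent.Lib.MP_b1acb3_co.Dgn

open Finset Classical

noncomputable section

namespace Sched

variable {V : Type} [Fintype V]

/-! ### Counting edges -/

/-- the ordered pairs of adjacent vertices with decreasing `lev` are at most as many as the
edges -/
theorem card_down (H : SimpleGraph V) (lev : V → ℕ) :
    (univ.filter fun q : V × V => H.Adj q.1 q.2 ∧ lev q.2 < lev q.1).card ≤ numEdges H := by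
  have h1 : (univ.filter fun q : V × V => H.Adj q.1 q.2 ∧ lev q.2 < lev q.1).card =
      ((univ.filter fun q : V × V => H.Adj q.1 q.2 ∧ lev q.2 < lev q.1).image
        fun q => s(q.1, q.2)).card := by
    rw [card_image_of_injOn]
    intro q hq q' hq' h
    have hq1 := (mem_filter.1 (mem_coe.1 hq)).2
    have hq2 := (mem_filter.1 (mem_coe.1 hq')).2
    have h2 : s(q.1, q.2) = s(q'.1, q'.2) := h
    rw [Sym2.eq_iff] at h2
    rcases h2 with ⟨h3, h4⟩ | ⟨h3, h4⟩
    · exact Prod.ext h3 h4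
    · exfalso
      have h5 := hq1.2
      have h6 := hq2.2
      rw [h3, h4] at h5
      omega
  rw [h1]
  unfold numEdges
  rw [← Set.ncard_coe_finset]
  refine Set.ncard_le_ncard ?_ (Set.toFinite _)
  intro e he
  rw [mem_coe, mem_image] at he
  obtain ⟨q, hq, rfl⟩ := he
  rw [SimpleGraph.mem_edgeSet]
  exact (mem_filter.1 hq).2.1

theorem sum_down (H : SimpleGraph V) (lev : V → ℕ) :
    (univ.filter fun q : V × V => H.Adj q.1 q.2 ∧ lev q.2 < lev q.1).card =
      ∑ u, (univ.filter fun w => H.Adj u w ∧ lev w < lev u).card := by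
  rw [← card_sigma]
  refine card_bij (fun q _ => ⟨q.1, q.2⟩) ?_ ?_ ?_
  · intro q hq
    rw [mem_sigma]
    refine ⟨mem_univ _, ?_⟩
    rw [mem_filter]
    exact ⟨mem_univ _, (mem_filter.1 hq).2⟩
  · rintro ⟨a, b⟩ _ ⟨c, d⟩ _ h
    simp only [Sigma.mk.injEq, heq_eq_eq] at h
    exact Prod.ext h.1 h.2
  · rintro ⟨a, b⟩ h
    rw [mem_sigma, mem_filter] at h
    exact ⟨(a, b), mem_filter.2 ⟨mem_univ _, h.2.2⟩, rfl⟩

theorem card_ne (H : SimpleGraph V) (lev : V → ℕ) :
    (univ.filter fun u => (Nb H lev u).Nonempty).card ≤ numEdges H := by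
  refine le_trans ?_ (card_down H lev)
  rw [sum_down]
  rw [card_eq_sum_ones, sum_filter]
  refine sum_le_sum fun u _ => ?_
  split_ifs with h
  · exact card_pos.2 h
  · exact Nat.zero_le _

/-! ### Intervals -/

theorem card_interval {K a b : ℕ} (hb : b ≤ K) :
    (univ.filter fun k : Fin K => a ≤ (k : ℕ) ∧ (k : ℕ) < b).card = b - a := by
  have h1 : (univ.filter fun k : Fin K => a ≤ (k : ℕ) ∧ (k : ℕ) < b).map Fin.valEmbedding =
      Finset.Ico a b := by
    ext x
    rw [mem_map, Finset.mem_Ico]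
    constructor
    · rintro ⟨k, hk, rfl⟩
      exact (mem_filter.1 hk).2
    · rintro ⟨h1, h2⟩
      exact ⟨⟨x, lt_of_lt_of_le h2 hb⟩, mem_filter.2 ⟨mem_univ _, h1, h2⟩, rfl⟩
  rw [← card_map Fin.valEmbedding, h1, Nat.card_Ico]

/-! ### Levels -/

section levels

variable (bc : ℕ → Prop) (N : ℕ) (t r : V → ℕ)

/-- the level -/
def lv (v : V) : ℕ := if bc (t v) then t v * N else t v * N + r v

variable {bc N t r} (hr : ∀ v, r v < N)

omit [Fintype V] in
theorem lv_pos {v : V} (h : bc (t v)) : lv bc N t r v = t v * N := if_pos h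

omit [Fintype V] in
theorem lv_neg {v : V} (h : ¬ bc (t v)) : lv bc N t r v = t v * N + r v := if_neg h

omit [Fintype V] in
theorem lv_lo (v : V) : t v * N ≤ lv bc N t r v := by
  unfold lv
  split_ifs
  · exact le_rfl
  · exact Nat.le_add_right _ _

include hr

omit [Fintype V] in
theorem lv_hi (v : V) : lv bc N t r v < (t v + 1) * N := by
  have h1 := hr v
  unfold lv
  rw [add_mul, one_mul]
  split_ifs
  · omega
  · omega

omit [Fintype V] in
theorem lv_lt {w u : V} (h : t w < t u) : lv bc N t r w < lv bc N t r u :=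
  lt_of_lt_of_le (lv_hi hr w) (le_trans (Nat.mul_le_mul_right N h) (lv_lo u))

omit [Fintype V] in
theorem t_le {w u : V} (h : lv bc N t r w ≤ lv bc N t r u) : t w ≤ t u := by
  by_contra h1
  exact absurd (lv_lt (bc := bc) hr (not_le.1 h1)) (not_lt.2 h)

omit [Fintype V] in
theorem t_eq {w u : V} (h : lv bc N t r w = lv bc N t r u) : t w = t u :=
  le_antisymm (t_le hr h.le) (t_le hr h.ge)

omit [Fintype V] in
theorem lv_div (v : V) : lv bc N t r v / N = t v := by
  refine Nat.div_eq_of_lt_le (lv_lo v) ?_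
  exact lv_hi hr v

omit [Fintype V] in
theorem lv_le_iff (v : V) : lv bc N t r v ≤ N - 1 ↔ t v = 0 ∧ lv bc N t r v ≤ N - 1 := by
  refine ⟨fun h => ⟨?_, h⟩, fun h => h.2⟩
  by_contra h1
  have h2 : 1 * N ≤ t v * N := Nat.mul_le_mul_right N (Nat.one_le_iff_ne_zero.2 h1)
  have h3 := lv_lo (bc := bc) (N := N) (t := t) (r := r) v
  have h4 := hr v
  omega

omit [Fintype V] in
theorem lt_lv_iff (v : V) : N - 1 < lv bc N t r v ↔ 1 ≤ t v := by
  have h4 := hr v
  constructor
  · intro h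
    by_contra h1
    have h2 : t v = 0 := by omega
    have h3 := lv_hi (bc := bc) (t := t) hr v
    rw [h2, zero_add, one_mul] at h3
    omega
  · intro h
    have h2 : 1 * N ≤ t v * N := Nat.mul_le_mul_right N h
    have h3 := lv_lo (bc := bc) (N := N) (t := t) (r := r) v
    omega

end levels

/-! ### The schedule -/

section sched

variable (bc : ℕ → Prop) (N T : ℕ) (t r : V → ℕ) (b : ℕ → ℕ) (K : ℕ)

/-- size of the cell of class `i` -/
def sz (i : ℕ) : ℕ := if bc i then b i * (univ.filter fun v => t v = i).card else 0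

/-- sums of the sizes of the cells before class `i` -/
def ps (i : ℕ) : ℕ := ∑ j ∈ range i, sz bc t b j

/-- the schedule -/
def sch : Sch V K where
  lev := lv bc N t r
  t0 := N - 1
  B := ((range (T + 1)).filter bc).image fun i => i * N
  dg := fun ℓ => b (ℓ / N)
  I := fun ℓ => univ.filter fun k : Fin K =>
    ps bc t b (ℓ / N) ≤ (k : ℕ) ∧ (k : ℕ) < ps bc t b (ℓ / N + 1)

variable {bc N T t r b K}

theorem mem_B {ℓ : ℕ} : ℓ ∈ (sch bc N T t r b K).B ↔ ∃ i, bc i ∧ i ≤ T ∧ i * N = ℓ := by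
  unfold sch
  simp only [mem_image, mem_filter, mem_range]
  constructor
  · rintro ⟨i, ⟨h1, h2⟩, h3⟩
    exact ⟨i, h2, by omega, h3⟩
  · rintro ⟨i, h2, h1, h3⟩
    exact ⟨i, ⟨by omega, h2⟩, h3⟩

theorem card_B : (sch bc N T t r b K).B.card ≤ T + 1 := by
  unfold sch
  refine card_image_le.trans ((card_le_card (filter_subset _ _)).trans ?_)
  rw [card_range]

theorem ps_succ (i : ℕ) : ps bc t b (i + 1) = ps bc t b i + sz bc t b i := sum_range_succ _ _

theorem ps_mono {i j : ℕ} (h : i ≤ j) : ps bc t b i ≤ ps bc t b j :=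
  sum_le_sum_of_subset (range_mono h)

theorem ps_le (H : SimpleGraph V) (hb : ∀ v, bc (t v) →
      (univ.filter fun u => H.Adj v u ∧ t u < t v).card = b (t v)) :
    ps bc t b (T + 1) ≤ numEdges H := by
  refine le_trans ?_ (card_down H t)
  rw [sum_down]
  have h1 : ps bc t b (T + 1) = ∑ i ∈ range (T + 1), ∑ v ∈ univ.filter (fun v => t v = i),
      (if bc (t v) then b (t v) else 0) := by
    refine sum_congr rfl fun i _ => ?_
    unfold sz
    split_ifs with h
    · rw [sum_congr rfl (g := fun _ => b i), sum_const, smul_eq_mul, mul_comm]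
      intro v hv
      rw [(mem_filter.1 hv).2, if_pos h]
    · symm
      refine sum_eq_zero fun v hv => ?_
      rw [(mem_filter.1 hv).2, if_neg h]
  rw [h1]
  have h2 : ∑ i ∈ range (T + 1), ∑ v ∈ univ.filter (fun v => t v = i),
      (if bc (t v) then b (t v) else 0) ≤ ∑ v, (if bc (t v) then b (t v) else 0) := by
    rw [← sum_biUnion]
    · exact sum_le_sum_of_subset (subset_univ _)
    · intro i _ j _ hij
      rw [Function.onFun, disjoint_left]
      intro v hv hv'
      exact hij ((mem_filter.1 hv).2.symm.trans (mem_filter.1 hv').2)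
  refine le_trans h2 (sum_le_sum fun v _ => ?_)
  split_ifs with h
  · exact (hb v h).ge
  · exact Nat.zero_le _

end sched

end Sched

open Sched

theorem prfSched (h : StLayer) : StSched := by
  intro D δ hδ
  refine ⟨6 * D + 1, δ / (1 + δ), by omega, by positivity, ?_, ?_⟩
  · rw [div_le_one (by positivity)]
    linarith
  intro θ hθ
  obtain ⟨T, hT⟩ := h D (θ / 4) (by positivity)
  refine ⟨θ / (4 * ((T : ℝ) + 1)), T + 1, by positivity, ?_⟩
  intro κ η hκ hη
  have hΔ : (0 : ℝ) < ((6 * D + 1 : ℕ) : ℝ) := by positivity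
  obtain ⟨a0, ha0⟩ := hT (κ / ((6 * D + 1 : ℕ) : ℝ)) (by positivity)
  refine ⟨a0, η / ((6 * D + 1 : ℕ) : ℝ) ^ 2, ⌈4 * (a0 : ℝ) ^ 2 / θ⌉₊ + 1, by positivity, ?_⟩
  intro K V _ H r hK hrinj hdeg hedge hcod
  have hK0 : 0 < K := by omega
  have hKR : (0 : ℝ) < (K : ℝ) := by exact_mod_cast hK0
  have hKa : (a0 : ℝ) ^ 2 ≤ θ / 4 * (K : ℝ) := by
    have h1 : 4 * (a0 : ℝ) ^ 2 / θ ≤ (K : ℝ) := by
      refine (Nat.le_ceil _).trans ?_
      exact_mod_cast (by omega : ⌈4 * (a0 : ℝ) ^ 2 / θ⌉₊ ≤ K)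
    rw [div_le_iff₀ hθ] at h1
    linarith
  have hle : numEdges H ≤ K := by
    have h1 : (numEdges H : ℝ) ≤ (K : ℝ) := by
      have h2 : (0 : ℝ) ≤ (numEdges H : ℝ) := by positivity
      nlinarith
    exact_mod_cast h1
  obtain ⟨t, b, L1, L2, L3, L4, L5, L6, L7⟩ := ha0 K V H r hK0 hrinj hdeg hle
  -- the bound for `r`
  obtain ⟨N, hr⟩ : ∃ N, ∀ v, r v < N :=
    ⟨(univ.sup r) + 1, fun v => Nat.lt_succ_of_le (le_sup (mem_univ v))⟩
  set bb : ℝ := θ / (4 * ((T : ℝ) + 1)) with hbb
  have hbb0 : 0 < bb := by positivity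
  let bc : ℕ → Prop := fun i => 2 ≤ i ∧ 1 ≤ b i ∧
    bb * (K : ℝ) ≤ ((b i * (univ.filter fun v => t v = i).card : ℕ) : ℝ)
  have hbc : ∀ i, bc i ↔ (2 ≤ i ∧ 1 ≤ b i ∧
    bb * (K : ℝ) ≤ ((b i * (univ.filter fun v => t v = i).card : ℕ) : ℝ)) := fun i => Iff.rfl
  have hps : ps bc t b (T + 1) ≤ numEdges H := ps_le H fun v hv => (L6 v hv.1).1
  have hne : ∀ i, bc i → ∃ v, t v = i := by
    intro i hi
    by_contra hcon
    push Not at hcon
    have h1 : (univ.filter fun v => t v = i) = ∅ := by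
      rw [filter_eq_empty_iff]
      intro v _
      exact hcon v
    have h2 := hi.2.2
    rw [h1, card_empty, mul_zero, Nat.cast_zero] at h2
    have h3 : 0 < bb * (K : ℝ) := by positivity
    linarith
  -- neighbours
  have hNbT : ∀ u, 2 ≤ t u → Nb H (lv bc N t r) u = univ.filter fun w => H.Adj u w ∧ t w < t u := by
    intro u hu
    ext w
    unfold Nb
    rw [mem_filter, mem_filter]
    constructor
    · rintro ⟨_, h1, h2⟩
      refine ⟨mem_univ _, h1, ?_⟩
      have h3 := t_le hr h2.le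
      rcases Nat.lt_or_eq_of_le h3 with h4 | h4
      · exact h4
      · exfalso
        have h5 := L4 u w h1 h4.symm
        omega
    · rintro ⟨_, h1, h2⟩
      exact ⟨mem_univ _, h1, lv_lt hr h2⟩
  have hNb : ∀ u, 1 ≤ t u → (Nb H (lv bc N t r) u).card ≤ 6 * D := by
    intro u hu
    rcases Nat.lt_or_ge (t u) 2 with h1 | h1
    · have h2 : t u = 1 := by omega
      refine le_trans (card_le_card ?_) (L5 u h2)
      intro w hw
      unfold Nb at hw
      rw [mem_filter] at hw ⊢
      refine ⟨mem_univ _, hw.2.1, ?_⟩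
      have h3 := t_le hr hw.2.2.le
      rcases Nat.lt_or_eq_of_le h3 with h4 | h4
      · exact Or.inl h4
      · right
        refine ⟨h4, ?_⟩
        have h5 := hw.2.2
        have h6 : ¬ bc (t u) := fun h => by
          have := h.1
          omega
        have h7 : ¬ bc (t w) := by rwa [h4]
        rw [lv_neg h6, lv_neg h7, h4] at h5
        omega
    · rw [hNbT u h1, (L6 u h1).1]
      exact (L6 u h1).2
  have hmemB : ∀ u, lv bc N t r u ∈ (sch bc N T t r b K).B ↔ bc (t u) := by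
    intro u
    rw [mem_B]
    constructor
    · rintro ⟨i, hi, -, h1⟩
      have h2 := lv_div (bc := bc) (t := t) hr u
      have hN : 0 < N := lt_of_le_of_lt (Nat.zero_le _) (hr u)
      rw [← h1, Nat.mul_div_cancel _ hN] at h2
      rw [← h2]
      exact hi
    · intro h1
      exact ⟨t u, h1, L1 u, (lv_pos h1).symm⟩
  -- batch levels
  have hB : ∀ ℓ ∈ (sch bc N T t r b K).B, ∃ i, bc i ∧ i ≤ T ∧ ℓ = i * N ∧ ℓ / N = i ∧
      (∃ v, t v = i) ∧ 0 < N := by
    intro ℓ hℓ
    obtain ⟨i, hi, hiT, h1⟩ := mem_B.1 hℓ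
    obtain ⟨v, hv⟩ := hne i hi
    have hN : 0 < N := lt_of_le_of_lt (Nat.zero_le _) (hr v)
    refine ⟨i, hi, hiT, h1.symm, ?_, ⟨v, hv⟩, hN⟩
    rw [← h1, Nat.mul_div_cancel _ hN]
  have hcl : ∀ i, bc i → (univ.filter fun u => lv bc N t r u = i * N) =
      univ.filter fun u => t u = i := by
    intro i hi
    ext u
    rw [mem_filter, mem_filter]
    have hN : 0 < N := lt_of_le_of_lt (Nat.zero_le _) (hr u)
    constructor
    · rintro ⟨_, h1⟩
      refine ⟨mem_univ _, ?_⟩
      have h2 := lv_div (bc := bc) (t := t) hr u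
      rw [h1, Nat.mul_div_cancel _ hN] at h2
      exact h2.symm
    · rintro ⟨_, h1⟩
      refine ⟨mem_univ _, ?_⟩
      rw [lv_pos (by rwa [h1]), h1]
  have hcI : ∀ i, bc i → i ≤ T → (univ.filter fun k : Fin K =>
      ps bc t b i ≤ (k : ℕ) ∧ (k : ℕ) < ps bc t b (i + 1)).card =
        b i * (univ.filter fun v => t v = i).card := by
    intro i hi hiT
    rw [card_interval, ps_succ, Nat.add_sub_cancel_left]
    · exact if_pos hi
    · exact (ps_mono (by omega)).trans (hps.trans hle)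
  refine ⟨sch bc N T t r b K, ?_⟩
  constructor
  · -- adj
    intro u v huv he
    have h1 : lv bc N t r u = lv bc N t r v := he
    have h2 := t_eq hr h1
    have h3 := L4 u v huv h2
    have h4 : ¬ bc (t u) := fun h => by
      have := h.1
      omega
    have h5 : ¬ bc (t v) := by rwa [← h2]
    rw [lv_neg h4, lv_neg h5, h2] at h1
    exact huv.ne (hrinj (by omega))
  · -- single
    intro u v he hB'
    have h1 : lv bc N t r u = lv bc N t r v := he
    have h2 := t_eq hr h1
    have h4 : ¬ bc (t u) := fun h => hB' ((hmemB u).2 h)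
    have h5 : ¬ bc (t v) := by rwa [← h2]
    rw [lv_neg h4, lv_neg h5, h2] at h1
    exact hrinj (by omega)
  · -- late
    intro ℓ hℓ
    obtain ⟨i, hi, -, h1, -, -, hN⟩ := hB ℓ hℓ
    change N - 1 < ℓ
    have h2 : 2 * N ≤ i * N := Nat.mul_le_mul_right N hi.1
    omega
  · -- dpos
    intro ℓ hℓ
    obtain ⟨i, hi, -, -, h2, ⟨v, hv⟩, -⟩ := hB ℓ hℓ
    change 1 ≤ b (ℓ / N) ∧ b (ℓ / N) ≤ 6 * D + 1
    rw [h2]
    refine ⟨hi.2.1, ?_⟩
    have h3 := (L6 v (by rw [hv]; exact hi.1)).2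
    rw [hv] at h3
    omega
  · -- deg
    intro u hu
    have h1 := (hmemB u).1 hu
    change (Nb H (lv bc N t r) u).card = b (lv bc N t r u / N)
    rw [lv_div hr, hNbT u h1.1, (L6 u h1.1).1]
  · -- card
    intro ℓ hℓ
    obtain ⟨i, hi, hiT, h1, h2, -, -⟩ := hB ℓ hℓ
    change (univ.filter fun k : Fin K =>
      ps bc t b (ℓ / N) ≤ (k : ℕ) ∧ (k : ℕ) < ps bc t b (ℓ / N + 1)).card =
      b (ℓ / N) * (univ.filter fun u => lv bc N t r u = ℓ).card
    rw [h2, hcI i hi hiT, h1, hcl i hi]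
  · -- big
    intro ℓ hℓ
    obtain ⟨i, hi, hiT, h1, h2, -, -⟩ := hB ℓ hℓ
    change bb * (K : ℝ) ≤ (((univ.filter fun k : Fin K =>
      ps bc t b (ℓ / N) ≤ (k : ℕ) ∧ (k : ℕ) < ps bc t b (ℓ / N + 1)).card : ℕ) : ℝ)
    rw [h2, hcI i hi hiT]
    exact hi.2.2
  · -- disj
    intro ℓ hℓ ℓ' hℓ' hne'
    obtain ⟨i, hi, hiT, h1, h2, -, -⟩ := hB ℓ hℓ
    obtain ⟨j, hj, hjT, h3, h4, -, -⟩ := hB ℓ' hℓ'
    have hij : i ≠ j := by
      rintro rfl
      exact hne' (h1.trans h3.symm)
    rw [disjoint_left]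
    intro k hk hk'
    change k ∈ univ.filter (fun k : Fin K =>
      ps bc t b (ℓ / N) ≤ (k : ℕ) ∧ (k : ℕ) < ps bc t b (ℓ / N + 1)) at hk
    change k ∈ univ.filter (fun k : Fin K =>
      ps bc t b (ℓ' / N) ≤ (k : ℕ) ∧ (k : ℕ) < ps bc t b (ℓ' / N + 1)) at hk'
    rw [h2, mem_filter] at hk
    rw [h4, mem_filter] at hk'
    rcases Nat.lt_or_gt_of_ne hij with h5 | h5
    · have h6 : ps bc t b (i + 1) ≤ ps bc t b j := ps_mono (by omega)
      omega
    · have h6 : ps bc t b (j + 1) ≤ ps bc t b i := ps_mono (by omega)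
      omega
  · -- res
    have h1 : K - ps bc t b (T + 1) ≤ (resI (sch bc N T t r b K)).card := by
      have h2 : (univ.filter fun k : Fin K =>
          ps bc t b (T + 1) ≤ (k : ℕ) ∧ (k : ℕ) < K).card = K - ps bc t b (T + 1) :=
        card_interval le_rfl
      rw [← h2]
      refine card_le_card ?_
      intro k hk
      rw [mem_filter] at hk
      unfold resI
      rw [mem_filter]
      refine ⟨mem_univ _, fun ℓ hℓ hk' => ?_⟩
      obtain ⟨i, hi, hiT, h3, h4, -, -⟩ := hB ℓ hℓ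
      change k ∈ univ.filter (fun k : Fin K =>
        ps bc t b (ℓ / N) ≤ (k : ℕ) ∧ (k : ℕ) < ps bc t b (ℓ / N + 1)) at hk'
      rw [h4, mem_filter] at hk'
      have h6 : ps bc t b (i + 1) ≤ ps bc t b (T + 1) := ps_mono (by omega)
      omega
    have h2 : K ≤ (resI (sch bc N T t r b K)).card + numEdges H := by omega
    have h3 : (K : ℝ) ≤ ((resI (sch bc N T t r b K)).card : ℝ) + (numEdges H : ℝ) := by
      exact_mod_cast h2
    change δ / (1 + δ) * (K : ℝ) ≤ _
    rw [div_mul_eq_mul_div, div_le_iff₀ (by positivity)]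
    nlinarith
  · -- card0
    refine le_trans (card_le_card ?_) L2
    intro u hu
    rw [mem_filter] at hu ⊢
    refine ⟨mem_univ _, ?_⟩
    exact ((lv_le_iff (bc := bc) hr u).1 hu.2).1
  · -- deg1
    intro u hu
    have h1 := hNb u ((lt_lv_iff (bc := bc) hr u).1 hu)
    change (Nb H (lv bc N t r) u).card ≤ 6 * D + 1
    omega
  · -- co1
    intro w hw
    have h1 := (lt_lv_iff (bc := bc) hr w).1 hw
    have h2 := L3 w h1
    have h3 : (univ.filter fun w' => Co H (lv bc N t r) w w' ∧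
        lv bc N t r w' ≤ lv bc N t r w) ⊆
        ((univ.filter fun u => H.Adj w u).filter fun u => 1 ≤ t u).biUnion
          fun u => Nb H (lv bc N t r) u := by
      intro w' hw'
      rw [mem_filter] at hw'
      obtain ⟨-, ⟨-, u, hu, hu'⟩, -⟩ := hw'
      rw [mem_biUnion]
      refine ⟨u, ?_, hu'⟩
      unfold Nb at hu
      rw [mem_filter] at hu
      rw [mem_filter, mem_filter]
      refine ⟨⟨mem_univ _, hu.2.1.symm⟩, ?_⟩
      exact h1.trans (t_le hr hu.2.2.le)
    have h4 : (univ.filter fun w' => Co H (lv bc N t r) w w' ∧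
        lv bc N t r w' ≤ lv bc N t r w).card ≤
        (univ.filter fun u => H.Adj w u).card * (6 * D + 1) := by
      refine (card_le_card h3).trans (card_biUnion_le.trans ?_)
      refine (sum_le_card_nsmul _ _ (6 * D + 1) ?_).trans ?_
      · intro u hu
        have h5 := hNb u (mem_filter.1 hu).2
        omega
      · rw [smul_eq_mul]
        exact Nat.mul_le_mul_right _ (card_le_card (filter_subset _ _))
    have h5 : ((univ.filter fun w' => Co H (lv bc N t r) w w' ∧
        lv bc N t r w' ≤ lv bc N t r w).card : ℝ) ≤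
        ((univ.filter fun u => H.Adj w u).card : ℝ) * ((6 * D + 1 : ℕ) : ℝ) := by
      exact_mod_cast h4
    change ((univ.filter fun w' => Co H (lv bc N t r) w w' ∧
        lv bc N t r w' ≤ lv bc N t r w).card : ℝ) ≤ κ * (K : ℝ)
    refine h5.trans ?_
    calc ((univ.filter fun u => H.Adj w u).card : ℝ) * ((6 * D + 1 : ℕ) : ℝ)
        ≤ κ / ((6 * D + 1 : ℕ) : ℝ) * (K : ℝ) * ((6 * D + 1 : ℕ) : ℝ) :=
          mul_le_mul_of_nonneg_right h2 hΔ.le
      _ = κ * (K : ℝ) := by field_simp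
  · -- sum2
    have hpt : ∀ u, lv bc N t r u ∉ (sch bc N T t r b K).B →
        ((Nb H (lv bc N t r) u).card : ℝ) ≤
          (if t u = 0 then (a0 : ℝ) else 0) + (if t u = 1 then 6 * (D : ℝ) else 0) +
            (if 2 ≤ t u ∧ ¬ bc (t u) then (b (t u) : ℝ) else 0) := by
      intro u hu
      have hbu : ¬ bc (t u) := fun h => hu ((hmemB u).2 h)
      rcases Nat.lt_or_ge (t u) 1 with h1 | h1
      · have h2 : t u = 0 := by omega
        rw [if_pos h2, if_neg (by omega), if_neg (by omega), add_zero, add_zero]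
        have h3 : (Nb H (lv bc N t r) u).card ≤ a0 := by
          refine le_trans (card_le_card ?_) L2
          intro w hw
          have h4 := t_le hr (mem_filter.1 hw).2.2.le
          exact mem_filter.2 ⟨mem_univ _, by omega⟩
        exact_mod_cast h3
      · rcases Nat.lt_or_ge (t u) 2 with h2 | h2
        · have h3 : t u = 1 := by omega
          rw [if_neg (by omega), if_pos h3, if_neg (by omega), zero_add, add_zero]
          exact_mod_cast hNb u h1
        · rw [if_neg (by omega), if_neg (by omega), if_pos ⟨h2, hbu⟩, zero_add, zero_add,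
            hNbT u h2, (L6 u h2).1]
    have hA : ∑ u, (if t u = 0 then (a0 : ℝ) else 0) ≤ θ / 4 * (K : ℝ) := by
      rw [← sum_filter, sum_const, nsmul_eq_mul]
      have h1 : ((univ.filter fun v => t v = 0).card : ℝ) ≤ (a0 : ℝ) := by exact_mod_cast L2
      calc _ ≤ (a0 : ℝ) * (a0 : ℝ) := mul_le_mul_of_nonneg_right h1 (Nat.cast_nonneg _)
        _ = (a0 : ℝ) ^ 2 := by ring
        _ ≤ _ := hKa
    have hBB : ∑ u, (if t u = 1 then 6 * (D : ℝ) else 0) ≤ θ / 4 * (K : ℝ) := by
      rw [← sum_filter, sum_const, nsmul_eq_mul, mul_comm]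
      exact L7
    have hC : ∑ u, (if 2 ≤ t u ∧ ¬ bc (t u) then (b (t u) : ℝ) else 0) ≤ θ / 4 * (K : ℝ) := by
      rw [← sum_fiberwise_of_maps_to (s := univ) (t := range (T + 1)) (g := t)
        (fun u _ => mem_range.2 (Nat.lt_succ_of_le (L1 u)))]
      have h1 : ∀ i ∈ range (T + 1), ∑ u ∈ univ.filter (fun u => t u = i),
          (if 2 ≤ t u ∧ ¬ bc (t u) then (b (t u) : ℝ) else 0) ≤ bb * (K : ℝ) := by
        intro i _
        have h2 : ∑ u ∈ univ.filter (fun u => t u = i),
            (if 2 ≤ t u ∧ ¬ bc (t u) then (b (t u) : ℝ) else 0) =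
            ((univ.filter fun u => t u = i).card : ℝ) *
              (if 2 ≤ i ∧ ¬ bc i then (b i : ℝ) else 0) := by
          rw [← nsmul_eq_mul, ← sum_const]
          refine sum_congr rfl fun u hu => ?_
          rw [(mem_filter.1 hu).2]
        rw [h2]
        split_ifs with h3
        · by_contra h4
          rw [not_le] at h4
          apply h3.2
          refine ⟨h3.1, ?_, ?_⟩
          · by_contra h5
            have h6 : b i = 0 := by omega
            rw [h6, Nat.cast_zero, mul_zero] at h4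
            have h7 : 0 < bb * (K : ℝ) := by positivity
            linarith
          · rw [Nat.cast_mul, mul_comm (b i : ℝ)]
            exact h4.le
        · rw [mul_zero]
          positivity
      refine (sum_le_sum h1).trans ?_
      rw [sum_const, card_range, nsmul_eq_mul, hbb]
      have h2 : (((T + 1 : ℕ) : ℝ)) = (T : ℝ) + 1 := by push_cast; ring
      rw [h2]
      have h3 : ((T : ℝ) + 1) ≠ 0 := by positivity
      refine le_of_eq ?_
      field_simp
    have h1 : ((∑ u ∈ univ.filter (fun u => lv bc N t r u ∉ (sch bc N T t r b K).B),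
        (Nb H (lv bc N t r) u).card : ℕ) : ℝ) ≤
        ∑ u, ((if t u = 0 then (a0 : ℝ) else 0) + (if t u = 1 then 6 * (D : ℝ) else 0) +
            (if 2 ≤ t u ∧ ¬ bc (t u) then (b (t u) : ℝ) else 0)) := by
      rw [Nat.cast_sum]
      refine (sum_le_sum fun u hu => hpt u (mem_filter.1 hu).2).trans ?_
      refine sum_le_sum_of_subset_of_nonneg (subset_univ _) fun u _ _ => ?_
      positivity
    rw [sum_add_distrib, sum_add_distrib] at h1
    change ((∑ u ∈ univ.filter (fun u => lv bc N t r u ∉ (sch bc N T t r b K).B),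
        (Nb H (lv bc N t r) u).card : ℕ) : ℝ) ≤ θ * (K : ℝ)
    have h2 : 0 < θ * (K : ℝ) := by positivity
    linarith
  · -- cod
    intro u hu
    have h1 := (hmemB u).1 hu
    have h2 : (univ.filter fun u' => lv bc N t r u' = lv bc N t r u ∧ u' ≠ u ∧
        2 ≤ (Nb H (lv bc N t r) u ∩ Nb H (lv bc N t r) u').card) ⊆
        (Nb H (lv bc N t r) u).offDiag.biUnion fun q =>
          univ.filter fun x => H.Adj q.1 x ∧ H.Adj q.2 x := by
      intro u' hu'
      rw [mem_filter] at hu'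
      obtain ⟨-, -, -, h3⟩ := hu'
      obtain ⟨a, ha, a', ha', hne'⟩ := one_lt_card.1 h3
      rw [mem_inter] at ha ha'
      rw [mem_biUnion]
      refine ⟨(a, a'), mem_offDiag.2 ⟨ha.1, ha'.1, hne'⟩, ?_⟩
      rw [mem_filter]
      refine ⟨mem_univ _, ?_, ?_⟩
      · exact (mem_filter.1 ha.2).2.1.symm
      · exact (mem_filter.1 ha'.2).2.1.symm
    have h3 : ((univ.filter fun u' => lv bc N t r u' = lv bc N t r u ∧ u' ≠ u ∧
        2 ≤ (Nb H (lv bc N t r) u ∩ Nb H (lv bc N t r) u').card).card : ℝ) ≤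
        ∑ q ∈ (Nb H (lv bc N t r) u).offDiag,
          ((univ.filter fun x => H.Adj q.1 x ∧ H.Adj q.2 x).card : ℝ) := by
      exact_mod_cast (card_le_card h2).trans card_biUnion_le
    change ((univ.filter fun u' => lv bc N t r u' = lv bc N t r u ∧ u' ≠ u ∧
        2 ≤ (Nb H (lv bc N t r) u ∩ Nb H (lv bc N t r) u').card).card : ℝ) ≤ η * (K : ℝ)
    refine h3.trans ?_
    have h4 : ∀ q ∈ (Nb H (lv bc N t r) u).offDiag,
        ((univ.filter fun x => H.Adj q.1 x ∧ H.Adj q.2 x).card : ℝ) ≤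
          η / ((6 * D + 1 : ℕ) : ℝ) ^ 2 * (K : ℝ) := fun q hq =>
      hcod q.1 q.2 (mem_offDiag.1 hq).2.2
    refine (sum_le_card_nsmul _ _ _ h4).trans ?_
    rw [nsmul_eq_mul]
    have h5 : ((Nb H (lv bc N t r) u).offDiag.card : ℝ) ≤ ((6 * D + 1 : ℕ) : ℝ) ^ 2 := by
      have h6 := hNb u (by have := h1.1; omega)
      have h7 : (Nb H (lv bc N t r) u).offDiag.card ≤ (6 * D + 1) ^ 2 := by
        rw [offDiag_card]
        calc _ ≤ (Nb H (lv bc N t r) u).card * (Nb H (lv bc N t r) u).card := Nat.sub_le _ _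
          _ ≤ (6 * D + 1) * (6 * D + 1) := Nat.mul_le_mul (by omega) (by omega)
          _ = _ := by ring
      exact_mod_cast h7
    calc ((Nb H (lv bc N t r) u).offDiag.card : ℝ) *
          (η / ((6 * D + 1 : ℕ) : ℝ) ^ 2 * (K : ℝ))
        ≤ ((6 * D + 1 : ℕ) : ℝ) ^ 2 * (η / ((6 * D + 1 : ℕ) : ℝ) ^ 2 * (K : ℝ)) :=
          mul_le_mul_of_nonneg_right h5 (by positivity)
      _ = η * (K : ℝ) := by field_simp
  · -- copairs
    intro ℓ hℓ
    obtain ⟨i, hi, hiT, hℓ1, hℓ2, -, hN⟩ := hB ℓ hℓ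
    have h2 : (univ.filter fun q : V × V => lv bc N t r q.1 = ℓ ∧ lv bc N t r q.2 = ℓ ∧
        Co H (lv bc N t r) q.1 q.2) ⊆
        ((univ.filter fun u => (Nb H (lv bc N t r) u).Nonempty).filter fun u =>
          1 ≤ t u).biUnion fun u => Nb H (lv bc N t r) u ×ˢ Nb H (lv bc N t r) u := by
      intro q hq
      rw [mem_filter] at hq
      obtain ⟨-, h3, -, -, u, hu, hu'⟩ := hq
      rw [mem_biUnion]
      refine ⟨u, ?_, mem_product.2 ⟨hu, hu'⟩⟩
      rw [mem_filter, mem_filter]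
      refine ⟨⟨mem_univ _, ⟨q.1, hu⟩⟩, ?_⟩
      have h4 := t_le hr (mem_filter.1 hu).2.2.le
      have h5 := lv_div (bc := bc) (t := t) hr q.1
      rw [h3, hℓ2] at h5
      have := hi.1
      omega
    have h3 : (univ.filter fun q : V × V => lv bc N t r q.1 = ℓ ∧ lv bc N t r q.2 = ℓ ∧
        Co H (lv bc N t r) q.1 q.2).card ≤ K * ((6 * D + 1) * (6 * D + 1)) := by
      refine (card_le_card h2).trans (card_biUnion_le.trans ?_)
      refine (sum_le_card_nsmul _ _ ((6 * D + 1) * (6 * D + 1)) ?_).trans ?_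
      · intro u hu
        have h5 := hNb u (mem_filter.1 hu).2
        rw [card_product]
        exact Nat.mul_le_mul (by omega) (by omega)
      · rw [smul_eq_mul]
        refine Nat.mul_le_mul_right _ ((card_le_card (filter_subset _ _)).trans ?_)
        exact (card_ne H _).trans hle
    have h4 : ((univ.filter fun q : V × V => lv bc N t r q.1 = ℓ ∧ lv bc N t r q.2 = ℓ ∧
        Co H (lv bc N t r) q.1 q.2).card : ℝ) ≤
        (K : ℝ) * (((6 * D + 1 : ℕ) : ℝ) * ((6 * D + 1 : ℕ) : ℝ)) := by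
      exact_mod_cast h3
    change ((univ.filter fun q : V × V => lv bc N t r q.1 = ℓ ∧ lv bc N t r q.2 = ℓ ∧
        Co H (lv bc N t r) q.1 q.2).card : ℝ) ≤ ((6 * D + 1 : ℕ) : ℝ) ^ 2 * (K : ℝ)
    refine h4.trans (le_of_eq ?_)
    ring
  · -- nB
    exact card_B
  · -- nV
    exact (card_ne H _).trans hle

end

end Pool.Agent.Lib.MP_b1acb3_co.Dgn
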