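import Pool.Agent.Lib.MP_b1acb3_co.Dgn.Stmts

/-!
Transfer from sequences of pairs to graphs with `m` edges.
-/

set_option autoImplicit false

namespace Pool.Agent.Lib.MP_b1acb3_co.Dgn

open Finset Classical

noncomputable section

namespace SeqAux

theorem exists_rep {v : ℕ} (e : Sym2 (Fin v)) : ∃ p : Fin v × Fin v, s(p.1, p.2) = e := by
  induction e using Sym2.ind with
  | h x y => exact ⟨(x, y), rfl⟩

/-- a representative of an unordered pair -/
def rep {v : ℕ} (e : Sym2 (Fin v)) : Fin v × Fin v := (exists_rep e).choose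

theorem rep_spec {v : ℕ} (e : Sym2 (Fin v)) : s((rep e).1, (rep e).2) = e :=
  (exists_rep e).choose_spec

/-- the two orientations -/
def orient {v : ℕ} (e : Sym2 (Fin v)) (b : Bool) : Fin v × Fin v :=
  if b = true then rep e else (rep e).swap

theorem orient_spec {v : ℕ} (e : Sym2 (Fin v)) (b : Bool) :
    s((orient e b).1, (orient e b).2) = e := by
  unfold orient
  split_ifs
  · exact rep_spec e
  · rw [Prod.fst_swap, Prod.snd_swap, Sym2.eq_swap]
    exact rep_spec e

theorem orient_inj {v : ℕ} (e : Sym2 (Fin v)) (he : ¬ e.IsDiag) (b b' : Bool)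
    (h : orient e b = orient e b') : b = b' := by
  have h1 : (rep e).1 ≠ (rep e).2 := by
    intro h2
    apply he
    rw [← rep_spec e, Sym2.mk_isDiag_iff]
    exact h2
  cases b <;> cases b'
  · rfl
  · exfalso
    have h2 : (rep e).swap = rep e := h
    exact h1 (congrArg Prod.fst h2).symm
  · exfalso
    have h2 : rep e = (rep e).swap := h
    exact h1 (congrArg Prod.fst h2)
  · rfl

theorem fibre {v m : ℕ} (G : SimpleGraph (Fin v)) (hG : numEdges G = m) :
    m.factorial * 2 ^ m ≤ (univ.filter fun ω : Fin m → Fin v × Fin v => grOf ω = G).card := by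
  have hcard : Fintype.card G.edgeSet = m := by
    rw [← Nat.card_eq_fintype_card, Nat.card_coe_set_eq]
    exact hG
  let e0 : Fin m ≃ G.edgeSet := (Fintype.equivFinOfCardEq hcard).symm
  have h1 : Fintype.card ((Fin m ≃ G.edgeSet) × (Fin m → Bool)) = m.factorial * 2 ^ m := by
    rw [Fintype.card_prod, Fintype.card_equiv e0, Fintype.card_fin, Fintype.card_fun,
      Fintype.card_bool, Fintype.card_fin]
  rw [← h1, ← Finset.card_univ]
  refine Finset.card_le_card_of_injOn
    (fun x i => orient (x.1 i : Sym2 (Fin v)) (x.2 i)) ?_ ?_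
  · rintro ⟨β, b⟩ _
    rw [Finset.mem_coe, Finset.mem_filter]
    refine ⟨Finset.mem_univ _, ?_⟩
    ext x y
    constructor
    · rintro ⟨_, i, hi⟩
      have h2 : s(x, y) = (β i : Sym2 (Fin v)) := by
        rw [← hi]
        exact orient_spec _ _
      have h3 : s(x, y) ∈ G.edgeSet := by
        rw [h2]
        exact (β i).2
      exact h3
    · intro h2
      refine ⟨h2.ne, β.symm ⟨s(x, y), h2⟩, ?_⟩
      have h3 := orient_spec (β (β.symm ⟨s(x, y), h2⟩) : Sym2 (Fin v))
        (b (β.symm ⟨s(x, y), h2⟩))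
      refine h3.trans ?_
      rw [Equiv.apply_symm_apply]
  · rintro ⟨β, b⟩ _ ⟨β', b'⟩ _ h2
    have h3 : ∀ i, (β i : Sym2 (Fin v)) = β' i := by
      intro i
      have h4 := congrFun h2 i
      have h5 := orient_spec (β i : Sym2 (Fin v)) (b i)
      have h6 := orient_spec (β' i : Sym2 (Fin v)) (b' i)
      have h7 : orient (β i : Sym2 (Fin v)) (b i) = orient (β' i : Sym2 (Fin v)) (b' i) := h4
      rw [h7] at h5
      rw [← h5, h6]
    have h4 : β = β' := by
      ext i : 1
      exact Subtype.ext (h3 i)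
    subst h4
    have h5 : b = b' := by
      funext i
      exact orient_inj _ (SimpleGraph.not_isDiag_of_mem_edgeSet G (β i).2) _ _ (congrFun h2 i)
    rw [h5]

theorem many {v m : ℕ} (P : SimpleGraph (Fin v) → Prop) :
    {G : SimpleGraph (Fin v) | numEdges G = m ∧ P G}.ncard * (m.factorial * 2 ^ m) ≤
      (univ.filter fun ω : Fin m → Fin v × Fin v => P (grOf ω)).card := by
  obtain ⟨T, hT⟩ : ∃ T : Finset (SimpleGraph (Fin v)),
    T = univ.filter fun G => numEdges G = m ∧ P G := ⟨_, rfl⟩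
  have h1 : {G : SimpleGraph (Fin v) | numEdges G = m ∧ P G}.ncard = T.card := by
    rw [← Set.ncard_coe_finset]
    congr 1
    ext G
    rw [hT]
    simp
  rw [h1]
  calc T.card * (m.factorial * 2 ^ m)
      ≤ ∑ G ∈ T, (univ.filter fun ω : Fin m → Fin v × Fin v => grOf ω = G).card := by
        rw [← smul_eq_mul]
        refine Finset.card_nsmul_le_sum _ _ _ fun G hG => fibre G ?_
        rw [hT] at hG
        exact (Finset.mem_filter.mp hG).2.1
    _ = (univ.filter fun ω : Fin m → Fin v × Fin v => grOf ω ∈ T).card :=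
        Finset.sum_card_fiberwise_eq_card_filter _ _ _
    _ ≤ _ := by
        refine Finset.card_le_card fun ω hω => ?_
        rw [Finset.mem_filter] at hω ⊢
        have h2 := hω.2
        rw [hT] at h2
        exact ⟨Finset.mem_univ _, (Finset.mem_filter.mp h2).2.2⟩

theorem graphs {v m : ℕ} :
    (v.choose 2).choose m ≤ {G : SimpleGraph (Fin v) | numEdges G = m}.ncard := by
  obtain ⟨D, hD⟩ : ∃ D : Finset (Sym2 (Fin v)), D = univ.filter fun e => ¬ e.IsDiag := ⟨_, rfl⟩
  have h1 : D.card = v.choose 2 := by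
    rw [hD, ← Fintype.card_subtype, Sym2.card_subtype_not_diag, Fintype.card_fin]
  rw [← h1, ← Finset.card_powersetCard, ← Set.ncard_coe_finset]
  refine Set.ncard_le_ncard_of_injOn
    (fun S : Finset (Sym2 (Fin v)) => SimpleGraph.fromEdgeSet (S : Set (Sym2 (Fin v)))) ?_ ?_
    (Set.toFinite _)
  · intro S hS
    rw [Finset.mem_coe, Finset.mem_powersetCard] at hS
    have h2 : (SimpleGraph.fromEdgeSet (S : Set (Sym2 (Fin v)))).edgeSet =
        (S : Set (Sym2 (Fin v))) := by
      rw [SimpleGraph.edgeSet_fromEdgeSet, sdiff_eq_left, Set.disjoint_left]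
      intro e he he'
      have h3 := hS.1 he
      rw [hD] at h3
      exact (Finset.mem_filter.mp h3).2 he'
    show numEdges _ = m
    unfold numEdges
    rw [h2, Set.ncard_coe_finset]
    exact hS.2
  · intro S hS S' hS' h
    rw [Finset.mem_coe, Finset.mem_powersetCard] at hS hS'
    have h2 : ∀ S : Finset (Sym2 (Fin v)), S ⊆ D →
        (SimpleGraph.fromEdgeSet (S : Set (Sym2 (Fin v)))).edgeSet =
        (S : Set (Sym2 (Fin v))) := by
      intro S hS
      rw [SimpleGraph.edgeSet_fromEdgeSet, sdiff_eq_left, Set.disjoint_left]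
      intro e he he'
      have h3 := hS he
      rw [hD] at h3
      exact (Finset.mem_filter.mp h3).2 he'
    have h3 := congrArg SimpleGraph.edgeSet h
    simp only at h3
    rw [h2 S hS.1, h2 S' hS'.1] at h3
    exact Finset.coe_injective h3

theorem prod_bound {v m : ℕ} (C ε : ℝ) (hε : 0 < ε) (hC : C = 1 + 2 / ε) (hv : 2 * C ≤ (v : ℝ))
    (hm : ε * (m : ℝ) ≤ (v : ℝ)) :
    Real.exp (-(2 * C / ε)) * (((v : ℝ) * (v : ℝ)) ^ m) ≤
      ((m.factorial * 2 ^ m * (v.choose 2).choose m : ℕ) : ℝ) := by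
  have hC0 : 0 < C := by
    rw [hC]
    positivity
  have hv0 : (0 : ℝ) < v := by linarith
  have h1 : ((v.choose 2 : ℕ) + 1 - m) ^ m ≤ m.factorial * (v.choose 2).choose m := by
    rw [← Nat.descFactorial_eq_factorial_mul_choose]
    exact Nat.pow_sub_le_descFactorial _ _
  have h2 : ((v : ℝ) * (v : ℝ)) * (1 - C / v) ≤
      2 * (((v.choose 2 : ℕ) + 1 - m : ℕ) : ℝ) := by
    have h3 : ((v.choose 2 : ℕ) : ℝ) + 1 - m ≤ (((v.choose 2 : ℕ) + 1 - m : ℕ) : ℝ) := by
      rw [sub_le_iff_le_add]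
      have h4 : (v.choose 2 : ℕ) + 1 ≤ ((v.choose 2 : ℕ) + 1 - m) + m := by omega
      exact_mod_cast h4
    rw [Nat.cast_choose_two] at h3
    have h5 : ((v : ℝ) * (v : ℝ)) * (1 - C / v) = (v : ℝ) * v - C * v := by
      field_simp
    have h6 : 2 * (m : ℝ) ≤ 2 / ε * v := by
      rw [div_mul_eq_mul_div, le_div_iff₀ hε]
      linarith
    rw [h5, hC]
    linarith
  have h3 : Real.exp (-(2 * (C / v))) ≤ 1 - C / v := by
    have h4 : 0 ≤ C / v := by positivity
    have h5 : C / v ≤ 1 / 2 := by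
      rw [div_le_iff₀ hv0]
      linarith
    have h6 : Real.exp (-(2 * (C / v))) * Real.exp (2 * (C / v)) = 1 := by
      rw [← Real.exp_add]
      simp
    have h7 := Real.add_one_le_exp (2 * (C / v))
    have h8 : 1 ≤ (1 - C / v) * (2 * (C / v) + 1) := by nlinarith
    have h9 : 1 ≤ (1 - C / v) * Real.exp (2 * (C / v)) :=
      h8.trans (mul_le_mul_of_nonneg_left h7 (by linarith))
    exact le_of_mul_le_mul_right (h6.le.trans h9) (Real.exp_pos _)
  have h4 : Real.exp (-(2 * C / ε)) ≤ (1 - C / v) ^ m := by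
    refine le_trans ?_ (pow_le_pow_left₀ (Real.exp_pos _).le h3 m)
    rw [← Real.exp_nat_mul, Real.exp_le_exp]
    have h5 : (m : ℝ) / v ≤ 1 / ε := by
      rw [div_le_div_iff₀ hv0 hε]
      linarith
    have h6 : (m : ℝ) * -(2 * (C / v)) = -(2 * C * (m / v)) := by ring
    have h7 : 2 * C * ((m : ℝ) / v) ≤ 2 * C * (1 / ε) :=
      mul_le_mul_of_nonneg_left h5 (by positivity)
    rw [h6]
    have h8 : 2 * C / ε = 2 * C * (1 / ε) := by ring
    rw [h8]
    linarith
  calc Real.exp (-(2 * C / ε)) * (((v : ℝ) * (v : ℝ)) ^ m)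
      ≤ (1 - C / v) ^ m * (((v : ℝ) * (v : ℝ)) ^ m) :=
        mul_le_mul_of_nonneg_right h4 (by positivity)
    _ = (((v : ℝ) * (v : ℝ)) * (1 - C / v)) ^ m := by
        rw [mul_pow ((v : ℝ) * (v : ℝ)) (1 - C / v) m]
        exact mul_comm _ _
    _ ≤ (2 * (((v.choose 2 : ℕ) + 1 - m : ℕ) : ℝ)) ^ m := by
        refine pow_le_pow_left₀ ?_ h2 m
        refine mul_nonneg (by positivity) ?_
        exact (Real.exp_pos _).le.trans h3
    _ = 2 ^ m * ((((v.choose 2 : ℕ) + 1 - m) ^ m : ℕ) : ℝ) := by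
        rw [mul_pow]
        push_cast
        ring
    _ ≤ 2 ^ m * ((m.factorial * (v.choose 2).choose m : ℕ) : ℝ) := by
        refine mul_le_mul_of_nonneg_left ?_ (by positivity)
        exact_mod_cast h1
    _ = ((m.factorial * 2 ^ m * (v.choose 2).choose m : ℕ) : ℝ) := by
        push_cast
        ring

end SeqAux

/-- Transfer from sequences of pairs to graphs with `m` edges. -/
theorem prfSeq : StSeq := by
  intro ε hε
  obtain ⟨C, hC⟩ : ∃ C : ℝ, C = 1 + 2 / ε := ⟨_, rfl⟩
  obtain ⟨v0, hv0⟩ := exists_nat_ge (2 * C)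
  have hC0 : 0 < C := by
    rw [hC]
    positivity
  refine ⟨Real.exp (-(2 * C / ε)), v0, Real.exp_pos _, ?_⟩
  intro v m hv hm P
  have hv' : 2 * C ≤ (v : ℝ) := hv0.trans (by exact_mod_cast hv)
  have hvpos : (0 : ℝ) < v := by linarith
  have h1 := SeqAux.prod_bound C ε hε hC hv' hm
  have h2 := SeqAux.many (v := v) (m := m) P
  have h3 := SeqAux.graphs (v := v) (m := m)
  have h4 : pr (fun ω : Fin m → Fin v × Fin v => P (grOf ω)) =
      ((univ.filter fun ω : Fin m → Fin v × Fin v => P (grOf ω)).card : ℝ) /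
        (((v : ℝ) * (v : ℝ)) ^ m) := by
    unfold pr av
    rw [Finset.sum_boole, Fintype.card_fun, Fintype.card_prod, Fintype.card_fin, Fintype.card_fin]
    push_cast
    rfl
  rw [h4, div_mul_eq_mul_div, le_div_iff₀ (by positivity)]
  have h5 : (({G : SimpleGraph (Fin v) | numEdges G = m ∧ P G}.ncard : ℕ) : ℝ) *
      ((m.factorial * 2 ^ m : ℕ) : ℝ) ≤
      ((univ.filter fun ω : Fin m → Fin v × Fin v => P (grOf ω)).card : ℝ) := by
    exact_mod_cast h2
  have h6 : ((v.choose 2).choose m : ℝ) ≤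
      (({G : SimpleGraph (Fin v) | numEdges G = m}.ncard : ℕ) : ℝ) := by
    exact_mod_cast h3
  calc Real.exp (-(2 * C / ε)) *
        (({G : SimpleGraph (Fin v) | numEdges G = m ∧ P G}.ncard : ℕ) : ℝ) *
        (((v : ℝ) * (v : ℝ)) ^ m)
      = (({G : SimpleGraph (Fin v) | numEdges G = m ∧ P G}.ncard : ℕ) : ℝ) *
        (Real.exp (-(2 * C / ε)) * (((v : ℝ) * (v : ℝ)) ^ m)) := by ring
    _ ≤ (({G : SimpleGraph (Fin v) | numEdges G = m ∧ P G}.ncard : ℕ) : ℝ) *
        ((m.factorial * 2 ^ m * (v.choose 2).choose m : ℕ) : ℝ) :=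
        mul_le_mul_of_nonneg_left h1 (Nat.cast_nonneg _)
    _ = ((({G : SimpleGraph (Fin v) | numEdges G = m ∧ P G}.ncard : ℕ) : ℝ) *
        ((m.factorial * 2 ^ m : ℕ) : ℝ)) * ((v.choose 2).choose m : ℝ) := by
        push_cast
        ring
    _ ≤ ((univ.filter fun ω : Fin m → Fin v × Fin v => P (grOf ω)).card : ℝ) *
        (({G : SimpleGraph (Fin v) | numEdges G = m}.ncard : ℕ) : ℝ) :=
        mul_le_mul h5 h6 (Nat.cast_nonneg _) (Nat.cast_nonneg _)

end

end Pool.Agent.Lib.MP_b1acb3_co.Dgn
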