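import Pool.Agent.Lib.MP_b1acb3_co.Dgn.Stmts

/-!
MP_b1acb3_co, project DGN: concentration of the number of admissible images (module T).
-/

set_option autoImplicit false

namespace Pool.Agent.Lib.MP_b1acb3_co.Dgn

open Finset Classical

noncomputable section

namespace TAux

variable {Ω Ω' : Type} [Fintype Ω] [Fintype Ω']

theorem av_mono {f g : Ω → ℝ} (h : ∀ x, f x ≤ g x) : av f ≤ av g := by
  unfold av
  exact div_le_div_of_nonneg_right (Finset.sum_le_sum fun x _ => h x) (Nat.cast_nonneg _)

theorem pr_mono {P Q : Ω → Prop} (h : ∀ x, P x → Q x) : pr P ≤ pr Q := by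
  unfold pr
  apply av_mono
  intro x
  by_cases hP : P x
  · simp [hP, h x hP]
  · by_cases hQ : Q x <;> simp [hP, hQ]

theorem av_sum {ι : Type} (s : Finset ι) (f : ι → Ω → ℝ) :
    av (fun x => ∑ i ∈ s, f i x) = ∑ i ∈ s, av (f i) := by
  unfold av
  rw [Finset.sum_comm, Finset.sum_div]

theorem av_add (f g : Ω → ℝ) : av (fun x => f x + g x) = av f + av g := by
  unfold av
  rw [Finset.sum_add_distrib, add_div]

theorem av_sub (f g : Ω → ℝ) : av (fun x => f x - g x) = av f - av g := by
  unfold av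
  rw [Finset.sum_sub_distrib, sub_div]

theorem av_neg (f : Ω → ℝ) : av (fun x => - f x) = - av f := by
  unfold av
  rw [Finset.sum_neg_distrib, neg_div]

theorem av_mul (a : ℝ) (f : Ω → ℝ) : av (fun x => a * f x) = a * av f := by
  unfold av
  rw [← Finset.mul_sum, mul_div_assoc]

theorem av_comm (f : Ω → Ω' → ℝ) :
    av (fun x => av (fun y => f x y)) = av (fun y => av (fun x => f x y)) := by
  unfold av
  rw [← Finset.sum_div, ← Finset.sum_div, Finset.sum_comm, div_div, div_div, mul_comm]

theorem av_one [Nonempty Ω] : av (fun _ : Ω => (1 : ℝ)) = 1 := by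
  unfold av
  rw [Finset.sum_const, Finset.card_univ, nsmul_eq_mul, mul_one, div_self]
  exact Nat.cast_ne_zero.2 Fintype.card_ne_zero

theorem pr_ex {ι : Type} (s : Finset ι) (P : ι → Ω → Prop) :
    pr (fun x => ∃ i ∈ s, P i x) ≤ ∑ i ∈ s, pr (P i) := by
  unfold pr
  rw [← av_sum]
  apply av_mono
  intro x
  have hnn : ∀ i ∈ s, (0 : ℝ) ≤ if P i x then (1 : ℝ) else 0 := by
    intro i _
    split_ifs <;> norm_num
  by_cases h : ∃ i ∈ s, P i x
  · rw [if_pos h]
    obtain ⟨i, hi, hP⟩ := h
    have := Finset.single_le_sum hnn hi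
    rw [if_pos hP] at this
    exact this
  · rw [if_neg h]
    exact Finset.sum_nonneg hnn

theorem pr_or (P Q : Ω → Prop) : pr (fun x => P x ∨ Q x) ≤ pr P + pr Q := by
  unfold pr
  rw [← av_add]
  apply av_mono
  intro x
  by_cases hP : P x <;> by_cases hQ : Q x <;> simp [hP, hQ]

theorem abs_av (f : Ω → ℝ) : |av f| ≤ av (fun x => |f x|) := by
  unfold av
  rw [abs_div, Nat.abs_cast]
  exact div_le_div_of_nonneg_right (Finset.abs_sum_le_sum_abs _ _) (Nat.cast_nonneg _)

theorem av_prod {K : ℕ} (g : Fin K → Fin K → ℝ) :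
    av (fun φ : Fin K → Fin K => ∏ k, g k (φ k)) = ∏ k, av (g k) := by
  unfold av
  rw [Finset.prod_div_distrib, Finset.prod_const, Finset.card_univ, Fintype.card_fin,
    Fintype.card_fun, Fintype.card_fin, Finset.prod_univ_sum, Fintype.piFinset_univ]
  push_cast
  rfl

/-- indicator -/
def ind (P : Prop) : ℝ := @ite ℝ P (propDecidable P) 1 0

theorem ind_pos {P : Prop} (h : P) : ind P = 1 := if_pos h

theorem ind_neg {P : Prop} (h : ¬ P) : ind P = 0 := if_neg h

theorem pr_eq (P : Ω → Prop) : pr P = av (fun x => ind (P x)) := rfl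

/-- probability that given distinct colours are mapped into `I` -/
theorem pr_cell {K : ℕ} (hK : 0 < K) (T I : Finset (Fin K)) :
    pr (fun φ : Fin K → Fin K => ∀ k ∈ T, φ k ∈ I) = ((I.card : ℝ) / (K : ℝ)) ^ T.card := by
  have h1 : pr (fun φ : Fin K → Fin K => ∀ k ∈ T, φ k ∈ I) =
      av (fun φ : Fin K → Fin K =>
        ∏ k, (fun k j => if k ∈ T → j ∈ I then (1 : ℝ) else 0) k (φ k)) := by
    unfold pr
    congr 1
    funext φ
    by_cases h : ∀ k ∈ T, φ k ∈ I
    · rw [if_pos h]
      symm
      apply Finset.prod_eq_one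
      intro k _
      exact if_pos (h k)
    · rw [if_neg h]
      push Not at h
      obtain ⟨k, hk, hk'⟩ := h
      symm
      apply Finset.prod_eq_zero (Finset.mem_univ k)
      exact if_neg (fun hh => hk' (hh hk))
  rw [h1]
  refine (av_prod (fun k j => if k ∈ T → j ∈ I then (1 : ℝ) else 0)).trans ?_
  have h2 : ∀ k : Fin K, av ((fun k j => if k ∈ T → j ∈ I then (1 : ℝ) else 0) k)
      = if k ∈ T then (I.card : ℝ) / (K : ℝ) else 1 := by
    intro k
    by_cases hk : k ∈ T
    · rw [if_pos hk]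
      unfold av
      simp only [hk, forall_true_left]
      rw [Fintype.card_fin, Finset.sum_ite_mem, Finset.univ_inter, Finset.sum_const, nsmul_eq_mul,
        mul_one]
    · rw [if_neg hk]
      have : Nonempty (Fin K) := ⟨⟨0, hK⟩⟩
      have h3 : (fun k j => if k ∈ T → j ∈ I then (1 : ℝ) else 0) k = fun _ : Fin K => (1 : ℝ) := by
        funext j
        simp [hk]
      rw [h3, av_one]
  rw [Finset.prod_congr rfl (fun k _ => h2 k), Finset.prod_ite_mem, Finset.univ_inter,
    Finset.prod_const]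

end TAux

open TAux in
theorem prfT (hM : StMcD) : StT := by
  intro n K c hE V _ f S I β t hS hβ ht hsim
  have hn : 0 < n := hE.npos
  have hK : 0 < K := lt_of_le_of_lt (Nat.zero_le _) (c s(⟨0, hn⟩, ⟨0, hn⟩)).2
  have hKr : (0 : ℝ) < (K : ℝ) := Nat.cast_pos.2 hK
  have : Nonempty (Fin K) := ⟨⟨0, hK⟩⟩
  have : Nonempty (Fin n) := ⟨⟨0, hn⟩⟩
  have ha : 0 < S.card := Finset.card_pos.2 hS
  have har : (0 : ℝ) < (S.card : ℝ) := Nat.cast_pos.2 ha
  set γ : ℝ := (I.card : ℝ) / (K : ℝ) with hγ
  have hγ0 : 0 ≤ γ := by positivity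
  have hγ1 : γ ≤ 1 := by
    rw [hγ, div_le_one hKr]
    have := Finset.card_le_univ I
    rw [Fintype.card_fin] at this
    exact_mod_cast this
  set F : (Fin K → Fin K) → ℝ := fun φ => tm c f S (cell φ I) with hF
  -- injectivity of the colours
  set inj : Fin n → Prop := fun z => ∀ w ∈ S, ∀ w' ∈ S, c s(f w, z) = c s(f w', z) → w = w'
    with hinj
  have hok : ∀ φ z, ok c f S (cell φ I) z ↔ (∀ k ∈ S.image (fun w => c s(f w, z)), φ k ∈ I) ∧
      inj z := by
    intro φ z
    unfold ok
    rw [hinj]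
    constructor
    · rintro ⟨h1, h2⟩
      refine ⟨?_, h2⟩
      intro k hk
      rw [Finset.mem_image] at hk
      obtain ⟨w, hw, rfl⟩ := hk
      have := h1 w hw
      rw [cell, Finset.mem_filter] at this
      exact this.2
    · rintro ⟨h1, h2⟩
      refine ⟨?_, h2⟩
      intro w hw
      rw [cell, Finset.mem_filter]
      exact ⟨Finset.mem_univ _, h1 _ (Finset.mem_image_of_mem _ hw)⟩
  have hin : ∀ z, av (fun φ : Fin K → Fin K => ind (ok c f S (cell φ I) z))
      = γ ^ S.card * ind (inj z) := by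
    intro z
    by_cases hz : inj z
    · rw [ind_pos hz, mul_one]
      have hcard : (S.image (fun w => c s(f w, z))).card = S.card := by
        apply Finset.card_image_of_injOn
        intro w hw w' hw' h
        exact hz w hw w' hw' h
      rw [← hcard, hγ, ← pr_cell hK, pr_eq]
      congr 1
      funext φ
      congr 1
      rw [hok]
      simp [hz]
    · rw [ind_neg hz, mul_zero]
      have h0 : (fun φ : Fin K → Fin K => ind (ok c f S (cell φ I) z))
          = fun _ => (0 : ℝ) := by
        funext φ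
        apply ind_neg
        rw [hok]
        exact fun h => hz h.2
      rw [h0]
      simp [av]
  have hav : av F = γ ^ S.card * pr inj := by
    have e1 : av F = av (fun φ : Fin K → Fin K => av (fun z => ind (ok c f S (cell φ I) z))) := rfl
    rw [e1, av_comm, pr_eq, ← av_mul]
    congr 1
    funext z
    exact hin z
  have hpr : 1 - (S.card : ℝ) ^ 2 * β ≤ pr inj := by
    have h1 : pr (fun z => ¬ inj z) ≤ (S.card : ℝ) ^ 2 * β := by
      have h2 : pr (fun z => ¬ inj z) ≤ pr (fun z => ∃ p ∈ (S ×ˢ S).filter (fun p => p.1 ≠ p.2),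
          c s(f p.1, z) = c s(f p.2, z)) := by
        apply pr_mono
        intro z hz
        rw [hinj] at hz
        push Not at hz
        obtain ⟨w, hw, w', hw', h, hne⟩ := hz
        exact ⟨(w, w'), Finset.mem_filter.2 ⟨Finset.mem_product.2 ⟨hw, hw'⟩, hne⟩, h⟩
      refine h2.trans ((pr_ex _ _).trans ?_)
      have h3 : ∀ p ∈ (S ×ˢ S).filter (fun p => p.1 ≠ p.2),
          pr (fun z => c s(f p.1, z) = c s(f p.2, z)) ≤ β := by
        intro p hp
        rw [Finset.mem_filter, Finset.mem_product] at hp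
        exact hsim p.1 hp.1.1 p.2 hp.1.2 hp.2
      refine (Finset.sum_le_card_nsmul _ _ _ h3).trans ?_
      rw [nsmul_eq_mul]
      apply mul_le_mul_of_nonneg_right _ hβ
      have h4 := Finset.card_filter_le (S ×ˢ S) (fun p => p.1 ≠ p.2)
      rw [Finset.card_product] at h4
      calc (((S ×ˢ S).filter (fun p => p.1 ≠ p.2)).card : ℝ) ≤ ((S.card * S.card : ℕ) : ℝ) := by
            exact_mod_cast h4
        _ = (S.card : ℝ) ^ 2 := by push_cast; ring
    have h5 : pr inj + pr (fun z => ¬ inj z) = 1 := by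
      rw [pr_eq, pr_eq, ← av_add]
      refine Eq.trans ?_ (av_one (Ω := Fin n))
      congr 1
      funext z
      by_cases hz : inj z
      · rw [ind_pos hz, ind_neg (not_not.2 hz), add_zero]
      · rw [ind_neg hz, ind_pos hz, zero_add]
    linarith
  have hpr1 : pr inj ≤ 1 := by
    rw [pr_eq]
    refine le_trans ?_ (le_of_eq (av_one (Ω := Fin n)))
    apply av_mono
    intro z
    by_cases hz : inj z
    · rw [ind_pos hz]
    · rw [ind_neg hz]
      norm_num
  have hdev : |av F - γ ^ S.card| ≤ (S.card : ℝ) ^ 2 * β := by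
    have h1 : av F - γ ^ S.card = - (γ ^ S.card * (1 - pr inj)) := by rw [hav]; ring
    rw [h1, abs_neg, abs_of_nonneg (mul_nonneg (pow_nonneg hγ0 _) (by linarith))]
    have h2 : γ ^ S.card ≤ 1 := pow_le_one₀ hγ0 hγ1
    have h3 : 0 ≤ 1 - pr inj := by linarith
    calc γ ^ S.card * (1 - pr inj) ≤ 1 * (1 - pr inj) := mul_le_mul_of_nonneg_right h2 h3
      _ ≤ _ := by linarith
  -- bounded differences
  have hbd : ∀ φ (k : Fin K) (b : Fin K), |F (Function.update φ k b) - F φ| ≤
      2 * (S.card : ℝ) / (K : ℝ) := by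
    intro φ k b
    rw [hF]
    simp only [tm]
    unfold pr
    rw [← av_sub]
    refine (abs_av _).trans ?_
    have h1 : av (fun z : Fin n => |(if ok c f S (cell (Function.update φ k b) I) z then (1 : ℝ)
        else 0) - (if ok c f S (cell φ I) z then (1 : ℝ) else 0)|)
        ≤ pr (fun z : Fin n => ∃ w ∈ S, c s(f w, z) = k) := by
      unfold pr
      apply av_mono
      intro z
      by_cases hz : ∃ w ∈ S, c s(f w, z) = k
      · rw [if_pos hz]
        split_ifs <;> norm_num
      · rw [if_neg hz]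
        have h2 : ok c f S (cell (Function.update φ k b) I) z ↔ ok c f S (cell φ I) z := by
          rw [hok, hok]
          apply and_congr_left'
          apply forall₂_congr
          intro j hj
          rw [Finset.mem_image] at hj
          obtain ⟨w, hw, rfl⟩ := hj
          have hne : c s(f w, z) ≠ k := fun h => hz ⟨w, hw, h⟩
          rw [Function.update_of_ne hne]
        by_cases h3 : ok c f S (cell φ I) z
        · rw [if_pos h3, if_pos (h2.2 h3)]
          norm_num
        · rw [if_neg h3, if_neg (fun h => h3 (h2.1 h))]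
          norm_num
    refine h1.trans ((pr_ex _ _).trans ?_)
    refine (Finset.sum_le_card_nsmul _ _ ((1 + 1) / (K : ℝ)) (fun w _ => hE.up (f w) k)).trans ?_
    rw [nsmul_eq_mul]
    apply le_of_eq
    ring
  have hsum : ∑ _i : Fin K, (2 * (S.card : ℝ) / (K : ℝ)) ^ 2 = 4 * (S.card : ℝ) ^ 2 / (K : ℝ) := by
    rw [Finset.sum_const, Finset.card_univ, Fintype.card_fin, nsmul_eq_mul]
    field_simp
    ring
  have hexp : -(t ^ 2) / (2 * ∑ _i : Fin K, (2 * (S.card : ℝ) / (K : ℝ)) ^ 2)
      = -(t ^ 2 * (K : ℝ)) / (8 * (S.card : ℝ) ^ 2) := by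
    rw [hsum]
    field_simp
    ring
  have hpos : 0 < ∑ _i : Fin K, (2 * (S.card : ℝ) / (K : ℝ)) ^ 2 := by
    rw [hsum]
    positivity
  have m1 := hM K (Fin K) F (fun _ => 2 * (S.card : ℝ) / (K : ℝ)) t ht.le
    (fun k φ b => hbd φ k b) hpos
  have m2 := hM K (Fin K) (fun φ => - F φ) (fun _ => 2 * (S.card : ℝ) / (K : ℝ)) t ht.le
    (fun k φ b => by
      have h := hbd φ k b
      have h1 : - F (Function.update φ k b) - - F φ = - (F (Function.update φ k b) - F φ) := by
        ring
      rw [h1, abs_neg]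
      exact h) hpos
  rw [hexp] at m1 m2
  rw [av_neg] at m2
  have hfin : pr (fun φ : Fin K → Fin K =>
      t + (S.card : ℝ) ^ 2 * β < |tm c f S (cell φ I) - γ ^ S.card|)
      ≤ pr (fun φ => t ≤ F φ - av F ∨ t ≤ - F φ - - av F) := by
    apply pr_mono
    intro φ hφ
    have h1 : |tm c f S (cell φ I) - γ ^ S.card| ≤ |F φ - av F| + |av F - γ ^ S.card| := by
      have : tm c f S (cell φ I) - γ ^ S.card = (F φ - av F) + (av F - γ ^ S.card) := by
        rw [hF]; ring
      rw [this]
      exact abs_add_le _ _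
    have h2 : t < |F φ - av F| := by linarith
    rcases lt_abs.1 h2 with h | h
    · exact Or.inl h.le
    · right
      linarith
  refine hfin.trans ((pr_or _ _).trans ?_)
  linarith

end

end Pool.Agent.Lib.MP_b1acb3_co.Dgn
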