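import Pool.Agent.Lib.Nibble.Bite
import Pool.Agent.Lib.Nibble.Nibble
import Pool.Agent.Lib.MP_b1acb3_co.Deg2
import Pool.Agent.Lib.MP_b1acb3_co.Dgn.NibR
import Pool.Agent.Lib.MP_b1acb3_co.Dgn.Batch
import Pool.Agent.Lib.MP_b1acb3_co.Dgn.E1
import Pool.Agent.Lib.MP_b1acb3_co.Dgn.E2
import Pool.Agent.Lib.MP_b1acb3_co.Dgn.McD
import Pool.Agent.Lib.MP_b1acb3_co.Dgn.T
import Pool.Agent.Lib.MP_b1acb3_co.Dgn.Part
import Pool.Agent.Lib.MP_b1acb3_co.Dgn.Pot1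
import Pool.Agent.Lib.MP_b1acb3_co.Dgn.Pot2
import Pool.Agent.Lib.MP_b1acb3_co.Dgn.Res
import Pool.Agent.Lib.MP_b1acb3_co.Dgn.Hyp
import Pool.Agent.Lib.MP_b1acb3_co.Dgn.Bat
import Pool.Agent.Lib.MP_b1acb3_co.Dgn.Main
import Pool.Agent.Lib.MP_b1acb3_co.Dgn.Layer
import Pool.Agent.Lib.MP_b1acb3_co.Dgn.Sched
import Pool.Agent.Lib.MP_b1acb3_co.Dgn.Core
import Pool.Agent.Lib.MP_b1acb3_co.Dgn.Pos
import Pool.Agent.Lib.MP_b1acb3_co.Dgn.Neg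
import Pool.Agent.Lib.MP_b1acb3_co.Dgn.Seq
import Pool.Agent.Lib.MP_b1acb3_co.Dgn.DegR
import Pool.Agent.Lib.MP_b1acb3_co.Dgn.MaxR
import Pool.Agent.Lib.MP_b1acb3_co.Dgn.IsoR
import Pool.Agent.Lib.MP_b1acb3_co.Dgn.Rnd

/-!
MP_b1acb3_co, project DGN: assembly.
-/

set_option autoImplicit false

namespace Pool.Agent.Lib.MP_b1acb3_co.Dgn

theorem thmPos : StPos :=
  prfPos (prfCore (prfSched prfLayer)
    (prfMain (prfPart prfE1 prfE2 (prfT prfMcD)) (prfRes prfPot1)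
      (prfBat (prfBatch (prfNibR (Pool.Agent.Nibble.stNibble Pool.Agent.Nibble.stBite))) prfHyp prfPot2)))

theorem thmRnd : StRnd :=
  prfRnd thmPos prfSeq prfDegR prfMaxR (prfIsoR prfMcD)

end Pool.Agent.Lib.MP_b1acb3_co.Dgn
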