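import Pool.Agent.Lib.MP_b1acb3_co.Defs
import Pool.Agent.Lib.Nibble.Stmts

/-!
MP_b1acb3_co, project DGN (rainbow copies of degenerate graphs whose core has at most
`(1 - δ) e` edges): definitions.
-/

set_option autoImplicit false

namespace Pool.Agent.Lib.MP_b1acb3_co.Dgn

open Finset Classical

noncomputable section

/-- average of `f` over a finite type -/
def av {Ω : Type} [Fintype Ω] (f : Ω → ℝ) : ℝ := (∑ x, f x) / (Fintype.card Ω : ℝ)

/-- probability of `P` for a uniformly random element of `Ω` -/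
def pr {Ω : Type} [Fintype Ω] (P : Ω → Prop) : ℝ := av fun x => if P x then (1 : ℝ) else 0

/-- nearly balanced colouring of all pairs, the diagonal included -/
structure Env {n K : ℕ} (c : Sym2 (Fin n) → Fin K) (ξ : ℝ) : Prop where
  npos : 0 < n
  up : ∀ (x : Fin n) (k : Fin K), pr (fun z : Fin n => c s(x, z) = k) ≤ (1 + ξ) / (K : ℝ)
  lo : ∀ (x : Fin n) (k : Fin K), (1 - ξ) / (K : ℝ) ≤ pr (fun z : Fin n => c s(x, z) = k)

section graph

variable {V : Type} [Fintype V]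

/-- neighbours of `u` on lower levels -/
def Nb (H : SimpleGraph V) (lev : V → ℕ) (u : V) : Finset V :=
  univ.filter fun w => H.Adj u w ∧ lev w < lev u

/-- `w`, `w'` are both lower neighbours of some vertex -/
def Co (H : SimpleGraph V) (lev : V → ℕ) (w w' : V) : Prop :=
  w ≠ w' ∧ ∃ u, w ∈ Nb H lev u ∧ w' ∈ Nb H lev u

end graph

section colour

variable {V : Type} {n K : ℕ}

/-- similarity of two vertices of `K_n` -/
def sim (c : Sym2 (Fin n) → Fin K) (x y : Fin n) : ℝ :=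
  pr fun z : Fin n => c s(x, z) = c s(y, z)

/-- the colours of the edges from `z` to the images of `S` lie in `C` and are distinct -/
def ok (c : Sym2 (Fin n) → Fin K) (f : V → Fin n) (S : Finset V) (C : Finset (Fin K))
    (z : Fin n) : Prop :=
  (∀ w ∈ S, c s(f w, z) ∈ C) ∧
    ∀ w ∈ S, ∀ w' ∈ S, c s(f w, z) = c s(f w', z) → w = w'

/-- the colours of the edges from `z` to the images of `S` -/
def cols (c : Sym2 (Fin n) → Fin K) (f : V → Fin n) (S : Finset V) (z : Fin n) :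
    Finset (Fin K) :=
  S.image fun w => c s(f w, z)

/-- probability that a random vertex is ok -/
def tm (c : Sym2 (Fin n) → Fin K) (f : V → Fin n) (S : Finset V) (C : Finset (Fin K)) : ℝ :=
  pr (ok c f S C)

/-- probability that a random vertex is ok and uses the colour `k` -/
def hit (c : Sym2 (Fin n) → Fin K) (f : V → Fin n) (S : Finset V) (C : Finset (Fin K))
    (k : Fin K) : ℝ :=
  pr fun z => ok c f S C z ∧ k ∈ cols c f S z

/-- probability that a random vertex is ok and uses the colours `k` and `l` -/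
def two (c : Sym2 (Fin n) → Fin K) (f : V → Fin n) (S : Finset V) (C : Finset (Fin K))
    (k l : Fin K) : ℝ :=
  pr fun z => ok c f S C z ∧ k ∈ cols c f S z ∧ l ∈ cols c f S z

def Yp (c : Sym2 (Fin n) → Fin K) (f : V → Fin n) (S S' : Finset V) (C : Finset (Fin K)) : ℝ :=
  ∑ k, hit c f S C k * hit c f S' C k

def Dp (c : Sym2 (Fin n) → Fin K) (f : V → Fin n) (S S' : Finset V) (C : Finset (Fin K)) : ℝ :=
  ∑ k, ∑ l ∈ univ.erase k, two c f S C k l * two c f S' C k l

/-- the colours that `φ` maps into `I` -/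
def cell (φ : Fin K → Fin K) (I : Finset (Fin K)) : Finset (Fin K) :=
  univ.filter fun k => φ k ∈ I

end colour

section potential

variable {V : Type} [Fintype V] {n : ℕ}

/-- `f` on `E`, `g` outside -/
def mix (E : Finset V) (f g : V → Fin n) : V → Fin n := fun v => if v ∈ E then f v else g v

/-- the potential of the partial embedding `f` restricted to `E` -/
def Pot {ι : Type} [Fintype ι] (A : ℝ) (S : ι → Finset V) (g : ι → (V → Fin n) → ℝ)
    (E : Finset V) (f : V → Fin n) : ℝ :=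
  ∑ i, A ^ (S i \ E).card * av fun f' : V → Fin n => g i (mix E f f')

end potential

/-- embedding schedule: levels, last level of the first phase, batch levels, back degrees and
colour cells of the batch levels -/
structure Sch (V : Type) (K : ℕ) where
  lev : V → ℕ
  t0 : ℕ
  B : Finset ℕ
  dg : ℕ → ℕ
  I : ℕ → Finset (Fin K)

/-- parameters of a schedule -/
structure Par where
  Δ : ℕ
  a0 : ℕ
  sB : ℕ
  ρ : ℝ
  bb : ℝ
  κ : ℝ
  θ : ℝ
  η : ℝ

section sched

variable {V : Type} [Fintype V] {n K : ℕ}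

/-- the colours outside all cells -/
def resI (s : Sch V K) : Finset (Fin K) := univ.filter fun k => ∀ ℓ ∈ s.B, k ∉ s.I ℓ

/-- the properties of a schedule that the embedding needs -/
structure Good (H : SimpleGraph V) (p : Par) (s : Sch V K) : Prop where
  adj : ∀ u v, H.Adj u v → s.lev u ≠ s.lev v
  single : ∀ u v, s.lev u = s.lev v → s.lev u ∉ s.B → u = v
  late : ∀ ℓ ∈ s.B, s.t0 < ℓ
  dpos : ∀ ℓ ∈ s.B, 1 ≤ s.dg ℓ ∧ s.dg ℓ ≤ p.Δ
  deg : ∀ u, s.lev u ∈ s.B → (Nb H s.lev u).card = s.dg (s.lev u)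
  card : ∀ ℓ ∈ s.B, (s.I ℓ).card = s.dg ℓ * (univ.filter fun u => s.lev u = ℓ).card
  big : ∀ ℓ ∈ s.B, p.bb * (K : ℝ) ≤ ((s.I ℓ).card : ℝ)
  disj : ∀ ℓ ∈ s.B, ∀ ℓ' ∈ s.B, ℓ ≠ ℓ' → Disjoint (s.I ℓ) (s.I ℓ')
  res : p.ρ * (K : ℝ) ≤ ((resI s).card : ℝ)
  card0 : (univ.filter fun u => s.lev u ≤ s.t0).card ≤ p.a0
  deg1 : ∀ u, s.t0 < s.lev u → (Nb H s.lev u).card ≤ p.Δ
  co1 : ∀ w, s.t0 < s.lev w →
    ((univ.filter fun w' => Co H s.lev w w' ∧ s.lev w' ≤ s.lev w).card : ℝ) ≤ p.κ * (K : ℝ)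
  sum2 : ((∑ u ∈ univ.filter (fun u => s.lev u ∉ s.B), (Nb H s.lev u).card : ℕ) : ℝ)
    ≤ p.θ * (K : ℝ)
  cod : ∀ u, s.lev u ∈ s.B →
    ((univ.filter fun u' => s.lev u' = s.lev u ∧ u' ≠ u ∧
      2 ≤ (Nb H s.lev u ∩ Nb H s.lev u').card).card : ℝ) ≤ p.η * (K : ℝ)
  copairs : ∀ ℓ ∈ s.B, ((univ.filter fun q : V × V =>
    s.lev q.1 = ℓ ∧ s.lev q.2 = ℓ ∧ Co H s.lev q.1 q.2).card : ℝ) ≤ (p.Δ : ℝ) ^ 2 * (K : ℝ)
  nB : s.B.card ≤ p.sB
  nV : (univ.filter fun u => (Nb H s.lev u).Nonempty).card ≤ K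

/-- constants of the embedding process -/
structure Cst where
  A : ℝ
  β0 : ℝ
  β1 : ℝ
  δ1 : ℝ

/-- `f` has no twins among the lower neighbours of `u` -/
def NonTwin (c : Sym2 (Fin n) → Fin K) (H : SimpleGraph V) (s : Sch V K) (q : Cst)
    (f : V → Fin n) (u : V) : Prop :=
  ∀ w ∈ Nb H s.lev u, ∀ w' ∈ Nb H s.lev u, w ≠ w' →
    sim c (f w) (f w') ≤ if s.lev u ≤ s.t0 then q.β0 else q.β1

/-- relative size of the cell of level `ℓ` -/
def gam (s : Sch V K) (ℓ : ℕ) : ℝ := ((s.I ℓ).card : ℝ) / (K : ℝ)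

/-- the number of admissible images of `u` is not as expected -/
def BadT (c : Sym2 (Fin n) → Fin K) (H : SimpleGraph V) (p : Par) (s : Sch V K) (q : Cst)
    (φ : Fin K → Fin K) (f : V → Fin n) (u : V) : Prop :=
  tm c f (Nb H s.lev u) (cell φ (resI s)) < p.ρ ^ (Nb H s.lev u).card / 2 ∨
  (s.lev u ∈ s.B ∧ q.δ1 * gam s (s.lev u) ^ s.dg (s.lev u) <
    |tm c f (Nb H s.lev u) (cell φ (s.I (s.lev u))) - gam s (s.lev u) ^ s.dg (s.lev u)|)

/-- two vertices of the same batch level with at most one common lower neighbour -/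
def pairOK (H : SimpleGraph V) (s : Sch V K) (u u' : V) : Prop :=
  s.lev u ∈ s.B ∧ s.lev u' = s.lev u ∧ u ≠ u' ∧ (Nb H s.lev u ∩ Nb H s.lev u').card ≤ 1

/-- index type of the potential terms -/
abbrev Ix (V : Type) : Type := V ⊕ V × V

/-- supports of the potential terms -/
def supp (H : SimpleGraph V) (s : Sch V K) : Ix V → Finset V
  | Sum.inl u => Nb H s.lev u
  | Sum.inr (u, u') => if pairOK H s u u' then Nb H s.lev u ∪ Nb H s.lev u' else ∅

/-- the potential terms -/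
def gg (c : Sym2 (Fin n) → Fin K) (H : SimpleGraph V) (p : Par) (s : Sch V K) (q : Cst)
    (φ : Fin K → Fin K) : Ix V → (V → Fin n) → ℝ
  | Sum.inl u => fun f => if NonTwin c H s q f u ∧ BadT c H p s q φ f u then 1 else 0
  | Sum.inr (u, u') => fun f => if pairOK H s u u' then
      √(K : ℝ) * (Yp c f (Nb H s.lev u) (Nb H s.lev u') (cell φ (s.I (s.lev u))) -
        (s.dg (s.lev u) : ℝ) ^ 2 * gam s (s.lev u) ^ (2 * s.dg (s.lev u) - 1) / (K : ℝ)) ^ 2
      + Dp c f (Nb H s.lev u) (Nb H s.lev u') (cell φ (s.I (s.lev u))) / √(K : ℝ) else 0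

/-- the potential of a partial embedding -/
def Tot (c : Sym2 (Fin n) → Fin K) (H : SimpleGraph V) (p : Par) (s : Sch V K) (q : Cst)
    (φ : Fin K → Fin K) (E : Finset V) (f : V → Fin n) : ℝ :=
  Pot q.A (supp H s) (gg c H p s q φ) E f

/-- edges of `H` with both ends in `E` -/
def eIn (H : SimpleGraph V) (E : Finset V) : Set (Sym2 V) := {e | e ∈ H.edgeSet ∧ ∀ x ∈ e, x ∈ E}

/-- invariant of the embedding process: `f` is a good rainbow embedding of `E`, where the vertices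
in `Q` were embedded with colours from the reserve -/
structure Inv (c : Sym2 (Fin n) → Fin K) (H : SimpleGraph V) (s : Sch V K) (q : Cst)
    (φ : Fin K → Fin K) (E Q : Finset V) (f : V → Fin n) : Prop where
  sub : Q ⊆ E
  inj : Set.InjOn f (E : Set V)
  rain : Set.InjOn (fun e : Sym2 V => c (e.map f)) (eIn H E)
  back : ∀ u ∈ E, Nb H s.lev u ⊆ E
  lvB : ∀ u ∈ E, u ∉ Q → s.lev u ∈ s.B
  colB : ∀ u ∈ E, u ∉ Q → ∀ w ∈ Nb H s.lev u, c s(f w, f u) ∈ cell φ (s.I (s.lev u))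
  colR : ∀ u ∈ Q, ∀ w ∈ Nb H s.lev u, c s(f w, f u) ∈ cell φ (resI s)
  ntw : ∀ w ∈ E, ∀ w' ∈ E, Co H s.lev w w' →
    sim c (f w) (f w') ≤ if s.lev w ≤ s.t0 ∧ s.lev w' ≤ s.t0 then q.β0 else q.β1

end sched

end

end Pool.Agent.Lib.MP_b1acb3_co.Dgn
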