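import Pool.Agent.Lib.MP_b1acb3_co.Dgn.Stmts

/-!
MP_b1acb3_co, project DGN, module Neg: sum colourings (Theorem B).
-/

set_option autoImplicit false

namespace Pool.Agent.Lib.MP_b1acb3_co.Dgn

open Finset Classical

namespace NegAux

theorem exists_group (N : ℕ) : N ≠ 0 →
    ∃ (A : Type) (_ : AddCommGroup A) (_ : Fintype A), Fintype.card A = N ∧
      ∀ x : A, (N.primeFactors.prod id) • x = 0 := by
  refine induction_on_primes (motive := fun N => N ≠ 0 →
    ∃ (A : Type) (_ : AddCommGroup A) (_ : Fintype A), Fintype.card A = N ∧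
      ∀ x : A, (N.primeFactors.prod id) • x = 0) ?_ ?_ ?_ N
  · intro h
    exact absurd rfl h
  · intro _
    exact ⟨Unit, inferInstance, inferInstance, by simp, fun x => Subsingleton.elim _ _⟩
  · intro p a hp ih hpa
    have ha : a ≠ 0 := fun h => hpa (by simp [h])
    obtain ⟨A, i1, i2, hc, hq⟩ := ih ha
    haveI : NeZero p := ⟨hp.ne_zero⟩
    refine ⟨ZMod p × A, inferInstance, inferInstance, by
      rw [Fintype.card_prod, ZMod.card, hc], ?_⟩
    have h1 : (a.primeFactors.prod id) ∣ ((p * a).primeFactors.prod id) := by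
      refine Finset.prod_dvd_prod_of_subset _ _ _ ?_
      rw [Nat.primeFactors_mul hp.ne_zero ha]
      exact Finset.subset_union_right
    have h2 : p ∣ ((p * a).primeFactors.prod id) := by
      have h3 : p ∈ (p * a).primeFactors := by
        rw [Nat.primeFactors_mul hp.ne_zero ha, hp.primeFactors]
        simp
      exact Finset.dvd_prod_of_mem id h3
    rintro ⟨b, x⟩
    rw [Prod.smul_mk]
    obtain ⟨k, hk⟩ := h1
    obtain ⟨l, hl⟩ := h2
    have e1 : ((p * a).primeFactors.prod id) • x = 0 := by
      rw [hk, mul_comm, mul_smul, hq, smul_zero]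
    have e2 : ((p * a).primeFactors.prod id) • b = 0 := by
      rw [hl, nsmul_eq_mul]
      simp
    rw [e1, e2]
    rfl

theorem card_shift {A : Type} [AddCommGroup A] [Fintype A] (X : Finset A) (c : A) :
    (univ.filter fun x => x + c ∈ X).card = X.card := by
  rw [← Finset.card_image_of_injective X (add_left_injective (-c))]
  congr 1
  ext x
  simp only [mem_filter, mem_univ, true_and, mem_image]
  constructor
  · intro h
    exact ⟨x + c, h, by simp⟩
  · rintro ⟨y, hy, rfl⟩
    simpa using hy

theorem cyc_bound {A : Type} [AddCommGroup A] [Fintype A] (q : ℕ) (hq : Odd q) (g : A)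
    (hg : q • g = 0) (X : Finset A) (hX : ∀ x ∈ X, x + g ∉ X) :
    2 * q * X.card ≤ (q - 1) * Fintype.card A := by
  have hq0 : 0 < q := hq.pos
  have h1 : ∀ x : A, 2 * ((range q).filter fun i => x + i • g ∈ X).card ≤ q - 1 := by
    intro x
    set I := (range q).filter fun i => x + i • g ∈ X with hI
    have hinj : Set.InjOn (fun i => (i + 1) % q) (I : Set ℕ) := by
      intro i hi j hj hij
      have hi' : i < q := by
        have := (Finset.mem_filter.1 (Finset.mem_coe.1 hi)).1
        exact Finset.mem_range.1 this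
      have hj' : j < q := by
        have := (Finset.mem_filter.1 (Finset.mem_coe.1 hj)).1
        exact Finset.mem_range.1 this
      have h : i + 1 ≡ j + 1 [MOD q] := hij
      have h2 : i ≡ j [MOD q] := Nat.ModEq.add_right_cancel' 1 h
      have h3 : i % q = j % q := h2
      rwa [Nat.mod_eq_of_lt hi', Nat.mod_eq_of_lt hj'] at h3
    have hdis : Disjoint I (I.image fun i => (i + 1) % q) := by
      rw [Finset.disjoint_left]
      intro j hj hj2
      obtain ⟨i, hi, hij⟩ := Finset.mem_image.1 hj2
      have hi2 := (Finset.mem_filter.1 hi).2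
      have hj3 := (Finset.mem_filter.1 hj).2
      have h4 : j • g = (i + 1) • g := by
        have h5 := Nat.mod_add_div (i + 1) q
        rw [← h5, add_smul, mul_comm, mul_smul, hg, smul_zero, add_zero, ← hij]
      rw [h4, add_smul, one_smul, ← add_assoc] at hj3
      exact hX _ hi2 hj3
    have hsub : I ∪ (I.image fun i => (i + 1) % q) ⊆ range q := by
      intro j hj
      rcases Finset.mem_union.1 hj with h | h
      · exact (Finset.mem_filter.1 h).1
      · obtain ⟨i, hi, rfl⟩ := Finset.mem_image.1 h
        exact Finset.mem_range.2 (Nat.mod_lt _ hq0)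
    have hc := Finset.card_le_card hsub
    rw [Finset.card_union_of_disjoint hdis, Finset.card_image_of_injOn hinj, Finset.card_range]
      at hc
    obtain ⟨k, hk⟩ := hq
    omega
  have h2 : ∑ x : A, ((range q).filter fun i => x + i • g ∈ X).card = q * X.card := by
    have h3 : ∀ x : A, ((range q).filter fun i => x + i • g ∈ X).card =
        ∑ i ∈ range q, if x + i • g ∈ X then 1 else 0 := by
      intro x
      rw [Finset.card_filter]
    simp only [h3]
    rw [Finset.sum_comm]
    have h4 : ∀ i ∈ range q, (∑ x : A, if x + i • g ∈ X then 1 else 0) = X.card := by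
      intro i _
      rw [← Finset.card_filter, card_shift]
    rw [Finset.sum_congr rfl h4]
    simp
  calc 2 * q * X.card = 2 * (q * X.card) := by ring
    _ = ∑ x : A, 2 * ((range q).filter fun i => x + i • g ∈ X).card := by
      rw [← h2, Finset.mul_sum]
    _ ≤ ∑ _x : A, (q - 1) := Finset.sum_le_sum fun x _ => h1 x
    _ = (q - 1) * Fintype.card A := by
      rw [Finset.sum_const, Finset.card_univ, smul_eq_mul, mul_comm]

end NegAux

/-- Theorem B. -/
theorem prfNeg : StNeg := by
  intro V _ G a b hab hodd hlt hF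
  obtain ⟨ε, hε, n₀, hF⟩ := hF
  set N := numEdges G + 1 with hN
  obtain ⟨A, i1, i2, hcard, hq⟩ := NegAux.exists_group N (by omega)
  have eA : A ≃ Fin N := Fintype.equivFinOfCardEq hcard
  set q := N.primeFactors.prod id with hqd
  have hqodd : Odd q := by
    rw [hqd]
    refine Finset.prod_induction id Odd (fun x y hx hy => hx.mul hy) odd_one ?_
    intro p hp
    have hp1 := Nat.dvd_of_mem_primeFactors hp
    exact Odd.of_dvd_nat hodd hp1
  obtain ⟨t, ht⟩ := exists_nat_ge (max (n₀ : ℝ) (1 / ε))
  have ht1 : n₀ ≤ t := by exact_mod_cast le_trans (le_max_left _ _) ht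
  have ht2 : 1 / ε ≤ (t : ℝ) := le_trans (le_max_right _ _) ht
  have hNpos : 0 < N := by omega
  set h : Fin (t * N) → A := fun x => eA.symm (finProdFinEquiv.symm x).2 with hh
  set c : Sym2 (Fin (t * N)) → Fin N := Sym2.lift ⟨fun x y => eA (h x + h y), by
    intro x y
    exact congrArg eA (add_comm _ _)⟩ with hc
  have hcs : ∀ x y, c s(x, y) = eA (h x + h y) := fun x y => rfl
  have hfib : ∀ y : A, (univ.filter fun j : Fin (t * N) => h j = y).card = t := by
    intro y
    have h1 : (univ.filter fun j : Fin (t * N) => h j = y) =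
        (univ : Finset (Fin t)).image fun i => finProdFinEquiv (i, eA y) := by
      ext j
      simp only [mem_filter, mem_univ, true_and, mem_image]
      constructor
      · intro hj
        refine ⟨(finProdFinEquiv.symm j).1, ?_⟩
        have h2 : eA y = (finProdFinEquiv.symm j).2 := by
          rw [← hj]
          exact Equiv.apply_symm_apply _ _
        rw [h2]
        exact Equiv.apply_symm_apply _ _
      · rintro ⟨i, rfl⟩
        change eA.symm (finProdFinEquiv.symm (finProdFinEquiv (i, eA y))).2 = y
        rw [Equiv.symm_apply_apply]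
        exact Equiv.symm_apply_apply _ _
    rw [h1, Finset.card_image_of_injective, Finset.card_univ, Fintype.card_fin]
    intro i i' hii
    have := finProdFinEquiv.injective hii
    exact (Prod.mk.inj this).1
  have hbal : IsBalanced ε c := by
    intro i k
    have h1 : (univ.filter fun j : Fin (t * N) => h j = eA.symm k - h i).card ≤
        colourDegree c i k + 1 := by
      unfold colourDegree
      have h2 : (univ.filter fun j : Fin (t * N) => h j = eA.symm k - h i) ⊆
          insert i (univ.filter fun j : Fin (t * N) => j ≠ i ∧ c s(i, j) = k) := by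
        intro j hj
        have hj' := (Finset.mem_filter.1 hj).2
        rw [Finset.mem_insert, Finset.mem_filter]
        by_cases hji : j = i
        · exact Or.inl hji
        · refine Or.inr ⟨mem_univ _, hji, ?_⟩
          rw [hcs, hj']
          simp
      exact le_trans (Finset.card_le_card h2) (Finset.card_insert_le _ _)
    rw [hfib] at h1
    have h3 : (t : ℝ) ≤ (colourDegree c i k : ℝ) + 1 := by exact_mod_cast h1
    have hNr : (0 : ℝ) < (N : ℝ) := by exact_mod_cast hNpos
    have h4 : (1 - ε) * ((t * N : ℕ) : ℝ) / (N : ℝ) = (1 - ε) * (t : ℝ) := by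
      push_cast
      field_simp
    rw [h4]
    have h5 : 1 ≤ ε * (t : ℝ) := by
      rw [div_le_iff₀ hε] at ht2
      linarith
    linarith
  obtain ⟨f, hf, hrb⟩ := hF (t * N) (le_trans ht1 (Nat.le_mul_of_pos_right t hNpos)) c hbal
  set Mset : Set V := {u | G.Adj a u ∧ G.Adj b u} with hM
  have hMfin : Mset.Finite := Set.toFinite _
  set X : Finset A := hMfin.toFinset.image fun w => h (f b) + h (f w) with hX
  have hadj : ∀ w ∈ Mset, G.Adj a w ∧ G.Adj b w := fun w hw => hw
  have hXc : X.card = Mset.ncard := by
    rw [hX, Finset.card_image_of_injOn, Set.ncard_eq_toFinset_card _ hMfin]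
    intro w hw w' hw' hww
    have hw1 := hadj w (hMfin.mem_toFinset.1 (Finset.mem_coe.1 hw))
    have hw2 := hadj w' (hMfin.mem_toFinset.1 (Finset.mem_coe.1 hw'))
    have h1 : s(b, w) = s(b, w') := by
      refine hrb ((SimpleGraph.mem_edgeSet G).2 hw1.2) ((SimpleGraph.mem_edgeSet G).2 hw2.2) ?_
      change c (Sym2.map f s(b, w)) = c (Sym2.map f s(b, w'))
      rw [Sym2.map_mk, Sym2.map_mk]
      change c s(f b, f w) = c s(f b, f w')
      rw [hcs, hcs]
      exact congrArg eA hww
    exact Sym2.congr_right.1 h1
  have hXg : ∀ x ∈ X, x + (h (f a) - h (f b)) ∉ X := by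
    intro x hx hx2
    obtain ⟨w, hw, rfl⟩ := Finset.mem_image.1 hx
    obtain ⟨w', hw', hww⟩ := Finset.mem_image.1 hx2
    have hw1 := hadj w (hMfin.mem_toFinset.1 hw)
    have hw2 := hadj w' (hMfin.mem_toFinset.1 hw')
    have h1 : s(b, w') = s(a, w) := by
      refine hrb ((SimpleGraph.mem_edgeSet G).2 hw2.2) ((SimpleGraph.mem_edgeSet G).2 hw1.1) ?_
      change c (Sym2.map f s(b, w')) = c (Sym2.map f s(a, w))
      rw [Sym2.map_mk, Sym2.map_mk]
      change c s(f b, f w') = c s(f a, f w)
      rw [hcs, hcs]
      refine congrArg eA ?_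
      have hww' : h (f b) + h (f w') = h (f b) + h (f w) + (h (f a) - h (f b)) := hww
      rw [hww']
      abel
    rcases Sym2.eq_iff.1 h1 with ⟨h2, -⟩ | ⟨h2, -⟩
    · exact hab h2.symm
    · rw [← h2] at hw1
      exact G.loopless.irrefl b hw1.2
  have hfin := NegAux.cyc_bound q hqodd (h (f a) - h (f b)) (hq _) X hXg
  rw [hXc, hcard] at hfin
  omega

end Pool.Agent.Lib.MP_b1acb3_co.Dgn
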