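import Pool.Agent.Lib.MP_b1acb3_co.Dgn.Stmts

/-!
MP_b1acb3_co, project DGN, module Pot1: the potential does not increase for some choice.
-/

set_option autoImplicit false

namespace Pool.Agent.Lib.MP_b1acb3_co.Dgn

open Finset Classical

/-- resampling one coordinate -/
theorem sum_update_pot1 {V : Type} [Fintype V] {n : ℕ} (G : (V → Fin n) → ℝ) (u : V) :
    ∑ z : Fin n, ∑ f' : V → Fin n, G (Function.update f' u z) = (n : ℝ) * ∑ f' : V → Fin n, G f' := by
  have h1 : ∑ z : Fin n, ∑ f' : V → Fin n, G (Function.update f' u z) =
      ∑ p : Fin n × (V → Fin n), G (Function.update p.2 u p.1) := by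
    rw [Fintype.sum_prod_type]
  have h2 : ∑ p : Fin n × (V → Fin n), G (Function.update p.2 u p.1) =
      ∑ p : Fin n × (V → Fin n), G p.2 := by
    refine Finset.sum_nbij' (fun p => (p.2 u, Function.update p.2 u p.1))
      (fun p => (p.2 u, Function.update p.2 u p.1)) ?_ ?_ ?_ ?_ ?_
    · intro p _; exact mem_univ _
    · intro p _; exact mem_univ _
    · intro p _
      simp
    · intro p _
      simp
    · intro p _
      rfl
  rw [h1, h2, Fintype.sum_prod_type]
  simp

theorem prfPot1 : StPot1 := by
  intro V ι _ _ n A S g hn hA hg hloc E f u Z hu hZ
  have hn' : (0 : ℝ) < n := by exact_mod_cast hn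
  have hZne : Z.Nonempty := by
    rw [Finset.nonempty_iff_ne_empty]
    rintro rfl
    simp at hZ
    omega
  have hA0 : (0 : ℝ) ≤ A := le_trans zero_le_one hA
  set cV : ℝ := (Fintype.card (V → Fin n) : ℝ) with hcV
  have hcV0 : 0 ≤ cV := by rw [hcV]; exact Nat.cast_nonneg _
  -- the term of one index
  have key : ∀ i, ∑ z ∈ Z, A ^ (S i \ insert u E).card *
      av (fun f' : V → Fin n => g i (mix (insert u E) (Function.update f u z) f')) ≤
      ∑ _z ∈ Z, A ^ (S i \ E).card * av (fun f' : V → Fin n => g i (mix E f f')) := by
    intro i
    by_cases hui : u ∈ S i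
    · have hcard : (S i \ E).card = (S i \ insert u E).card + 1 := by
        have : S i \ E = insert u (S i \ insert u E) := by
          ext v
          simp only [mem_sdiff, mem_insert]
          constructor
          · rintro ⟨h1, h2⟩
            by_cases hv : v = u
            · exact Or.inl hv
            · exact Or.inr ⟨h1, by simp [hv, h2]⟩
          · rintro (rfl | ⟨h1, h2⟩)
            · exact ⟨hui, hu⟩
            · exact ⟨h1, fun h => h2 (Or.inr h)⟩
        rw [this, Finset.card_insert_of_notMem (by simp)]
      have hmix : ∀ (z : Fin n) (f' : V → Fin n),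
          mix (insert u E) (Function.update f u z) f' = mix E f (Function.update f' u z) := by
        intro z f'
        funext v
        unfold mix
        by_cases hv : v = u
        · subst hv
          simp [hu]
        · by_cases hvE : v ∈ E
          · simp [hv, hvE]
          · simp [hv, hvE]
      have hsum : ∑ z ∈ Z, av (fun f' : V → Fin n =>
          g i (mix (insert u E) (Function.update f u z) f')) ≤
          (n : ℝ) * av (fun f' : V → Fin n => g i (mix E f f')) := by
        calc ∑ z ∈ Z, av (fun f' : V → Fin n =>
            g i (mix (insert u E) (Function.update f u z) f'))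
            ≤ ∑ z : Fin n, av (fun f' : V → Fin n =>
                g i (mix (insert u E) (Function.update f u z) f')) := by
              refine Finset.sum_le_sum_of_subset_of_nonneg (Finset.subset_univ _) ?_
              intro z _ _
              unfold av
              exact div_nonneg (Finset.sum_nonneg fun f' _ => hg _ _) (Nat.cast_nonneg _)
          _ = (n : ℝ) * av (fun f' : V → Fin n => g i (mix E f f')) := by
              unfold av
              rw [← Finset.sum_div]
              simp_rw [hmix]
              rw [sum_update_pot1 (fun f' => g i (mix E f f')) u, mul_div_assoc]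
      have hav0 : 0 ≤ av (fun f' : V → Fin n => g i (mix E f f')) := by
        unfold av
        exact div_nonneg (Finset.sum_nonneg fun f' _ => hg _ _) (Nat.cast_nonneg _)
      rw [← Finset.mul_sum, Finset.sum_const, nsmul_eq_mul, hcard, pow_succ]
      calc A ^ (S i \ insert u E).card * ∑ z ∈ Z, av (fun f' : V → Fin n =>
            g i (mix (insert u E) (Function.update f u z) f'))
          ≤ A ^ (S i \ insert u E).card *
              ((n : ℝ) * av (fun f' : V → Fin n => g i (mix E f f'))) :=
            mul_le_mul_of_nonneg_left hsum (pow_nonneg hA0 _)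
        _ ≤ A ^ (S i \ insert u E).card *
              ((A * (Z.card : ℝ)) * av (fun f' : V → Fin n => g i (mix E f f'))) := by
            refine mul_le_mul_of_nonneg_left ?_ (pow_nonneg hA0 _)
            exact mul_le_mul_of_nonneg_right hZ hav0
        _ = (Z.card : ℝ) * (A ^ (S i \ insert u E).card * A *
              av (fun f' : V → Fin n => g i (mix E f f'))) := by ring
    · have hs : S i \ insert u E = S i \ E := by
        ext v
        simp only [mem_sdiff, mem_insert]
        constructor
        · rintro ⟨h1, h2⟩
          exact ⟨h1, fun h => h2 (Or.inr h)⟩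
        · rintro ⟨h1, h2⟩
          refine ⟨h1, ?_⟩
          rintro (rfl | h)
          · exact hui h1
          · exact h2 h
      refine Finset.sum_le_sum ?_
      intro z _
      rw [hs]
      have : (fun f' : V → Fin n => g i (mix (insert u E) (Function.update f u z) f')) =
          fun f' : V → Fin n => g i (mix E f f') := by
        funext f'
        apply hloc
        intro v hv
        have hvu : v ≠ u := by rintro rfl; exact hui hv
        unfold mix
        by_cases hvE : v ∈ E
        · simp [hvu, hvE]
        · simp [hvu, hvE]
      rw [this]
  have hle : ∑ z ∈ Z, Pot A S g (insert u E) (Function.update f u z) ≤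
      ∑ _z ∈ Z, Pot A S g E f := by
    unfold Pot
    rw [Finset.sum_comm, Finset.sum_comm (s := Z)]
    exact Finset.sum_le_sum fun i _ => key i
  exact Finset.exists_le_of_sum_le hZne hle

end Pool.Agent.Lib.MP_b1acb3_co.Dgn
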