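import Pool.Agent.Lib.MP_b1acb3_co.Dgn.Defs

/-!
MP_b1acb3_co, project DGN: statements of the modules (proved in the other files of this folder).
-/

set_option autoImplicit false

namespace Pool.Agent.Lib.MP_b1acb3_co.Dgn

open Finset Classical

/-- Robust weighted nibble: degrees and codegrees are controlled on average only. -/
def StNibR : Prop :=
  ∀ r : ℕ, 2 ≤ r → ∀ γ : ℝ, 0 < γ → ∃ δ : ℝ, 0 < δ ∧
    ∀ (V ι : Type) [Fintype V] [DecidableEq V] [Fintype ι] [DecidableEq ι]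
      (e : ι → Finset V) (w : ι → ℝ),
      (∀ i, 0 ≤ w i) → (∀ i, w i ≠ 0 → (e i).card = r) →
      (∑ v, |Pool.Agent.Nibble.deg e w v - 1| ≤ δ * (Fintype.card V : ℝ)) →
      (∑ i, (if ∃ u ∈ e i, ∃ v ∈ e i, u ≠ v ∧ δ < Pool.Agent.Nibble.cod e w u v then w i else 0)
        ≤ δ * (Fintype.card V : ℝ)) →
      1 ≤ δ * (Fintype.card V : ℝ) →
      ∃ M : Finset ι, (∀ i ∈ M, w i ≠ 0) ∧
        (∀ i ∈ M, ∀ j ∈ M, i ≠ j → Disjoint (e i) (e j)) ∧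
        (((univ.filter fun v => ∀ i ∈ M, v ∉ e i).card : ℝ) ≤ γ * (Fintype.card V : ℝ))

/-- Batch lemma: `Col u z` is the colour set of the pair `(u, z)`; every `u ∈ U` gets a list of `M`
random `z`. For at least three quarters of the lists almost all `u` can be given an admissible
element of their list such that the colour sets are pairwise disjoint. -/
def StBatch : Prop :=
  ∀ (d : ℕ) (γ : ℝ), 1 ≤ d → 0 < γ → ∃ δ : ℝ, 0 < δ ∧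
    ∀ (V : Type) [Fintype V] (U : Finset V) (n K M : ℕ) (C : Finset (Fin K))
      (Ok : V → Fin n → Prop) (Col : V → Fin n → Finset (Fin K)) (τ : ℝ),
      0 < n → 0 < τ →
      (∀ u ∈ U, ∀ z, Ok u z → (Col u z).card = d ∧ Col u z ⊆ C) →
      1 ≤ δ * (M : ℝ) * τ → 1 ≤ δ * (U.card : ℝ) →
      |(C.card : ℝ) - (d : ℝ) * (U.card : ℝ)| ≤ δ * (C.card : ℝ) →
      (∀ u ∈ U, |pr (Ok u) - τ| ≤ δ * τ) →
      (∑ k, (∑ u ∈ U, pr (fun z => Ok u z ∧ k ∈ Col u z)) ^ 2 ≤ (1 + δ) * τ ^ 2 * (C.card : ℝ)) →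
      (∑ k, ∑ l ∈ univ.erase k,
        (∑ u ∈ U, pr (fun z => Ok u z ∧ k ∈ Col u z ∧ l ∈ Col u z)) ^ 2
          ≤ δ * τ ^ 2 * (C.card : ℝ)) →
      (∀ u ∈ U, ∑ k, (pr (fun z => Ok u z ∧ k ∈ Col u z)) ^ 2 ≤ δ * τ ^ 2) →
      3 / 4 ≤ pr (fun Λ : V → Fin M → Fin n => ∃ (T : Finset V) (m : V → Fin M), T ⊆ U ∧
        (∀ u ∈ T, Ok u (Λ u (m u))) ∧
        (∀ u ∈ T, ∀ u' ∈ T, u ≠ u' → Disjoint (Col u (Λ u (m u))) (Col u' (Λ u' (m u')))) ∧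
        ((U \ T).card : ℝ) ≤ γ * (U.card : ℝ))

/-- Second moment of the pair correlation for a random colour cell and random images. -/
def StE1 : Prop :=
  ∀ d : ℕ, ∃ C0 : ℝ, ∀ (n K : ℕ) (c : Sym2 (Fin n) → Fin K), Env c (1 / (K : ℝ)) →
    ∀ (V : Type) [Fintype V] (S S' : Finset V) (I : Finset (Fin K)),
      S.card = d → S'.card = d → (S ∩ S').card ≤ 1 →
      av (fun φ : Fin K → Fin K => av fun f : V → Fin n =>
        (Yp c f S S' (cell φ I) -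
          (d : ℝ) ^ 2 * ((I.card : ℝ) / (K : ℝ)) ^ (2 * d - 1) / (K : ℝ)) ^ 2)
        ≤ C0 / (K : ℝ) ^ 3

/-- Two common colours are rare. -/
def StE2 : Prop :=
  ∀ d : ℕ, ∃ C0 : ℝ, ∀ (n K : ℕ) (c : Sym2 (Fin n) → Fin K), Env c (1 / (K : ℝ)) →
    ∀ (V : Type) [Fintype V] (S S' : Finset V) (C : Finset (Fin K)),
      S.card = d → S'.card = d → (S ∩ S').card ≤ 1 →
      av (fun f : V → Fin n => Dp c f S S' C) ≤ C0 / (K : ℝ) ^ 2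

/-- Bounded differences inequality (upper tail). -/
def StMcD : Prop :=
  ∀ (N : ℕ) (α : Type) [Fintype α] [Nonempty α] (F : (Fin N → α) → ℝ) (s : Fin N → ℝ) (t : ℝ),
    0 ≤ t → (∀ i x a, |F (Function.update x i a) - F x| ≤ s i) → 0 < ∑ i, s i ^ 2 →
    pr (fun x => t ≤ F x - av F) ≤ Real.exp (-(t ^ 2) / (2 * ∑ i, s i ^ 2))

/-- Concentration of the number of admissible images over the choice of the cells. -/
def StT : Prop :=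
  ∀ (n K : ℕ) (c : Sym2 (Fin n) → Fin K), Env c 1 →
    ∀ (V : Type) [Fintype V] (f : V → Fin n) (S : Finset V) (I : Finset (Fin K)) (β t : ℝ),
      S.Nonempty → 0 ≤ β → 0 < t →
      (∀ w ∈ S, ∀ w' ∈ S, w ≠ w' → sim c (f w) (f w') ≤ β) →
      pr (fun φ : Fin K → Fin K =>
        t + (S.card : ℝ) ^ 2 * β < |tm c f S (cell φ I) - ((I.card : ℝ) / (K : ℝ)) ^ S.card|)
        ≤ 2 * Real.exp (-(t ^ 2 * (K : ℝ)) / (8 * (S.card : ℝ) ^ 2))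

/-- Choice of the colour partition. -/
def StPart : Prop :=
  ∀ (Δ : ℕ) (ρ bb δ1 : ℝ), 1 ≤ Δ → 0 < ρ → ρ ≤ 1 → 0 < bb → 0 < δ1 →
    ∃ βb : ℝ, 0 < βb ∧ ∀ β1 : ℝ, 0 < β1 → β1 ≤ βb → ∀ a0 : ℕ, ∃ βa : ℝ, 0 < βa ∧
      ∀ (β0 A ε : ℝ) (sB : ℕ), 0 < β0 → β0 ≤ βa → 1 ≤ A → 0 < ε → ∃ K0 : ℕ,
        ∀ (n K : ℕ) (c : Sym2 (Fin n) → Fin K), K0 ≤ K → Env c (1 / (K : ℝ)) →
          ∀ (V : Type) [Fintype V] (H : SimpleGraph V) (p : Par) (s : Sch V K),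
            Good H p s → p.Δ = Δ → p.ρ = ρ → p.bb = bb → p.a0 = a0 → p.sB = sB →
            ∃ φ : Fin K → Fin K,
              (∀ f : V → Fin n, Tot c H p s ⟨A, β0, β1, δ1⟩ φ ∅ f ≤ ε) ∧
              ∀ ℓ ∈ s.B, |((cell φ (s.I ℓ)).card : ℝ) - ((s.I ℓ).card : ℝ)| ≤ ε * (K : ℝ)

/-- The potential does not increase for some choice in a large set. -/
def StPot1 : Prop :=
  ∀ (V ι : Type) [Fintype V] [Fintype ι] (n : ℕ) (A : ℝ) (S : ι → Finset V)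
    (g : ι → (V → Fin n) → ℝ), 0 < n → 1 ≤ A → (∀ i f, 0 ≤ g i f) →
    (∀ i f f', (∀ v ∈ S i, f v = f' v) → g i f = g i f') →
    ∀ (E : Finset V) (f : V → Fin n) (u : V) (Z : Finset (Fin n)), u ∉ E →
      (n : ℝ) ≤ A * (Z.card : ℝ) →
      ∃ z ∈ Z, Pot A S g (insert u E) (Function.update f u z) ≤ Pot A S g E f

/-- The potential after an arbitrary choice from random lists. -/
def StPot2 : Prop :=
  ∀ (V ι : Type) [Fintype V] [Fintype ι] (n M s : ℕ) (A : ℝ) (S : ι → Finset V)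
    (g : ι → (V → Fin n) → ℝ), 0 < n → 0 < M → 1 ≤ A → (M : ℝ) ≤ A → (∀ i f, 0 ≤ g i f) →
    (∀ i f f', (∀ v ∈ S i, f v = f' v) → g i f = g i f') → (∀ i, (S i).card ≤ s) →
    ∀ (E B : Finset V) (f : V → Fin n), Disjoint E B →
      ∃ Q : (V → Fin M → Fin n) → ℝ, (∀ Λ, 0 ≤ Q Λ) ∧ av Q ≤ 2 ^ s * Pot A S g E f ∧
        ∀ (Λ : V → Fin M → Fin n) (B' : Finset V) (m : V → Fin M), B' ⊆ B →
          Pot A S g (E ∪ B') (fun v => if v ∈ B' then Λ v (m v) else f v) ≤ Q Λ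

/-- Embedding one vertex with reserve colours. -/
def StRes : Prop :=
  ∀ (V : Type) [Fintype V] (n K : ℕ) (c : Sym2 (Fin n) → Fin K) (H : SimpleGraph V) (p : Par)
    (s : Sch V K) (q : Cst) (φ : Fin K → Fin K) (E Q : Finset V) (f : V → Fin n) (u : V)
    (β κ θ : ℝ),
    Env c 1 → 1 ≤ q.A → 0 < q.β0 → q.β0 ≤ q.β1 → 0 < p.ρ → p.ρ ≤ 1 →
    Inv c H s q φ E Q f → u ∉ E → Nb H s.lev u ⊆ E → (∀ v ∈ E, s.lev v ≤ s.lev u) →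
    (∀ x y, H.Adj x y → s.lev x ≠ s.lev y) →
    β = (if s.lev u ≤ s.t0 then q.β0 else q.β1) →
    ((E.filter fun w => Co H s.lev u w).card : ℝ) ≤ κ * (K : ℝ) →
    ((∑ v ∈ Q, (Nb H s.lev v).card : ℕ) : ℝ) ≤ θ * (K : ℝ) →
    2 * ((Nb H s.lev u).card : ℝ) * θ + 2 * κ / β + (E.card : ℝ) / (n : ℝ)
      ≤ 3 / 8 * p.ρ ^ (Nb H s.lev u).card →
    8 ≤ q.A * p.ρ ^ (Nb H s.lev u).card →
    Tot c H p s q φ E f < 1 →
    ∃ z, Inv c H s q φ (insert u E) (insert u Q) (Function.update f u z) ∧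
      Tot c H p s q φ (insert u E) (Function.update f u z) ≤ Tot c H p s q φ E f

/-- admissible images of the batch vertex `u` -/
def OkB {V : Type} [Fintype V] {n K : ℕ} (c : Sym2 (Fin n) → Fin K) (H : SimpleGraph V)
    (s : Sch V K) (q : Cst) (φ : Fin K → Fin K) (E : Finset V) (f : V → Fin n) (u : V)
    (z : Fin n) : Prop :=
  ok c f (Nb H s.lev u) (cell φ (s.I (s.lev u))) z ∧
    ∀ w ∈ E, Co H s.lev u w → sim c z (f w) ≤ q.β1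

/-- The hypotheses of the batch lemma hold. -/
def StHyp : Prop :=
  ∀ (Δ : ℕ) (bb δ : ℝ), 1 ≤ Δ → 0 < bb → 0 < δ → ∃ δ1 : ℝ, 0 < δ1 ∧ ∀ β1 : ℝ, 0 < β1 →
    ∃ κ η ε : ℝ, 0 < κ ∧ 0 < η ∧ 0 < ε ∧ ∃ K0 : ℕ,
      ∀ (n K : ℕ) (c : Sym2 (Fin n) → Fin K), K0 ≤ K → Env c 1 →
        ∀ (V : Type) [Fintype V] (H : SimpleGraph V) (p : Par) (s : Sch V K) (q : Cst)
          (φ : Fin K → Fin K) (ℓ : ℕ) (f : V → Fin n),
          Good H p s → p.Δ = Δ → p.bb = bb → p.κ ≤ κ → p.η ≤ η →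
          1 ≤ q.A → q.β1 = β1 → q.δ1 = δ1 → ℓ ∈ s.B →
          |((cell φ (s.I ℓ)).card : ℝ) - ((s.I ℓ).card : ℝ)| ≤ ε * (K : ℝ) →
          (∀ u, s.lev u = ℓ → NonTwin c H s q f u) →
          Tot c H p s q φ (univ.filter fun v => s.lev v < ℓ) f ≤ 1 / 2 →
          1 ≤ δ * (((univ.filter fun v => s.lev v = ℓ).card : ℕ) : ℝ) ∧
          |((cell φ (s.I ℓ)).card : ℝ) - (s.dg ℓ : ℝ) *
            (((univ.filter fun v => s.lev v = ℓ).card : ℕ) : ℝ)|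
            ≤ δ * ((cell φ (s.I ℓ)).card : ℝ) ∧
          (∀ u ∈ univ.filter (fun v => s.lev v = ℓ),
            |pr (OkB c H s q φ (univ.filter fun v => s.lev v < ℓ) f u) - gam s ℓ ^ s.dg ℓ|
              ≤ δ * gam s ℓ ^ s.dg ℓ) ∧
          (∑ k, (∑ u ∈ univ.filter (fun v => s.lev v = ℓ),
            pr (fun z => OkB c H s q φ (univ.filter fun v => s.lev v < ℓ) f u z ∧
              k ∈ cols c f (Nb H s.lev u) z)) ^ 2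
            ≤ (1 + δ) * (gam s ℓ ^ s.dg ℓ) ^ 2 * ((cell φ (s.I ℓ)).card : ℝ)) ∧
          (∑ k, ∑ l ∈ univ.erase k, (∑ u ∈ univ.filter (fun v => s.lev v = ℓ),
            pr (fun z => OkB c H s q φ (univ.filter fun v => s.lev v < ℓ) f u z ∧
              k ∈ cols c f (Nb H s.lev u) z ∧ l ∈ cols c f (Nb H s.lev u) z)) ^ 2
            ≤ δ * (gam s ℓ ^ s.dg ℓ) ^ 2 * ((cell φ (s.I ℓ)).card : ℝ)) ∧
          (∀ u ∈ univ.filter (fun v => s.lev v = ℓ), ∑ k,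
            (pr (fun z => OkB c H s q φ (univ.filter fun v => s.lev v < ℓ) f u z ∧
              k ∈ cols c f (Nb H s.lev u) z)) ^ 2 ≤ δ * (gam s ℓ ^ s.dg ℓ) ^ 2)

/-- Embedding a batch. -/
def StBat : Prop :=
  ∀ (Δ : ℕ) (bb γ : ℝ), 1 ≤ Δ → 0 < bb → 0 < γ → ∃ δ1 : ℝ, 0 < δ1 ∧ ∀ β1 : ℝ, 0 < β1 →
    ∃ (κ η ε X : ℝ) (M : ℕ), 0 < κ ∧ 0 < η ∧ 0 < ε ∧ ∀ (a0 : ℕ) (A : ℝ), 1 ≤ A → (M : ℝ) ≤ A →
      ∃ K0 : ℕ, ∀ (n K : ℕ) (c : Sym2 (Fin n) → Fin K), K0 ≤ K → Env c 1 →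
        ∀ (V : Type) [Fintype V] (H : SimpleGraph V) (p : Par) (s : Sch V K) (q : Cst)
          (φ : Fin K → Fin K),
          Good H p s → p.Δ = Δ → p.a0 = a0 → p.bb = bb → p.κ ≤ κ → p.η ≤ η →
          q.A = A → 0 < q.β0 → q.β0 ≤ q.β1 → q.β1 = β1 → q.δ1 = δ1 →
          64 * ((Fintype.card V : ℝ) * ((M : ℝ) + 1)) ^ 2 ≤ (n : ℝ) →
          ∀ ℓ ∈ s.B, |((cell φ (s.I ℓ)).card : ℝ) - ((s.I ℓ).card : ℝ)| ≤ ε * (K : ℝ) →
          ∀ (Q : Finset V) (f : V → Fin n) (P : ℝ),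
            Inv c H s q φ (univ.filter fun v => s.lev v < ℓ) Q f →
            Tot c H p s q φ (univ.filter fun v => s.lev v < ℓ) f ≤ P → 0 < P → P ≤ 1 / 2 →
            ∃ (B' : Finset V) (f' : V → Fin n), (∀ v ∈ B', s.lev v = ℓ) ∧
              Inv c H s q φ ((univ.filter fun v => s.lev v < ℓ) ∪ B') Q f' ∧
              Tot c H p s q φ ((univ.filter fun v => s.lev v < ℓ) ∪ B') f'
                ≤ 2 ^ (a0 + 2 * Δ + 3) * P ∧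
              (((univ.filter fun v => s.lev v = ℓ ∧ v ∉ B').card : ℕ) : ℝ)
                ≤ γ * (((univ.filter fun v => s.lev v = ℓ).card : ℕ) : ℝ) + X

/-- Graphs with a good schedule have rainbow copies. -/
def StMain : Prop :=
  ∀ (Δ : ℕ) (ρ : ℝ), 1 ≤ Δ → 0 < ρ → ρ ≤ 1 → ∃ θ : ℝ, 0 < θ ∧
    ∀ bb : ℝ, 0 < bb → ∃ κ η : ℝ, 0 < κ ∧ 0 < η ∧ ∀ a0 sB : ℕ, ∃ K0 : ℕ, ∀ K : ℕ, K0 ≤ K →
      ∀ m : ℕ, ∃ n0 : ℕ, ∀ n : ℕ, n0 ≤ n → ∀ c : Sym2 (Fin n) → Fin K, Env c (1 / (K : ℝ)) →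
        ∀ (V : Type) [Fintype V] (H : SimpleGraph V) (s : Sch V K), Fintype.card V ≤ m →
          Good H ⟨Δ, a0, sB, ρ, bb, κ, θ, η⟩ s →
          ∃ f : V → Fin n, Function.Injective f ∧
            Set.InjOn (fun e : Sym2 V => c (e.map f)) H.edgeSet

/-- Layers of a degenerate graph. -/
def StLayer : Prop :=
  ∀ (D : ℕ) (θ : ℝ), 0 < θ → ∃ T : ℕ, ∀ κ : ℝ, 0 < κ → ∃ a0 : ℕ,
    ∀ (K : ℕ) (V : Type) [Fintype V] (H : SimpleGraph V) (r : V → ℕ), 0 < K →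
      Function.Injective r → (∀ v, (univ.filter fun u => H.Adj v u ∧ r u < r v).card ≤ D) →
      numEdges H ≤ K →
      ∃ (t : V → ℕ) (b : ℕ → ℕ), (∀ v, t v ≤ T) ∧
        (univ.filter fun v => t v = 0).card ≤ a0 ∧
        (∀ v, 1 ≤ t v → ((univ.filter fun u => H.Adj v u).card : ℝ) ≤ κ * (K : ℝ)) ∧
        (∀ u v, H.Adj u v → t u = t v → t u ≤ 1) ∧
        (∀ v, t v = 1 → (univ.filter fun u => H.Adj v u ∧
          (t u < t v ∨ (t u = t v ∧ r u < r v))).card ≤ 6 * D) ∧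
        (∀ v, 2 ≤ t v → (univ.filter fun u => H.Adj v u ∧ t u < t v).card = b (t v) ∧
          b (t v) ≤ 6 * D) ∧
        (6 * (D : ℝ) * ((univ.filter fun v => t v = 1).card : ℝ) ≤ θ * (K : ℝ))

/-- Existence of good schedules. -/
def StSched : Prop :=
  ∀ (D : ℕ) (δ : ℝ), 0 < δ → ∃ (Δ : ℕ) (ρ : ℝ), 1 ≤ Δ ∧ 0 < ρ ∧ ρ ≤ 1 ∧
    ∀ θ : ℝ, 0 < θ → ∃ (bb : ℝ) (sB : ℕ), 0 < bb ∧ ∀ κ η : ℝ, 0 < κ → 0 < η →
      ∃ (a0 : ℕ) (ηc : ℝ) (K0 : ℕ), 0 < ηc ∧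
        ∀ (K : ℕ) (V : Type) [Fintype V] (H : SimpleGraph V) (r : V → ℕ), K0 ≤ K →
          Function.Injective r → (∀ v, (univ.filter fun u => H.Adj v u ∧ r u < r v).card ≤ D) →
          (1 + δ) * (numEdges H : ℝ) ≤ (K : ℝ) →
          (∀ a b, a ≠ b → ((univ.filter fun u => H.Adj a u ∧ H.Adj b u).card : ℝ)
            ≤ ηc * (K : ℝ)) →
          ∃ s : Sch V K, Good H ⟨Δ, a0, sB, ρ, bb, κ, θ, η⟩ s

/-- Rainbow copies of degenerate graphs with at most `K / (1 + δ)` edges and small codegrees. -/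
def StCore : Prop :=
  ∀ (D : ℕ) (δ : ℝ), 0 < δ → ∃ (η : ℝ) (K0 : ℕ), 0 < η ∧ ∀ K : ℕ, K0 ≤ K → ∀ m : ℕ,
    ∃ n0 : ℕ, ∀ n : ℕ, n0 ≤ n → ∀ c : Sym2 (Fin n) → Fin K, Env c (1 / (K : ℝ)) →
      ∀ (V : Type) [Fintype V] (H : SimpleGraph V) (r : V → ℕ), Fintype.card V ≤ m →
        Function.Injective r → (∀ v, (univ.filter fun u => H.Adj v u ∧ r u < r v).card ≤ D) →
        (1 + δ) * (numEdges H : ℝ) ≤ (K : ℝ) →
        (∀ a b, a ≠ b → ((univ.filter fun u => H.Adj a u ∧ H.Adj b u).card : ℝ)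
          ≤ η * (K : ℝ)) →
        ∃ f : V → Fin n, Function.Injective f ∧
          Set.InjOn (fun e : Sym2 V => c (e.map f)) H.edgeSet

/-- **Theorem A.** -/
def StPos : Prop :=
  ∀ (D : ℕ) (δ : ℝ), 0 < δ → ∃ (η : ℝ) (E0 : ℕ), 0 < η ∧
    ∀ (V : Type) [Fintype V] (G : SimpleGraph V) (W : Finset V),
      TreeLikeOutside G W → DegenerateIn G W D → E0 ≤ numEdges G →
      (1 + δ) * (numEdgesIn G W : ℝ) ≤ (numEdges G : ℝ) →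
      (∀ a ∈ W, ∀ b ∈ W, a ≠ b →
        (({u | u ∈ W ∧ G.Adj a u ∧ G.Adj b u}.ncard : ℕ) : ℝ) ≤ η * (numEdges G : ℝ)) →
      ForcesRainbow G

/-- **Theorem B.** -/
def StNeg : Prop :=
  ∀ (V : Type) [Fintype V] (G : SimpleGraph V) (a b : V), a ≠ b → Odd (numEdges G + 1) →
    (((numEdges G + 1).primeFactors.prod id) - 1) * (numEdges G + 1) <
      2 * ((numEdges G + 1).primeFactors.prod id) * {u | G.Adj a u ∧ G.Adj b u}.ncard →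
    ¬ ForcesRainbow G

/-! ### random graphs -/

/-- the graph given by a sequence of pairs -/
def grOf {v m : ℕ} (ω : Fin m → Fin v × Fin v) : SimpleGraph (Fin v) where
  Adj x y := x ≠ y ∧ ∃ i, s((ω i).1, (ω i).2) = s(x, y)
  symm := by
    refine ⟨?_⟩
    rintro x y ⟨h, i, hi⟩
    exact ⟨h.symm, i, by rw [hi, Sym2.eq_swap]⟩
  loopless := ⟨fun x h => h.1 rfl⟩

/-- Transfer from sequences of pairs to graphs with `m` edges. -/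
def StSeq : Prop :=
  ∀ ε : ℝ, 0 < ε → ∃ (a : ℝ) (v0 : ℕ), 0 < a ∧ ∀ v m : ℕ, v0 ≤ v → ε * (m : ℝ) ≤ (v : ℝ) →
    ∀ P : SimpleGraph (Fin v) → Prop,
      a * (({G : SimpleGraph (Fin v) | numEdges G = m ∧ P G}.ncard : ℕ) : ℝ)
        ≤ pr (fun ω : Fin m → Fin v × Fin v => P (grOf ω)) *
          (({G : SimpleGraph (Fin v) | numEdges G = m}.ncard : ℕ) : ℝ)

/-- Sparse random graphs are degenerate. -/
def StDegR : Prop :=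
  ∀ ε : ℝ, 0 < ε → ∃ D : ℕ, ∀ ε' : ℝ, 0 < ε' → ∃ v0 : ℕ, ∀ v m : ℕ, v0 ≤ v →
    ε * (m : ℝ) ≤ (v : ℝ) →
    pr (fun ω : Fin m → Fin v × Fin v => ¬ DegenerateIn (grOf ω) univ D) ≤ ε'

/-- Sparse random graphs have small degrees. -/
def StMaxR : Prop :=
  ∀ ε η ε' : ℝ, 0 < ε → 0 < η → 0 < ε' → ∃ v0 : ℕ, ∀ v m : ℕ, v0 ≤ v →
    ε * (v : ℝ) ≤ (m : ℝ) → ε * (m : ℝ) ≤ (v : ℝ) →
    pr (fun ω : Fin m → Fin v × Fin v =>
      ∃ a, η * (m : ℝ) < (({u | (grOf ω).Adj a u}.ncard : ℕ) : ℝ)) ≤ ε'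

/-- Sparse random graphs have many isolated edges. -/
def StIsoR : Prop :=
  ∀ ε : ℝ, 0 < ε → ∃ δ : ℝ, 0 < δ ∧ ∀ ε' : ℝ, 0 < ε' → ∃ v0 : ℕ, ∀ v m : ℕ, v0 ≤ v →
    ε * (v : ℝ) ≤ (m : ℝ) → ε * (m : ℝ) ≤ (v : ℝ) →
    pr (fun ω : Fin m → Fin v × Fin v =>
      (((univ.filter fun i : Fin m => (ω i).1 ≠ (ω i).2 ∧ ∀ j, j ≠ i →
        (ω j).1 ≠ (ω i).1 ∧ (ω j).1 ≠ (ω i).2 ∧ (ω j).2 ≠ (ω i).1 ∧ (ω j).2 ≠ (ω i).2).card
          : ℕ) : ℝ) < δ * (m : ℝ)) ≤ ε'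

/-- **Theorem C.** Almost all sparse graphs have the property. -/
def StRnd : Prop :=
  ∀ ε : ℝ, 0 < ε → ∃ v0 : ℕ, ∀ v m : ℕ, v0 ≤ v → ε * (v : ℝ) ≤ (m : ℝ) → ε * (m : ℝ) ≤ (v : ℝ) →
    (({G : SimpleGraph (Fin v) | numEdges G = m ∧ ¬ ForcesRainbow G}.ncard : ℕ) : ℝ)
      ≤ ε * (({G : SimpleGraph (Fin v) | numEdges G = m}.ncard : ℕ) : ℝ)

end Pool.Agent.Lib.MP_b1acb3_co.Dgn
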